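import Pool.Agent.Lib.FewY.Defs

/-!
# FewY.BdNab: everything is bounded  (1 h)

`BdE` is closed under sums, products, derivatives (`bdE_add`, `bdE_mul`, `bdE_sum`, `bdE_prod`, `bdE_pderiv`, `bdE_X`, `bdE_neg`, `bdE_sub`). `bdE_up`: `rename` by an injective map keeps the total degree (`totalDegree_rename_le`) and the
coefficients (`coeff_rename_mapDomain`, `coeff_rename_eq_zero`). So `PiX`, `PiE`, `uX`, `uL`, `uu` (cases `Fin.addCases` twice, `Fin.append_left/right`), `DD`, `qb`, `qq`, `nab`, `VV` are bounded. `bd_q0`: `bdE_eval` for the sequence `qb` at the point `pt z 0 0` (`|.| ≤ Y j`;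
`ez` at an integer point is `eval`: `ez_cast`, or `ez` and `eval` agree by `eval₂`/`ringHom_ext`).
-/

open MvPolynomial Filter Pool.Agent.Lib.FewX

namespace Pool.Agent.Lib.FewY

variable {N n : ℕ} {Y : ℕ → ℕ} (σ : Shape N n) {B : Finset (Fin N)}
  {P : ℕ → Fin N → MvPolynomial (Fin N) ℤ}

namespace BdNabAux

theorem up_inj : Function.Injective
    (fun i : Fin N => (Fin.castAdd N (Fin.castAdd n i) : Fin (N + n + N))) :=
  fun _ _ h => Fin.castAdd_injective N n (Fin.castAdd_injective (N + n) N h)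

theorem bdE_up (n : ℕ) (hY : ∀ j, j + 2 ≤ Y j) {G : ℕ → MvPolynomial (Fin N) ℤ} (h : BdE Y G) :
    BdE Y (fun j => (up (G j) : Ext N n)) := by
  obtain ⟨k, hk⟩ := h
  refine ⟨k, ?_⟩
  filter_upwards [hk] with j hj
  refine ⟨(totalDegree_rename_le _ _).trans hj.1, fun m => ?_⟩
  have h0 : (0 : ℤ) ≤ (Y j : ℤ) ^ k := pow_nonneg (by have := BdAlgAux.one_le hY j; linarith) _
  unfold up
  by_cases hm : ∃ u : Fin N →₀ ℕ,
      u.mapDomain (fun i : Fin N => (Fin.castAdd N (Fin.castAdd n i) : Fin (N + n + N))) = m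
  · obtain ⟨u, rfl⟩ := hm
    rw [coeff_rename_mapDomain _ up_inj]
    exact hj.2 u
  · rw [coeff_rename_eq_zero _ _ _ fun u hu => absurd ⟨u, hu⟩ hm, abs_zero]
    exact h0

theorem bdE_zero (M : ℕ) (hY : ∀ j, j + 2 ≤ Y j) :
    BdE Y (fun _ => (0 : MvPolynomial (Fin M) ℤ)) := by
  simpa using bdE_const (N := M) hY (fun _ => 0) 0 (Eventually.of_forall fun j => by simp)

theorem bdE_one (M : ℕ) (hY : ∀ j, j + 2 ≤ Y j) :
    BdE Y (fun _ => (1 : MvPolynomial (Fin M) ℤ)) := by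
  simpa using bdE_const (N := M) hY (fun _ => 1) 0 (Eventually.of_forall fun j => by simp)

theorem bdE_PiX (hY : ∀ j, j + 2 ≤ Y j) : BdE Y (fun _ => PiX σ) := by
  unfold PiX
  exact bdE_prod hY Finset.univ (fun s _ => vX (σ.bs s)) fun s _ => bdE_X hY _

theorem bdE_PiE (hY : ∀ j, j + 2 ≤ Y j) (s : Fin n) : BdE Y (fun _ => PiE σ s) := by
  unfold PiE
  exact bdE_prod hY (Finset.univ.erase s) (fun s' _ => vX (σ.bs s')) fun s' _ => bdE_X hY _

theorem bdE_sv (hY : ∀ j, j + 2 ≤ Y j) (hP : ∀ i, i ∉ B → BdE Y (fun j => P j i)) (i : Fin N) :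
    BdE Y (fun j => ∑ b ∈ B, (vT b : Ext N n) * up (vf B (P j) b i)) :=
  bdE_sum hY B (fun b j => (vT b : Ext N n) * up (vf B (P j) b i)) fun b _ =>
    bdE_mul hY (bdE_X hY _) (bdE_up n hY (bdE_vf hY hP b i))

theorem bdE_uu (hY : ∀ j, j + 2 ≤ Y j) (hP : ∀ i, i ∉ B → BdE Y (fun j => P j i))
    (v : Fin (N + n + N)) : BdE Y (fun j => uu σ B (P j) v) := by
  unfold uu pt
  refine Fin.addCases (fun w => ?_) (fun b => ?_) v
  · simp only [Fin.append_left]
    refine Fin.addCases (fun i => ?_) (fun s => ?_) w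
    · simp only [Fin.append_left]
      exact bdE_mul hY (bdE_PiX σ hY) (bdE_sv hY hP i)
    · simp only [Fin.append_right]
      exact bdE_mul hY (bdE_PiE σ hY s) (bdE_sv hY hP (σ.bs s))
  · simp only [Fin.append_right]
    exact bdE_zero _ hY

theorem bdE_DD (hY : ∀ j, j + 2 ≤ Y j) (hP : ∀ i, i ∉ B → BdE Y (fun j => P j i))
    {F : ℕ → Ext N n} (hF : BdE Y F) : BdE Y (fun j => DD σ B (P j) (F j)) := by
  unfold DD
  exact bdE_sum hY Finset.univ (fun v j => uu σ B (P j) v * pderiv v (F j)) fun v _ =>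
    bdE_mul hY (bdE_uu σ hY hP v) (bdE_pderiv hY v hF)

theorem bdE_qb (hY : ∀ j, j + 2 ≤ Y j) (hP : ∀ i, i ∉ B → BdE Y (fun j => P j i))
    (r : Fin 3) (b : Fin N) : BdE Y (fun j => qb σ B (P j) r b) := by
  unfold qb
  refine bdE_sum hY _ (fun s j => vX (σ.es s) * PiE σ s * up (vf B (P j) b (σ.bs s)) +
    vL s * PiX σ * up (vf B (P j) b (σ.es s))) fun s _ => bdE_add hY ?_ ?_
  · exact bdE_mul hY (bdE_mul hY (bdE_X hY _) (bdE_PiE σ hY s)) (bdE_up n hY (bdE_vf hY hP b _))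
  · exact bdE_mul hY (bdE_mul hY (bdE_X hY _) (bdE_PiX σ hY)) (bdE_up n hY (bdE_vf hY hP b _))

theorem bdE_qq (hY : ∀ j, j + 2 ≤ Y j) (hP : ∀ i, i ∉ B → BdE Y (fun j => P j i))
    (r : Fin 3) : BdE Y (fun j => qq σ B (P j) r) := by
  unfold qq
  exact bdE_sum hY B (fun b j => vT b * qb σ B (P j) r b) fun b _ =>
    bdE_mul hY (bdE_X hY _) (bdE_qb σ hY hP r b)

theorem bdE_VV (hY : ∀ j, j + 2 ≤ Y j) (hP : ∀ i, i ∉ B → BdE Y (fun j => P j i))
    (o : Option (Fin N)) (r : Fin 3) : BdE Y (fun j => VV σ B (P j) o r) := by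
  cases o with
  | none =>
    fin_cases r
    · exact bdE_one _ hY
    · exact bdE_one _ hY
    · exact bdE_neg (bdE_one _ hY)
  | some b =>
    fin_cases r
    · exact bdE_zero _ hY
    · exact bdE_zero _ hY
    · exact bdE_sub hY (bdE_qb σ hY hP 0 b) (bdE_qb σ hY hP 2 b)

end BdNabAux

open BdNabAux

theorem bdE_nab (hY : ∀ j, j + 2 ≤ Y j) (hP : ∀ i, i ∉ B → BdE Y (fun j => P j i))
    (o : Option (Fin N)) (i : ℕ) (r : Fin 3) :
    BdE Y (fun j => ((nab σ B (P j))^[i] (VV σ B (P j) o)) r) := by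
  induction i generalizing r with
  | zero => exact bdE_VV σ hY hP o r
  | succ i ih =>
    simp only [Function.iterate_succ_apply']
    exact bdE_add hY (bdE_DD σ hY hP (ih r)) (bdE_mul hY (bdE_qq σ hY hP r) (ih r))

theorem bd_q0 (hY : ∀ j, j + 2 ≤ Y j) (hP : ∀ i, i ∉ B → BdE Y (fun j => P j i)) :
    ∃ k : ℕ, ∀ᶠ j in UU, ∀ z : Fin N → ℤ, (∀ i, |z i| ≤ Y j) →
      ∀ r b, |q0 σ B (P j) z r b| ≤ (Y j : ℤ) ^ k := by
  choose k hk using fun rb : Fin 3 × Fin N => bdE_eval hY (bdE_qb σ hY hP rb.1 rb.2)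
  refine ⟨Finset.univ.sup k, ?_⟩
  have h1 : ∀ᶠ j in UU, ∀ rb : Fin 3 × Fin N, ∀ z : Fin (N + n + N) → ℤ, (∀ i, |z i| ≤ Y j) →
      |eval z (qb σ B (P j) rb.1 rb.2)| ≤ (Y j : ℤ) ^ k rb :=
    eventually_all.2 hk
  filter_upwards [h1] with j hj z hz r b
  have hY1 := BdAlgAux.one_le hY j
  have h2 := hj (r, b) (pt z (fun _ => 0) (fun _ => 0)) fun i => by
    unfold pt
    refine Fin.addCases (fun w => ?_) (fun b => ?_) i
    · rw [Fin.append_left]
      refine Fin.addCases (fun i => ?_) (fun s => ?_) w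
      · rw [Fin.append_left]
        exact hz i
      · rw [Fin.append_right, abs_zero]
        linarith
    · rw [Fin.append_right, abs_zero]
      linarith
  have h3 : q0 σ B (P j) z r b = eval (pt z (fun _ => 0) (fun _ => 0)) (qb σ B (P j) r b) := by
    unfold q0
    have h4 := Pool.Agent.Lib.FewX.PathAux.ez_cast (A := ℤ) (pt z (fun _ => 0) (fun _ => 0)) (qb σ B (P j) r b)
    simpa using h4
  rw [h3]
  exact h2.trans (pow_le_pow_right₀ hY1 (Finset.le_sup (f := k) (Finset.mem_univ (r, b))))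

end Pool.Agent.Lib.FewY
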