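import Pool.Agent.Lib.FewY.UPath

/-!
# FewY.ChainX: the derivative of `F_V` along the path is `F_(nab V)`  (1.2 h)

`chain_ez` with `w = ptS φ Λ` and `d = PowerSeries.derivative`: `d (ez w V_r) = ∑ v, ez w (pderiv v V_r) * d (w v)`. Claim: `ez w (G0) * d (w v) = ez w (uu v)` for every `v : Fin (N + n + N)` (cases by `Fin.addCases` twice, `pt`, `Fin.append_left`, `Fin.append_right`):
`v = X_i`: `ez w G0 = ez φ (Jac B P) * ∏ s, φ (bs s)` (`ez w (up Q) = ez φ Q`: `up` is `rename`; `ez w (vX i) = φ i`, `ez w (vL s) = Λ s`, `ez w (vT b) = C (tv b)`), and `ode`; `v = L_s`: `∏ s', φ (bs s') = φ (bs s) * ∏ s' ∈ erase s, φ (bs s')`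
(`Finset.mul_prod_erase`), `Λode`, `ode`; `v = t_b`: `d (C _) = 0` and `uu = 0`. So `ez w G0 * d (ez w V_r) = ez w (DD V_r)`. And `ez w G0 * d (y r) = ez w (qq r) * y r`: `yode`, `d (wr r) = ∑ s, (d (φ (es s)) * Λ s + φ (es s) * d (Λ s))`, the two
claims above, exchange of the sums over `b` and `s`.
-/

open MvPolynomial Pool.Agent.Lib.FewX Pool.Agent.Lib.FewX.PathAux

namespace Pool.Agent.Lib.FewY

theorem ez_vX {N n : ℕ} {A : Type*} [CommRing A] (φ : Fin N → A) (Λ : Fin n → A) (τ : Fin N → A)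
    (i : Fin N) : ez (pt φ Λ τ) (vX i) = φ i := by
  unfold vX pt
  rw [ez_X, Fin.append_left, Fin.append_left]

theorem ez_vL {N n : ℕ} {A : Type*} [CommRing A] (φ : Fin N → A) (Λ : Fin n → A) (τ : Fin N → A)
    (s : Fin n) : ez (pt φ Λ τ) (vL s) = Λ s := by
  unfold vL pt
  rw [ez_X, Fin.append_left, Fin.append_right]

theorem ez_vT {N n : ℕ} {A : Type*} [CommRing A] (φ : Fin N → A) (Λ : Fin n → A) (τ : Fin N → A)
    (b : Fin N) : ez (pt φ Λ τ) (vT b) = τ b := by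
  unfold vT pt
  rw [ez_X, Fin.append_right]

theorem ez_up {N n : ℕ} {A : Type*} [CommRing A] (φ : Fin N → A) (Λ : Fin n → A) (τ : Fin N → A)
    (Q : MvPolynomial (Fin N) ℤ) : ez (pt φ Λ τ) (up Q) = ez φ Q := by
  have h : (ez (pt φ Λ τ)).comp (up : MvPolynomial (Fin N) ℤ →ₐ[ℤ] Ext N n).toRingHom = ez φ := by
    apply MvPolynomial.ringHom_ext
    · intro c
      simp
    · intro i
      have : (up (X i) : Ext N n) = vX i := by
        unfold up vX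
        rw [rename_X]
      show ez (pt φ Λ τ) (up (X i) : Ext N n) = ez φ (X i)
      rw [this, ez_vX, ez_X]
  rw [← h]
  rfl

namespace ChainXAux

theorem ez_PiX {N n : ℕ} {A : Type*} [CommRing A] (σ : Shape N n) (φ : Fin N → A) (Λ : Fin n → A)
    (τ : Fin N → A) : ez (pt φ Λ τ) (PiX σ) = ∏ s, φ (σ.bs s) := by
  unfold PiX
  rw [map_prod]
  exact Finset.prod_congr rfl (fun s _ => ez_vX φ Λ τ _)

theorem ez_PiE {N n : ℕ} {A : Type*} [CommRing A] (σ : Shape N n) (φ : Fin N → A) (Λ : Fin n → A)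
    (τ : Fin N → A) (s : Fin n) :
    ez (pt φ Λ τ) (PiE σ s) = ∏ s' ∈ Finset.univ.erase s, φ (σ.bs s') := by
  unfold PiE
  rw [map_prod]
  exact Finset.prod_congr rfl (fun s _ => ez_vX φ Λ τ _)

end ChainXAux

open ChainXAux

/-- `qb` does not contain the directions -/
theorem ez_qb {N n : ℕ} {A : Type*} [CommRing A] (σ : Shape N n) (B : Finset (Fin N))
    (P : Fin N → MvPolynomial (Fin N) ℤ) (φ : Fin N → A) (Λ : Fin n → A) (τ : Fin N → A)
    (r : Fin 3) (b : Fin N) : ez (pt φ Λ τ) (qb σ B P r b) =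
      ∑ s ∈ Finset.univ.filter (fun s => σ.mem s = r),
        (φ (σ.es s) * (∏ s' ∈ Finset.univ.erase s, φ (σ.bs s')) * ez φ (vf B P b (σ.bs s)) +
          Λ s * (∏ s', φ (σ.bs s')) * ez φ (vf B P b (σ.es s))) := by
  unfold qb
  rw [map_sum]
  refine Finset.sum_congr rfl (fun s _ => ?_)
  rw [map_add, map_mul, map_mul, map_mul, map_mul, ez_vX, ez_vL, ez_PiE, ez_PiX, ez_up, ez_up]

theorem ez_G0 {N n : ℕ} {A : Type*} [CommRing A] (σ : Shape N n) (B : Finset (Fin N))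
    (P : Fin N → MvPolynomial (Fin N) ℤ) (φ : Fin N → A) (Λ : Fin n → A) (τ : Fin N → A) :
    ez (pt φ Λ τ) (G0 σ B P) = ez φ (Jac B P) * ∏ s, φ (σ.bs s) := by
  unfold G0
  rw [map_mul, ez_up, ez_PiX]

namespace ChainXAux

section ser

variable {N n : ℕ} {ℓ : ℕ} [Fact ℓ.Prime] {B : Finset (Fin N)} {σ : Shape N n}
    {P : Fin N → MvPolynomial (Fin N) ℤ} {α : Fin 3 → ℤ} {z0 : Fin N → ℤ} {ξ : Fin n → ℤ_[ℓ]}
    {φ : Fin N → PowerSeries (SS ℓ B)} {Λ : Fin n → PowerSeries (SS ℓ B)}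
    {y : Fin 3 → PowerSeries (SS ℓ B)}

theorem ez_uX (i : Fin N) : ez (ptS ℓ φ Λ) (uX σ B P i) =
    (∏ s, φ (σ.bs s)) * ∑ b ∈ B, PowerSeries.C (tv ℓ B b) * ez φ (vf B P b i) := by
  unfold uX ptS
  rw [map_mul, ez_PiX, map_sum]
  congr 1
  refine Finset.sum_congr rfl (fun b _ => ?_)
  rw [map_mul, ez_vT, ez_up]

theorem ez_uL (s : Fin n) : ez (ptS ℓ φ Λ) (uL σ B P s) =
    (∏ s' ∈ Finset.univ.erase s, φ (σ.bs s')) *
      ∑ b ∈ B, PowerSeries.C (tv ℓ B b) * ez φ (vf B P b (σ.bs s)) := by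
  unfold uL ptS
  rw [map_mul, ez_PiE, map_sum]
  congr 1
  refine Finset.sum_congr rfl (fun b _ => ?_)
  rw [map_mul, ez_vT, ez_up]

theorem hX (S : Ser ℓ B σ P α z0 ξ φ Λ y) (i : Fin N) :
    ez (ptS ℓ φ Λ) (G0 σ B P) * PowerSeries.derivative (SS ℓ B) (φ i) = ez (ptS ℓ φ Λ) (uX σ B P i) := by
  rw [ez_uX, ← S.ode i]
  unfold ptS
  rw [ez_G0]
  ring

theorem hL (S : Ser ℓ B σ P α z0 ξ φ Λ y) (s : Fin n) :
    ez (ptS ℓ φ Λ) (G0 σ B P) * PowerSeries.derivative (SS ℓ B) (Λ s) = ez (ptS ℓ φ Λ) (uL σ B P s) := by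
  rw [ez_uL, ← S.ode (σ.bs s), ← S.Λode s]
  unfold ptS
  rw [ez_G0, ← Finset.mul_prod_erase Finset.univ (fun s' => φ (σ.bs s')) (Finset.mem_univ s)]
  ring

theorem hv (S : Ser ℓ B σ P α z0 ξ φ Λ y) (v : Fin (N + n + N)) :
    ez (ptS ℓ φ Λ) (G0 σ B P) * PowerSeries.derivative (SS ℓ B) (ptS ℓ φ Λ v) =
      ez (ptS ℓ φ Λ) (uu σ B P v) := by
  refine Fin.addCases (fun v' => ?_) (fun b => ?_) v
  · refine Fin.addCases (fun i => ?_) (fun s => ?_) v'
    · have h1 : ptS ℓ φ Λ (Fin.castAdd N (Fin.castAdd n i)) = φ i := by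
        unfold ptS pt
        rw [Fin.append_left, Fin.append_left]
      have h2 : uu σ B P (Fin.castAdd N (Fin.castAdd n i)) = uX σ B P i := by
        unfold uu pt
        rw [Fin.append_left, Fin.append_left]
      rw [h1, h2]
      exact hX S i
    · have h1 : ptS ℓ φ Λ (Fin.castAdd N (Fin.natAdd N s)) = Λ s := by
        unfold ptS pt
        rw [Fin.append_left, Fin.append_right]
      have h2 : uu σ B P (Fin.castAdd N (Fin.natAdd N s)) = uL σ B P s := by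
        unfold uu pt
        rw [Fin.append_left, Fin.append_right]
      rw [h1, h2]
      exact hL S s
  · have h1 : ptS ℓ φ Λ (Fin.natAdd (N + n) b) = PowerSeries.C (tv ℓ B b) := by
      unfold ptS pt
      rw [Fin.append_right]
    have h2 : uu σ B P (Fin.natAdd (N + n) b) = 0 := by
      unfold uu pt
      rw [Fin.append_right]
    rw [h1, h2, map_zero]
    have h3 : PowerSeries.derivative (SS ℓ B) (PowerSeries.C (tv ℓ B b)) = 0 :=
      PowerSeries.derivative_C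
    rw [h3, mul_zero]

theorem hD (S : Ser ℓ B σ P α z0 ξ φ Λ y) (F : Ext N n) :
    ez (ptS ℓ φ Λ) (G0 σ B P) * PowerSeries.derivative (SS ℓ B) (ez (ptS ℓ φ Λ) F) =
      ez (ptS ℓ φ Λ) (DD σ B P F) := by
  rw [chain_ez (PowerSeries.derivative (SS ℓ B)) (ptS ℓ φ Λ) F, Finset.mul_sum]
  unfold DD
  rw [map_sum]
  refine Finset.sum_congr rfl (fun v _ => ?_)
  rw [map_mul, ← hv S v]
  ring

end ser

end ChainXAux

/-- the logarithmic derivative of the member `r` -/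
theorem chain_y {N n : ℕ} {ℓ : ℕ} [Fact ℓ.Prime] {B : Finset (Fin N)} {σ : Shape N n}
    {P : Fin N → MvPolynomial (Fin N) ℤ} {α : Fin 3 → ℤ} {z0 : Fin N → ℤ} {ξ : Fin n → ℤ_[ℓ]}
    {φ : Fin N → PowerSeries (SS ℓ B)} {Λ : Fin n → PowerSeries (SS ℓ B)}
    {y : Fin 3 → PowerSeries (SS ℓ B)} (S : Ser ℓ B σ P α z0 ξ φ Λ y) (r : Fin 3) :
    ez (ptS ℓ φ Λ) (G0 σ B P) * PowerSeries.derivative (SS ℓ B) (y r) =
      ez (ptS ℓ φ Λ) (qq σ B P r) * y r := by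
  rw [S.yode r]
  have h1 : ez (ptS ℓ φ Λ) (G0 σ B P) * PowerSeries.derivative (SS ℓ B) (wr ℓ σ φ Λ r) =
      ez (ptS ℓ φ Λ) (qq σ B P r) := by
    unfold wr
    rw [map_sum, Finset.mul_sum]
    have h2 : ∀ s ∈ Finset.univ.filter (fun s => σ.mem s = r),
        ez (ptS ℓ φ Λ) (G0 σ B P) * PowerSeries.derivative (SS ℓ B) (φ (σ.es s) * Λ s) =
        ∑ b ∈ B, PowerSeries.C (tv ℓ B b) *
          (φ (σ.es s) * (∏ s' ∈ Finset.univ.erase s, φ (σ.bs s')) * ez φ (vf B P b (σ.bs s)) +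
          Λ s * (∏ s', φ (σ.bs s')) * ez φ (vf B P b (σ.es s))) := by
      intro s _
      rw [Derivation.leibniz, smul_eq_mul, smul_eq_mul]
      have e1 : ez (ptS ℓ φ Λ) (G0 σ B P) * (φ (σ.es s) * PowerSeries.derivative (SS ℓ B) (Λ s) +
          Λ s * PowerSeries.derivative (SS ℓ B) (φ (σ.es s))) =
          φ (σ.es s) * (ez (ptS ℓ φ Λ) (G0 σ B P) * PowerSeries.derivative (SS ℓ B) (Λ s)) +
          Λ s * (ez (ptS ℓ φ Λ) (G0 σ B P) * PowerSeries.derivative (SS ℓ B) (φ (σ.es s))) := by ring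
      rw [e1, hL S s, hX S (σ.es s), ez_uL, ez_uX, Finset.mul_sum, Finset.mul_sum, Finset.mul_sum, Finset.mul_sum,
        ← Finset.sum_add_distrib]
      refine Finset.sum_congr rfl (fun b _ => ?_)
      ring
    rw [Finset.sum_congr rfl h2, Finset.sum_comm]
    unfold qq
    rw [map_sum]
    refine Finset.sum_congr rfl (fun b _ => ?_)
    rw [map_mul]
    unfold ptS
    rw [ez_vT, ez_qb, Finset.mul_sum]
  rw [← h1]
  ring

theorem chain_FV {N n : ℕ} {ℓ : ℕ} [Fact ℓ.Prime] {B : Finset (Fin N)} {σ : Shape N n}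
    {P : Fin N → MvPolynomial (Fin N) ℤ} {α : Fin 3 → ℤ} {z0 : Fin N → ℤ} {ξ : Fin n → ℤ_[ℓ]}
    {φ : Fin N → PowerSeries (SS ℓ B)} {Λ : Fin n → PowerSeries (SS ℓ B)}
    {y : Fin 3 → PowerSeries (SS ℓ B)} (S : Ser ℓ B σ P α z0 ξ φ Λ y) (V : Fin 3 → Ext N n) :
    ez (ptS ℓ φ Λ) (G0 σ B P) * PowerSeries.derivative (SS ℓ B) (FV ℓ φ Λ y V) =
      FV ℓ φ Λ y (nab σ B P V) := by
  unfold FV
  rw [map_sum, Finset.mul_sum]
  refine Finset.sum_congr rfl (fun r _ => ?_)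
  rw [Derivation.leibniz, smul_eq_mul, smul_eq_mul]
  unfold nab
  rw [map_add, map_mul, ← hD S (V r)]
  have h1 := chain_y S r
  calc _ = ez (ptS ℓ φ Λ) (V r) * (ez (ptS ℓ φ Λ) (G0 σ B P) * PowerSeries.derivative (SS ℓ B) (y r)) +
      (ez (ptS ℓ φ Λ) (G0 σ B P) * PowerSeries.derivative (SS ℓ B) (ez (ptS ℓ φ Λ) (V r))) * y r := by ring
    _ = _ := by
      rw [h1]
      ring

end Pool.Agent.Lib.FewY
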