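import Pool.Agent.Lib.FewX.DMU

/-!
# FewY.ClassCh: a large class modulo `ℓ^2 (ℓ - 1)`

The proof of `FewX.class_choice` with the modulus `ℓ ^ 2 * (ℓ - 1) ≤ ℓ ^ 3`.
-/

open MvPolynomial Filter Pool.Agent.Lib.FewX

namespace Pool.Agent.Lib.FewY

theorem class_choice2 {N : ℕ} {Y : ℕ → ℕ} (hY : ∀ j, j + 2 ≤ Y j) {Z' : ℕ → Finset (Fin N → ℤ)}
    (h : Large Y Z') (Δ : ℕ → (Fin N → ℤ) → ℤ) (h0 : ∀ᶠ j in UU, ∀ z ∈ Z' j, Δ j z ≠ 0)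
    (hs : ∀ ε : ℝ, 0 < ε → ∀ᶠ j in UU, ∀ z ∈ Z' j,
      ((|Δ j z| : ℤ) : ℝ) ≤ Real.exp ((Y j : ℝ) ^ ε)) (k : ℕ) :
    ∃ (κ : ℕ) (ℓ : ℕ → ℕ) (C : ℕ → Finset (Fin N → ℤ)), 1 ≤ κ ∧ (∀ j, C j ⊆ Z' j) ∧ Large Y C ∧
      (∀ M : ℕ, ∀ᶠ j in UU, M ≤ ℓ j) ∧
      ∀ᶠ j in UU, (ℓ j).Prime ∧ Y j ^ k ≤ ℓ j ^ κ ∧
        (∀ z ∈ C j, ∀ z' ∈ C j, ∀ i, ((ℓ j ^ 2 * (ℓ j - 1) : ℕ) : ℤ) ∣ z i - z' i) ∧
        ∀ z ∈ C j, ¬ (ℓ j : ℤ) ∣ Δ j z := by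
  classical
  obtain ⟨η, hη, hcard⟩ := h
  obtain ⟨c, hc⟩ : ∃ c : ℝ, c = η / (32 * (N + 1)) := ⟨_, rfl⟩
  have hN0 : (0 : ℝ) < 32 * ((N : ℝ) + 1) := by positivity
  have hc0 : 0 < c := by rw [hc]; positivity
  have hcN : 9 * (N : ℝ) * c ≤ 3 * η / 8 := by
    have h1 : c * (32 * ((N : ℝ) + 1)) = η := by rw [hc]; field_simp
    nlinarith
  obtain ⟨L0, hL0⟩ := prime_choice
  obtain ⟨L, hLdef⟩ : ∃ L : ℕ → ℕ, ∀ j, L j = ⌈(Y j : ℝ) ^ c⌉₊ := ⟨_, fun _ => rfl⟩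
  have hY1 : ∀ j, (1 : ℝ) ≤ Y j := fun j => by
    have := hY j
    exact_mod_cast (by omega : 1 ≤ Y j)
  have hLge : ∀ j, (Y j : ℝ) ^ c ≤ L j := fun j => by rw [hLdef]; exact Nat.le_ceil _
  have hLle : ∀ j, (L j : ℝ) ≤ 2 * (Y j : ℝ) ^ c := fun j => by
    rw [hLdef]
    have h1 := (Nat.ceil_lt_add_one (Real.rpow_nonneg (by linarith [hY1 j]) c :
      (0 : ℝ) ≤ (Y j : ℝ) ^ c)).le
    have h2 : (1 : ℝ) ≤ (Y j : ℝ) ^ c := Real.one_le_rpow (hY1 j) hc0.le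
    linarith
  have hpt : ∀ j, ∃ p : ℕ × Finset (Fin N → ℤ), p.2 ⊆ Z' j ∧
      ((L0 ≤ L j ∧ ∀ z ∈ Z' j, Δ j z ≠ 0 ∧ ((|Δ j z| : ℤ) : ℝ) ≤ Real.exp (L j)) →
        (p.1.Prime ∧ L j < p.1 ∧ p.1 ≤ (L j) ^ 3 ∧
          (∀ z ∈ p.2, ∀ z' ∈ p.2, ∀ i, ((p.1 ^ 2 * (p.1 - 1) : ℕ) : ℤ) ∣ z i - z' i) ∧
          (∀ z ∈ p.2, ¬ (p.1 : ℤ) ∣ Δ j z) ∧
          (Z' j).card ≤ 2 * ((p.1 ^ 3) ^ N * p.2.card))) := by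
    intro j
    by_cases hg : L0 ≤ L j ∧ ∀ z ∈ Z' j, Δ j z ≠ 0 ∧ ((|Δ j z| : ℤ) : ℝ) ≤ Real.exp (L j)
    · obtain ⟨ℓ, h1, h2, h3, h4⟩ := hL0 (L j) hg.1 (Fin N → ℤ) (Z' j) (Δ j) hg.2
      have hℓ2 := h1.two_le
      obtain ⟨C, hCZ, h5, h6⟩ := exists_class ((Z' j).filter fun z => ¬ (ℓ : ℤ) ∣ Δ j z)
        (ℓ ^ 2 * (ℓ - 1)) (Nat.mul_pos (pow_pos h1.pos 2) (by omega))
      refine ⟨(ℓ, C), hCZ.trans (Finset.filter_subset _ _), fun _ => ⟨h1, h2, h3, h5, ?_, ?_⟩⟩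
      · intro z hz
        exact (Finset.mem_filter.1 (hCZ hz)).2
      · refine h4.trans (Nat.mul_le_mul_left 2 (h6.trans (Nat.mul_le_mul_right _ ?_)))
        refine Nat.pow_le_pow_left ?_ N
        calc ℓ ^ 2 * (ℓ - 1) ≤ ℓ ^ 2 * ℓ := Nat.mul_le_mul_left _ (by omega)
          _ = ℓ ^ 3 := by ring
    · exact ⟨(2, ∅), Finset.empty_subset _, fun h => absurd h hg⟩
  choose p hp1 hp2 using hpt
  have hgood : ∀ᶠ j in UU, L0 ≤ L j ∧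
      ∀ z ∈ Z' j, Δ j z ≠ 0 ∧ ((|Δ j z| : ℤ) : ℝ) ≤ Real.exp (L j) := by
    filter_upwards [ev_rpow hY hc0 (L0 : ℝ), h0, hs c hc0] with j h1 h2 h3
    refine ⟨?_, fun z hz => ⟨h2 z hz, (h3 z hz).trans (Real.exp_le_exp.2 (hLge j))⟩⟩
    have h4 := h1.trans (hLge j)
    exact_mod_cast h4
  refine ⟨⌈(k : ℝ) / c⌉₊ + 1, fun j => (p j).1, fun j => (p j).2, by omega, hp1, ?_, ?_, ?_⟩
  · refine large_div hY (η := η) (η' := η / 2) (by linarith) hcard ?_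
    filter_upwards [hgood, ev_rpow hY (show 0 < η / 8 by positivity) (2 * 512 ^ N : ℝ)] with j hg hj
    obtain ⟨h1, h2, h3, h4, h5, h6⟩ := hp2 j hg
    have hYj := hY1 j
    have hY0 : (0 : ℝ) < Y j := by linarith
    have h7 : ((Z' j).card : ℝ) ≤ 2 * ((((p j).1 : ℝ) ^ 3) ^ N * (p j).2.card) := by
      exact_mod_cast h6
    have h8 : ((p j).1 : ℝ) ≤ 8 * ((Y j : ℝ) ^ c) ^ 3 := by
      have h9 : ((p j).1 : ℝ) ≤ (L j : ℝ) ^ 3 := by exact_mod_cast h3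
      refine h9.trans ?_
      calc (L j : ℝ) ^ 3 ≤ (2 * (Y j : ℝ) ^ c) ^ 3 := by
            gcongr
            exact hLle j
        _ = 8 * ((Y j : ℝ) ^ c) ^ 3 := by ring
    have h10 : (((p j).1 : ℝ) ^ 3) ^ N ≤ 512 ^ N * (Y j : ℝ) ^ (9 * (N : ℝ) * c) := by
      calc (((p j).1 : ℝ) ^ 3) ^ N ≤ ((8 * ((Y j : ℝ) ^ c) ^ 3) ^ 3) ^ N := by gcongr
        _ = (512 * ((Y j : ℝ) ^ c) ^ 9) ^ N := by
          congr 1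
          ring
        _ = 512 ^ N * (Y j : ℝ) ^ (9 * (N : ℝ) * c) := by
          rw [mul_pow, ← Real.rpow_natCast ((Y j : ℝ) ^ c) 9, ← Real.rpow_mul hY0.le,
            ← Real.rpow_natCast ((Y j : ℝ) ^ (c * ((9 : ℕ) : ℝ))) N, ← Real.rpow_mul hY0.le]
          congr 2
          push_cast
          ring
    have h11 : (Y j : ℝ) ^ (9 * (N : ℝ) * c) ≤ (Y j : ℝ) ^ (3 * η / 8) :=
      Real.rpow_le_rpow_of_exponent_le hYj hcN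
    have h12 : (Y j : ℝ) ^ (η / 8) * (Y j : ℝ) ^ (3 * η / 8) = (Y j : ℝ) ^ (η / 2) := by
      rw [← Real.rpow_add hY0]
      congr 1
      ring
    have h13 : (0 : ℝ) ≤ (p j).2.card := by positivity
    calc ((Z' j).card : ℝ) ≤ 2 * ((((p j).1 : ℝ) ^ 3) ^ N * (p j).2.card) := h7
      _ ≤ 2 * ((512 ^ N * (Y j : ℝ) ^ (9 * (N : ℝ) * c)) * (p j).2.card) := by gcongr
      _ = (2 * 512 ^ N) * (Y j : ℝ) ^ (9 * (N : ℝ) * c) * (p j).2.card := by ring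
      _ ≤ (Y j : ℝ) ^ (η / 8) * (Y j : ℝ) ^ (3 * η / 8) * (p j).2.card := by gcongr
      _ = (Y j : ℝ) ^ (η / 2) * (p j).2.card := by rw [h12]
  · intro M
    filter_upwards [hgood, ev_rpow hY hc0 (M : ℝ)] with j hg hM
    obtain ⟨h1, h2, -⟩ := hp2 j hg
    have h3 : (M : ℝ) ≤ L j := hM.trans (hLge j)
    have h4 : M ≤ L j := by exact_mod_cast h3
    omega
  · filter_upwards [hgood] with j hg
    obtain ⟨h1, h2, h3, h4, h5, h6⟩ := hp2 j hg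
    refine ⟨h1, ?_, h4, h5⟩
    have hYj := hY1 j
    have hY0 : (0 : ℝ) < Y j := by linarith
    have h7 : (Y j : ℝ) ^ c ≤ ((p j).1 : ℝ) := (hLge j).trans (by exact_mod_cast h2.le)
    have h8 : (k : ℝ) ≤ c * ((⌈(k : ℝ) / c⌉₊ + 1 : ℕ) : ℝ) := by
      have h9 : (k : ℝ) / c ≤ ⌈(k : ℝ) / c⌉₊ := Nat.le_ceil _
      push_cast
      rw [div_le_iff₀ hc0] at h9
      nlinarith
    have h10 : ((Y j : ℝ)) ^ k ≤ ((p j).1 : ℝ) ^ (⌈(k : ℝ) / c⌉₊ + 1) := by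
      calc ((Y j : ℝ)) ^ k = (Y j : ℝ) ^ (k : ℝ) := (Real.rpow_natCast _ _).symm
        _ ≤ (Y j : ℝ) ^ (c * ((⌈(k : ℝ) / c⌉₊ + 1 : ℕ) : ℝ)) :=
          Real.rpow_le_rpow_of_exponent_le hYj h8
        _ = ((Y j : ℝ) ^ c) ^ (⌈(k : ℝ) / c⌉₊ + 1) := by
          rw [Real.rpow_mul hY0.le, Real.rpow_natCast]
        _ ≤ _ := by gcongr
    exact_mod_cast h10

end Pool.Agent.Lib.FewY
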