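import Mathlib

/-!
# FewY.StdMon: standard monomials

A polynomial relation `ρ` modulo `l ^ D` whose coefficients of degree `> ν` are divisible by `l`, and with a
unit coefficient, makes all the monomials combinations of at most `ν D ^ (m - 1)` monomials, modulo `l ^ D`, on
points with coordinates divisible by `l`.
-/

open MvPolynomial

namespace Pool.Agent.Lib.FewY

namespace StdMonAux

variable {σ R ι : Type} [Fintype σ] [CommRing R]

/-- the function of a monomial -/
def mf (t : ι → σ → R) (γ : σ →₀ ℕ) : ι → R := fun i => ∏ s, t i s ^ γ s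

theorem mf_add (t : ι → σ → R) (γ δ : σ →₀ ℕ) : mf t (γ + δ) = mf t γ * mf t δ := by
  funext i
  rw [Pi.mul_apply, mf, mf, mf, ← Finset.prod_mul_distrib]
  refine Finset.prod_congr rfl fun s _ => ?_
  rw [Finsupp.add_apply, pow_add]

theorem eval_eq (t : ι → σ → R) (p : MvPolynomial σ R) (i : ι) :
    eval (t i) p = ∑ γ ∈ p.support, coeff γ p * mf t γ i := by
  rw [MvPolynomial.eval_eq']
  rfl

theorem dvd_mf (l : R) (t : ι → σ → R) (ht : ∀ i s, l ∣ t i s) (γ : σ →₀ ℕ) (i : ι) :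
    l ^ (γ.degree) ∣ mf t γ i := by
  have h1 : γ.degree = ∑ s, γ s := by
    rw [Finsupp.degree_apply]
    exact Finset.sum_subset (Finset.subset_univ _) fun s _ hs => Finsupp.notMem_support_iff.1 hs
  rw [h1, ← Finset.prod_pow_eq_pow_sum, mf]
  exact Finset.prod_dvd_prod_of_dvd _ _ fun s _ => pow_dvd_pow_of_dvd (ht i s) _

/-- the standard monomials and the multiples of `l ^ D` -/
def NN (l : R) (D : ℕ) (t : ι → σ → R) (μ : σ →₀ ℕ) : Submodule R (ι → R) :=
  Submodule.span R (Set.range fun γ : {γ : σ → Fin D // ∃ b, (γ b : ℕ) < μ b} =>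
    fun i => ∏ s, t i s ^ (γ.1 s : ℕ)) ⊔ Submodule.span R (Set.range fun f : ι → R => l ^ D • f)

theorem mem_of_dvd {l : R} {D : ℕ} {t : ι → σ → R} {μ : σ →₀ ℕ} {f : ι → R}
    (h : ∀ i, l ^ D ∣ f i) : f ∈ NN l D t μ := by
  choose g hg using h
  refine Submodule.mem_sup_right (Submodule.subset_span ⟨g, ?_⟩)
  funext i
  rw [hg i]
  rfl

theorem mem_std {l : R} {D : ℕ} {t : ι → σ → R} {μ : σ →₀ ℕ} {γ : σ →₀ ℕ}
    (h1 : ¬ μ ≤ γ) (h2 : γ.degree < D) : mf t γ ∈ NN l D t μ := by
  have h3 : ∀ s, γ s < D := fun s => lt_of_le_of_lt (Finsupp.le_degree s γ) h2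
  have h4 : ∃ b, γ b < μ b := by
    by_contra hcon
    push Not at hcon
    exact h1 fun s => hcon s
  refine Submodule.mem_sup_left (Submodule.subset_span ⟨⟨fun s => ⟨γ s, h3 s⟩, h4⟩, rfl⟩)

theorem key [Nontrivial R] {l : R} {D : ℕ} (t : ι → σ → R) (ht : ∀ i s, l ∣ t i s) (mo : MonomialOrder σ)
    (ρ : MvPolynomial σ R) (h1 : ∀ i, l ^ D ∣ eval (t i) ρ) (μ : σ →₀ ℕ)
    (hμ : IsUnit (coeff μ ρ)) (hgt : ∀ γ, mo.toSyn μ < mo.toSyn γ → l ∣ coeff γ ρ) :
    ∀ j k : ℕ, k + j = D → ∀ γ : σ →₀ ℕ, l ^ k • mf t γ ∈ NN l D t μ := by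
  intro j
  induction j with
  | zero =>
    intro k hk γ
    rw [Nat.add_zero] at hk
    subst hk
    exact mem_of_dvd fun i => ⟨mf t γ i, rfl⟩
  | succ j ihj =>
    intro k hk γ
    have main : ∀ x : mo.syn, ∀ γ : σ →₀ ℕ, mo.toSyn γ = x → l ^ k • mf t γ ∈ NN l D t μ := by
      intro x
      induction x using WellFoundedLT.induction with
      | _ x ih =>
      intro γ hγ
      by_cases hD : D ≤ γ.degree
      · refine mem_of_dvd fun i => ?_
        rw [Pi.smul_apply, smul_eq_mul]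
        exact Dvd.dvd.mul_left ((pow_dvd_pow l hD).trans (dvd_mf l t ht γ i)) _
      push Not at hD
      by_cases hle : μ ≤ γ
      · obtain ⟨δ, rfl⟩ : ∃ δ, γ = δ + μ := ⟨γ - μ, (tsub_add_cancel_of_le hle).symm⟩
        obtain ⟨u, hu⟩ := hμ
        have e1 : ∀ i, l ^ D ∣ ∑ γ' ∈ ρ.support, coeff γ' ρ * mf t γ' i := by
          intro i
          rw [← eval_eq]
          exact h1 i
        -- the relation multiplied
        have e2 : l ^ k • mf t δ * (fun i => ∑ γ' ∈ ρ.support, coeff γ' ρ * mf t γ' i) ∈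
            NN l D t μ := mem_of_dvd fun i => Dvd.dvd.mul_left (e1 i) _
        have hμs : μ ∈ ρ.support := by
          rw [mem_support_iff]
          intro h0
          rw [h0] at hu
          exact u.ne_zero hu
        have e3 : l ^ k • mf t δ * (fun i => ∑ γ' ∈ ρ.support, coeff γ' ρ * mf t γ' i) =
            ∑ γ' ∈ ρ.support, coeff γ' ρ • (l ^ k • mf t (δ + γ')) := by
          funext i
          rw [Pi.mul_apply, Finset.sum_apply, Finset.mul_sum]
          refine Finset.sum_congr rfl fun γ' _ => ?_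
          rw [mf_add]
          simp only [Pi.smul_apply, Pi.mul_apply, smul_eq_mul]
          ring
        rw [e3, ← Finset.add_sum_erase _ _ hμs] at e2
        have e4 : ∑ γ' ∈ ρ.support.erase μ, coeff γ' ρ • (l ^ k • mf t (δ + γ')) ∈ NN l D t μ := by
          refine Submodule.sum_mem _ fun γ' hγ' => ?_
          rw [Finset.mem_erase] at hγ'
          rcases lt_trichotomy (mo.toSyn γ') (mo.toSyn μ) with hlt | heq | hlt
          · refine Submodule.smul_mem _ _ (ih (mo.toSyn (δ + γ')) ?_ _ rfl)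
            rw [← hγ, map_add, map_add]
            exact add_lt_add_right hlt _
          · exact absurd (mo.toSyn.injective heq) hγ'.1
          · obtain ⟨a, ha⟩ := hgt γ' hlt
            have e5 : coeff γ' ρ • (l ^ k • mf t (δ + γ')) =
                a • (l ^ (k + 1) • mf t (δ + γ')) := by
              rw [ha, smul_smul, smul_smul]
              congr 1
              ring
            rw [e5]
            exact Submodule.smul_mem _ _ (ihj (k + 1) (by omega) _)
        have e6 : coeff μ ρ • (l ^ k • mf t (δ + μ)) ∈ NN l D t μ := by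
          have := Submodule.sub_mem _ e2 e4
          rwa [add_sub_cancel_right] at this
        rw [← hu] at e6
        exact (Submodule.smul_mem_iff_of_isUnit _ u.isUnit).1 e6
      · exact Submodule.smul_mem _ _ (mem_std hle hD)
    exact main _ γ rfl

theorem exists_smul {x : R} {f : ι → R}
    (h : f ∈ Submodule.span R (Set.range fun f : ι → R => x • f)) : ∃ w : ι → R, f = x • w := by
  induction h using Submodule.span_induction with
  | mem y hy => obtain ⟨g, rfl⟩ := hy; exact ⟨g, rfl⟩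
  | zero => exact ⟨0, by rw [smul_zero]⟩
  | add y z _ _ hy hz =>
    obtain ⟨f, rfl⟩ := hy
    obtain ⟨g, rfl⟩ := hz
    exact ⟨f + g, by rw [smul_add]⟩
  | smul a y _ hy =>
    obtain ⟨f, rfl⟩ := hy
    exact ⟨a • f, by rw [smul_comm]⟩

end StdMonAux

open StdMonAux

/-- Every polynomial function is a combination of the standard monomials modulo `l ^ D`. -/
theorem std_span {σ R ι : Type} [Fintype σ] [LinearOrder σ] [CommRing R] [Nontrivial R] (l : R)
    (hl : ¬ IsUnit l) (D ν : ℕ) (t : ι → σ → R) (ht : ∀ i s, l ∣ t i s) (ρ : MvPolynomial σ R)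
    (h1 : ∀ i, l ^ D ∣ eval (t i) ρ) (h2 : ∀ γ, ν < γ.degree → l ∣ coeff γ ρ)
    (h3 : ∀ γ, l ∣ coeff γ ρ ∨ IsUnit (coeff γ ρ)) (h4 : ∃ γ, IsUnit (coeff γ ρ)) :
    ∃ μ : σ → ℕ, ∑ s, μ s ≤ ν ∧ ∀ p : MvPolynomial σ R,
      ∃ (c : {γ : σ → Fin D // ∃ b, (γ b : ℕ) < μ b} → R) (w : ι → R),
        ∀ i, eval (t i) p = ∑ γ, c γ * ∏ s, t i s ^ (γ.1 s : ℕ) + l ^ D * w i := by
  classical
  obtain ⟨γ₀, hγ₀⟩ := h4
  have hγ₀s : γ₀ ∈ ρ.support.filter (fun γ => IsUnit (coeff γ ρ)) := by
    rw [Finset.mem_filter, mem_support_iff]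
    exact ⟨hγ₀.ne_zero, hγ₀⟩
  obtain ⟨μ, hμ, hmax⟩ := (ρ.support.filter (fun γ => IsUnit (coeff γ ρ))).exists_max_image
    (fun γ => (MonomialOrder.lex (σ := σ)).toSyn γ) ⟨γ₀, hγ₀s⟩
  rw [Finset.mem_filter] at hμ
  have hgt : ∀ γ, (MonomialOrder.lex (σ := σ)).toSyn μ < (MonomialOrder.lex (σ := σ)).toSyn γ →
      l ∣ coeff γ ρ := by
    intro γ hγ
    rcases h3 γ with h | h
    · exact h
    · exfalso
      have h5 := hmax γ (by
        rw [Finset.mem_filter, mem_support_iff]
        exact ⟨h.ne_zero, h⟩)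
      exact absurd h5 (not_le.2 hγ)
  have hk := key t ht MonomialOrder.lex ρ h1 μ hμ.2 hgt
  have hdeg : μ.degree ≤ ν := by
    by_contra hcon
    push Not at hcon
    exact hl (isUnit_of_dvd_unit (h2 μ hcon) hμ.2)
  refine ⟨fun s => μ s, ?_, fun p => ?_⟩
  · have h5 : μ.degree = ∑ s, μ s := by
      rw [Finsupp.degree_apply]
      exact Finset.sum_subset (Finset.subset_univ _) fun s _ hs => Finsupp.notMem_support_iff.1 hs
    rw [← h5]
    exact hdeg
  · have h5 : (fun i => eval (t i) p) ∈ NN l D t μ := by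
      have h6 : (fun i => eval (t i) p) = ∑ γ ∈ p.support, coeff γ p • mf t γ := by
        funext i
        rw [StdMonAux.eval_eq, Finset.sum_apply]
        rfl
      rw [h6]
      refine Submodule.sum_mem _ fun γ _ => Submodule.smul_mem _ _ ?_
      have h7 := hk D 0 (by omega) γ
      rwa [pow_zero, one_smul] at h7
    unfold NN at h5
    rw [Submodule.mem_sup] at h5
    obtain ⟨y, hy, z, hz, hyz⟩ := h5
    rw [Submodule.mem_span_range_iff_exists_fun] at hy
    obtain ⟨c, hc⟩ := hy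
    obtain ⟨w, hw⟩ := exists_smul hz
    refine ⟨c, w, fun i => ?_⟩
    have h8 := congrFun hyz i
    rw [← h8, Pi.add_apply, ← hc, hw, Finset.sum_apply]
    rfl

/-- The number of the standard monomials. -/
theorem card_std {σ : Type} [Fintype σ] [DecidableEq σ] (D : ℕ) (μ : σ → ℕ) :
    Fintype.card {γ : σ → Fin D // ∃ b, (γ b : ℕ) < μ b} ≤
      (∑ s, μ s) * D ^ (Fintype.card σ - 1) := by
  classical
  have h1 : ∀ b : σ, Fintype.card {γ : σ → Fin D // (γ b : ℕ) < μ b} ≤
      μ b * D ^ (Fintype.card σ - 1) := by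
    intro b
    have h2 : Fintype.card (Fin (μ b) × ({x : σ // x ≠ b} → Fin D)) =
        μ b * D ^ (Fintype.card σ - 1) := by
      rw [Fintype.card_prod, Fintype.card_fin, Fintype.card_fun, Fintype.card_fin,
        Fintype.card_subtype_compl, Fintype.card_subtype_eq]
    rw [← h2]
    refine Fintype.card_le_of_injective
      (fun γ => (⟨(γ.1 b : ℕ), γ.2⟩, fun x => γ.1 x.1)) ?_
    intro γ δ h
    rw [Prod.mk.injEq] at h
    apply Subtype.ext
    funext x
    by_cases hx : x = b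
    · subst hx
      exact Fin.ext (Fin.mk.inj h.1)
    · exact congrFun h.2 ⟨x, hx⟩
  calc Fintype.card {γ : σ → Fin D // ∃ b, (γ b : ℕ) < μ b}
      ≤ Fintype.card (Σ b : σ, {γ : σ → Fin D // (γ b : ℕ) < μ b}) := by
        refine Fintype.card_le_of_injective
          (fun γ => ⟨γ.2.choose, γ.1, γ.2.choose_spec⟩) ?_
        intro γ δ h
        have h3 : γ.1 = δ.1 := by
          have := congrArg (fun x : (Σ b : σ, {γ : σ → Fin D // (γ b : ℕ) < μ b}) => x.2.1) h
          exact this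
        exact Subtype.ext h3
    _ = ∑ b : σ, Fintype.card {γ : σ → Fin D // (γ b : ℕ) < μ b} := Fintype.card_sigma
    _ ≤ ∑ b : σ, μ b * D ^ (Fintype.card σ - 1) := Finset.sum_le_sum fun b _ => h1 b
    _ = (∑ s, μ s) * D ^ (Fintype.card σ - 1) := by rw [Finset.sum_mul]

end Pool.Agent.Lib.FewY
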