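import Pool.Agent.Lib.FewY.Defs
import Pool.Agent.Lib.FewY.StdMon
import Pool.Agent.Lib.FewX.DM

/-!
# FewY.DMx: the determinant method from a relation
-/

open MvPolynomial Pool.Agent.Lib.FewX

namespace Pool.Agent.Lib.FewY

namespace DMxAux

theorem det_low {R ι β : Type} [CommRing R] [Fintype ι] [DecidableEq ι] [Fintype β]
    [DecidableEq β] (x : R) (P : Matrix ι β R) (C : Matrix β ι R) (W : Matrix ι ι R) :
    x ^ (Fintype.card ι - Fintype.card β) ∣ (P * C + x • W).det := by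
  have h0 : (P * C + x • W).det = (Matrix.fromBlocks 1 (-C) P (x • W)).det := by
    rw [Matrix.det_fromBlocks_one₁₁, Matrix.mul_neg, sub_neg_eq_add, add_comm]
  rw [h0, Matrix.det_apply]
  apply Finset.dvd_sum
  intro σ _
  rw [Units.smul_def, zsmul_eq_mul]
  apply Dvd.dvd.mul_left
  rw [Fintype.prod_sum_type]
  apply Dvd.dvd.mul_left
  have h1 : ∀ b : ι, x ^ (if (σ (Sum.inr b)).isRight = true then 1 else 0) ∣
      Matrix.fromBlocks 1 (-C) P (x • W) (σ (Sum.inr b)) (Sum.inr b) := by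
    intro b
    rcases h : σ (Sum.inr b) with a | a
    · simp
    · rw [Matrix.fromBlocks_apply₂₂, Matrix.smul_apply, smul_eq_mul]
      simp
  refine dvd_trans ?_ (Finset.prod_dvd_prod_of_dvd _ _ fun b _ => h1 b)
  rw [Finset.prod_pow_eq_pow_sum]
  apply pow_dvd_pow
  rw [← Finset.card_filter]
  have h2 := Finset.card_filter_add_card_filter_not (s := (Finset.univ : Finset ι))
    (fun b => (σ (Sum.inr b)).isRight = true)
  have h3 : (Finset.univ.filter (fun b : ι => ¬ (σ (Sum.inr b)).isRight = true)).card ≤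
      Fintype.card β := by
    have h4 : ∀ b : ι, ¬ (σ (Sum.inr b)).isRight = true → ∃ a, σ (Sum.inr b) = Sum.inl a := by
      intro b hb
      rcases h : σ (Sum.inr b) with a | a
      · exact ⟨a, rfl⟩
      · rw [h] at hb
        simp at hb
    have h5 : (Finset.univ.filter (fun b : ι => ¬ (σ (Sum.inr b)).isRight = true)).image
        (fun b => σ (Sum.inr b)) ⊆ (Finset.univ : Finset β).image Sum.inl := by
      intro y hy
      rw [Finset.mem_image] at hy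
      obtain ⟨b, hb, rfl⟩ := hy
      rw [Finset.mem_filter] at hb
      obtain ⟨a, ha⟩ := h4 b hb.2
      rw [ha]
      exact Finset.mem_image_of_mem _ (Finset.mem_univ a)
    have h6 := Finset.card_le_card h5
    have hinj : Function.Injective (fun b : ι => σ (Sum.inr b : β ⊕ ι)) :=
      σ.injective.comp Sum.inr_injective
    rw [Finset.card_image_of_injective _ hinj] at h6
    exact h6.trans (Finset.card_image_le.trans (by rw [Finset.card_univ]))
  rw [Finset.card_univ] at h2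
  omega


theorem dvd_or_unit {ℓ : ℕ} [Fact ℓ.Prime] (x : ℤ_[ℓ]) : (ℓ : ℤ_[ℓ]) ∣ x ∨ IsUnit x := by
  by_cases h : (ℓ : ℤ_[ℓ]) ∣ x
  · exact Or.inl h
  · right
    rw [← PadicInt.norm_lt_one_iff_dvd, not_lt] at h
    exact PadicInt.isUnit_iff.2 (le_antisymm (PadicInt.norm_le_one x) h)

theorem eval_lin {ℓ : ℕ} [Fact ℓ.Prime] {N : ℕ} {B : Finset (Fin N)} (d : ℕ)
    (z0 z : Fin N → ℤ) (t : {x // x ∈ B} → ℤ) (ht : ∀ b, z b.1 = z0 b.1 + ℓ * t b)
    (r : {x // x ∈ B} → Fin d) :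
    eval (fun b => (t b : ℤ_[ℓ])) (∏ b : {x // x ∈ B},
      (C (z0 b.1 : ℤ_[ℓ]) + C (ℓ : ℤ_[ℓ]) * X b) ^ (r b : ℕ)) = (DMAux.val B d r z : ℤ_[ℓ]) := by
  unfold DMAux.val
  rw [map_prod]
  push_cast
  refine Finset.prod_congr rfl fun b _ => ?_
  rw [map_pow, map_add, map_mul, eval_C, eval_C, eval_X, ht b]
  push_cast
  rfl

theorem det_dvd {N : ℕ} {B : Finset (Fin N)} {z0 : Fin N → ℤ} {C : Finset (Fin N → ℤ)}
    (ℓ : ℕ) [Fact ℓ.Prime] (ν D d : ℕ)
    (hcl : ∀ z ∈ C, ∀ i, ((ℓ : ℤ) ^ 2) ∣ z i - z0 i) (ρ : MvPolynomial {x // x ∈ B} ℤ_[ℓ])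
    (h : Rel ℓ B z0 C ν D ρ) (z : ({x // x ∈ B} → Fin d) → Fin N → ℤ) (hz : ∀ l, z l ∈ C) :
    (ℓ : ℤ) ^ (D * (d ^ B.card - ν * D ^ (B.card - 1))) ∣
      (Matrix.of fun l r => DMAux.val B d r (z l)).det := by
  classical
  have hℓ0 : (ℓ : ℤ) ≠ 0 := by
    exact_mod_cast (Fact.out : ℓ.Prime).ne_zero
  obtain ⟨t, ht⟩ : ∃ t : {z // z ∈ C} → {x // x ∈ B} → ℤ,
      t = fun z b => (z.1 b.1 - z0 b.1) / ℓ := ⟨_, rfl⟩
  have ht1 : ∀ (z : {z // z ∈ C}) (b : {x // x ∈ B}), z.1 b.1 = z0 b.1 + ℓ * t z b ∧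
      (ℓ : ℤ) ∣ t z b := by
    intro z b
    obtain ⟨u, hu⟩ := hcl z.1 z.2 b.1
    have h1 : t z b = ℓ * u := by
      rw [ht]
      show (z.1 b.1 - z0 b.1) / (ℓ : ℤ) = ℓ * u
      rw [hu]
      have : (ℓ : ℤ) ^ 2 * u = ℓ * (ℓ * u) := by ring
      rw [this, Int.mul_ediv_cancel_left _ hℓ0]
    refine ⟨?_, ⟨u, h1⟩⟩
    rw [h1]
    linear_combination hu
  obtain ⟨μ, hμ, hspan⟩ := std_span (σ := {x // x ∈ B}) (R := ℤ_[ℓ]) (ι := {z // z ∈ C})
    (ℓ : ℤ_[ℓ]) PadicInt.prime_p.not_isUnit D ν (fun z b => (t z b : ℤ_[ℓ]))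
    (fun z b => by
      obtain ⟨u, hu⟩ := (ht1 z b).2
      exact ⟨(u : ℤ_[ℓ]), by rw [hu]; push_cast; rfl⟩) ρ
    (fun z => h.van z.1 z.2 (t z) fun b => (ht1 z b).1) h.high (fun γ => dvd_or_unit _)
    (by
      obtain ⟨γ, hγ⟩ := h.unit
      exact ⟨γ, (dvd_or_unit _).resolve_left hγ⟩)
  have h5 : ∀ r : {x // x ∈ B} → Fin d,
      ∃ (c : {γ : {x // x ∈ B} → Fin D // ∃ b, (γ b : ℕ) < μ b} → ℤ_[ℓ])
        (w : {z // z ∈ C} → ℤ_[ℓ]), ∀ z : {z // z ∈ C}, (DMAux.val B d r z.1 : ℤ_[ℓ]) =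
          ∑ γ, c γ * ∏ s, (t z s : ℤ_[ℓ]) ^ (γ.1 s : ℕ) + (ℓ : ℤ_[ℓ]) ^ D * w z := by
    intro r
    obtain ⟨c, w, hcw⟩ := hspan (∏ b : {x // x ∈ B},
      (MvPolynomial.C (z0 b.1 : ℤ_[ℓ]) + MvPolynomial.C (ℓ : ℤ_[ℓ]) * X b) ^ (r b : ℕ))
    refine ⟨c, w, fun z => ?_⟩
    exact (eval_lin d z0 z.1 (t z) (fun b => (ht1 z b).1) r).symm.trans (hcw z)
  choose c w hcw using h5
  have hM : (Int.castRingHom ℤ_[ℓ]).mapMatrix (Matrix.of fun l r => DMAux.val B d r (z l)) =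
      (Matrix.of fun (l : {x // x ∈ B} → Fin d) (γ : {γ : {x // x ∈ B} → Fin D // ∃ b, (γ b : ℕ) < μ b}) =>
        ∏ s, (t ⟨z l, hz l⟩ s : ℤ_[ℓ]) ^ (γ.1 s : ℕ)) *
        (Matrix.of fun (γ : {γ : {x // x ∈ B} → Fin D // ∃ b, (γ b : ℕ) < μ b}) (r : {x // x ∈ B} → Fin d) => c r γ) +
      ((ℓ : ℤ_[ℓ]) ^ D) • (Matrix.of fun (l r : {x // x ∈ B} → Fin d) => w r ⟨z l, hz l⟩) := by
    ext1 l r
    rw [Matrix.add_apply, Matrix.smul_apply, Matrix.mul_apply, RingHom.mapMatrix_apply,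
      Matrix.map_apply, Matrix.of_apply, Matrix.of_apply, smul_eq_mul, eq_intCast]
    rw [hcw r ⟨z l, hz l⟩]
    congr 1
    refine Finset.sum_congr rfl fun γ _ => ?_
    rw [Matrix.of_apply, Matrix.of_apply, mul_comm]
  have h6 := det_low ((ℓ : ℤ_[ℓ]) ^ D) (Matrix.of fun (l : {x // x ∈ B} → Fin d) (γ : {γ : {x // x ∈ B} → Fin D // ∃ b, (γ b : ℕ) < μ b}) =>
        ∏ s, (t ⟨z l, hz l⟩ s : ℤ_[ℓ]) ^ (γ.1 s : ℕ))
        (Matrix.of fun (γ : {γ : {x // x ∈ B} → Fin D // ∃ b, (γ b : ℕ) < μ b}) (r : {x // x ∈ B} → Fin d) => c r γ)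
        (Matrix.of fun (l r : {x // x ∈ B} → Fin d) => w r ⟨z l, hz l⟩)
  rw [← hM, ← RingHom.map_det, eq_intCast, ← pow_mul, Fintype.card_fun, Fintype.card_fin,
    Fintype.card_coe] at h6
  have h7 : Fintype.card {γ : {x // x ∈ B} → Fin D // ∃ b, (γ b : ℕ) < μ b} ≤ ν * D ^ (B.card - 1) := by
    have h8 := card_std D μ
    rw [Fintype.card_coe] at h8
    exact h8.trans (Nat.mul_le_mul_right _ hμ)
  have h9 : (ℓ : ℤ_[ℓ]) ^ (D * (d ^ B.card - ν * D ^ (B.card - 1))) ∣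
      (((Matrix.of fun l r => DMAux.val B d r (z l)).det : ℤ) : ℤ_[ℓ]) :=
    (pow_dvd_pow _ (Nat.mul_le_mul_left _ (by omega))).trans h6
  rw [PadicInt.pow_p_dvd_int_iff] at h9
  exact_mod_cast h9

end DMxAux

open DMxAux DMAux

theorem dmx {N : ℕ} {B : Finset (Fin N)} {z0 : Fin N → ℤ} {C : Finset (Fin N → ℤ)}
    (ℓ : ℕ) [Fact ℓ.Prime] (ν κ : ℕ) (hν : 1 ≤ ν) (hκ : 1 ≤ κ) (hz0 : z0 ∈ C)
    (hcl : ∀ z ∈ C, ∀ i, ((ℓ : ℤ) ^ 2) ∣ z i - z0 i) (ρ : MvPolynomial {x // x ∈ B} ℤ_[ℓ])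
    (h : Rel ℓ B z0 C ν (κ * (2 * ν * κ ^ (B.card - 1))) ρ) (Y : ℕ) (hY2 : 2 ≤ Y)
    (hY : ((2 * ν * κ ^ (B.card - 1)) ^ B.card).factorial ≤ Y) (hbox : ∀ z ∈ C, ∀ i, |z i| ≤ Y)
    (hℓκ : Y ^ (2 * (B.card + 1)) ≤ ℓ ^ κ) :
    ∃ G : MvPolynomial (Fin N) ℤ, G ≠ 0 ∧ G.vars ⊆ B ∧
      G.totalDegree ≤ B.card * (2 * ν * κ ^ (B.card - 1)) ∧
      (∀ m, |coeff m G| ≤ (Y : ℤ) ^
        (B.card * (2 * ν * κ ^ (B.card - 1)) * (2 * ν * κ ^ (B.card - 1)) ^ B.card + 1)) ∧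
      ∀ z ∈ C, eval z G = 0 := by
  classical
  obtain ⟨m, hm⟩ : ∃ m, m = B.card := ⟨_, rfl⟩
  obtain ⟨d, hd⟩ : ∃ d, d = 2 * ν * κ ^ (m - 1) := ⟨_, rfl⟩
  rw [← hm, ← hd] at hY
  rw [← hm, ← hd] at h
  rw [← hm, ← hd]
  rw [← hm] at hℓκ
  have hκp : 1 ≤ κ ^ (m - 1) := Nat.one_le_pow _ _ hκ
  have hd2 : 2 ≤ d := by
    have : 1 * 1 ≤ ν * κ ^ (m - 1) := Nat.mul_le_mul hν hκp
    have e1 : 2 * ν * κ ^ (m - 1) = 2 * (ν * κ ^ (m - 1)) := by ring
    omega
  have hm1 : 1 ≤ m := by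
    by_contra hcon
    have hB : B = ∅ := by
      rw [← Finset.card_eq_zero]
      omega
    subst hB
    obtain ⟨γ, hγ⟩ := h.unit
    have hemp : IsEmpty {x // x ∈ (∅ : Finset (Fin N))} := ⟨fun x => Finset.notMem_empty _ x.2⟩
    have h1 := h.van z0 hz0 (fun _ => 0) (fun b => by simp)
    have h2 : ρ = MvPolynomial.C (coeff γ ρ) := by
      have h3 := eq_C_of_isEmpty ρ
      have h4 : γ = 0 := Subsingleton.elim _ _
      rw [h4]
      exact h3
    rw [h2, eval_C] at h1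
    refine hγ ((dvd_pow_self _ ?_).trans h1)
    have : 1 * 1 ≤ κ * d := Nat.mul_le_mul hκ (by omega)
    omega
  have hYp : 0 < Y := by omega
  set ι : Type := {x // x ∈ B} → Fin d with hι
  have hcard : Fintype.card ι = d ^ m := by
    show Fintype.card ({x // x ∈ B} → Fin d) = d ^ m
    rw [Fintype.card_fun, Fintype.card_fin, Fintype.card_coe, hm]
  have hne : Nonempty ι := ⟨fun _ => ⟨0, by omega⟩⟩
  have hh1 : 1 ≤ d ^ m := Nat.one_le_pow _ _ (by omega)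
  have hhalf : d ^ m = 2 * (ν * (κ * d) ^ (m - 1)) := by
    obtain ⟨s, hs⟩ : ∃ s, m = s + 1 := ⟨m - 1, by omega⟩
    have e1 : d ^ m = d * d ^ (m - 1) := by
      rw [hs, Nat.add_sub_cancel, pow_succ, mul_comm]
    rw [e1, mul_pow]
    nth_rw 1 [hd]
    ring
  have hdet : ∀ z : ι → Fin N → ℤ, (∀ l, z l ∈ C) →
      (Matrix.of fun l r => val B d r (z l)).det = 0 := by
    intro z hz
    have h1 := det_dvd ℓ ν (κ * d) d hcl ρ h z hz
    rw [← hm] at h1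
    have hexp : κ * d * (d ^ m - ν * (κ * d) ^ (m - 1)) = κ * (d * (ν * (κ * d) ^ (m - 1))) := by
      rw [hhalf]
      have : 2 * (ν * (κ * d) ^ (m - 1)) - ν * (κ * d) ^ (m - 1) = ν * (κ * d) ^ (m - 1) := by omega
      rw [this]
      ring
    rw [hexp] at h1
    refine Int.eq_zero_of_abs_lt_dvd h1 ?_
    have h2 := Matrix.det_le (A := (Matrix.of fun l r => val B d r (z l) : Matrix ι ι ℤ))
      (abv := AbsoluteValue.abs) (x := (Y : ℤ) ^ (m * (d - 1))) (fun i j => by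
        rw [Matrix.of_apply, AbsoluteValue.abs_apply, hm]
        exact abs_val_le B d (by omega) j (z i) Y (by omega) (hbox _ (hz i)))
    rw [AbsoluteValue.abs_apply, hcard, nsmul_eq_mul] at h2
    refine lt_of_le_of_lt h2 ?_
    have h3 : ((d ^ m).factorial : ℤ) * ((Y : ℤ) ^ (m * (d - 1))) ^ (d ^ m) ≤
        (Y : ℤ) ^ (m * (d - 1) * d ^ m + 1) := by
      rw [← pow_mul, pow_succ, mul_comm ((Y : ℤ) ^ _)]
      exact mul_le_mul_of_nonneg_right (by exact_mod_cast hY) (by positivity)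
    refine lt_of_le_of_lt h3 ?_
    have h4 : m * (d - 1) * d ^ m + 1 < (m + 1) * (d * d ^ m) := by
      have e1 : m * (d - 1) * d ^ m ≤ m * (d * d ^ m) := by
        rw [mul_assoc]
        exact Nat.mul_le_mul_left _ (Nat.mul_le_mul_right _ (by omega))
      have e2 : 2 ≤ d * d ^ m := by nlinarith
      have e3 : (m + 1) * (d * d ^ m) = m * (d * d ^ m) + d * d ^ m := by ring
      omega
    have h5 : (Y : ℤ) ^ ((m + 1) * (d * d ^ m)) ≤
        (ℓ : ℤ) ^ (κ * (d * (ν * (κ * d) ^ (m - 1)))) := by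
      rw [pow_mul (ℓ : ℤ) κ]
      have e1 : (m + 1) * (d * d ^ m) = 2 * (m + 1) * (d * (ν * (κ * d) ^ (m - 1))) := by
        rw [hhalf]; ring
      rw [e1, pow_mul]
      exact pow_le_pow_left₀ (by positivity) (by exact_mod_cast hℓκ) _
    refine lt_of_lt_of_le ?_ h5
    exact pow_lt_pow_right₀ (by exact_mod_cast hY2) h4
  obtain ⟨g, hg0, hg1, hg2⟩ := ker_small (C : Set (Fin N → ℤ)) (fun r z => val B d r z)
    ((Y : ℤ) ^ (m * (d - 1))) (one_le_pow₀ (by exact_mod_cast hYp))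
    (fun z hz r => by
      rw [hm]
      exact abs_val_le B d (by omega) r z Y (by omega) (hbox z (by exact_mod_cast hz)))
    (fun z hz => hdet z fun l => by exact_mod_cast hz l)
  rw [hcard] at hg1
  have hcoef : ∀ m' : Fin N →₀ ℕ, coeff m' (∑ r, MvPolynomial.C (g r) * mono B d r) =
      ∑ r, if ext B d r = m' then g r else 0 := by
    intro m'
    rw [coeff_sum]
    refine Finset.sum_congr rfl fun r _ => ?_
    rw [coeff_C_mul, mono, coeff_monomial]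
    split_ifs <;> simp
  refine ⟨∑ r, MvPolynomial.C (g r) * mono B d r, ?_, ?_, ?_, ?_, ?_⟩
  · intro h
    apply hg0
    funext r
    have h1 := hcoef (ext B d r)
    rw [h, coeff_zero, Finset.sum_eq_single r] at h1
    · rw [if_pos rfl] at h1
      exact h1.symm
    · intro s _ hs
      exact if_neg fun h => hs (ext_inj B d h)
    · intro h
      exact absurd (Finset.mem_univ _) h
  · intro i hi
    rw [mem_vars_iff_mem_support] at hi
    obtain ⟨m', hm', hi'⟩ := hi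
    rw [mem_support_iff, hcoef] at hm'
    obtain ⟨r, _, hr⟩ := Finset.exists_ne_zero_of_sum_ne_zero hm'
    have h1 : ext B d r = m' := by
      by_contra h
      exact hr (if_neg h)
    rw [← h1, Finsupp.mem_support_iff, ext_apply] at hi'
    by_contra h
    exact hi' (dif_neg h)
  · refine Finset.sup_le fun m' hm' => ?_
    rw [mem_support_iff, hcoef] at hm'
    obtain ⟨r, _, hr⟩ := Finset.exists_ne_zero_of_sum_ne_zero hm'
    have h1 : ext B d r = m' := by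
      by_contra h
      exact hr (if_neg h)
    rw [← h1, Finsupp.sum_fintype _ _ (fun _ => rfl)]
    calc ∑ i, ext B d r i ≤ ∑ i, (if i ∈ B then d else 0) := by
          refine Finset.sum_le_sum fun i _ => ?_
          rw [ext_apply]
          split_ifs with h
          · exact (r ⟨i, h⟩).2.le
          · exact le_rfl
      _ = m * d := by
          rw [Finset.sum_ite_mem, Finset.univ_inter, Finset.sum_const, smul_eq_mul, hm]
  · intro m'
    rw [hcoef]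
    have hb1 : ∀ r, |g r| ≤ (Y : ℤ) ^ (m * d * d ^ m + 1) := by
      intro r
      refine (hg1 r).trans ?_
      rw [← pow_mul, pow_succ, mul_comm ((Y : ℤ) ^ _)]
      refine mul_le_mul (by exact_mod_cast hY) ?_ (by positivity) (by positivity)
      refine pow_le_pow_right₀ (by exact_mod_cast hYp) ?_
      exact Nat.mul_le_mul_right _ (Nat.mul_le_mul_left _ (by omega))
    by_cases hex : ∃ r, DMAux.ext B d r = m'
    · obtain ⟨r, hr⟩ := hex
      rw [Finset.sum_eq_single r, if_pos hr]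
      · exact hb1 r
      · intro s _ hs
        exact if_neg fun h => hs (ext_inj B d (h.trans hr.symm))
      · intro h
        exact absurd (Finset.mem_univ _) h
    · rw [Finset.sum_eq_zero]
      · rw [abs_zero]
        positivity
      · intro s _
        exact if_neg fun h => hex ⟨s, h⟩
  · intro z hz
    rw [map_sum]
    simp only [map_mul, eval_C, eval_mono]
    exact hg2 z (by exact_mod_cast hz)

end Pool.Agent.Lib.FewY
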