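import Pool.Agent.Lib.FewX.BdAlg
import Pool.Agent.Lib.FewX.Path

/-!
# FewY.Defs: the extended polynomial ring, the connection, the members

`Shape N n`: `n` factors; the factor `s` is (coordinate `bs s`) to the power (coordinate `es s`) and belongs to the
member `mem s`. `Ext N n` = integral polynomials in `X_i` (`i : Fin N`), `L_s` (`s : Fin n`, the logarithms), `t_b`
(`b : Fin N`, the direction of the path).
-/

open MvPolynomial Pool.Agent.Lib.FewX Pool.Agent.Lib.FewX.PathAux

namespace Pool.Agent.Lib.FewY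

/-- the combinatorial data -/
structure Shape (N n : ℕ) where
  /-- base coordinate -/
  bs : Fin n → Fin N
  /-- exponent coordinate -/
  es : Fin n → Fin N
  /-- member -/
  mem : Fin n → Fin 3

/-- polynomials in the coordinates, the logarithms and the direction -/
abbrev Ext (N n : ℕ) := MvPolynomial (Fin (N + n + N)) ℤ

section defs

variable {N n : ℕ}

/-- the coordinate `X_i` -/
noncomputable def vX (i : Fin N) : Ext N n := X (Fin.castAdd N (Fin.castAdd n i))

/-- the logarithm `L_s` -/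
noncomputable def vL (s : Fin n) : Ext N n := X (Fin.castAdd N (Fin.natAdd N s))

/-- the direction `t_b` -/
noncomputable def vT (b : Fin N) : Ext N n := X (Fin.natAdd (N + n) b)

/-- polynomials in the coordinates -/
noncomputable def up : MvPolynomial (Fin N) ℤ →ₐ[ℤ] Ext N n :=
  rename (fun i => Fin.castAdd N (Fin.castAdd n i))

/-- a point of the extended space -/
def pt {A : Type*} (φ : Fin N → A) (Λ : Fin n → A) (τ : Fin N → A) : Fin (N + n + N) → A :=
  Fin.append (Fin.append φ Λ) τ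

variable (σ : Shape N n) (B : Finset (Fin N)) (P : Fin N → MvPolynomial (Fin N) ℤ)

/-- the product of the bases -/
noncomputable def PiX : Ext N n := ∏ s, vX (σ.bs s)

/-- the product of the bases of the other factors -/
noncomputable def PiE (s : Fin n) : Ext N n := ∏ s' ∈ Finset.univ.erase s, vX (σ.bs s')

/-- `G0 = Jac * Pi` -/
noncomputable def G0 : Ext N n := up (Jac B P) * PiX σ

/-- `D X_i` -/
noncomputable def uX (i : Fin N) : Ext N n := PiX σ * ∑ b ∈ B, vT b * up (vf B P b i)

/-- `D L_s` -/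
noncomputable def uL (s : Fin n) : Ext N n :=
  PiE σ s * ∑ b ∈ B, vT b * up (vf B P b (σ.bs s))

/-- the values of `D` at the variables -/
noncomputable def uu : Fin (N + n + N) → Ext N n := pt (uX σ B P) (uL σ B P) (fun _ => 0)

/-- the derivation `D` -/
noncomputable def DD (F : Ext N n) : Ext N n := ∑ v, uu σ B P v * pderiv v F

/-- the logarithmic derivative of the member `r` in the direction `b` -/
noncomputable def qb (r : Fin 3) (b : Fin N) : Ext N n :=
  ∑ s ∈ Finset.univ.filter (fun s => σ.mem s = r),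
    (vX (σ.es s) * PiE σ s * up (vf B P b (σ.bs s)) + vL s * PiX σ * up (vf B P b (σ.es s)))

/-- the logarithmic derivative of the member `r` -/
noncomputable def qq (r : Fin 3) : Ext N n := ∑ b ∈ B, vT b * qb σ B P r b

/-- the connection -/
noncomputable def nab (V : Fin 3 → Ext N n) : Fin 3 → Ext N n :=
  fun r => DD σ B P (V r) + qq σ B P r * V r

/-- the vectors: `none` is `(1, 1, -1)`, `some b` is `(0, 0, q_{0,b} - q_{2,b})` -/
noncomputable def VV : Option (Fin N) → Fin 3 → Ext N n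
  | none => ![1, 1, -1]
  | some b => ![0, 0, qb σ B P 0 b - qb σ B P 2 b]

/-- the relation of order `ν + 1` for the vector `VV o` -/
def NabRel (c : ℤ) (ν : ℕ) (o : Option (Fin N)) : Prop :=
  ∃ R : ℕ → Ext N n, ∀ r, C c * ((nab σ B P)^[ν + 1] (VV σ B P o)) r =
    ∑ i ∈ Finset.range (ν + 1), R i * ((nab σ B P)^[i] (VV σ B P o)) r

/-- the member `r` at the point `z` -/
def mm (α : Fin 3 → ℤ) (z : Fin N → ℤ) (r : Fin 3) : ℤ :=
  α r * ∏ s ∈ Finset.univ.filter (fun s => σ.mem s = r), z (σ.bs s) ^ (z (σ.es s)).toNat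

/-- the logarithmic derivative of the member `r` at `z` without the logarithms -/
noncomputable def q0 (z : Fin N → ℤ) (r : Fin 3) (b : Fin N) : ℤ :=
  ez (pt z (fun _ => 0) (fun _ => 0)) (qb σ B P r b)

end defs

/-- A relation of order `≤ ν` for the points of `C` in the local coordinates `t_b = (z_b - z0_b) / ℓ`,
modulo `ℓ ^ D`. -/
structure Rel {N : ℕ} (ℓ : ℕ) [Fact ℓ.Prime] (B : Finset (Fin N)) (z0 : Fin N → ℤ)
    (C : Finset (Fin N → ℤ)) (ν D : ℕ) (ρ : MvPolynomial {x // x ∈ B} ℤ_[ℓ]) : Prop where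
  van : ∀ z ∈ C, ∀ t : {x // x ∈ B} → ℤ, (∀ b, z b.1 = z0 b.1 + ℓ * t b) →
    ((ℓ : ℤ_[ℓ]) ^ D) ∣ eval (fun b => (t b : ℤ_[ℓ])) ρ
  high : ∀ γ : {x // x ∈ B} →₀ ℕ, ν < γ.degree → (ℓ : ℤ_[ℓ]) ∣ coeff γ ρ
  unit : ∃ γ, ¬ (ℓ : ℤ_[ℓ]) ∣ coeff γ ρ

end Pool.Agent.Lib.FewY
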