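import Pool.Agent.Lib.FewY.PExp

/-!
# FewY.EvExp: the value at `p` of the solution of `U' = U g'`

For a ring homomorphism `ev : ℤ_[p]⟦X⟧ →+* ℤ_[p]` with `ev X = p`, `ev (C a) = a` (see
`Pool.Agent.Lib.FewX.exists_ev`), `C p * X ∣ g` and `U' = U * g'`: `ev U = U(0) * pexp (ev g)`.
-/

open PowerSeries

namespace Pool.Agent.Lib.FewY

variable {p : ℕ} [hp : Fact p.Prime]

theorem exists_pow_div_factorial (hp3 : 3 ≤ p) (n : ℕ) :
    ∃ a : ℤ_[p], (n.factorial : ℤ_[p]) * a = (p : ℤ_[p]) ^ n := by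
  have hne : ((n.factorial : ℕ) : ℚ_[p]) ≠ 0 := by exact_mod_cast n.factorial_ne_zero
  have h : ‖(p : ℚ_[p]) ^ n / (n.factorial : ℚ_[p])‖ ≤ 1 := by
    have h1 := HL.norm_E_coeff hp3 (c := (p : ℤ)) dvd_rfl n
    rw [HL.E, coeff_mk] at h1
    have h2 : HL.rho p ^ n ≤ 1 := pow_le_one₀ HL.rho_pos.le HL.rho_lt_one.le
    have e : (((p : ℕ) : ℤ) : ℚ_[p]) = (p : ℚ_[p]) := by push_cast; rfl
    rw [e] at h1
    exact h1.trans h2
  refine ⟨⟨_, h⟩, ?_⟩
  apply Subtype.ext
  rw [PadicInt.coe_mul, PadicInt.coe_pow, PadicInt.coe_natCast, PadicInt.coe_natCast]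
  show (n.factorial : ℚ_[p]) * ((p : ℚ_[p]) ^ n / (n.factorial : ℚ_[p])) = _
  rw [mul_div_cancel₀ _ hne]

/-- The divided powers `g ^ n / n!`. -/
theorem exists_divpow (hp3 : 3 ≤ p) {g : PowerSeries ℤ_[p]} (hg : C (p : ℤ_[p]) * X ∣ g) :
    ∃ G : ℕ → PowerSeries ℤ_[p], ∀ n, (n.factorial : PowerSeries ℤ_[p]) * G n = g ^ n := by
  obtain ⟨h, rfl⟩ := hg
  choose a ha using exists_pow_div_factorial (p := p) hp3
  refine ⟨fun n => C (a n) * (X * h) ^ n, fun n => ?_⟩
  have e : (n.factorial : PowerSeries ℤ_[p]) = C (n.factorial : ℤ_[p]) := by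
    rw [map_natCast]
  rw [e, ← mul_assoc, ← map_mul, ha, mul_assoc, mul_pow (C (p : ℤ_[p])) (X * h), map_pow]

theorem X_pow_dvd_of_derivative {W : PowerSeries ℤ_[p]} {n : ℕ} (h0 : constantCoeff W = 0)
    (h : X ^ n ∣ d⁄dX ℤ_[p] W) : X ^ (n + 1) ∣ W := by
  rw [X_pow_dvd_iff] at h ⊢
  intro m hm
  rcases m with _ | m
  · rw [coeff_zero_eq_constantCoeff, h0]
  · have h1 := h m (by omega)
    rw [coeff_derivative] at h1
    refine (mul_eq_zero.1 h1).resolve_right ?_
    exact_mod_cast m.succ_ne_zero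

theorem ev_exp (hp3 : 3 ≤ p) (ev : PowerSeries ℤ_[p] →+* ℤ_[p]) (hX : ev X = (p : ℤ_[p]))
    (hC : ∀ a : ℤ_[p], ev (C a) = a) {g U : PowerSeries ℤ_[p]} (hg : C (p : ℤ_[p]) * X ∣ g)
    (hU : d⁄dX ℤ_[p] U = U * d⁄dX ℤ_[p] g) : ev U = constantCoeff U * pexp (ev g) := by
  obtain ⟨G, hG⟩ := exists_divpow hp3 hg
  have hfac : ∀ n : ℕ, (n.factorial : PowerSeries ℤ_[p]) ≠ 0 := by
    intro n h
    have h1 := congrArg constantCoeff h
    rw [map_natCast, map_zero] at h1
    exact n.factorial_ne_zero (by exact_mod_cast h1)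
  -- derivative of the divided powers
  have hdG : ∀ n, d⁄dX ℤ_[p] (G (n + 1)) = G n * d⁄dX ℤ_[p] g := by
    intro n
    have h1 := congrArg (d⁄dX ℤ_[p]) (hG (n + 1))
    rw [Derivation.leibniz, Derivation.leibniz_pow, Derivation.map_natCast, smul_zero, add_zero,
      Nat.add_sub_cancel] at h1
    simp only [smul_eq_mul, nsmul_eq_mul] at h1
    apply mul_left_cancel₀ (hfac (n + 1))
    rw [h1, ← hG n, Nat.factorial_succ]
    push_cast
    ring
  have hG0 : G 0 = 1 := by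
    have := hG 0
    simpa using this
  have hcG : ∀ n, constantCoeff (G (n + 1)) = 0 := by
    intro n
    have h1 := congrArg constantCoeff (hG (n + 1))
    have hg0 : constantCoeff g = 0 := by
      obtain ⟨h, rfl⟩ := hg
      simp
    rw [map_mul, map_pow, hg0, map_natCast, zero_pow (by omega)] at h1
    refine (mul_eq_zero.1 h1).resolve_left ?_
    exact_mod_cast (n + 1).factorial_ne_zero
  set W : ℕ → PowerSeries ℤ_[p] := fun M =>
    U - C (constantCoeff U) * ∑ n ∈ Finset.range M, G n with hW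
  have hWd : ∀ M, X ^ M ∣ W M := by
    intro M
    induction M with
    | zero => simp
    | succ M ih =>
      apply X_pow_dvd_of_derivative
      · simp only [hW]
        rw [map_sub, map_mul, constantCoeff_C, map_sum, Finset.sum_range_succ',
          Finset.sum_eq_zero (fun n _ => hcG n), hG0, map_one]
        ring
      · have e : d⁄dX ℤ_[p] (W (M + 1)) = W M * d⁄dX ℤ_[p] g := by
          simp only [hW]
          rw [map_sub, Derivation.leibniz, derivative_C, smul_zero, add_zero, map_sum,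
            Finset.sum_range_succ', hG0, Derivation.map_one_eq_zero, add_zero,
            Finset.sum_congr rfl (fun n _ => hdG n), hU, ← Finset.sum_mul]
          simp only [smul_eq_mul]
          ring
        rw [e]
        exact Dvd.dvd.mul_right ih _
  have hpg : (p : ℤ_[p]) ∣ ev g := by
    obtain ⟨h, rfl⟩ := hg
    rw [map_mul, map_mul, hC, hX]
    exact ⟨(p : ℤ_[p]) * ev h, by ring⟩
  -- the partial sums converge
  have hsum := pexp_hasSum hp3 hpg
  have hevG : ∀ n, ((ev (G n) : ℤ_[p]) : ℚ_[p]) = ((ev g : ℤ_[p]) : ℚ_[p]) ^ n / (n.factorial : ℚ_[p]) := by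
    intro n
    have h1 := congrArg ev (hG n)
    rw [map_mul, map_pow, map_natCast] at h1
    have h2 := congrArg (fun x : ℤ_[p] => (x : ℚ_[p])) h1
    simp only [PadicInt.coe_mul, PadicInt.coe_pow, PadicInt.coe_natCast] at h2
    have hne : ((n.factorial : ℕ) : ℚ_[p]) ≠ 0 := by exact_mod_cast n.factorial_ne_zero
    rw [eq_div_iff hne, mul_comm]
    exact h2
  have hlim : Filter.Tendsto (fun M => ((constantCoeff U : ℤ_[p]) : ℚ_[p]) *
      ∑ n ∈ Finset.range M, ((ev (G n) : ℤ_[p]) : ℚ_[p])) Filter.atTop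
      (nhds (((constantCoeff U : ℤ_[p]) : ℚ_[p]) * ((pexp (ev g) : ℤ_[p]) : ℚ_[p]))) := by
    refine Filter.Tendsto.const_mul _ ?_
    simp_rw [hevG]
    exact hsum.tendsto_sum_nat
  have hlim2 : Filter.Tendsto (fun M => ((constantCoeff U : ℤ_[p]) : ℚ_[p]) *
      ∑ n ∈ Finset.range M, ((ev (G n) : ℤ_[p]) : ℚ_[p])) Filter.atTop
      (nhds ((ev U : ℤ_[p]) : ℚ_[p])) := by
    rw [tendsto_iff_norm_sub_tendsto_zero]
    have hbound : ∀ M, ‖((constantCoeff U : ℤ_[p]) : ℚ_[p]) *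
      (∑ n ∈ Finset.range M, ((ev (G n) : ℤ_[p]) : ℚ_[p])) - ((ev U : ℤ_[p]) : ℚ_[p])‖ ≤
        ((p : ℝ)⁻¹) ^ M := by
      intro M
      obtain ⟨Q, hQ⟩ := hWd M
      have h1 := congrArg ev hQ
      simp only [hW] at h1
      rw [map_sub, map_mul, hC, map_sum, map_mul, map_pow, hX] at h1
      have h2 := congrArg (fun x : ℤ_[p] => (x : ℚ_[p])) h1
      simp only [PadicInt.coe_sub, PadicInt.coe_mul, PadicInt.coe_pow, PadicInt.coe_natCast,
        PadicInt.coe_sum] at h2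
      rw [norm_sub_rev, h2, norm_mul, norm_pow, Padic.norm_p]
      have hpp : (0 : ℝ) < p := by exact_mod_cast hp.out.pos
      calc _ ≤ ((p : ℝ)⁻¹) ^ M * 1 :=
            mul_le_mul_of_nonneg_left (PadicInt.norm_le_one (ev Q)) (by positivity)
        _ = _ := mul_one _
    have hp1 : (p : ℝ)⁻¹ < 1 := inv_lt_one_of_one_lt₀ (by exact_mod_cast hp.out.one_lt)
    exact squeeze_zero (fun _ => norm_nonneg _) hbound
      (tendsto_pow_atTop_nhds_zero_of_lt_one (by positivity) hp1)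
  have := tendsto_nhds_unique hlim2 hlim
  apply Subtype.ext
  rw [PadicInt.coe_mul]
  exact this

end Pool.Agent.Lib.FewY
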