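import Pool.Agent.Lib.FewY.HLExp

/-!
# FewY.PExp: the p-adic exponential and logarithm on `ℤ_[p]`, `p ≥ 3`

`pexp x = ∑ x ^ n / n!` for `p ∣ x`; it is an isometric isomorphism of `p ℤ_[p]` onto `1 + p ℤ_[p]`.
`plog x`, for a unit `x`, is the element of `p ℤ_[p]` with `pexp ((p - 1) * plog x) = x ^ (p - 1)`.
-/

namespace Pool.Agent.Lib.FewY

variable {p : ℕ} [hp : Fact p.Prime]

theorem norm_le_inv_iff_dvd (x : ℤ_[p]) : ‖x‖ ≤ (p : ℝ)⁻¹ ↔ (p : ℤ_[p]) ∣ x := by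
  rw [← PadicInt.norm_lt_one_iff_dvd]
  have h := PadicInt.norm_le_pow_iff_norm_lt_pow_add_one x (-1)
  simpa using h

/-- The p-adic exponential of an element of `p ℤ_[p]` (a junk value outside). -/
noncomputable def pexp (x : ℤ_[p]) : ℤ_[p] :=
  open Classical in
  if h : ‖NormedSpace.exp (x : ℚ_[p])‖ ≤ 1 then ⟨NormedSpace.exp (x : ℚ_[p]), h⟩ else 1

theorem mem_ball' (hp3 : 3 ≤ p) {x : ℤ_[p]} (hx : (p : ℤ_[p]) ∣ x) :
    (x : ℚ_[p]) ∈ Metric.eball (0 : ℚ_[p]) (NormedSpace.expSeries ℚ_[p] ℚ_[p]).radius := by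
  rw [Metric.mem_eball, edist_zero_right]
  refine lt_of_lt_of_le ?_ (HL.radius_ge hp3)
  rw [← ofReal_norm]
  refine (ENNReal.ofReal_lt_ofReal_iff HL.rho_pos).2 ?_
  rw [PadicInt.padic_norm_e_of_padicInt]
  refine ((norm_le_inv_iff_dvd x).2 hx).trans_lt ?_
  rw [← HL.rho_sq]
  have h1 := HL.rho_pos (p := p)
  have h2 := HL.rho_lt_one (p := p)
  nlinarith

theorem exp_hasSum (hp3 : 3 ≤ p) {x : ℤ_[p]} (hx : (p : ℤ_[p]) ∣ x) :
    HasSum (fun n : ℕ => (x : ℚ_[p]) ^ n / (n.factorial : ℚ_[p])) (NormedSpace.exp (x : ℚ_[p])) :=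
  NormedSpace.expSeries_div_hasSum_exp_of_mem_ball ℚ_[p] _ (mem_ball' hp3 hx)

theorem norm_term_le (hp3 : 3 ≤ p) {x : ℤ_[p]} (hx : (p : ℤ_[p]) ∣ x) (n : ℕ) :
    ‖(x : ℚ_[p]) ^ (n + 2) / ((n + 2).factorial : ℚ_[p])‖ ≤ ‖x‖ * (p : ℝ)⁻¹ := by
  have hne : (((n + 2).factorial : ℕ) : ℚ_[p]) ≠ 0 := by exact_mod_cast (n + 2).factorial_ne_zero
  have hpp : (0 : ℝ) < p := by exact_mod_cast hp.out.pos
  have hp1 : (1 : ℝ) ≤ p := by exact_mod_cast hp.out.one_lt.le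
  have hx' := (norm_le_inv_iff_dvd x).2 hx
  rw [norm_div, norm_pow, Padic.norm_eq_zpow_neg_valuation hne, Padic.valuation_natCast, zpow_neg,
    zpow_natCast, PadicInt.padic_norm_e_of_padicInt, div_inv_eq_mul]
  set v := padicValNat p (n + 2).factorial with hv
  have h2 : v + 1 ≤ n + 1 := by
    have h1 := sub_one_mul_padicValNat_factorial_lt_of_ne_zero (p := p) (n := n + 2) (by omega)
    rw [← hv] at h1
    have : 2 * v ≤ (p - 1) * v := Nat.mul_le_mul_right _ (by omega)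
    omega
  have h3 : ‖x‖ ^ (n + 2) ≤ ‖x‖ * ((p : ℝ)⁻¹) ^ (n + 1) := by
    rw [pow_succ' _ (n + 1)]
    exact mul_le_mul_of_nonneg_left (pow_le_pow_left₀ (norm_nonneg _) hx' _) (norm_nonneg _)
  calc ‖x‖ ^ (n + 2) * (p : ℝ) ^ v ≤ (‖x‖ * ((p : ℝ)⁻¹) ^ (n + 1)) * (p : ℝ) ^ v :=
        mul_le_mul_of_nonneg_right h3 (by positivity)
    _ = ‖x‖ * (((p : ℝ)⁻¹) ^ (n + 1) * (p : ℝ) ^ v) := by ring
    _ ≤ ‖x‖ * (p : ℝ)⁻¹ := by
        refine mul_le_mul_of_nonneg_left ?_ (norm_nonneg _)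
        obtain ⟨k, hk⟩ := Nat.exists_eq_add_of_le h2
        rw [hk, pow_add, pow_succ, inv_pow, inv_pow]
        have hpv : (0 : ℝ) < (p : ℝ) ^ v := by positivity
        calc ((p : ℝ) ^ v)⁻¹ * (p : ℝ)⁻¹ * ((p : ℝ) ^ k)⁻¹ * (p : ℝ) ^ v
            = (p : ℝ)⁻¹ * ((p : ℝ) ^ k)⁻¹ := by field_simp
          _ ≤ (p : ℝ)⁻¹ * 1 :=
              mul_le_mul_of_nonneg_left (inv_le_one_of_one_le₀ (one_le_pow₀ hp1)) (by positivity)
          _ = (p : ℝ)⁻¹ := mul_one _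

theorem norm_exp_sub_le (hp3 : 3 ≤ p) {x : ℤ_[p]} (hx : (p : ℤ_[p]) ∣ x) :
    ‖NormedSpace.exp (x : ℚ_[p]) - 1 - (x : ℚ_[p])‖ ≤ ‖x‖ * (p : ℝ)⁻¹ := by
  have h := (hasSum_nat_add_iff' 2).2 (exp_hasSum hp3 hx)
  simp only [Finset.sum_range_succ, Finset.sum_range_zero, zero_add, pow_zero, Nat.factorial_zero,
    Nat.cast_one, div_one, pow_one, Nat.factorial_one] at h
  rw [← sub_sub] at h
  rw [← h.tsum_eq]
  exact IsUltrametricDist.norm_tsum_le_of_forall_le_of_nonneg (by positivity)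
    fun n => norm_term_le hp3 hx n

theorem norm_exp_le_one (hp3 : 3 ≤ p) {x : ℤ_[p]} (hx : (p : ℤ_[p]) ∣ x) :
    ‖NormedSpace.exp (x : ℚ_[p])‖ ≤ 1 := by
  have h := norm_exp_sub_le hp3 hx
  have hp1 : (p : ℝ)⁻¹ ≤ 1 := inv_le_one_of_one_le₀ (by exact_mod_cast hp.out.one_lt.le)
  have e : NormedSpace.exp (x : ℚ_[p]) = (NormedSpace.exp (x : ℚ_[p]) - 1 - (x : ℚ_[p])) + (1 + (x : ℚ_[p])) := by
    ring
  rw [e]
  refine (IsUltrametricDist.norm_add_le_max _ _).trans (max_le ?_ ?_)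
  · refine h.trans ?_
    calc ‖x‖ * (p : ℝ)⁻¹ ≤ 1 * 1 :=
          mul_le_mul (PadicInt.norm_le_one x) hp1 (by positivity) zero_le_one
      _ = 1 := one_mul 1
  · have := PadicInt.norm_le_one (1 + x)
    rwa [PadicInt.norm_def, PadicInt.coe_add, PadicInt.coe_one] at this

theorem coe_pexp (hp3 : 3 ≤ p) {x : ℤ_[p]} (hx : (p : ℤ_[p]) ∣ x) :
    ((pexp x : ℤ_[p]) : ℚ_[p]) = NormedSpace.exp (x : ℚ_[p]) := by
  unfold pexp
  rw [dif_pos (norm_exp_le_one hp3 hx)]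

theorem pexp_hasSum (hp3 : 3 ≤ p) {x : ℤ_[p]} (hx : (p : ℤ_[p]) ∣ x) :
    HasSum (fun n : ℕ => (x : ℚ_[p]) ^ n / (n.factorial : ℚ_[p])) ((pexp x : ℤ_[p]) : ℚ_[p]) := by
  rw [coe_pexp hp3 hx]
  exact exp_hasSum hp3 hx

theorem pexp_zero : pexp (0 : ℤ_[p]) = 1 := by
  unfold pexp
  have h : NormedSpace.exp ((0 : ℤ_[p]) : ℚ_[p]) = 1 := by
    rw [PadicInt.coe_zero, NormedSpace.exp_zero]
  rw [dif_pos (by rw [h, norm_one])]
  exact Subtype.ext h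

theorem pexp_add (hp3 : 3 ≤ p) {x y : ℤ_[p]} (hx : (p : ℤ_[p]) ∣ x) (hy : (p : ℤ_[p]) ∣ y) :
    pexp (x + y) = pexp x * pexp y := by
  apply Subtype.ext
  rw [PadicInt.coe_mul, coe_pexp hp3 hx, coe_pexp hp3 hy, coe_pexp hp3 (dvd_add hx hy),
    PadicInt.coe_add]
  exact NormedSpace.exp_add_of_mem_ball (𝕂 := ℚ_[p]) (mem_ball' hp3 hx) (mem_ball' hp3 hy)

theorem pexp_neg_mul (hp3 : 3 ≤ p) {x : ℤ_[p]} (hx : (p : ℤ_[p]) ∣ x) : pexp (-x) * pexp x = 1 := by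
  rw [← pexp_add hp3 ((dvd_neg).2 hx) hx, neg_add_cancel, pexp_zero]

theorem pexp_natCast_mul (hp3 : 3 ≤ p) {x : ℤ_[p]} (hx : (p : ℤ_[p]) ∣ x) (k : ℕ) :
    pexp ((k : ℤ_[p]) * x) = pexp x ^ k := by
  induction k with
  | zero => rw [Nat.cast_zero, zero_mul, pexp_zero, pow_zero]
  | succ k ih =>
    rw [pow_succ, ← ih, ← pexp_add hp3 (Dvd.dvd.mul_left hx _) hx]
    congr 1
    push_cast
    ring

theorem isUnit_pexp (hp3 : 3 ≤ p) {x : ℤ_[p]} (hx : (p : ℤ_[p]) ∣ x) : IsUnit (pexp x) :=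
  IsUnit.of_mul_eq_one _ (by rw [mul_comm]; exact pexp_neg_mul hp3 hx)

theorem norm_pexp_sub (hp3 : 3 ≤ p) {x : ℤ_[p]} (hx : (p : ℤ_[p]) ∣ x) :
    ‖pexp x - 1 - x‖ ≤ ‖x‖ * (p : ℝ)⁻¹ := by
  rw [PadicInt.norm_def, PadicInt.coe_sub, PadicInt.coe_sub, coe_pexp hp3 hx, PadicInt.coe_one]
  exact norm_exp_sub_le hp3 hx

theorem norm_pexp_sub_one (hp3 : 3 ≤ p) {x : ℤ_[p]} (hx : (p : ℤ_[p]) ∣ x) :
    ‖pexp x - 1‖ = ‖x‖ := by
  by_cases h0 : x = 0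
  · rw [h0, pexp_zero, sub_self]
  · have h := norm_pexp_sub hp3 hx
    have hp1 : (p : ℝ)⁻¹ < 1 := inv_lt_one_of_one_lt₀ (by exact_mod_cast hp.out.one_lt)
    have hx0 : 0 < ‖x‖ := norm_pos_iff.2 h0
    have hlt : ‖pexp x - 1 - x‖ < ‖x‖ := h.trans_lt (by nlinarith)
    have e : pexp x - 1 = (pexp x - 1 - x) + x := by ring
    rw [e, PadicInt.norm_add_eq_max_of_ne hlt.ne, max_eq_right hlt.le]

theorem dvd_pexp_sub_one (hp3 : 3 ≤ p) {x : ℤ_[p]} (hx : (p : ℤ_[p]) ∣ x) :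
    (p : ℤ_[p]) ∣ pexp x - 1 := by
  rw [← norm_le_inv_iff_dvd, norm_pexp_sub_one hp3 hx, norm_le_inv_iff_dvd]
  exact hx

theorem norm_pexp_sub_pexp (hp3 : 3 ≤ p) {x y : ℤ_[p]} (hx : (p : ℤ_[p]) ∣ x)
    (hy : (p : ℤ_[p]) ∣ y) : ‖pexp x - pexp y‖ = ‖x - y‖ := by
  have h := pexp_add hp3 (dvd_sub hx hy) hy
  rw [sub_add_cancel] at h
  have e : pexp x - pexp y = (pexp (x - y) - 1) * pexp y := by rw [h]; ring
  rw [e, norm_mul, norm_pexp_sub_one hp3 (dvd_sub hx hy), PadicInt.isUnit_iff.1 (isUnit_pexp hp3 hy),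
    mul_one]

theorem pexp_inj (hp3 : 3 ≤ p) {x y : ℤ_[p]} (hx : (p : ℤ_[p]) ∣ x) (hy : (p : ℤ_[p]) ∣ y)
    (h : pexp x = pexp y) : x = y := by
  have := norm_pexp_sub_pexp hp3 hx hy
  rw [h, sub_self, norm_zero] at this
  exact sub_eq_zero.1 (norm_eq_zero.1 this.symm)

/-- `pexp` maps `p ℤ_[p]` onto `1 + p ℤ_[p]`. -/
theorem exists_pexp (hp3 : 3 ≤ p) {u : ℤ_[p]} (hu : (p : ℤ_[p]) ∣ u - 1) :
    ∃ y : ℤ_[p], (p : ℤ_[p]) ∣ y ∧ pexp y = u := by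
  classical
  set s : Set ℤ_[p] := {y | (p : ℤ_[p]) ∣ y} with hs
  have hs' : s = Metric.closedBall 0 (p : ℝ)⁻¹ := by
    ext y
    rw [hs, Set.mem_setOf_eq, Metric.mem_closedBall, dist_zero_right, norm_le_inv_iff_dvd]
  have hsc : IsComplete s := by
    rw [hs']
    exact Metric.isClosed_closedBall.isComplete
  set f : ℤ_[p] → ℤ_[p] := fun y => y + (u * pexp (-y) - 1) with hf
  have hmaps : Set.MapsTo f s s := by
    intro y hy
    have h1 := dvd_pexp_sub_one hp3 ((dvd_neg).2 hy)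
    have e : f y = y + (u * (pexp (-y) - 1) + (u - 1)) := by rw [hf]; ring
    show (p : ℤ_[p]) ∣ f y
    rw [e]
    exact dvd_add hy (dvd_add (Dvd.dvd.mul_left h1 _) hu)
  have hpp : (0 : ℝ) < p := by exact_mod_cast hp.out.pos
  have hcontr : ∀ y ∈ s, ∀ y' ∈ s, ‖f y - f y'‖ ≤ (p : ℝ)⁻¹ * ‖y - y'‖ := by
    intro y hy y' hy'
    set d := y - y' with hd
    have hdd : (p : ℤ_[p]) ∣ -d := (dvd_neg).2 (dvd_sub hy hy')
    have hyy : pexp (-y) = pexp (-d) * pexp (-y') := by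
      rw [← pexp_add hp3 hdd ((dvd_neg).2 hy'), hd]
      congr 1
      ring
    have hw : (p : ℤ_[p]) ∣ u * pexp (-y') - 1 := by
      have h1 := dvd_pexp_sub_one hp3 ((dvd_neg).2 hy')
      have e : u * pexp (-y') - 1 = u * (pexp (-y') - 1) + (u - 1) := by ring
      rw [e]
      exact dvd_add (Dvd.dvd.mul_left h1 _) hu
    have e : f y - f y' = (u * pexp (-y')) * (pexp (-d) - 1 - (-d)) - d * (u * pexp (-y') - 1) := by
      rw [hf]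
      simp only
      rw [hyy, hd]
      ring
    have h1 : ‖(u * pexp (-y')) * (pexp (-d) - 1 - (-d))‖ ≤ (p : ℝ)⁻¹ * ‖d‖ := by
      rw [norm_mul]
      calc _ ≤ 1 * (‖-d‖ * (p : ℝ)⁻¹) :=
            mul_le_mul (PadicInt.norm_le_one _) (norm_pexp_sub hp3 hdd) (norm_nonneg _) zero_le_one
        _ = (p : ℝ)⁻¹ * ‖d‖ := by rw [norm_neg]; ring
    have h2 : ‖-(d * (u * pexp (-y') - 1))‖ ≤ (p : ℝ)⁻¹ * ‖d‖ := by
      rw [norm_neg, norm_mul, mul_comm]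
      exact mul_le_mul_of_nonneg_right ((norm_le_inv_iff_dvd _).2 hw) (norm_nonneg _)
    rw [e, sub_eq_add_neg]
    exact (IsUltrametricDist.norm_add_le_max _ _).trans (max_le h1 h2)
  have hK : ContractingWith ⟨(p : ℝ)⁻¹, by positivity⟩ (hmaps.restrict f s s) := by
    refine ⟨?_, ?_⟩
    · have : (p : ℝ)⁻¹ < 1 := inv_lt_one_of_one_lt₀ (by exact_mod_cast hp.out.one_lt)
      exact_mod_cast this
    · refine LipschitzWith.of_dist_le_mul fun a b => ?_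
      rw [Subtype.dist_eq, Subtype.dist_eq, dist_eq_norm, dist_eq_norm]
      exact hcontr a.1 a.2 b.1 b.2
  obtain ⟨y, hys, hfix, -⟩ := hK.exists_fixedPoint' hsc hmaps (x := 0) (by simp [hs]) (edist_ne_top _ _)
  refine ⟨y, hys, ?_⟩
  have h1 : u * pexp (-y) - 1 = 0 := by
    have : f y = y := hfix
    rw [hf] at this
    simp only at this
    linear_combination this
  have h2 := pexp_neg_mul hp3 hys
  linear_combination u * h2 - pexp y * h1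

theorem dvd_pow_sub_one {x : ℤ_[p]} (hx : IsUnit x) : (p : ℤ_[p]) ∣ x ^ (p - 1) - 1 := by
  rw [← Ideal.mem_span_singleton, ← PadicInt.maximalIdeal_eq_span_p, ← PadicInt.ker_toZMod,
    RingHom.mem_ker, map_sub, map_pow, map_one, ZMod.pow_card_sub_one_eq_one, sub_self]
  intro h
  have := (hx.map (PadicInt.toZMod (p := p))).ne_zero
  exact this h

theorem isUnit_p_sub_one (hp3 : 3 ≤ p) : IsUnit ((p : ℤ_[p]) - 1) := by
  rw [PadicInt.isUnit_iff]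
  have h : ‖(p : ℤ_[p])‖ < 1 := (PadicInt.norm_lt_one_iff_dvd _).2 dvd_rfl
  have e : (p : ℤ_[p]) - 1 = (p : ℤ_[p]) + (-1) := by ring
  have h1 : ‖(-1 : ℤ_[p])‖ = 1 := by rw [norm_neg, norm_one]
  rw [e, PadicInt.norm_add_eq_max_of_ne (by rw [h1]; exact h.ne), h1, max_eq_right h.le]

/-- The p-adic logarithm of a unit (a junk value outside). -/
noncomputable def plog (x : ℤ_[p]) : ℤ_[p] :=
  open Classical in
  if h : ∃ y : ℤ_[p], (p : ℤ_[p]) ∣ y ∧ pexp (((p : ℤ_[p]) - 1) * y) = x ^ (p - 1) then h.choose else 0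

theorem exists_plog (hp3 : 3 ≤ p) {x : ℤ_[p]} (hx : IsUnit x) :
    ∃ y : ℤ_[p], (p : ℤ_[p]) ∣ y ∧ pexp (((p : ℤ_[p]) - 1) * y) = x ^ (p - 1) := by
  obtain ⟨z, hz, hz'⟩ := exists_pexp hp3 (dvd_pow_sub_one hx)
  obtain ⟨w, hw⟩ := isUnit_p_sub_one (p := p) hp3
  refine ⟨(↑w⁻¹ : ℤ_[p]) * z, Dvd.dvd.mul_left hz _, ?_⟩
  rw [← hw, ← mul_assoc, Units.mul_inv, one_mul, hz']

theorem dvd_plog (x : ℤ_[p]) : (p : ℤ_[p]) ∣ plog x := by
  unfold plog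
  split_ifs with h
  · exact h.choose_spec.1
  · exact dvd_zero _

theorem pexp_plog (hp3 : 3 ≤ p) {x : ℤ_[p]} (hx : IsUnit x) :
    pexp (((p : ℤ_[p]) - 1) * plog x) = x ^ (p - 1) := by
  unfold plog
  rw [dif_pos (exists_plog hp3 hx)]
  exact (exists_plog hp3 hx).choose_spec.2

theorem eq_plog (hp3 : 3 ≤ p) {x y : ℤ_[p]} (hx : IsUnit x) (hy : (p : ℤ_[p]) ∣ y)
    (h : pexp (((p : ℤ_[p]) - 1) * y) = x ^ (p - 1)) : y = plog x := by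
  have h1 := pexp_inj hp3 (Dvd.dvd.mul_left hy _) (Dvd.dvd.mul_left (dvd_plog x) _)
    (h.trans (pexp_plog hp3 hx).symm)
  exact (isUnit_p_sub_one hp3).mul_left_cancel h1

theorem plog_mul (hp3 : 3 ≤ p) {x y : ℤ_[p]} (hx : IsUnit x) (hy : IsUnit y) :
    plog (x * y) = plog x + plog y := by
  symm
  refine eq_plog hp3 (hx.mul hy) (dvd_add (dvd_plog x) (dvd_plog y)) ?_
  rw [mul_add, pexp_add hp3 (Dvd.dvd.mul_left (dvd_plog x) _) (Dvd.dvd.mul_left (dvd_plog y) _),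
    pexp_plog hp3 hx, pexp_plog hp3 hy, mul_pow]

theorem plog_one (hp3 : 3 ≤ p) : plog (1 : ℤ_[p]) = 0 := by
  symm
  refine eq_plog hp3 isUnit_one (dvd_zero _) ?_
  rw [mul_zero, pexp_zero, one_pow]

theorem plog_pow (hp3 : 3 ≤ p) {x : ℤ_[p]} (hx : IsUnit x) (k : ℕ) :
    plog (x ^ k) = k * plog x := by
  induction k with
  | zero => rw [pow_zero, plog_one hp3, Nat.cast_zero, zero_mul]
  | succ k ih =>
    rw [pow_succ, plog_mul hp3 (hx.pow k) hx, ih]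
    push_cast
    ring

/-- On `1 + p ℤ_[p]` the maps `pexp` and `plog` are inverse to each other. -/
theorem pexp_plog_of_dvd (hp3 : 3 ≤ p) {x : ℤ_[p]} (hx : (p : ℤ_[p]) ∣ x - 1) :
    pexp (plog x) = x := by
  obtain ⟨y, hy, rfl⟩ := exists_pexp hp3 hx
  congr 1
  symm
  refine eq_plog hp3 (isUnit_pexp hp3 hy) hy ?_
  have h := pexp_natCast_mul hp3 hy (p - 1)
  rw [Nat.cast_sub hp.out.one_lt.le, Nat.cast_one] at h
  exact h

theorem plog_pexp (hp3 : 3 ≤ p) {y : ℤ_[p]} (hy : (p : ℤ_[p]) ∣ y) : plog (pexp y) = y :=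
  pexp_inj hp3 (dvd_plog _) hy (pexp_plog_of_dvd hp3 (dvd_pexp_sub_one hp3 hy))

end Pool.Agent.Lib.FewY
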