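import Pool.Agent.Lib.FewY.PtDefs
import Pool.Agent.Lib.FewY.PExp
import Pool.Agent.Lib.FewY.EvExp

/-!
# FewY.EL: `pexp`, `plog` satisfy `IsEL`
-/

namespace Pool.Agent.Lib.FewY

theorem isEL (ℓ : ℕ) [Fact ℓ.Prime] (h3 : 3 ≤ ℓ) : IsEL ℓ (pexp : ℤ_[ℓ] → ℤ_[ℓ]) plog where
  add _ _ hx hy := pexp_add h3 hx hy
  zero := pexp_zero
  inj _ _ hx hy h := pexp_inj h3 hx hy h
  dvd x := dvd_plog x
  spec _ hx := pexp_plog h3 hx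
  ser ev hev _ _ hg hU := ev_exp h3 ev hev.X hev.C hg hU

end Pool.Agent.Lib.FewY
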