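import Pool.Agent.Lib.FewY.SerDefs

/-!
# FewY.EvLift: specialised Hurwitz series have integral coefficients; the path ends at `z`  (1.5 h)

`exists_lift`: `k! * coeff k f` is homogeneous of degree `k` with coefficients of norm `≤ 1`, `ℓ ∣ t b`, so the norm of its value at `t` is `≤ ℓ^(-k)` (`eval_eq'`, nonarchimedean sum: every monomial of the support has degree `k`; or: write it as a polynomial over
`ℤ_[ℓ]`, `t b = ℓ t' b`), and `‖k!‖ ≥ ℓ^(-(k-1)/(ℓ-1)) ≥ ℓ^(-(k-1))` for `k ≥ 1` (`padicValNat` of `k!` is `≤ (k-1)/(ℓ-1)`: `sub_one_mul_padicValNat_factorial`, or just `< k`: `padicValNat_factorial_lt_of_ne_zero`, whatever is there): the value of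
`coeff k f` has norm `≤ ℓ^(-1)` for `k ≥ 1` and `≤ 1` for `k = 0`. Elements of norm `≤ 1` are in `ℤ_[ℓ]`; `g = PowerSeries.mk`.
`lift_int`: series with integral coefficients have lifts for every `t` (no condition). `lift_unique`: `iQ` is injective.
`ev_phi`: `b ∈ B`: `φ b = C (z0 b) + C (tv b) X`, its image is `C (z0 b) + C (t b) X`, so `g` is this series over `ℤ_[ℓ]` and `ev g = z0 b + t b ℓ = z b`. `i ∉ B`: choose lifts `w j` of all the `φ j` (`lift_int`), `ez w (P i) = 0` (`hom_ez`, injectivity), so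
`ez (fun j => ev (w j)) (P i) = 0`, `ev (w j) = z j` for `j ∈ B`; `PathAux.hensel_unique` for the one-variable polynomial `PathAux.pol` as at the end of `FewX.Path` (`ev (w i)` and `z i` are both congruent to `z0 i` modulo `ℓ`, the derivative `∂_i P_i (z)` divides `Jac (z)`).
-/

open MvPolynomial Pool.Agent.Lib.FewX Pool.Agent.Lib.FewX.PathAux

namespace Pool.Agent.Lib.FewY

variable {N n : ℕ} {ℓ : ℕ} [Fact ℓ.Prime] {B : Finset (Fin N)}

theorem iQ_inj {f g : PowerSeries ℤ_[ℓ]} (h : iQ ℓ f = iQ ℓ g) : f = g :=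
  PowerSeries.map_injective (algebraMap ℤ_[ℓ] ℚ_[ℓ])
    (FaithfulSMul.algebraMap_injective ℤ_[ℓ] ℚ_[ℓ]) h

/-- the value of a homogeneous polynomial at a small point -/
theorem norm_eval_le {τ : Type} {g : MvPolynomial τ ℚ_[ℓ]} {k : ℕ} {c r : ℝ}
    (hg : g.IsHomogeneous k) (hc : 0 ≤ c) (hC : Cn c g) {t : τ → ℚ_[ℓ]} (hr : 0 ≤ r)
    (ht : ∀ b, ‖t b‖ ≤ r) : ‖eval t g‖ ≤ c * r ^ k := by
  rw [eval_eq]
  refine norm_sum_le' (mul_nonneg hc (pow_nonneg hr k)) _ fun d hd => ?_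
  rw [norm_mul]
  refine mul_le_mul (hC d) ?_ (norm_nonneg _) hc
  have h1 : ∑ i ∈ d.support, d i = k := by
    have h2 := hg (mem_support_iff.1 hd)
    rw [Finsupp.weight_apply] at h2
    simpa [Finsupp.sum] using h2
  rw [← h1, ← Finset.prod_pow_eq_pow_sum, norm_prod]
  refine Finset.prod_le_prod (fun i _ => norm_nonneg _) fun i _ => ?_
  rw [norm_pow]
  exact pow_le_pow_left₀ (norm_nonneg _) (ht i) _

/-- the norm of a factorial -/
theorem norm_factorial_ge {k : ℕ} (hk : 1 ≤ k) :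
    ((ℓ : ℝ)⁻¹) ^ (k - 1) ≤ ‖((k.factorial : ℕ) : ℚ_[ℓ])‖ := by
  have hp : (1 : ℝ) < ℓ := by exact_mod_cast (Fact.out : ℓ.Prime).one_lt
  have h1 : padicValNat ℓ k.factorial < k := padicValNat_factorial_lt_of_ne_zero ℓ (by omega)
  have h2 : ((k.factorial : ℕ) : ℚ_[ℓ]) ≠ 0 := by exact_mod_cast k.factorial_ne_zero
  rw [Padic.norm_eq_zpow_neg_valuation h2, Padic.valuation_natCast, zpow_neg, zpow_natCast,
    ← inv_pow]
  exact pow_le_pow_of_le_one (by positivity) (inv_le_one_of_one_le₀ hp.le) (by omega)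

/-- integral lift of a series over the field -/
theorem exists_lift_aux {F : PowerSeries ℚ_[ℓ]} (hF : ∀ k, ‖PowerSeries.coeff k F‖ ≤ 1) :
    ∃ g : PowerSeries ℤ_[ℓ], iQ ℓ g = F ∧
      ∀ k, ((PowerSeries.coeff k g : ℤ_[ℓ]) : ℚ_[ℓ]) = PowerSeries.coeff k F := by
  have h : ∀ k, ((PowerSeries.coeff k (PowerSeries.mk fun k =>
      (⟨PowerSeries.coeff k F, hF k⟩ : ℤ_[ℓ])) : ℤ_[ℓ]) : ℚ_[ℓ]) = PowerSeries.coeff k F := by
    intro k
    rw [PowerSeries.coeff_mk]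
  refine ⟨PowerSeries.mk fun k => ⟨PowerSeries.coeff k F, hF k⟩, ?_, h⟩
  ext k
  rw [PowerSeries.coeff_map]
  exact h k

theorem exists_lift (hℓ3 : 3 ≤ ℓ) {f : PowerSeries (SS ℓ B)} (hz : Hz f) (hm : Hm f)
    {t : {x // x ∈ B} → ℤ} (ht : ∀ b, (ℓ : ℤ) ∣ t b) :
    ∃ g : PowerSeries ℤ_[ℓ], iQ ℓ g = spS ℓ B t f ∧
      ∀ k, 1 ≤ k → (ℓ : ℤ_[ℓ]) ∣ PowerSeries.coeff k g := by
  have hp : (1 : ℝ) < ℓ := by exact_mod_cast (Fact.out : ℓ.Prime).one_lt
  have hp0 : (0 : ℝ) < (ℓ : ℝ)⁻¹ := by positivity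
  have ht' : ∀ b, ‖((t b : ℤ) : ℚ_[ℓ])‖ ≤ (ℓ : ℝ)⁻¹ := by
    intro b
    have := (Padic.norm_int_le_pow_iff_dvd (p := ℓ) (t b) 1).2 (by simpa using ht b)
    simpa using this
  have hkey : ∀ k, ‖((k.factorial : ℕ) : ℚ_[ℓ])‖ * ‖PowerSeries.coeff k (spS ℓ B t f)‖ ≤
      ((ℓ : ℝ)⁻¹) ^ k := by
    intro k
    rw [PowerSeries.coeff_map, ← norm_mul]
    have h1 : ((k.factorial : ℕ) : ℚ_[ℓ]) *
        eval (fun b => (t b : ℚ_[ℓ])) (PowerSeries.coeff k f) =
        eval (fun b => (t b : ℚ_[ℓ]))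
          ((k.factorial : MvPolynomial {x // x ∈ B} ℚ_[ℓ]) * PowerSeries.coeff k f) := by
      rw [map_mul, map_natCast]
    rw [h1]
    have h2 : ((k.factorial : MvPolynomial {x // x ∈ B} ℚ_[ℓ]) *
        PowerSeries.coeff k f).IsHomogeneous k := by
      have h3 := (isHomogeneous_C {x // x ∈ B} ((k.factorial : ℕ) : ℚ_[ℓ])).mul (hm k)
      rwa [zero_add, map_natCast] at h3
    have h3 := norm_eval_le h2 zero_le_one (hz (k + 1) k (by omega)) hp0.le ht'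
    rwa [one_mul] at h3
  have hpos : ∀ k, 1 ≤ k → ‖PowerSeries.coeff k (spS ℓ B t f)‖ ≤ (ℓ : ℝ)⁻¹ := by
    intro k hk
    have h1 := hkey k
    have h2 := norm_factorial_ge (ℓ := ℓ) hk
    have h3 : ((ℓ : ℝ)⁻¹) ^ (k - 1) * ‖PowerSeries.coeff k (spS ℓ B t f)‖ ≤
        ((ℓ : ℝ)⁻¹) ^ (k - 1) * (ℓ : ℝ)⁻¹ := by
      rw [← pow_succ, Nat.sub_add_cancel hk]
      exact (mul_le_mul_of_nonneg_right h2 (norm_nonneg _)).trans h1
    exact le_of_mul_le_mul_left h3 (by positivity)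
  have hinv : (ℓ : ℝ)⁻¹ < 1 := inv_lt_one_of_one_lt₀ hp
  have hall : ∀ k, ‖PowerSeries.coeff k (spS ℓ B t f)‖ ≤ 1 := by
    intro k
    rcases Nat.eq_zero_or_pos k with h | h
    · subst h
      have h1 := hkey 0
      simpa using h1
    · exact (hpos k h).trans hinv.le
  obtain ⟨g, hg, hgk⟩ := exists_lift_aux hall
  refine ⟨g, hg, fun k hk => ?_⟩
  rw [← PadicInt.norm_lt_one_iff_dvd, PadicInt.norm_def, hgk]
  exact (hpos k hk).trans_lt hinv

theorem lift_int {f : PowerSeries (SS ℓ B)} (hf : ∀ k, Cn 1 (PowerSeries.coeff k f))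
    (t : {x // x ∈ B} → ℤ) : ∃ g : PowerSeries ℤ_[ℓ], iQ ℓ g = spS ℓ B t f := by
  have hall : ∀ k, ‖PowerSeries.coeff k (spS ℓ B t f)‖ ≤ 1 := by
    intro k
    rw [PowerSeries.coeff_map, eval_eq]
    refine norm_sum_le' zero_le_one _ fun d _ => ?_
    rw [norm_mul]
    refine mul_le_one₀ (hf k d) (norm_nonneg _) ?_
    rw [norm_prod]
    refine Finset.prod_le_one (fun i _ => norm_nonneg _) fun i _ => ?_
    rw [norm_pow]
    exact pow_le_one₀ (norm_nonneg _) (Padic.norm_int_le_one _)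
  obtain ⟨g, hg, -⟩ := exists_lift_aux hall
  exact ⟨g, hg⟩

/-- congruent points have congruent values -/
theorem dvd_eval_sub {z z0 : Fin N → ℤ} (hcl : ∀ i, (ℓ : ℤ) ∣ z i - z0 i)
    (Q : MvPolynomial (Fin N) ℤ) : (ℓ : ℤ) ∣ eval z Q - eval z0 Q := by
  induction Q using MvPolynomial.induction_on with
  | C a => simp
  | add p q hp hq =>
    rw [map_add, map_add]
    have := hp.add hq
    convert! this using 1
    ring
  | mul_X p n hp =>
    rw [map_mul, map_mul, eval_X, eval_X]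
    have := (hp.mul_right (z n)).add ((hcl n).mul_left (eval z0 p))
    convert! this using 1
    ring

theorem ev_phi {P : Fin N → MvPolynomial (Fin N) ℤ}
    (hP : ∀ i, i ∉ B → (P i).vars ⊆ insert i B) {z0 : Fin N → ℤ}
    {φ : Fin N → PowerSeries (SS ℓ B)} (S : PathS ℓ B P z0 φ)
    {ev : PowerSeries ℤ_[ℓ] →+* ℤ_[ℓ]} (hev : IsEv ℓ ev) {z : Fin N → ℤ}
    (hPz : ∀ i, i ∉ B → eval z (P i) = 0) (hJ : ¬ (ℓ : ℤ) ∣ eval z (Jac B P))
    (hcl : ∀ i, (ℓ : ℤ) ∣ z i - z0 i) {t : {x // x ∈ B} → ℤ}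
    (ht : ∀ b, z b.1 = z0 b.1 + ℓ * t b) (i : Fin N) {g : PowerSeries ℤ_[ℓ]}
    (hg : iQ ℓ g = spS ℓ B t (φ i)) : ev g = (z i : ℤ_[ℓ]) := by
  -- the lifts
  choose w hw using fun j => lift_int (S.int j) t
  have hgw : g = w i := iQ_inj (hg.trans (hw i).symm)
  subst hgw
  clear hg
  -- the coordinates in `B`
  have hB : ∀ b ∈ B, ev (w b) = (z b : ℤ_[ℓ]) := by
    intro b hb
    have h1 : w b = PowerSeries.C ((z0 b : ℤ) : ℤ_[ℓ]) +
        PowerSeries.C ((t ⟨b, hb⟩ : ℤ) : ℤ_[ℓ]) * PowerSeries.X := by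
      apply iQ_inj
      rw [hw b, S.base b hb]
      simp only [map_add, map_mul, PowerSeries.map_C, PowerSeries.map_X, map_intCast, tv, hb,
        dif_pos, eval_X]
    rw [h1, map_add, map_mul, hev.C, hev.C, hev.X]
    have h2 := ht ⟨b, hb⟩
    simp only at h2
    rw [h2]
    push_cast
    ring
  -- the equations
  have hE : ∀ j, j ∉ B → ez (fun j => ev (w j)) (P j) = 0 := by
    intro j hj
    have h1 : ez w (P j) = 0 := by
      apply iQ_inj
      rw [hom_ez, map_zero]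
      have h2 : (fun j => iQ ℓ (w j)) = fun j => spS ℓ B t (φ j) := funext hw
      rw [h2, ← hom_ez, S.eqn j hj, map_zero]
    rw [← hom_ez, h1, map_zero]
  by_cases hi : i ∈ B
  · exact hB i hi
  have hval : ∀ y : ℤ_[ℓ], (pol (fun j => (z j : ℤ_[ℓ])) i (P i)).eval y =
      ez (Function.update (fun j => (z j : ℤ_[ℓ])) i y) (P i) := fun y => pol_eval _ _ _ _
  have hz1 : ∀ Q, ez (Function.update (fun j => (z j : ℤ_[ℓ])) i (z i : ℤ_[ℓ])) Q =
      ((eval z Q : ℤ) : ℤ_[ℓ]) := by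
    intro Q
    rw [← ez_cast, Function.update_eq_self]
  refine hensel_unique (pol (fun j => (z j : ℤ_[ℓ])) i (P i)) ?_ ?_ ?_ ?_
  · rw [hval, ← hE i hi]
    refine ez_congr fun j hj => ?_
    rcases Finset.mem_insert.1 (hP i hi hj) with h | h
    · subst h; simp
    · have hji : j ≠ i := fun h2 => hi (h2 ▸ h)
      rw [Function.update_of_ne hji, hB j h]
  · rw [hval, hz1, hPz i hi, Int.cast_zero]
  · rw [pol_derivative, pol_eval, hz1]
    refine isUnit_cast fun h => hJ ?_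
    unfold Jac
    rw [map_prod]
    exact h.trans (Finset.dvd_prod_of_mem (fun i => eval z (pderiv i (P i)))
      (Finset.mem_compl.2 hi))
  · have h2 := hev.dvd (w i)
    have h0 : PowerSeries.constantCoeff (w i) = ((z0 i : ℤ) : ℤ_[ℓ]) := by
      have h3 := congrArg (PowerSeries.coeff 0) (hw i)
      rw [PowerSeries.coeff_map, PowerSeries.coeff_map,
        PowerSeries.coeff_zero_eq_constantCoeff_apply,
        PowerSeries.coeff_zero_eq_constantCoeff_apply, S.cst, map_intCast] at h3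
      apply FaithfulSMul.algebraMap_injective ℤ_[ℓ] ℚ_[ℓ]
      rw [h3, map_intCast]
    rw [h0] at h2
    obtain ⟨m, hm⟩ := hcl i
    have h3 : (ℓ : ℤ_[ℓ]) ∣ (z i : ℤ_[ℓ]) - (z0 i : ℤ_[ℓ]) := by
      refine ⟨(m : ℤ_[ℓ]), ?_⟩
      have h4 := congrArg (fun n : ℤ => (n : ℤ_[ℓ])) hm
      push_cast at h4
      exact h4
    have h5 := h2.sub h3
    convert! h5 using 1
    ring

end Pool.Agent.Lib.FewY
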