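import Pool.Agent.Lib.FewY.PtDefs
import Pool.Agent.Lib.FewY.EvLift

/-!
# FewY.EvMem: the logarithms and the members at the end of the path  (2 h)

`z i ≡ z0 i` modulo `ℓ^2 (ℓ - 1)` for all `i`; `z b = z0 b + ℓ t b`, so `ℓ ∣ t b`.
`ev_log`: `g` with `iQ g = spS t (Λ s)`. `exists_lift` (and `iQ_inj`): `ℓ ∣ coeff k g` for `k ≥ 1`, and `coeff 0 g = ξ s`. `U` = a lift of `φ (bs s)` (`lift_int`), `ev U = z (bs s)` (`ev_phi`), `constantCoeff U = z0 (bs s)`. `Λode` mapped by `spS t`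
(`PowerSeries.map` commutes with `derivative`: `PowerSeries.derivative_map` or coefficientwise) and `iQ_inj`: `U * g' = U'`, `g' = (g - C (ξ s))'`. `IsEL.ser` for `g - C (ξ s)` (divisible by `C ℓ * X`): `z (bs s) = z0 (bs s) * ex (ev g - ξ s)`, `ℓ ∣ ev g - ξ s`
(`IsEv.dvd`). Power `ℓ - 1` (`ex` of `(ℓ - 1) x` is the power: `add`, `zero`; `ξ s = lg (z0 (bs s))`, `spec`; integers not divisible by `ℓ` are units: `PathAux.isUnit_cast`): `ex ((ℓ-1) ev g) = z (bs s)^(ℓ-1) = ex ((ℓ-1) lg (z (bs s)))`, `inj`, cancel `ℓ - 1 ≠ 0`.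
`ev_mem`: lifts `p s` of `φ (es s)`, `q s` of `Λ s`, `g` of `y r`: `yode` gives `g' = g * (∑ s, p s * q s)'`, the sum `w` over the `s` of the member `r`; `G = w - C (constantCoeff w)` is divisible by `C ℓ * X` (all coefficients of `q s` are divisible by `ℓ`: `dvd` for the constant one), so
`ev g = mm z0 r * ex (ev w - constantCoeff w)`, `ev w - constantCoeff w = ∑ s, (z (es s) lg (z (bs s)) - z0 (es s) lg (z0 (bs s)))`. For each `s`: with `x = z (bs s)`, `x0 = z0 (bs s)`, `e = z (es s)`, `e0 = z0 (es s)` (`≥ 1`), `ξ = lg x`, `ξ0 = lg x0`: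
`ex (ξ - ξ0) = x / x0`, i.e. `x = x0 * ex (ξ - ξ0)` (shown in `ev_log`), and `ex ((e - e0) ξ) * x^e0 = x^e` (`e - e0 = (ℓ - 1) h`; `h ≥ 0`: `spec`, power `h`; `h < 0`: the same with the roles exchanged and `ex (-u) ex u = 1`). So `ex (e ξ - e0 ξ0) * x0^e0 = x^e`
(`e ξ - e0 ξ0 = (e - e0) ξ + e0 (ξ - ξ0)`). Product over the `s` of the member `r`; `x0` is a nonzero element of the domain `ℤ_[ℓ]`.
-/

open MvPolynomial Pool.Agent.Lib.FewX Pool.Agent.Lib.FewX.PathAux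

namespace Pool.Agent.Lib.FewY

variable {N n : ℕ} {ℓ : ℕ} [Fact ℓ.Prime] {B : Finset (Fin N)}

private theorem map_der {A A' : Type*} [CommRing A] [CommRing A'] (h : A →+* A') (f : PowerSeries A) :
    PowerSeries.map h (PowerSeries.derivative A f) = PowerSeries.derivative A' (PowerSeries.map h f) := by
  ext k
  rw [PowerSeries.coeff_map, PowerSeries.coeff_derivative, PowerSeries.coeff_derivative, PowerSeries.coeff_map]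
  rw [map_mul, map_add, map_natCast, map_one]

private theorem ex_nsmul {ex lg : ℤ_[ℓ] → ℤ_[ℓ]} (EL : IsEL ℓ ex lg) {x : ℤ_[ℓ]} (hx : (ℓ : ℤ_[ℓ]) ∣ x) (m : ℕ) :
    ex ((m : ℤ_[ℓ]) * x) = ex x ^ m := by
  induction m with
  | zero => rw [Nat.cast_zero, zero_mul, EL.zero, pow_zero]
  | succ m ih =>
    rw [Nat.cast_succ, add_mul, one_mul, EL.add _ _ (hx.mul_left _) hx, ih, pow_succ]

private theorem ex_sum {ι : Type*} {ex lg : ℤ_[ℓ] → ℤ_[ℓ]} (EL : IsEL ℓ ex lg) (T : Finset ι)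
    (f : ι → ℤ_[ℓ]) (hf : ∀ i ∈ T, (ℓ : ℤ_[ℓ]) ∣ f i) : ex (∑ i ∈ T, f i) = ∏ i ∈ T, ex (f i) := by
  classical
  induction T using Finset.induction_on with
  | empty => simp [EL.zero]
  | insert a T ha ih =>
    rw [Finset.sum_insert ha, Finset.prod_insert ha, EL.add _ _ (hf a (Finset.mem_insert_self _ _))
      (Finset.dvd_sum fun i hi => hf i (Finset.mem_insert_of_mem hi)),
      ih fun i hi => hf i (Finset.mem_insert_of_mem hi)]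

private theorem ex_neg {ex lg : ℤ_[ℓ] → ℤ_[ℓ]} (EL : IsEL ℓ ex lg) {x : ℤ_[ℓ]} (hx : (ℓ : ℤ_[ℓ]) ∣ x) :
    ex (-x) * ex x = 1 := by
  rw [← EL.add _ _ hx.neg_right hx, neg_add_cancel, EL.zero]

private theorem ex_lm {ex lg : ℤ_[ℓ] → ℤ_[ℓ]} (EL : IsEL ℓ ex lg) {x : ℤ_[ℓ]} (hx : IsUnit x) (h : ℕ) :
    ex ((h : ℤ_[ℓ]) * (((ℓ : ℤ_[ℓ]) - 1) * lg x)) = x ^ ((ℓ - 1) * h) := by
  rw [ex_nsmul EL ((EL.dvd x).mul_left _), EL.spec x hx, ← pow_mul]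

private theorem per_factor {ex lg : ℤ_[ℓ] → ℤ_[ℓ]} (EL : IsEL ℓ ex lg) {x x0 : ℤ_[ℓ]} (hx : IsUnit x)
    (h : x = x0 * ex (lg x - lg x0)) {e e0 : ℕ} (hd : ((ℓ - 1 : ℕ) : ℤ) ∣ (e : ℤ) - (e0 : ℤ)) :
    x0 ^ e0 * ex ((e : ℤ_[ℓ]) * lg x - (e0 : ℤ_[ℓ]) * lg x0) = x ^ e := by
  have hl1 : ((ℓ - 1 : ℕ) : ℤ_[ℓ]) = (ℓ : ℤ_[ℓ]) - 1 := by
    rw [Nat.cast_sub (Fact.out : ℓ.Prime).one_lt.le, Nat.cast_one]
  have hD : (ℓ : ℤ_[ℓ]) ∣ lg x - lg x0 := dvd_sub (EL.dvd x) (EL.dvd x0)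
  have h1 : ex ((e0 : ℤ_[ℓ]) * (lg x - lg x0)) = ex (lg x - lg x0) ^ e0 := ex_nsmul EL hD e0
  have h2 : (e : ℤ_[ℓ]) * lg x - (e0 : ℤ_[ℓ]) * lg x0 =
      ((e : ℤ_[ℓ]) - (e0 : ℤ_[ℓ])) * lg x + (e0 : ℤ_[ℓ]) * (lg x - lg x0) := by ring
  have h3 : x0 ^ e0 * ex (lg x - lg x0) ^ e0 = x ^ e0 := by
    rw [← mul_pow, ← h]
  rw [h2, EL.add _ _ ((EL.dvd x).mul_left _) (hD.mul_left _), h1]
  have h4 : x0 ^ e0 * (ex (((e : ℤ_[ℓ]) - (e0 : ℤ_[ℓ])) * lg x) * ex (lg x - lg x0) ^ e0) =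
      ex (((e : ℤ_[ℓ]) - (e0 : ℤ_[ℓ])) * lg x) * x ^ e0 := by
    rw [← h3]; ring
  rw [h4]
  rcases le_total e0 e with hle | hle
  · obtain ⟨k, hk⟩ := Nat.exists_eq_add_of_le hle
    have hd2 : (ℓ - 1) ∣ k := by
      have : (e : ℤ) - (e0 : ℤ) = (k : ℤ) := by rw [hk]; push_cast; ring
      rw [this] at hd
      exact_mod_cast hd
    obtain ⟨m, hm⟩ := hd2
    have h5 : ((e : ℤ_[ℓ]) - (e0 : ℤ_[ℓ])) * lg x = (m : ℤ_[ℓ]) * (((ℓ : ℤ_[ℓ]) - 1) * lg x) := by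
      rw [hk, hm]
      push_cast
      rw [hl1]
      ring
    rw [h5, ex_lm EL hx, ← hm, ← pow_add, hk, add_comm]
  · obtain ⟨k, hk⟩ := Nat.exists_eq_add_of_le hle
    have hd2 : (ℓ - 1) ∣ k := by
      have : (e : ℤ) - (e0 : ℤ) = -(k : ℤ) := by rw [hk]; push_cast; ring
      rw [this, dvd_neg] at hd
      exact_mod_cast hd
    obtain ⟨m, hm⟩ := hd2
    have h5 : ((e : ℤ_[ℓ]) - (e0 : ℤ_[ℓ])) * lg x = -((m : ℤ_[ℓ]) * (((ℓ : ℤ_[ℓ]) - 1) * lg x)) := by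
      rw [hk, hm]
      push_cast
      rw [hl1]
      ring
    have h6 := ex_neg EL (x := (m : ℤ_[ℓ]) * (((ℓ : ℤ_[ℓ]) - 1) * lg x))
      (((EL.dvd x).mul_left _).mul_left _)
    rw [ex_lm EL hx, ← hm] at h6
    rw [h5, hk, pow_add]
    calc ex (-((m : ℤ_[ℓ]) * (((ℓ : ℤ_[ℓ]) - 1) * lg x))) * (x ^ e * x ^ k)
        = x ^ e * (ex (-((m : ℤ_[ℓ]) * (((ℓ : ℤ_[ℓ]) - 1) * lg x))) * x ^ k) := by ring
      _ = x ^ e := by rw [h6, mul_one]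

private theorem dvd_of_coeffs {G : PowerSeries ℤ_[ℓ]} (h0 : PowerSeries.constantCoeff G = 0)
    (h : ∀ k, 1 ≤ k → (ℓ : ℤ_[ℓ]) ∣ PowerSeries.coeff k G) :
    PowerSeries.C (ℓ : ℤ_[ℓ]) * PowerSeries.X ∣ G := by
  choose a ha using fun k : ℕ => h (k + 1) (Nat.succ_le_succ (Nat.zero_le k))
  refine ⟨PowerSeries.mk a, ?_⟩
  ext k
  rw [mul_assoc, PowerSeries.coeff_C_mul]
  cases k with
  | zero =>
    rw [PowerSeries.coeff_zero_X_mul, mul_zero, PowerSeries.coeff_zero_eq_constantCoeff_apply, h0]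
  | succ k =>
    rw [PowerSeries.coeff_succ_X_mul, PowerSeries.coeff_mk, ha k]

private theorem cc_iQ (g : PowerSeries ℤ_[ℓ]) :
    PowerSeries.constantCoeff (iQ ℓ g) = algebraMap ℤ_[ℓ] ℚ_[ℓ] (PowerSeries.constantCoeff g) := by
  rw [← PowerSeries.coeff_zero_eq_constantCoeff_apply, PowerSeries.coeff_map,
    PowerSeries.coeff_zero_eq_constantCoeff_apply]

private theorem cc_spS (t : {x // x ∈ B} → ℤ) (f : PowerSeries (SS ℓ B)) :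
    PowerSeries.constantCoeff (spS ℓ B t f) =
      eval (fun b => (t b : ℚ_[ℓ])) (PowerSeries.constantCoeff f) := by
  rw [← PowerSeries.coeff_zero_eq_constantCoeff_apply, PowerSeries.coeff_map,
    PowerSeries.coeff_zero_eq_constantCoeff_apply]

private theorem alg_inj : Function.Injective (algebraMap ℤ_[ℓ] ℚ_[ℓ]) := by
  intro a b h
  exact Subtype.ext h

private theorem cc_int {g : PowerSeries ℤ_[ℓ]} {f : PowerSeries (SS ℓ B)} {t : {x // x ∈ B} → ℤ}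
    (hg : iQ ℓ g = spS ℓ B t f) {m : ℤ} (hf : PowerSeries.constantCoeff f = ((m : ℤ) : SS ℓ B)) :
    PowerSeries.constantCoeff g = (m : ℤ_[ℓ]) := by
  apply alg_inj
  rw [← cc_iQ, hg, cc_spS, hf, map_intCast, map_intCast]

private theorem cc_C {g : PowerSeries ℤ_[ℓ]} {f : PowerSeries (SS ℓ B)} {t : {x // x ∈ B} → ℤ}
    (hg : iQ ℓ g = spS ℓ B t f) {m : ℤ_[ℓ]}
    (hf : PowerSeries.constantCoeff f = C ((m : ℤ_[ℓ]) : ℚ_[ℓ])) :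
    PowerSeries.constantCoeff g = m := by
  apply alg_inj
  rw [← cc_iQ, hg, cc_spS, hf, eval_C]
  rfl

private theorem ht_dvd {z0 z : Fin N → ℤ}
    (hcl : ∀ i, ((ℓ ^ 2 * (ℓ - 1) : ℕ) : ℤ) ∣ z i - z0 i) {t : {x // x ∈ B} → ℤ}
    (ht : ∀ b, z b.1 = z0 b.1 + ℓ * t b) (b : {x // x ∈ B}) : (ℓ : ℤ) ∣ t b := by
  have h1 := hcl b.1
  have h2 : z b.1 - z0 b.1 = (ℓ : ℤ) * t b := by rw [ht b]; ring
  rw [h2] at h1
  have h3 : (ℓ : ℤ) * ((ℓ : ℤ) * ((ℓ - 1 : ℕ) : ℤ)) ∣ (ℓ : ℤ) * t b := by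
    have : ((ℓ ^ 2 * (ℓ - 1) : ℕ) : ℤ) = (ℓ : ℤ) * ((ℓ : ℤ) * ((ℓ - 1 : ℕ) : ℤ)) := by
      push_cast
      ring
    rwa [this] at h1
  have h4 : (ℓ : ℤ) ≠ 0 := by exact_mod_cast (Fact.out : ℓ.Prime).ne_zero
  exact (dvd_mul_right _ _).trans ((mul_dvd_mul_iff_left h4).mp h3)

private theorem cl1 {z0 z : Fin N → ℤ}
    (hcl : ∀ i, ((ℓ ^ 2 * (ℓ - 1) : ℕ) : ℤ) ∣ z i - z0 i) (i : Fin N) : (ℓ : ℤ) ∣ z i - z0 i := by
  refine dvd_trans ?_ (hcl i)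
  refine Int.natCast_dvd_natCast.mpr ?_
  exact Dvd.dvd.mul_right (dvd_pow_self _ two_ne_zero) _

private theorem cl2 {z0 z : Fin N → ℤ}
    (hcl : ∀ i, ((ℓ ^ 2 * (ℓ - 1) : ℕ) : ℤ) ∣ z i - z0 i) (i : Fin N) :
    ((ℓ - 1 : ℕ) : ℤ) ∣ z i - z0 i := by
  refine dvd_trans ?_ (hcl i)
  refine Int.natCast_dvd_natCast.mpr ?_
  exact dvd_mul_left _ _

private theorem log_aux (hℓ3 : 3 ≤ ℓ) {ex lg : ℤ_[ℓ] → ℤ_[ℓ]} (EL : IsEL ℓ ex lg) {σ : Shape N n}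
    {P : Fin N → MvPolynomial (Fin N) ℤ} (hP : ∀ i, i ∉ B → (P i).vars ⊆ insert i B)
    {α : Fin 3 → ℤ} {z0 z : Fin N → ℤ} (h0 : PtOK ℓ σ B P z0) (h1 : PtOK ℓ σ B P z)
    (hcl : ∀ i, ((ℓ ^ 2 * (ℓ - 1) : ℕ) : ℤ) ∣ z i - z0 i)
    {φ : Fin N → PowerSeries (SS ℓ B)} {Λ : Fin n → PowerSeries (SS ℓ B)}
    {y : Fin 3 → PowerSeries (SS ℓ B)}
    (S : Ser ℓ B σ P α z0 (fun s => lg (z0 (σ.bs s) : ℤ_[ℓ])) φ Λ y)
    {ev : PowerSeries ℤ_[ℓ] →+* ℤ_[ℓ]} (hev : IsEv ℓ ev) {t : {x // x ∈ B} → ℤ}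
    (ht : ∀ b, z b.1 = z0 b.1 + ℓ * t b) (s : Fin n) {g : PowerSeries ℤ_[ℓ]}
    (hg : iQ ℓ g = spS ℓ B t (Λ s)) :
    (z (σ.bs s) : ℤ_[ℓ]) = (z0 (σ.bs s) : ℤ_[ℓ]) * ex (ev g - lg (z0 (σ.bs s) : ℤ_[ℓ])) ∧
      (ℓ : ℤ_[ℓ]) ∣ ev g - lg (z0 (σ.bs s) : ℤ_[ℓ]) := by
  have htd := ht_dvd hcl ht
  obtain ⟨g', hg', hk'⟩ := exists_lift hℓ3 (S.Λhz s) (S.Λhom s) htd
  have hgg : g = g' := iQ_inj (hg.trans hg'.symm)
  have hk : ∀ k, 1 ≤ k → (ℓ : ℤ_[ℓ]) ∣ PowerSeries.coeff k g := by rw [hgg]; exact hk'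
  have hc0 : PowerSeries.constantCoeff g = lg (z0 (σ.bs s) : ℤ_[ℓ]) := cc_C hg (S.Λcst s)
  obtain ⟨U, hU⟩ := lift_int (S.int (σ.bs s)) t
  have hevU : ev U = (z (σ.bs s) : ℤ_[ℓ]) :=
    ev_phi hP S.toPathS hev h1.eqn h1.jac (cl1 hcl) ht (σ.bs s) hU
  have hcU : PowerSeries.constantCoeff U = (z0 (σ.bs s) : ℤ_[ℓ]) := cc_int hU (S.cst (σ.bs s))
  have hode : U * PowerSeries.derivative ℤ_[ℓ] g = PowerSeries.derivative ℤ_[ℓ] U := by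
    apply iQ_inj
    rw [map_mul, map_der, map_der, hU, hg, ← map_der, ← map_der, ← map_mul, S.Λode s]
  have hser := EL.ser ev hev (g - PowerSeries.C (lg (z0 (σ.bs s) : ℤ_[ℓ]))) U
    (dvd_of_coeffs (by rw [map_sub, hc0, PowerSeries.constantCoeff_C, sub_self]) (by
      intro k hk1
      rw [map_sub, PowerSeries.coeff_C, if_neg (by omega), sub_zero]
      exact hk k hk1)) (by
      rw [map_sub, PowerSeries.derivative_C, sub_zero, hode])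
  rw [map_sub, hev.C, hevU, hcU] at hser
  refine ⟨hser, ?_⟩
  rw [← hc0]
  exact hev.dvd g

theorem ev_log (hℓ3 : 3 ≤ ℓ) {ex lg : ℤ_[ℓ] → ℤ_[ℓ]} (EL : IsEL ℓ ex lg) {σ : Shape N n}
    {P : Fin N → MvPolynomial (Fin N) ℤ} (hP : ∀ i, i ∉ B → (P i).vars ⊆ insert i B)
    {α : Fin 3 → ℤ} {z0 z : Fin N → ℤ} (h0 : PtOK ℓ σ B P z0) (h1 : PtOK ℓ σ B P z)
    (hcl : ∀ i, ((ℓ ^ 2 * (ℓ - 1) : ℕ) : ℤ) ∣ z i - z0 i)
    {φ : Fin N → PowerSeries (SS ℓ B)} {Λ : Fin n → PowerSeries (SS ℓ B)}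
    {y : Fin 3 → PowerSeries (SS ℓ B)}
    (S : Ser ℓ B σ P α z0 (fun s => lg (z0 (σ.bs s) : ℤ_[ℓ])) φ Λ y)
    {ev : PowerSeries ℤ_[ℓ] →+* ℤ_[ℓ]} (hev : IsEv ℓ ev) {t : {x // x ∈ B} → ℤ}
    (ht : ∀ b, z b.1 = z0 b.1 + ℓ * t b) (s : Fin n) {g : PowerSeries ℤ_[ℓ]}
    (hg : iQ ℓ g = spS ℓ B t (Λ s)) : ev g = lg (z (σ.bs s) : ℤ_[ℓ]) := by
  obtain ⟨hz, hd⟩ := log_aux hℓ3 EL hP h0 h1 hcl S hev ht s hg
  set x : ℤ_[ℓ] := (z (σ.bs s) : ℤ_[ℓ]) with hx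
  set x0 : ℤ_[ℓ] := (z0 (σ.bs s) : ℤ_[ℓ]) with hx0
  have hu : IsUnit x := isUnit_cast (h1.base s)
  have hu0 : IsUnit x0 := isUnit_cast (h0.base s)
  have hl1 : ((ℓ - 1 : ℕ) : ℤ_[ℓ]) = (ℓ : ℤ_[ℓ]) - 1 := by
    rw [Nat.cast_sub (Fact.out : ℓ.Prime).one_lt.le, Nat.cast_one]
  have hdg : (ℓ : ℤ_[ℓ]) ∣ ev g := by
    have := dvd_add hd (EL.dvd x0)
    rwa [sub_add_cancel] at this
  have e1 : ex (((ℓ : ℤ_[ℓ]) - 1) * ev g) = ex (((ℓ : ℤ_[ℓ]) - 1) * lg x) := by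
    rw [EL.spec x hu]
    have e2 : ((ℓ : ℤ_[ℓ]) - 1) * ev g =
        ((ℓ : ℤ_[ℓ]) - 1) * lg x0 + ((ℓ : ℤ_[ℓ]) - 1) * (ev g - lg x0) := by ring
    rw [e2, EL.add _ _ ((EL.dvd x0).mul_left _) (hd.mul_left _), EL.spec x0 hu0, ← hl1,
      ex_nsmul EL hd, ← mul_pow, ← hz]
  have e3 := EL.inj _ _ (hdg.mul_left _) ((EL.dvd x).mul_left _) e1
  have e4 : (ℓ : ℤ_[ℓ]) - 1 ≠ 0 := by
    rw [← hl1]
    have : (ℓ - 1 : ℕ) ≠ 0 := by omega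
    exact_mod_cast this
  exact mul_left_cancel₀ e4 e3

theorem ev_mem (hℓ3 : 3 ≤ ℓ) {ex lg : ℤ_[ℓ] → ℤ_[ℓ]} (EL : IsEL ℓ ex lg) {σ : Shape N n}
    {P : Fin N → MvPolynomial (Fin N) ℤ} (hP : ∀ i, i ∉ B → (P i).vars ⊆ insert i B)
    {α : Fin 3 → ℤ} {z0 z : Fin N → ℤ} (h0 : PtOK ℓ σ B P z0) (h1 : PtOK ℓ σ B P z)
    (hcl : ∀ i, ((ℓ ^ 2 * (ℓ - 1) : ℕ) : ℤ) ∣ z i - z0 i)
    {φ : Fin N → PowerSeries (SS ℓ B)} {Λ : Fin n → PowerSeries (SS ℓ B)}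
    {y : Fin 3 → PowerSeries (SS ℓ B)}
    (S : Ser ℓ B σ P α z0 (fun s => lg (z0 (σ.bs s) : ℤ_[ℓ])) φ Λ y)
    {ev : PowerSeries ℤ_[ℓ] →+* ℤ_[ℓ]} (hev : IsEv ℓ ev) {t : {x // x ∈ B} → ℤ}
    (ht : ∀ b, z b.1 = z0 b.1 + ℓ * t b) (r : Fin 3) {g : PowerSeries ℤ_[ℓ]}
    (hg : iQ ℓ g = spS ℓ B t (y r)) : ev g = ((mm σ α z r : ℤ) : ℤ_[ℓ]) := by
  classical
  have htd := ht_dvd hcl ht
  have hp : ∀ s : Fin n, ∃ p : PowerSeries ℤ_[ℓ], iQ ℓ p = spS ℓ B t (φ (σ.es s)) :=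
    fun s => lift_int (S.int (σ.es s)) t
  have hq : ∀ s : Fin n, ∃ q : PowerSeries ℤ_[ℓ], iQ ℓ q = spS ℓ B t (Λ s) ∧
      ∀ k, 1 ≤ k → (ℓ : ℤ_[ℓ]) ∣ PowerSeries.coeff k q :=
    fun s => exists_lift hℓ3 (S.Λhz s) (S.Λhom s) htd
  choose p hp using hp
  choose q hq hqk using hq
  set T : Finset (Fin n) := Finset.univ.filter (fun s => σ.mem s = r) with hT
  set w : PowerSeries ℤ_[ℓ] := ∑ s ∈ T, p s * q s with hw
  have hiw : iQ ℓ w = spS ℓ B t (wr ℓ σ φ Λ r) := by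
    rw [hw, wr, map_sum, map_sum]
    refine Finset.sum_congr rfl fun s _ => ?_
    rw [map_mul, map_mul, hp, hq]
  have hode : PowerSeries.derivative ℤ_[ℓ] g = g * PowerSeries.derivative ℤ_[ℓ] w := by
    apply iQ_inj
    rw [map_mul, map_der, map_der, hiw, hg, ← map_der, ← map_der, ← map_mul, S.yode r]
  have hq0 : ∀ s, PowerSeries.constantCoeff (q s) = lg (z0 (σ.bs s) : ℤ_[ℓ]) :=
    fun s => cc_C (hq s) (S.Λcst s)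
  have hp0 : ∀ s, PowerSeries.constantCoeff (p s) = (z0 (σ.es s) : ℤ_[ℓ]) :=
    fun s => cc_int (hp s) (S.cst (σ.es s))
  have hqd : ∀ s k, (ℓ : ℤ_[ℓ]) ∣ PowerSeries.coeff k (q s) := by
    intro s k
    cases k with
    | zero =>
      rw [PowerSeries.coeff_zero_eq_constantCoeff_apply, hq0]
      exact EL.dvd _
    | succ k => exact hqk s _ (Nat.succ_le_succ (Nat.zero_le k))
  have hwd : ∀ k, (ℓ : ℤ_[ℓ]) ∣ PowerSeries.coeff k w := by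
    intro k
    rw [hw, map_sum]
    refine Finset.dvd_sum fun s _ => ?_
    rw [PowerSeries.coeff_mul]
    exact Finset.dvd_sum fun x _ => (hqd s x.2).mul_left _
  have hser := EL.ser ev hev (w - PowerSeries.C (PowerSeries.constantCoeff w)) g
    (dvd_of_coeffs (by rw [map_sub, PowerSeries.constantCoeff_C, sub_self]) (by
      intro k hk1
      rw [map_sub, PowerSeries.coeff_C, if_neg (by omega), sub_zero]
      exact hwd k)) (by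
      rw [map_sub, PowerSeries.derivative_C, sub_zero, hode])
  have hcg : PowerSeries.constantCoeff g = ((mm σ α z0 r : ℤ) : ℤ_[ℓ]) := cc_int hg (S.ycst r)
  have hevp : ∀ s, ev (p s) = (z (σ.es s) : ℤ_[ℓ]) := fun s =>
    ev_phi hP S.toPathS hev h1.eqn h1.jac (cl1 hcl) ht (σ.es s) (hp s)
  have hevq : ∀ s, ev (q s) = lg (z (σ.bs s) : ℤ_[ℓ]) := fun s =>
    ev_log hℓ3 EL hP h0 h1 hcl S hev ht s (hq s)
  have hevw : ev (w - PowerSeries.C (PowerSeries.constantCoeff w)) =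
      ∑ s ∈ T, ((z (σ.es s) : ℤ_[ℓ]) * lg (z (σ.bs s) : ℤ_[ℓ]) -
        (z0 (σ.es s) : ℤ_[ℓ]) * lg (z0 (σ.bs s) : ℤ_[ℓ])) := by
    rw [map_sub, hev.C, hw, map_sum, map_sum, ← Finset.sum_sub_distrib]
    refine Finset.sum_congr rfl fun s _ => ?_
    rw [map_mul, map_mul, hevp, hevq, hp0, hq0]
  rw [hser, hevw, hcg, ex_sum EL T _ fun s _ =>
    dvd_sub ((EL.dvd _).mul_left _) ((EL.dvd _).mul_left _)]
  unfold mm
  rw [← hT]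
  push_cast
  rw [mul_assoc, ← Finset.prod_mul_distrib]
  congr 1
  refine Finset.prod_congr rfl fun s _ => ?_
  have hlog := (log_aux hℓ3 EL hP h0 h1 hcl S hev ht s (hq s)).1
  rw [hevq s] at hlog
  have ne : ((z (σ.es s)).toNat : ℤ) = z (σ.es s) := Int.toNat_of_nonneg (by linarith [h1.pos (σ.es s)])
  have ne0 : ((z0 (σ.es s)).toNat : ℤ) = z0 (σ.es s) := Int.toNat_of_nonneg (by linarith [h0.pos (σ.es s)])
  have hd : ((ℓ - 1 : ℕ) : ℤ) ∣ ((z (σ.es s)).toNat : ℤ) - ((z0 (σ.es s)).toNat : ℤ) := by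
    rw [ne, ne0]
    exact cl2 hcl (σ.es s)
  have key := per_factor EL (isUnit_cast (h1.base s)) hlog hd
  have c1 : (z (σ.es s) : ℤ_[ℓ]) = (((z (σ.es s)).toNat : ℕ) : ℤ_[ℓ]) := by
    rw [← Int.cast_natCast, ne]
  have c0 : (z0 (σ.es s) : ℤ_[ℓ]) = (((z0 (σ.es s)).toNat : ℕ) : ℤ_[ℓ]) := by
    rw [← Int.cast_natCast, ne0]
  rw [c1, c0]
  exact key

end Pool.Agent.Lib.FewY
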