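import Pool.Agent.Lib.FewY.HLExp

/-!
# The p-adic exponential of a nonzero integer is irrational

For an odd prime `p` and an integer `b ≠ 0` divisible by `p` the p-adic number `exp b` is not
rational (the rational case of the p-adic Hermite-Lindemann theorem). Proof: Siegel's lemma gives
a nonzero `f = ∑ P j (X) * exp (j b X)` vanishing to order `T` at `0, ..., M - 1`; the Schwarz
lemma and the product formula show that `f` vanishes to every order at these points, so `f = 0`,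
against the linear independence of the functions `exp (j b X)` over the polynomials.
-/

open PowerSeries

namespace Pool.Agent.Lib.FewY
namespace HL

/-! ### Sizes -/

/-- The sum of the absolute values of the first `D` coefficients. -/
def L1 (D : ℕ) (P : Polynomial ℤ) : ℤ := ∑ i ∈ Finset.range D, |P.coeff i|

theorem L1_nonneg (D : ℕ) (P : Polynomial ℤ) : 0 ≤ L1 D P := Finset.sum_nonneg fun _ _ => abs_nonneg _

theorem L1_derivative {D : ℕ} {P : Polynomial ℤ} (hD : P.natDegree < D) :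
    L1 D (Polynomial.derivative P) ≤ D * L1 D P := by
  unfold L1
  have h1 : ∑ i ∈ Finset.range D, |(Polynomial.derivative P).coeff i| =
      ∑ i ∈ Finset.range (D + 1), |P.coeff i| * i := by
    rw [Finset.sum_range_succ']
    simp only [Nat.cast_zero, mul_zero, add_zero]
    refine Finset.sum_congr rfl fun i _ => ?_
    rw [Polynomial.coeff_derivative, abs_mul]
    congr 1
  rw [h1, Finset.sum_range_succ, Polynomial.coeff_eq_zero_of_natDegree_lt hD, abs_zero, zero_mul,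
    add_zero, Finset.mul_sum]
  refine Finset.sum_le_sum fun i hi => ?_
  rw [mul_comm]
  have : (i : ℤ) ≤ D := by
    have := Finset.mem_range.1 hi
    exact_mod_cast this.le
  exact mul_le_mul_of_nonneg_right this (abs_nonneg _)

theorem L1_twist {D : ℕ} {P : Polynomial ℤ} (hD : P.natDegree < D) (c : ℤ) :
    L1 D (Polynomial.derivative P + Polynomial.C c * P) ≤ (D + |c|) * L1 D P := by
  have h1 := L1_derivative hD
  have h2 : L1 D (Polynomial.derivative P + Polynomial.C c * P) ≤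
      L1 D (Polynomial.derivative P) + |c| * L1 D P := by
    unfold L1
    rw [Finset.mul_sum, ← Finset.sum_add_distrib]
    refine Finset.sum_le_sum fun i _ => ?_
    rw [Polynomial.coeff_add, Polynomial.coeff_C_mul]
    refine (abs_add_le _ _).trans ?_
    rw [abs_mul]
  linarith

theorem abs_eval_le {D : ℕ} {P : Polynomial ℤ} (hD : P.natDegree < D) {m M : ℕ} (hm : m ≤ M)
    (hM : 1 ≤ M) : |P.eval (m : ℤ)| ≤ L1 D P * M ^ D := by
  rw [Polynomial.eval_eq_sum_range' hD]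
  refine (Finset.abs_sum_le_sum_abs _ _).trans ?_
  unfold L1
  rw [Finset.sum_mul]
  refine Finset.sum_le_sum fun i hi => ?_
  rw [abs_mul, abs_pow, abs_of_nonneg (by positivity : (0 : ℤ) ≤ m)]
  refine mul_le_mul_of_nonneg_left ?_ (abs_nonneg _)
  calc (m : ℤ) ^ i ≤ (M : ℤ) ^ i := pow_le_pow_left₀ (by positivity) (by exact_mod_cast hm) _
    _ ≤ (M : ℤ) ^ D := pow_le_pow_right₀ (by exact_mod_cast hM) (Finset.mem_range.1 hi).le

/-- One step of the action of the derivative on a polynomial coefficient. -/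
noncomputable def Tm (c : ℤ) : Polynomial ℤ →ₗ[ℤ] Polynomial ℤ :=
  Polynomial.derivative + c • LinearMap.id

theorem Tm_apply (c : ℤ) (P : Polynomial ℤ) :
    Tm c P = Polynomial.derivative P + Polynomial.C c * P := by
  unfold Tm
  simp [Polynomial.smul_eq_C_mul]

theorem T_iter {ι : Type*} (c : ι → ℤ) (P : ι → Polynomial ℤ) (t : ℕ) (i : ι) :
    ((T c)^[t] P) i = (Tm (c i) ^ t) (P i) := by
  induction t with
  | zero => simp
  | succ t ih =>
    rw [Function.iterate_succ_apply', pow_succ', Module.End.mul_apply, ← ih, Tm_apply]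
    rfl

theorem natDegree_Tm {D : ℕ} {P : Polynomial ℤ} (hD : P.natDegree < D) (c : ℤ) (t : ℕ) :
    ((Tm c ^ t) P).natDegree < D := by
  induction t with
  | zero => simpa using hD
  | succ t ih =>
    rw [pow_succ', Module.End.mul_apply, Tm_apply]
    refine (Polynomial.natDegree_add_le _ _).trans_lt (max_lt ?_ ?_)
    · exact ((Polynomial.natDegree_derivative_le _).trans (Nat.sub_le _ _)).trans_lt ih
    · exact (Polynomial.natDegree_C_mul_le _ _).trans_lt ih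

theorem L1_Tm {D : ℕ} {P : Polynomial ℤ} (hD : P.natDegree < D) {c Λ : ℤ} (hΛ : D + |c| ≤ Λ)
    (t : ℕ) : L1 D ((Tm c ^ t) P) ≤ Λ ^ t * L1 D P := by
  have hΛ0 : 0 ≤ Λ := le_trans (by positivity) hΛ
  induction t with
  | zero => simp
  | succ t ih =>
    rw [pow_succ', Module.End.mul_apply, Tm_apply]
    calc _ ≤ (D + |c|) * L1 D ((Tm c ^ t) P) := L1_twist (natDegree_Tm hD c t) c
      _ ≤ Λ * (Λ ^ t * L1 D P) := mul_le_mul hΛ ih (L1_nonneg _ _) hΛ0
      _ = Λ ^ (t + 1) * L1 D P := by ring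

theorem abs_eval_Tm {D : ℕ} {P : Polynomial ℤ} (hD : P.natDegree < D) {c Λ : ℤ} (hΛ : D + |c| ≤ Λ)
    (t : ℕ) {m M : ℕ} (hm : m ≤ M) (hM : 1 ≤ M) :
    |((Tm c ^ t) P).eval (m : ℤ)| ≤ Λ ^ t * L1 D P * M ^ D :=
  (abs_eval_le (natDegree_Tm hD c t) hm hM).trans
    (mul_le_mul_of_nonneg_right (L1_Tm hD hΛ t) (by positivity))

/-! ### The product formula -/

theorem one_le_mul_norm {p : ℕ} [hp : Fact p.Prime] {x : ℤ} (hx : x ≠ 0) :
    1 ≤ ((|x| : ℤ) : ℝ) * ‖(x : ℚ_[p])‖ := by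
  have hx' : (x : ℚ_[p]) ≠ 0 := by exact_mod_cast hx
  rw [Padic.norm_eq_zpow_neg_valuation hx', Padic.valuation_intCast, zpow_neg, zpow_natCast]
  have hdvd : ((p : ℤ) ^ padicValInt p x) ∣ x := padicValInt_dvd x
  have hle : (p : ℤ) ^ padicValInt p x ≤ |x| := Int.le_of_dvd (abs_pos.2 hx) ((dvd_abs _ _).2 hdvd)
  have hpos : (0 : ℝ) < (p : ℝ) ^ padicValInt p x := by
    have : (0 : ℝ) < p := by exact_mod_cast hp.out.pos
    positivity
  rw [← div_eq_mul_inv, one_le_div hpos]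
  exact_mod_cast hle

/-! ### The list of zeros -/

/-- Each of `0, ..., M - 1` repeated `S` times. -/
def Lst (S : ℕ) : ℕ → List ℕ
  | 0 => []
  | M + 1 => List.replicate S M ++ Lst S M

theorem length_Lst (S M : ℕ) : (Lst S M).length = S * M := by
  induction M with
  | zero => simp [Lst]
  | succ M ih =>
    rw [Lst, List.length_append, List.length_replicate, ih]
    ring

theorem count_Lst (S M m : ℕ) : (Lst S M).count m = if m < M then S else 0 := by
  induction M with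
  | zero => simp [Lst]
  | succ M ih =>
    rw [Lst, List.count_append, ih, List.count_replicate]
    by_cases h : m = M
    · subst h; simp
    · have h' : (M == m) = false := by simpa using Ne.symm h
      rw [h']
      by_cases h2 : m < M
      · simp [h2, Nat.lt_succ_of_lt h2]
      · have : ¬ m < M + 1 := by omega
        simp [h2, this]

/-! ### The core -/

attribute [local instance] Matrix.seminormedAddCommGroup

theorem core {p : ℕ} [hp : Fact p.Prime] (hp3 : 3 ≤ p) {b : ℤ} (hb : (p : ℤ) ∣ b) (hb0 : b ≠ 0)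
    {u v : ℤ} (hv : 0 < v) (hr : pexp p b * v = u) {M T0 D0 Λ V : ℕ} (hM : 1 ≤ M) (hT : 1 ≤ T0)
    (hD : D0 * M = 2 * (T0 * M)) (hΛ : (D0 : ℤ) + M * |b| ≤ Λ) (hu : |u| ≤ V) (hvV : v ≤ V)
    (hbig : ∀ S, T0 ≤ S →
      ((D0 * M) ^ 2 * Λ ^ (S + T0) * M ^ (2 * D0) * V ^ (2 * (M * M))) ^ 2 * p ^ D0 < p ^ (S * M)) :
    False := by
  classical
  have hD0 : 1 ≤ D0 := by
    rcases Nat.eq_zero_or_pos D0 with h | h
    · subst h
      have : 0 < T0 * M := Nat.mul_pos hT hM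
      omega
    · exact h
  have hvne : (v : ℚ_[p]) ≠ 0 := by exact_mod_cast hv.ne'
  have hΛ1 : (1 : ℤ) ≤ Λ := by
    have h1 : (0 : ℤ) ≤ M * |b| := by positivity
    have h2 : (1 : ℤ) ≤ D0 := by exact_mod_cast hD0
    linarith
  have hV1 : (1 : ℤ) ≤ V := le_trans (by omega) hvV
  set c : Fin M → ℤ := fun j => (j : ℤ) * b with hc
  have hcp : ∀ j, (p : ℤ) ∣ c j := fun j => Dvd.dvd.mul_left hb _
  have hcΛ : ∀ j, (D0 : ℤ) + |c j| ≤ Λ := by
    intro j
    refine le_trans ?_ hΛ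
    simp only [hc, abs_mul]
    have : |((j : ℕ) : ℤ)| ≤ M := by
      rw [abs_of_nonneg (by positivity)]
      exact_mod_cast j.2.le
    have h3 := mul_le_mul_of_nonneg_right this (abs_nonneg b)
    linarith
  -- the weights coming from the exponentials
  set w : ℕ → Fin M → ℤ := fun m j => u ^ ((j : ℕ) * m) * v ^ (M * M - (j : ℕ) * m) with hw
  have hjm : ∀ (j : Fin M) (m : ℕ), m < M → (j : ℕ) * m ≤ M * M :=
    fun j m hm => Nat.mul_le_mul j.2.le hm.le
  have hwV : ∀ (m : ℕ) (j : Fin M), m < M → |w m j| ≤ (V : ℤ) ^ (M * M) := by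
    intro m j hm
    simp only [hw, abs_mul, abs_pow]
    calc |u| ^ ((j : ℕ) * m) * |v| ^ (M * M - (j : ℕ) * m)
        ≤ (V : ℤ) ^ ((j : ℕ) * m) * (V : ℤ) ^ (M * M - (j : ℕ) * m) :=
          mul_le_mul (pow_le_pow_left₀ (abs_nonneg _) hu _)
            (pow_le_pow_left₀ (abs_nonneg _) (by rw [abs_of_pos hv]; exact hvV) _)
            (by positivity) (by positivity)
      _ = (V : ℤ) ^ (M * M) := by rw [← pow_add, Nat.add_sub_cancel' (hjm j m hm)]
  -- Siegel's lemma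
  set A : Matrix (Fin T0 × Fin M) (Fin D0 × Fin M) ℤ := fun tm ij =>
    ((Tm (c ij.2) ^ (tm.1 : ℕ)) (Polynomial.X ^ (ij.1 : ℕ))).eval ((tm.2 : ℕ) : ℤ) *
      w tm.2 ij.2 with hA
  have hXdeg : ∀ i : Fin D0, (Polynomial.X ^ (i : ℕ) : Polynomial ℤ).natDegree < D0 := by
    intro i
    rw [Polynomial.natDegree_X_pow]
    exact i.2
  have hXL1 : ∀ i : Fin D0, L1 D0 (Polynomial.X ^ (i : ℕ)) = 1 := by
    intro i
    unfold L1
    rw [Finset.sum_eq_single (i : ℕ)]
    · simp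
    · intro k _ hk
      rw [Polynomial.coeff_X_pow, if_neg hk, abs_zero]
    · intro h
      exact absurd (Finset.mem_range.2 i.2) h
  have hAle : ∀ tm ij, |A tm ij| ≤ (Λ : ℤ) ^ T0 * (M : ℤ) ^ D0 * (V : ℤ) ^ (M * M) := by
    intro tm ij
    simp only [hA, abs_mul]
    have h1 := abs_eval_Tm (hXdeg ij.1) (hcΛ ij.2) (tm.1 : ℕ) (m := (tm.2 : ℕ)) tm.2.2.le hM
    rw [hXL1, mul_one] at h1
    have h2 : (Λ : ℤ) ^ (tm.1 : ℕ) ≤ (Λ : ℤ) ^ T0 := pow_le_pow_right₀ hΛ1 tm.1.2.le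
    exact mul_le_mul (h1.trans (mul_le_mul_of_nonneg_right h2 (by positivity)))
      (hwV _ _ tm.2.2) (abs_nonneg _) (by positivity)
  have hcardα : Fintype.card (Fin T0 × Fin M) = T0 * M := by simp
  have hcardβ : Fintype.card (Fin D0 × Fin M) = D0 * M := by simp
  have hTM : 0 < T0 * M := Nat.mul_pos hT hM
  obtain ⟨a, ha0, hAa, hanorm⟩ := Int.Matrix.exists_ne_zero_int_vec_norm_le A
    (by rw [hcardα, hcardβ]; omega) (by rw [hcardα]; exact hTM)
  rw [hcardα, hcardβ] at hanorm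
  have hexp : ((T0 * M : ℕ) : ℝ) / (((D0 * M : ℕ) : ℝ) - ((T0 * M : ℕ) : ℝ)) = 1 := by
    rw [hD]
    have : (0 : ℝ) < ((T0 * M : ℕ) : ℝ) := by exact_mod_cast hTM
    rw [div_eq_one_iff_eq (by push_cast at this ⊢; nlinarith)]
    push_cast
    ring
  rw [hexp, Real.rpow_one] at hanorm
  set X0 : ℤ := (D0 * M : ℕ) * ((Λ : ℤ) ^ T0 * (M : ℤ) ^ D0 * (V : ℤ) ^ (M * M)) with hX0
  have hM1 : (1 : ℤ) ≤ M := by exact_mod_cast hM
  have hW1 : (1 : ℤ) ≤ (Λ : ℤ) ^ T0 * (M : ℤ) ^ D0 * (V : ℤ) ^ (M * M) := by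
    have h1 := one_le_pow₀ hΛ1 (n := T0)
    have h2 := one_le_pow₀ hM1 (n := D0)
    have h3 := one_le_pow₀ hV1 (n := M * M)
    exact one_le_mul_of_one_le_of_one_le (one_le_mul_of_one_le_of_one_le h1 h2) h3
  have haX : ∀ ij, |a ij| ≤ X0 := by
    intro ij
    have h1 : ‖a ij‖ ≤ ‖a‖ := norm_le_pi_norm a ij
    have h2 : ‖A‖ ≤ (((Λ : ℤ) ^ T0 * (M : ℤ) ^ D0 * (V : ℤ) ^ (M * M) : ℤ) : ℝ) := by
      rw [Matrix.norm_le_iff (by positivity)]
      intro tm ij
      rw [Int.norm_eq_abs]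
      exact_mod_cast hAle tm ij
    have h3 : max 1 ‖A‖ ≤ (((Λ : ℤ) ^ T0 * (M : ℤ) ^ D0 * (V : ℤ) ^ (M * M) : ℤ) : ℝ) :=
      max_le (by exact_mod_cast hW1) h2
    have h4 : ‖a ij‖ ≤ ((D0 * M : ℕ) : ℝ) * (((Λ : ℤ) ^ T0 * (M : ℤ) ^ D0 * (V : ℤ) ^ (M * M) : ℤ) : ℝ) :=
      h1.trans (hanorm.trans (mul_le_mul_of_nonneg_left h3 (by positivity)))
    rw [Int.norm_eq_abs] at h4
    have h5 : ((|a ij| : ℤ) : ℝ) ≤ ((X0 : ℤ) : ℝ) := by
      rw [hX0]
      push_cast at h4 ⊢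
      exact h4
    exact_mod_cast h5
  -- the auxiliary function
  set P : Fin M → Polynomial ℤ := fun j =>
    ∑ i : Fin D0, Polynomial.C (a (i, j)) * Polynomial.X ^ (i : ℕ) with hP
  have hPcoeff : ∀ (j : Fin M) (k : ℕ), (P j).coeff k = if h : k < D0 then a (⟨k, h⟩, j) else 0 := by
    intro j k
    simp only [hP, Polynomial.finsetSum_coeff, Polynomial.coeff_C_mul, Polynomial.coeff_X_pow]
    split_ifs with h
    · rw [Finset.sum_eq_single (⟨k, h⟩ : Fin D0)]
      · simp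
      · intro i _ hi
        rw [if_neg, mul_zero]
        intro hk
        exact hi (Fin.ext hk.symm)
      · intro h'
        exact absurd (Finset.mem_univ _) h'
    · refine Finset.sum_eq_zero fun i _ => ?_
      rw [if_neg, mul_zero]
      intro hk
      exact h (hk ▸ i.2)
  have hPdeg : ∀ j, (P j).natDegree < D0 := by
    intro j
    rw [Nat.lt_iff_le_pred (by omega)]
    rw [Polynomial.natDegree_le_iff_coeff_eq_zero]
    intro N hN
    rw [hPcoeff, dif_neg (by omega)]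
  have hPL1 : ∀ j, L1 D0 (P j) ≤ D0 * X0 := by
    intro j
    unfold L1
    calc ∑ i ∈ Finset.range D0, |(P j).coeff i| ≤ ∑ _i ∈ Finset.range D0, X0 := by
          refine Finset.sum_le_sum fun i hi => ?_
          rw [hPcoeff, dif_pos (Finset.mem_range.1 hi)]
          exact haX _
      _ = D0 * X0 := by simp
  set f : PowerSeries ℚ_[p] := F p c P with hf
  set Z : ℕ → ℕ → ℤ := fun t m =>
    ∑ j : Fin M, ((Tm (c j) ^ t) (P j)).eval (m : ℤ) * w m j with hZ
  have hevZ : ∀ t m, m < M → ((Z t m : ℤ) : ℚ_[p]) =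
      (v : ℚ_[p]) ^ (M * M) * ev ((d⁄dX ℚ_[p])^[t] f) (m : ℚ_[p]) := by
    intro t m hm
    rw [hf, iterDeriv_F, ev_F hp3 hcp (natDegree_T hPdeg t), Finset.mul_sum]
    simp only [hZ]
    push_cast
    refine Finset.sum_congr rfl fun j _ => ?_
    rw [T_iter]
    have h1 : pexp p (c j) = pexp p b ^ (j : ℕ) := pexp_nsmul hp3 hb _
    have h2 : pexp p b = u / v := by
      rw [eq_div_iff hvne]; exact hr
    rw [h1, h2, ← pow_mul]
    simp only [hw]
    push_cast
    have h3 : (v : ℚ_[p]) ^ (M * M) = (v : ℚ_[p]) ^ (M * M - (j : ℕ) * m) * (v : ℚ_[p]) ^ ((j : ℕ) * m) := by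
      rw [← pow_add, Nat.sub_add_cancel (hjm j m hm)]
    rw [h3, div_pow]
    field_simp
  have hZabs : ∀ t m, m < M → |Z t m| ≤
      (D0 * M) ^ 2 * (Λ : ℤ) ^ (t + T0) * (M : ℤ) ^ (2 * D0) * (V : ℤ) ^ (2 * (M * M)) := by
    intro t m hm
    simp only [hZ]
    refine (Finset.abs_sum_le_sum_abs _ _).trans ?_
    have h1 : ∀ j : Fin M, |((Tm (c j) ^ t) (P j)).eval (m : ℤ) * w m j| ≤
        ((Λ : ℤ) ^ t * (D0 * X0) * (M : ℤ) ^ D0) * (V : ℤ) ^ (M * M) := by
      intro j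
      rw [abs_mul]
      have h2 := abs_eval_Tm (hPdeg j) (hcΛ j) t (m := m) hm.le hM
      have h3 : (Λ : ℤ) ^ t * L1 D0 (P j) * (M : ℤ) ^ D0 ≤ (Λ : ℤ) ^ t * (D0 * X0) * (M : ℤ) ^ D0 :=
        mul_le_mul_of_nonneg_right (mul_le_mul_of_nonneg_left (hPL1 j) (by positivity)) (by positivity)
      exact mul_le_mul (h2.trans h3) (hwV m j hm) (abs_nonneg _) (by positivity)
    refine (Finset.sum_le_sum fun j _ => h1 j).trans ?_
    rw [Finset.sum_const, Finset.card_univ, Fintype.card_fin, nsmul_eq_mul, hX0]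
    apply le_of_eq
    push_cast
    ring
  have hZ0 : ∀ t m, t < T0 → m < M → Z t m = 0 := by
    intro t m ht hm
    have h := congrFun hAa (⟨t, ht⟩, ⟨m, hm⟩)
    rw [Matrix.mulVec, dotProduct, Fintype.sum_prod_type_right] at h
    simp only [Pi.zero_apply] at h
    rw [← h]
    simp only [hZ, hA, hP]
    refine Finset.sum_congr rfl fun j _ => ?_
    rw [map_sum, Polynomial.eval_finsetSum, Finset.sum_mul]
    refine Finset.sum_congr rfl fun i _ => ?_
    rw [← Polynomial.smul_eq_C_mul, map_smul, Polynomial.eval_smul, smul_eq_mul]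
    ring
  -- extrapolation
  have hvan : ∀ S, ∀ t m, t < S → m < M → ev ((d⁄dX ℚ_[p])^[t] f) (m : ℚ_[p]) = 0 := by
    have hzero : ∀ t m, m < M → Z t m = 0 → ev ((d⁄dX ℚ_[p])^[t] f) (m : ℚ_[p]) = 0 := by
      intro t m hm h
      have h1 := hevZ t m hm
      rw [h, Int.cast_zero] at h1
      exact (mul_eq_zero.1 h1.symm).resolve_left (pow_ne_zero _ hvne)
    intro S
    induction S with
    | zero => intro t m ht; omega
    | succ S ih =>
      intro t m ht hm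
      rcases Nat.lt_succ_iff_lt_or_eq.1 ht with h | h
      · exact ih t m h hm
      · subst h
        by_cases hlt : t < T0
        · exact hzero t m hm (hZ0 t m hlt hm)
        · push Not at hlt
          apply hzero t m hm
          by_contra hne
          have hB := Bd_F hp3 hcp hPdeg
          have hV' : Van f (Lst t M) := by
            intro m' s hs
            rw [count_Lst] at hs
            split_ifs at hs with h2
            · exact ih s m' hs h2
            · omega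
          have hco := coeff_le_of_van rho_pos rho_lt_one (Lst t M) f _ hB hV'
          rw [length_Lst] at hco
          have h0 := rho_pos (p := p)
          have hev := norm_ev_iterDeriv_le (by positivity) hco t (norm_nat_le (p := p) m)
          have hZn : ‖((Z t m : ℤ) : ℚ_[p])‖ ≤ (rho p)⁻¹ ^ D0 * rho p ^ (t * M) := by
            rw [hevZ t m hm, norm_mul, norm_pow]
            calc ‖(v : ℚ_[p])‖ ^ (M * M) * ‖ev ((d⁄dX ℚ_[p])^[t] f) (m : ℚ_[p])‖
                ≤ 1 * ((rho p)⁻¹ ^ D0 * rho p ^ (t * M)) :=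
                  mul_le_mul (pow_le_one₀ (norm_nonneg _) (Padic.norm_int_le_one _)) hev
                    (norm_nonneg _) zero_le_one
              _ = _ := one_mul _
          have h1 := one_le_mul_norm (p := p) hne
          set W : ℕ := (D0 * M) ^ 2 * Λ ^ (t + T0) * M ^ (2 * D0) * V ^ (2 * (M * M)) with hWdef
          have hZW : ((|Z t m| : ℤ) : ℝ) ≤ (W : ℝ) := by
            have := hZabs t m hm
            rw [hWdef]
            exact_mod_cast this
          have h2 : 1 ≤ (W : ℝ) * ((rho p)⁻¹ ^ D0 * rho p ^ (t * M)) :=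
            h1.trans (mul_le_mul hZW hZn (norm_nonneg _) (by positivity))
          have h3 : 1 ≤ ((W : ℝ) * ((rho p)⁻¹ ^ D0 * rho p ^ (t * M))) ^ 2 := one_le_pow₀ h2
          have hpp : (0 : ℝ) < p := by exact_mod_cast hp.out.pos
          have h4 : ((W : ℝ) * ((rho p)⁻¹ ^ D0 * rho p ^ (t * M))) ^ 2 =
              (W : ℝ) ^ 2 * (p : ℝ) ^ D0 / (p : ℝ) ^ (t * M) := by
            have e1 : (rho p)⁻¹ ^ 2 = (p : ℝ) := by rw [inv_pow, rho_sq, inv_inv]
            have e2 : ((rho p)⁻¹ ^ D0) ^ 2 = (p : ℝ) ^ D0 := by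
              rw [← pow_mul, mul_comm, pow_mul, e1]
            have e3 : (rho p ^ (t * M)) ^ 2 = ((p : ℝ) ^ (t * M))⁻¹ := by
              rw [← pow_mul, mul_comm, pow_mul, rho_sq, inv_pow]
            rw [mul_pow, mul_pow, e2, e3]
            ring
          rw [h4, one_le_div (by positivity)] at h3
          have h5 := hbig t hlt
          rw [← hWdef] at h5
          have h6 : ((W : ℝ) ^ 2 * (p : ℝ) ^ D0) < (p : ℝ) ^ (t * M) := by exact_mod_cast h5
          linarith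
  -- so `f = 0`
  have hf0 : f = 0 := by
    ext t
    have h := hvan (t + 1) t 0 (Nat.lt_succ_self t) hM
    rw [Nat.cast_zero, ev_zero_right, coeff_zero_iterDeriv, zero_add] at h
    rw [map_zero]
    refine (mul_eq_zero.1 h).resolve_right ?_
    exact_mod_cast (Nat.ascFactorial_pos 0 t).ne'
  have hinj : Function.Injective fun j : Fin M => ((c j : ℤ) : ℚ_[p]) := by
    intro i j hij
    have hij' : ((c i : ℤ) : ℚ_[p]) = ((c j : ℤ) : ℚ_[p]) := hij
    have h1 : c i = c j := by exact_mod_cast hij'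
    simp only [hc] at h1
    have h2 := mul_right_cancel₀ hb0 h1
    exact Fin.ext (by exact_mod_cast h2)
  have hlin := E_linearIndependent (K := ℚ_[p]) (fun j : Fin M => ((c j : ℤ) : ℚ_[p])) hinj _
    (fun j => (P j).map (Int.castRingHom ℚ_[p])) rfl hf0
  apply ha0
  funext ij
  have h1 := congrArg (fun Q => Polynomial.coeff Q (ij.1 : ℕ)) (hlin ij.2)
  simp only [Polynomial.coeff_map, Polynomial.coeff_zero, hPcoeff, dif_pos ij.1.2] at h1
  have h2 : ((a ij : ℤ) : ℚ_[p]) = 0 := h1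
  exact_mod_cast h2

/-! ### The parameters -/

theorem eventually_poly_lt (A k : ℕ) {B : ℕ} (hB : 2 ≤ B) :
    ∀ᶠ q : ℕ in Filter.atTop, A * q ^ k < B ^ q := by
  have hB1 : (1 : ℝ) < B := by exact_mod_cast hB
  have h := tendsto_pow_const_div_const_pow_of_one_lt k hB1
  have hA : (0 : ℝ) < 1 / (A + 1) := by positivity
  filter_upwards [h.eventually (gt_mem_nhds hA)] with q hq
  have hpos : (0 : ℝ) < (B : ℝ) ^ q := by positivity
  rw [div_lt_div_iff₀ hpos (by positivity), one_mul] at hq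
  have h2 : (A : ℝ) * (q : ℝ) ^ k ≤ (q : ℝ) ^ k * (A + 1) := by
    have : (0 : ℝ) ≤ (q : ℝ) ^ k := by positivity
    nlinarith
  have h3 : (A : ℝ) * (q : ℝ) ^ k < (B : ℝ) ^ q := lt_of_le_of_lt h2 hq
  exact_mod_cast h3

theorem exists_params {p : ℕ} (hp3 : 3 ≤ p) (β V : ℕ) :
    ∃ M T0 D0 Λ : ℕ, 1 ≤ M ∧ 1 ≤ T0 ∧ D0 * M = 2 * (T0 * M) ∧ D0 + M * β ≤ Λ ∧
      ∀ S, T0 ≤ S →
      ((D0 * M) ^ 2 * Λ ^ (S + T0) * M ^ (2 * D0) * V ^ (2 * (M * M))) ^ 2 * p ^ D0 < p ^ (S * M) := by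
  obtain ⟨κ, hκ1, hκ⟩ : ∃ κ : ℕ, 1 ≤ κ ∧ V ^ 16 ≤ p ^ κ := by
    refine ⟨V ^ 16 + 1, by omega, ?_⟩
    calc V ^ 16 ≤ V ^ 16 + 1 := Nat.le_succ _
      _ ≤ p ^ (V ^ 16 + 1) := (Nat.lt_pow_self (by omega)).le
  have h1 := eventually_poly_lt ((16 * κ + 8 * β) ^ 4) 4 (B := p ^ 2) (by nlinarith)
  have h2 := eventually_poly_lt ((128 * κ) ^ 4 * 8 ^ (64 * κ) * p ^ (16 * κ)) (8 + 64 * κ)
    (B := p ^ (16 * κ)) (le_trans (by rw [pow_one]; omega : 2 ≤ p ^ 1) (Nat.pow_le_pow_right (by omega) (by omega)))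
  obtain ⟨q, hq1, hqa, hqb⟩ := ((Filter.eventually_ge_atTop 1).and (h1.and h2)).exists
  refine ⟨8 * q, 8 * κ * q, 16 * κ * q, (16 * κ + 8 * β) * q, by omega, ?_, by ring, ?_, ?_⟩
  · exact Nat.succ_le_of_lt (by positivity)
  · apply le_of_eq; ring
  intro S hS
  have hΛ1 : 1 ≤ (16 * κ + 8 * β) * q := Nat.succ_le_of_lt (by positivity)
  set Λ := (16 * κ + 8 * β) * q with hΛ
  have hp1 : 1 ≤ p := by omega
  have hA : Λ ^ 4 ≤ p ^ (2 * q) := by
    rw [hΛ, mul_pow, pow_mul]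
    exact hqa.le
  have hA' : (Λ ^ (S + 8 * κ * q)) ^ 2 ≤ p ^ (2 * q * S) := by
    calc (Λ ^ (S + 8 * κ * q)) ^ 2 = Λ ^ ((S + 8 * κ * q) * 2) := by rw [← pow_mul]
      _ ≤ Λ ^ (4 * S) := Nat.pow_le_pow_right hΛ1 (by omega)
      _ = (Λ ^ 4) ^ S := by rw [pow_mul]
      _ ≤ (p ^ (2 * q)) ^ S := Nat.pow_le_pow_left hA _
      _ = p ^ (2 * q * S) := by rw [← pow_mul]
  have hB : (V ^ (2 * (8 * q * (8 * q)))) ^ 2 ≤ p ^ (16 * κ * q * q) := by
    calc (V ^ (2 * (8 * q * (8 * q)))) ^ 2 = (V ^ 16) ^ (16 * q * q) := by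
          rw [← pow_mul, ← pow_mul]; congr 1; ring
      _ ≤ (p ^ κ) ^ (16 * q * q) := Nat.pow_le_pow_left hκ _
      _ = p ^ (16 * κ * q * q) := by rw [← pow_mul]; congr 1; ring
  have hC : ((16 * κ * q * (8 * q)) ^ 2) ^ 2 * ((8 * q) ^ (2 * (16 * κ * q))) ^ 2 * p ^ (16 * κ * q) <
      p ^ (16 * κ * q * q) := by
    have e1 : ((128 * κ) ^ 4 * 8 ^ (64 * κ) * p ^ (16 * κ)) * q ^ (8 + 64 * κ) =
        ((16 * κ * q * (8 * q)) ^ 2) ^ 2 * (8 * q) ^ (64 * κ) * p ^ (16 * κ) := by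
      rw [pow_add, mul_pow 8 q]
      ring
    have hlt : ((16 * κ * q * (8 * q)) ^ 2) ^ 2 * (8 * q) ^ (64 * κ) * p ^ (16 * κ) < p ^ (16 * κ * q) := by
      rw [← e1, pow_mul p (16 * κ) q]
      exact hqb
    have hpos : 1 ≤ ((16 * κ * q * (8 * q)) ^ 2) ^ 2 := Nat.succ_le_of_lt (by positivity)
    have hq0 : q ≠ 0 := by omega
    have eB : ((8 * q) ^ (2 * (16 * κ * q))) ^ 2 = ((8 * q) ^ (64 * κ)) ^ q := by
      rw [← pow_mul, ← pow_mul]
      congr 1
      ring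
    have eC : p ^ (16 * κ * q) = (p ^ (16 * κ)) ^ q := pow_mul _ _ _
    calc ((16 * κ * q * (8 * q)) ^ 2) ^ 2 * ((8 * q) ^ (2 * (16 * κ * q))) ^ 2 * p ^ (16 * κ * q)
        ≤ (((16 * κ * q * (8 * q)) ^ 2) ^ 2) ^ q * ((8 * q) ^ (64 * κ)) ^ q * (p ^ (16 * κ)) ^ q := by
          rw [eB, eC]
          exact Nat.mul_le_mul_right _ (Nat.mul_le_mul_right _ (Nat.le_self_pow hq0 _))
      _ = (((16 * κ * q * (8 * q)) ^ 2) ^ 2 * (8 * q) ^ (64 * κ) * p ^ (16 * κ)) ^ q := by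
          rw [mul_pow (((16 * κ * q * (8 * q)) ^ 2) ^ 2 * (8 * q) ^ (64 * κ)) (p ^ (16 * κ)) q,
            mul_pow (((16 * κ * q * (8 * q)) ^ 2) ^ 2) ((8 * q) ^ (64 * κ)) q]
      _ < (p ^ (16 * κ * q)) ^ q := Nat.pow_lt_pow_left hlt (by omega)
      _ = p ^ (16 * κ * q * q) := by rw [← pow_mul]
  have hS2 : 16 * κ * q * q ≤ 2 * q * S := by
    calc 16 * κ * q * q = 2 * q * (8 * κ * q) := by ring
      _ ≤ 2 * q * S := Nat.mul_le_mul_left _ hS
  calc ((16 * κ * q * (8 * q)) ^ 2 * Λ ^ (S + 8 * κ * q) * (8 * q) ^ (2 * (16 * κ * q)) *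
        V ^ (2 * (8 * q * (8 * q)))) ^ 2 * p ^ (16 * κ * q)
      = (((16 * κ * q * (8 * q)) ^ 2) ^ 2 * ((8 * q) ^ (2 * (16 * κ * q))) ^ 2 * p ^ (16 * κ * q)) *
        ((Λ ^ (S + 8 * κ * q)) ^ 2 * (V ^ (2 * (8 * q * (8 * q)))) ^ 2) := by ring
    _ < p ^ (16 * κ * q * q) * (p ^ (2 * q * S) * p ^ (16 * κ * q * q)) := by
        refine Nat.mul_lt_mul_of_lt_of_le hC (Nat.mul_le_mul hA' hB) (by positivity)
    _ = p ^ (16 * κ * q * q + (2 * q * S + 16 * κ * q * q)) := by rw [pow_add, pow_add]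
    _ ≤ p ^ (S * (8 * q)) := by
        refine Nat.pow_le_pow_right hp1 ?_
        calc 16 * κ * q * q + (2 * q * S + 16 * κ * q * q) ≤ 2 * q * S + (2 * q * S + 2 * q * S) := by
              omega
          _ ≤ S * (8 * q) := by nlinarith [Nat.zero_le (q * S)]

end HL

/-- **The p-adic Hermite-Lindemann theorem, rational case.** For an odd prime `p` and an integer
`b ≠ 0` divisible by `p`, the p-adic number `exp b` is irrational. -/
theorem herm_lind {p : ℕ} [hp : Fact p.Prime] (hp3 : 3 ≤ p) {b : ℤ} (hb : (p : ℤ) ∣ b) (hb0 : b ≠ 0)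
    (r : ℚ) : ¬ HasSum (fun n : ℕ => (b : ℚ_[p]) ^ n / (n.factorial : ℚ_[p])) (r : ℚ_[p]) := by
  intro h
  have h1 : HL.pexp p b = (r : ℚ_[p]) := (HL.pexp_hasSum hp3 hb).unique h
  have h2 : HL.pexp p b * ((r.den : ℤ) : ℚ_[p]) = ((r.num : ℤ) : ℚ_[p]) := by
    rw [h1]
    have := Rat.mul_den_eq_num r
    exact_mod_cast congrArg (fun q : ℚ => (q : ℚ_[p])) this
  obtain ⟨M, T0, D0, Λ, hM, hT, hD, hΛ, hbig⟩ :=
    HL.exists_params hp3 b.natAbs (max r.num.natAbs r.den)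
  refine HL.core hp3 hb hb0 (u := r.num) (v := r.den) (by exact_mod_cast r.den_pos) h2 hM hT hD ?_ ?_ ?_
    hbig
  · rw [Int.abs_eq_natAbs]
    exact_mod_cast hΛ
  · rw [Int.abs_eq_natAbs]
    exact_mod_cast le_max_left _ _
  · exact_mod_cast le_max_right _ _

end Pool.Agent.Lib.FewY
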