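import Pool.Agent.Lib.FewY.LinFormA
import Pool.Agent.Lib.FewY.HermLind

/-!
# FewY.LinFormB: the linear form in logarithms

`E` is the `ℓ`-adic exponential, `ξ s` the logarithm of `x s`.
-/

namespace Pool.Agent.Lib.FewY

namespace LinFormBAux

variable {ℓ : ℕ} [Fact ℓ.Prime] {E : ℤ_[ℓ] → ℤ_[ℓ]}

theorem E_nat (hE0 : E 0 = 1)
    (hEadd : ∀ x y, (ℓ : ℤ_[ℓ]) ∣ x → (ℓ : ℤ_[ℓ]) ∣ y → E (x + y) = E x * E y)
    {y : ℤ_[ℓ]} (hy : (ℓ : ℤ_[ℓ]) ∣ y) (n : ℕ) : E (n * y) = E y ^ n := by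
  induction n with
  | zero => simp [hE0]
  | succ n ih =>
    have e : ((n + 1 : ℕ) : ℤ_[ℓ]) * y = n * y + y := by push_cast; ring
    rw [e, hEadd _ _ (hy.mul_left _) hy, ih, pow_succ]

theorem E_int (hE0 : E 0 = 1)
    (hEadd : ∀ x y, (ℓ : ℤ_[ℓ]) ∣ x → (ℓ : ℤ_[ℓ]) ∣ y → E (x + y) = E x * E y)
    {y : ℤ_[ℓ]} (hy : (ℓ : ℤ_[ℓ]) ∣ y) (c : ℤ) :
    ((E (c * y) : ℤ_[ℓ]) : ℚ_[ℓ]) = ((E y : ℤ_[ℓ]) : ℚ_[ℓ]) ^ c := by
  obtain ⟨n, rfl | rfl⟩ := c.eq_nat_or_neg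
  · rw [Int.cast_natCast, E_nat hE0 hEadd hy, zpow_natCast]
    push_cast
    rfl
  · have h1 : E (((-(n : ℤ) : ℤ) : ℤ_[ℓ]) * y) * E (n * y) = 1 := by
      rw [← hEadd _ _ (hy.mul_left _) (hy.mul_left _), ← hE0]
      congr 1
      push_cast
      ring
    rw [E_nat hE0 hEadd hy] at h1
    have h2 : ((E (((-(n : ℤ) : ℤ) : ℤ_[ℓ]) * y) : ℤ_[ℓ]) : ℚ_[ℓ]) *
        ((E y : ℤ_[ℓ]) : ℚ_[ℓ]) ^ n = 1 := by
      have h3 := congrArg (fun t : ℤ_[ℓ] => (t : ℚ_[ℓ])) h1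
      push_cast at h3
      exact h3
    rw [zpow_neg, zpow_natCast]
    exact eq_inv_of_mul_eq_one_left h2

theorem E_sum (hE0 : E 0 = 1)
    (hEadd : ∀ x y, (ℓ : ℤ_[ℓ]) ∣ x → (ℓ : ℤ_[ℓ]) ∣ y → E (x + y) = E x * E y)
    {n : ℕ} (x : Fin n → ℤ) (ξ : Fin n → ℤ_[ℓ]) (hξ : ∀ s, (ℓ : ℤ_[ℓ]) ∣ ξ s)
    (hEξ : ∀ s, E (((ℓ - 1 : ℕ) : ℤ_[ℓ]) * ξ s) = ((x s : ℤ) : ℤ_[ℓ]) ^ (ℓ - 1))
    (S : Finset (Fin n)) (c : Fin n → ℤ) :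
    ((E (((ℓ - 1 : ℕ) : ℤ_[ℓ]) * ∑ s ∈ S, (c s : ℤ_[ℓ]) * ξ s) : ℤ_[ℓ]) : ℚ_[ℓ]) =
      (((∏ s ∈ S, (x s : ℚ) ^ c s) ^ (ℓ - 1) : ℚ) : ℚ_[ℓ]) := by
  classical
  induction S using Finset.induction_on with
  | empty => simp [hE0]
  | insert a S ha ih =>
    rw [Finset.sum_insert ha, Finset.prod_insert ha, mul_add,
      hEadd _ _ (((hξ a).mul_left _).mul_left _)
        ((Finset.dvd_sum fun s _ => (hξ s).mul_left _).mul_left _), mul_pow]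
    push_cast at ih ⊢
    rw [ih]
    congr 1
    have e : ((ℓ - 1 : ℕ) : ℤ_[ℓ]) * ((c a : ℤ_[ℓ]) * ξ a) =
        (c a : ℤ_[ℓ]) * (((ℓ - 1 : ℕ) : ℤ_[ℓ]) * ξ a) := by ring
    have h1 := E_int hE0 hEadd ((hξ a).mul_left ((ℓ - 1 : ℕ) : ℤ_[ℓ])) (c a)
    rw [e, h1, hEξ a]
    push_cast
    rw [← zpow_natCast, ← zpow_natCast, ← zpow_mul, ← zpow_mul, mul_comm]

end LinFormBAux

open LinFormBAux LinFormAAux in
theorem lin_form_abs {ℓ : ℕ} [Fact ℓ.Prime] (hℓ3 : 3 ≤ ℓ) (E : ℤ_[ℓ] → ℤ_[ℓ]) (hE0 : E 0 = 1)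
    (hEadd : ∀ x y, (ℓ : ℤ_[ℓ]) ∣ x → (ℓ : ℤ_[ℓ]) ∣ y → E (x + y) = E x * E y)
    (hEinj : ∀ x, (ℓ : ℤ_[ℓ]) ∣ x → E x = 1 → x = 0)
    (hEsum : ∀ x : ℤ_[ℓ], (ℓ : ℤ_[ℓ]) ∣ x →
      HasSum (fun n : ℕ => (x : ℚ_[ℓ]) ^ n / (n.factorial : ℚ_[ℓ])) (E x : ℚ_[ℓ]))
    {n : ℕ} (x : Fin n → ℤ) (hx : ∀ s, 1 ≤ x s) (ξ : Fin n → ℤ_[ℓ])
    (hξ : ∀ s, (ℓ : ℤ_[ℓ]) ∣ ξ s)
    (hEξ : ∀ s, E (((ℓ - 1 : ℕ) : ℤ_[ℓ]) * ξ s) = ((x s : ℤ) : ℤ_[ℓ]) ^ (ℓ - 1))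
    (mem : Fin n → Fin 3) (m : Fin 3 → ℤ) (hm : ∀ r, 0 < m r) (hdvd : ∀ s, x s ∣ m (mem s))
    (hsum : m 0 + m 1 = m 2) (hcop : IsCoprime (m 0) (m 1)) (Q : Fin 3 → ℤ) (W : Fin n → ℤ)
    (H : ℤ) (hH : ∀ r, |Q r| ≤ H) (hbig : 4 * H < m 2)
    (h : (m 0 : ℤ_[ℓ]) * (Q 0 + ∑ s with mem s = 0, (W s : ℤ_[ℓ]) * ξ s) +
      (m 1 : ℤ_[ℓ]) * (Q 1 + ∑ s with mem s = 1, (W s : ℤ_[ℓ]) * ξ s) -
      (m 2 : ℤ_[ℓ]) * (Q 2 + ∑ s with mem s = 2, (W s : ℤ_[ℓ]) * ξ s) = 0) :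
    ((Q 0 : ℤ_[ℓ]) + ∑ s with mem s = 0, (W s : ℤ_[ℓ]) * ξ s) -
      (Q 2 + ∑ s with mem s = 2, (W s : ℤ_[ℓ]) * ξ s) = 0 := by
  classical
  have hℓ0 : (((ℓ - 1 : ℕ) : ℤ)) ≠ 0 := by
    have : ℓ - 1 ≠ 0 := by omega
    exact_mod_cast this
  have hℓ1 : ℓ - 1 ≠ 0 := by omega
  have hℓZ : ((ℓ - 1 : ℕ) : ℤ_[ℓ]) ≠ 0 := by exact_mod_cast hℓ1
  -- the rational numbers `u r`
  obtain ⟨u, hu⟩ : ∃ u : Fin 3 → ℚ, u = fun r => ∏ s with mem s = r, (x s : ℚ) ^ W s := ⟨_, rfl⟩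
  obtain ⟨eps, heps⟩ : ∃ eps : Fin 3 → ℤ, eps = ![1, 1, -1] := ⟨_, rfl⟩
  obtain ⟨β, hβ⟩ : ∃ β : ℤ, β = m 0 * Q 0 + m 1 * Q 1 - m 2 * Q 2 := ⟨_, rfl⟩
  obtain ⟨η, hη⟩ : ∃ η : Fin n → ℤ, η = fun s => eps (mem s) * m (mem s) * W s := ⟨_, rfl⟩
  -- splitting a sum over the members
  have hsplit : ∀ f : Fin n → ℤ_[ℓ], ∑ s, f s =
      (∑ s with mem s = 0, f s) + (∑ s with mem s = 1, f s) + ∑ s with mem s = 2, f s := by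
    intro f
    rw [← Finset.sum_fiberwise Finset.univ mem f, Fin.sum_univ_three]
  have hsplitP : ∀ f : Fin n → ℚ, ∏ s, f s =
      (∏ s with mem s = 0, f s) * (∏ s with mem s = 1, f s) * ∏ s with mem s = 2, f s := by
    intro f
    rw [← Finset.prod_fiberwise Finset.univ mem f, Fin.prod_univ_three]
  have h1 : (β : ℤ_[ℓ]) + ∑ s, (η s : ℤ_[ℓ]) * ξ s = 0 := by
    rw [hsplit]
    have e0 : ∀ r : Fin 3, ∑ s with mem s = r, (η s : ℤ_[ℓ]) * ξ s =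
        (eps r : ℤ_[ℓ]) * (m r : ℤ_[ℓ]) * ∑ s with mem s = r, (W s : ℤ_[ℓ]) * ξ s := by
      intro r
      rw [Finset.mul_sum]
      refine Finset.sum_congr rfl fun s hs => ?_
      rw [Finset.mem_filter] at hs
      rw [hη]
      simp only [hs.2]
      push_cast
      ring
    rw [e0, e0, e0, heps, hβ]
    simp only [Matrix.cons_val_zero, Matrix.cons_val_one, Matrix.cons_val_two, Matrix.head_cons,
      Matrix.tail_cons]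
    push_cast
    linear_combination h
  -- `ℓ ∣ β`
  have hβd : (ℓ : ℤ_[ℓ]) ∣ (β : ℤ_[ℓ]) := by
    have e : (β : ℤ_[ℓ]) = -∑ s, (η s : ℤ_[ℓ]) * ξ s := by linear_combination h1
    rw [e, dvd_neg]
    exact Finset.dvd_sum fun s _ => (hξ s).mul_left _
  have hβd' : (ℓ : ℤ) ∣ β := by
    rw [← PadicInt.norm_lt_one_iff_dvd, PadicInt.norm_int_lt_one_iff_dvd] at hβd
    exact hβd
  have hE1 := E_sum hE0 hEadd x ξ hξ hEξ Finset.univ η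
  have hβ0 : β = 0 := by
    by_contra hne
    have hb : (ℓ : ℤ) ∣ -(((ℓ - 1 : ℕ) : ℤ) * β) := (hβd'.mul_left _).neg_right
    have hb0 : -(((ℓ - 1 : ℕ) : ℤ) * β) ≠ 0 := neg_ne_zero.2 (mul_ne_zero hℓ0 hne)
    refine herm_lind hℓ3 hb hb0 ((∏ s, (x s : ℚ) ^ η s) ^ (ℓ - 1)) ?_
    rw [← hE1]
    have e : ((ℓ - 1 : ℕ) : ℤ_[ℓ]) * ∑ s, (η s : ℤ_[ℓ]) * ξ s =
        ((-(((ℓ - 1 : ℕ) : ℤ) * β) : ℤ) : ℤ_[ℓ]) := by
      push_cast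
      linear_combination ((ℓ - 1 : ℕ) : ℤ_[ℓ]) * h1
    rw [e]
    have h2 := hEsum ((-(((ℓ - 1 : ℕ) : ℤ) * β) : ℤ) : ℤ_[ℓ]) (by
      rw [← PadicInt.norm_lt_one_iff_dvd, PadicInt.norm_int_lt_one_iff_dvd]
      exact hb)
    rw [PadicInt.coe_intCast] at h2
    exact h2
  -- the product is one
  have hxpos : ∀ s, (0 : ℚ) < (x s : ℚ) := fun s => by
    have := hx s
    exact_mod_cast (by omega : (0 : ℤ) < x s)
  have hprod : ∏ s, (x s : ℚ) ^ η s = 1 := by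
    have h2 : ∑ s, (η s : ℤ_[ℓ]) * ξ s = 0 := by
      rw [hβ0] at h1
      simpa using h1
    rw [h2, mul_zero, hE0] at hE1
    have h3 : (((∏ s, (x s : ℚ) ^ η s) ^ (ℓ - 1) : ℚ) : ℚ_[ℓ]) = ((1 : ℚ) : ℚ_[ℓ]) := by
      rw [← hE1]
      simp
    have h4 : (∏ s, (x s : ℚ) ^ η s) ^ (ℓ - 1) = 1 := by exact_mod_cast h3
    exact (pow_eq_one_iff_of_nonneg (Finset.prod_nonneg fun s _ => (zpow_pos (hxpos s) _).le)
      hℓ1).1 h4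
  have hur : ∀ r : Fin 3, ∏ s with mem s = r, (x s : ℚ) ^ η s = u r ^ (eps r * m r) := by
    intro r
    rw [hu]
    simp only
    rw [← Finset.prod_zpow]
    refine Finset.prod_congr rfl fun s hs => ?_
    rw [Finset.mem_filter] at hs
    rw [← zpow_mul, hη]
    simp only [hs.2]
    congr 1
    ring
  rw [hsplitP, hur, hur, hur] at hprod
  -- supports
  obtain ⟨mN, hmN⟩ : ∃ mN : Fin 3 → ℕ, mN = fun r => (m r).toNat := ⟨_, rfl⟩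
  have hmc : ∀ r, ((mN r : ℕ) : ℤ) = m r := fun r => by
    rw [hmN]
    exact Int.toNat_of_nonneg (hm r).le
  have hmNpos : ∀ r, 0 < mN r := fun r => by
    have := hm r
    have h2 := hmc r
    omega
  have c01 : Nat.Coprime (mN 0) (mN 1) := by
    rw [← Nat.isCoprime_iff_coprime, hmc, hmc]
    exact hcop
  have hs2 : mN 0 + mN 1 = mN 2 := by
    have h2 : ((mN 0 : ℕ) : ℤ) + ((mN 1 : ℕ) : ℤ) = ((mN 2 : ℕ) : ℤ) := by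
      rw [hmc, hmc, hmc, hsum]
    exact_mod_cast h2
  have c02 : Nat.Coprime (mN 0) (mN 2) := by
    rw [← hs2]
    exact (Nat.coprime_self_add_right).2 c01
  have c12 : Nat.Coprime (mN 1) (mN 2) := by
    rw [← hs2, add_comm]
    exact (Nat.coprime_self_add_right).2 c01.symm
  have hsupp : ∀ r, Supp (mN r) (u r) := by
    intro r
    rw [hu]
    refine supp_prod _ _ fun s hs => ?_
    rw [Finset.mem_filter] at hs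
    have hxN : (((x s).toNat : ℕ) : ℤ) = x s := Int.toNat_of_nonneg (by have := hx s; omega)
    have e : (x s : ℚ) = (((x s).toNat : ℕ) : ℚ) := by exact_mod_cast hxN.symm
    rw [e]
    apply supp_zpow
    · have := hx s
      omega
    · have h2 := hdvd s
      rw [hs.2, ← hmc r, ← hxN] at h2
      exact_mod_cast h2
  have heps0 : eps 0 = 1 := by rw [heps]; rfl
  have heps1 : eps 1 = 1 := by rw [heps]; rfl
  have heps2 : eps 2 = -1 := by rw [heps]; rfl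
  have hmne : ∀ r, eps r ≠ 0 → eps r * m r ≠ 0 := fun r hr => mul_ne_zero hr (hm r).ne'
  have u0 : u 0 = 1 := key (hmNpos 0) c01 c02 (hsupp 0) (hsupp 1) (hsupp 2)
    (hmne 0 (by rw [heps0]; norm_num)) hprod
  have u2 : u 2 = 1 := key (hmNpos 2) c02.symm c12.symm (hsupp 2) (hsupp 0) (hsupp 1)
    (hmne 2 (by rw [heps2]; norm_num)) (by rw [← hprod]; ring)
  -- the logarithmic parts vanish
  have hlog : ∀ r, u r = 1 → ∑ s with mem s = r, (W s : ℤ_[ℓ]) * ξ s = 0 := by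
    intro r hr
    have h2 := E_sum hE0 hEadd x ξ hξ hEξ (Finset.univ.filter fun s => mem s = r) W
    have h3 : ∏ s with mem s = r, (x s : ℚ) ^ W s = u r := by rw [hu]
    rw [h3, hr, one_pow] at h2
    have h4 : E (((ℓ - 1 : ℕ) : ℤ_[ℓ]) * ∑ s with mem s = r, (W s : ℤ_[ℓ]) * ξ s) = 1 := by
      have h5 : ((E (((ℓ - 1 : ℕ) : ℤ_[ℓ]) * ∑ s with mem s = r, (W s : ℤ_[ℓ]) * ξ s) :
          ℤ_[ℓ]) : ℚ_[ℓ]) = ((1 : ℤ_[ℓ]) : ℚ_[ℓ]) := by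
        rw [h2]
        simp
      exact Subtype.ext h5
    have h5 := hEinj _ ((Finset.dvd_sum fun s _ => (hξ s).mul_left _).mul_left _) h4
    exact (mul_eq_zero.1 h5).resolve_left hℓZ
  rw [hlog 0 u0, hlog 2 u2, add_zero, add_zero]
  -- the height argument
  have hbeta : m 0 * (Q 0 - Q 2) + m 1 * (Q 1 - Q 2) = 0 := by
    rw [hβ] at hβ0
    linear_combination hβ0 - Q 2 * hsum
  have b0 := abs_le.1 (hH 0)
  have b1 := abs_le.1 (hH 1)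
  have b2 := abs_le.1 (hH 2)
  have d1 : m 0 ∣ Q 1 - Q 2 := by
    apply hcop.dvd_of_dvd_mul_left
    exact ⟨-(Q 0 - Q 2), by linear_combination hbeta⟩
  have d2 : m 1 ∣ Q 0 - Q 2 := by
    apply hcop.symm.dvd_of_dvd_mul_left
    exact ⟨-(Q 1 - Q 2), by linear_combination hbeta⟩
  have hfin : Q 0 - Q 2 = 0 := by
    rcases lt_or_ge (2 * H) (m 0) with h | h
    · have h4 : Q 1 - Q 2 = 0 := Int.eq_zero_of_abs_lt_dvd d1 (by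
        rw [abs_lt]; constructor <;> linarith)
      rw [h4, mul_zero, add_zero] at hbeta
      exact (mul_eq_zero.1 hbeta).resolve_left (hm 0).ne'
    · have h' : 2 * H < m 1 := by linarith
      exact Int.eq_zero_of_abs_lt_dvd d2 (by
        rw [abs_lt]; constructor <;> linarith)
  have : ((Q 0 - Q 2 : ℤ) : ℤ_[ℓ]) = 0 := by rw [hfin]; simp
  push_cast at this
  exact this

end Pool.Agent.Lib.FewY
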