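import Pool.Agent.Lib.FewY.Defs
import Pool.Agent.Lib.FewY.LinFormB

/-!
# FewY.LinForm: the first order condition implies that the members have the same logarithmic derivative

`E` is the `ℓ`-adic exponential, `ξ s` the logarithm of the base `z0 (σ.bs s)`.
-/

open MvPolynomial Pool.Agent.Lib.FewX Pool.Agent.Lib.FewX.PathAux

namespace Pool.Agent.Lib.FewY

namespace LinFormAux

variable {N n : ℕ} {A : Type*} [CommRing A] (φ : Fin N → A) (Λ : Fin n → A) (τ : Fin N → A)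

theorem ez_vX (i : Fin N) : ez (pt φ Λ τ) (vX i) = φ i := by
  unfold vX pt
  rw [ez_X, Fin.append_left, Fin.append_left]

theorem ez_vL (s : Fin n) : ez (pt φ Λ τ) (vL s) = Λ s := by
  unfold vL pt
  rw [ez_X, Fin.append_left, Fin.append_right]

theorem ez_up (F : MvPolynomial (Fin N) ℤ) : ez (pt φ Λ τ) (up F : Ext N n) = ez φ F := by
  have h : (ez (pt φ Λ τ)).comp (up : MvPolynomial (Fin N) ℤ →ₐ[ℤ] Ext N n).toRingHom = ez φ := by
    apply MvPolynomial.ringHom_ext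
    · intro c
      simp
    · intro i
      have : (up (X i) : Ext N n) = vX i := by
        unfold up vX
        rw [rename_X]
      show ez (pt φ Λ τ) (up (X i) : Ext N n) = ez φ (X i)
      rw [this, ez_vX, ez_X]
  rw [← h]
  rfl

end LinFormAux

open LinFormAux

/-- the value of `q_{r,b}` at a point with logarithms `ξ` -/
theorem LinFormAux.ez_qbZ {N n : ℕ} (σ : Shape N n) (B : Finset (Fin N)) (P : Fin N → MvPolynomial (Fin N) ℤ)
    {A : Type*} [CommRing A] (z : Fin N → ℤ) (ξ : Fin n → A) (r : Fin 3) (b : Fin N) :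
    ez (pt (fun i => (z i : A)) ξ (fun _ => 0)) (qb σ B P r b) =
      ((q0 σ B P z r b : ℤ) : A) + ∑ s with σ.mem s = r,
        ((ez (pt z (fun _ => 0) (fun _ => 0)) (PiX σ * up (vf B P b (σ.es s)) : Ext N n) : ℤ) : A) *
          ξ s := by
  have hcast : ∀ F : Ext N n, (∀ i ∈ F.vars, ∀ s : Fin n, i ≠ Fin.castAdd N (Fin.natAdd N s)) →
      ez (pt (fun i => (z i : A)) ξ (fun _ => 0)) F =
        ((ez (pt z (fun _ => 0) (fun _ => 0)) F : ℤ) : A) := by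
    intro F hF
    have h1 := hom_ez (Int.castRingHom A) (pt z (fun _ => 0) (fun _ => 0) : Fin (N + n + N) → ℤ) F
    rw [eq_intCast] at h1
    rw [h1]
    apply ez_congr
    intro i hi
    have h2 := hF i hi
    revert h2
    unfold pt
    refine Fin.addCases (fun j => ?_) (fun j => ?_) i
    · refine Fin.addCases (fun j => ?_) (fun j => ?_) j
      · intro _
        simp
      · intro h2
        exact absurd rfl (h2 j)
    · intro _
      simp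
  have hX : ∀ i : Fin N, ez (pt (fun i => (z i : A)) ξ (fun _ => 0)) (vX i) = ((z i : ℤ) : A) :=
    fun i => ez_vX _ _ _ i
  have hX0 : ∀ i : Fin N, ez (pt z (fun _ => 0) (fun _ => 0)) (vX i : Ext N n) = z i :=
    fun i => ez_vX _ _ _ i
  have hU : ∀ F : MvPolynomial (Fin N) ℤ,
      ez (pt (fun i => (z i : A)) ξ (fun _ => 0)) (up F : Ext N n) = ((eval z F : ℤ) : A) := by
    intro F
    rw [ez_up, ez_cast]
  have hU0 : ∀ F : MvPolynomial (Fin N) ℤ,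
      ez (pt z (fun _ => 0) (fun _ => 0)) (up F : Ext N n) = eval z F := by
    intro F
    rw [ez_up]
    have := ez_cast (A := ℤ) z F
    simpa using this
  unfold q0 qb
  rw [map_sum, map_sum, Int.cast_sum, ← Finset.sum_add_distrib]
  refine Finset.sum_congr rfl fun s _ => ?_
  unfold PiE PiX
  simp only [map_add, map_mul, map_prod, hX, hX0, hU, hU0, ez_vL]
  push_cast
  ring

theorem lin_form {N n : ℕ} (σ : Shape N n) (B : Finset (Fin N))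
    (P : Fin N → MvPolynomial (Fin N) ℤ) (α : Fin 3 → ℤ) {ℓ : ℕ} [Fact ℓ.Prime] (hℓ3 : 3 ≤ ℓ)
    (E : ℤ_[ℓ] → ℤ_[ℓ]) (hE0 : E 0 = 1)
    (hEadd : ∀ x y, (ℓ : ℤ_[ℓ]) ∣ x → (ℓ : ℤ_[ℓ]) ∣ y → E (x + y) = E x * E y)
    (hEinj : ∀ x, (ℓ : ℤ_[ℓ]) ∣ x → E x = 1 → x = 0)
    (hEsum : ∀ x : ℤ_[ℓ], (ℓ : ℤ_[ℓ]) ∣ x →
      HasSum (fun n : ℕ => (x : ℚ_[ℓ]) ^ n / (n.factorial : ℚ_[ℓ])) (E x : ℚ_[ℓ]))
    (z0 : Fin N → ℤ) (h1 : ∀ i, 1 ≤ z0 i) (ξ : Fin n → ℤ_[ℓ]) (hξ : ∀ s, (ℓ : ℤ_[ℓ]) ∣ ξ s)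
    (hEξ : ∀ s, E (((ℓ - 1 : ℕ) : ℤ_[ℓ]) * ξ s) = ((z0 (σ.bs s) : ℤ) : ℤ_[ℓ]) ^ (ℓ - 1))
    (hpos : ∀ r, 0 < mm σ α z0 r) (habc : mm σ α z0 0 + mm σ α z0 1 = mm σ α z0 2)
    (hcop : IsCoprime (mm σ α z0 0) (mm σ α z0 1)) (b : Fin N) (H : ℤ)
    (hH : ∀ r, |q0 σ B P z0 r b| ≤ H) (hbig : 4 * H < mm σ α z0 2)
    (h : (mm σ α z0 0 : ℤ_[ℓ]) *
        ez (pt (fun i => (z0 i : ℤ_[ℓ])) ξ (fun _ => 0)) (qb σ B P 0 b) +
      (mm σ α z0 1 : ℤ_[ℓ]) *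
        ez (pt (fun i => (z0 i : ℤ_[ℓ])) ξ (fun _ => 0)) (qb σ B P 1 b) -
      (mm σ α z0 2 : ℤ_[ℓ]) *
        ez (pt (fun i => (z0 i : ℤ_[ℓ])) ξ (fun _ => 0)) (qb σ B P 2 b) = 0) :
    ez (pt (fun i => (z0 i : ℤ_[ℓ])) ξ (fun _ => 0)) (qb σ B P 0 b - qb σ B P 2 b) = 0 := by
  have hdvd : ∀ s, z0 (σ.bs s) ∣ mm σ α z0 (σ.mem s) := by
    intro s
    unfold mm
    apply Dvd.dvd.mul_left
    have h2 : z0 (σ.bs s) ^ (z0 (σ.es s)).toNat ∣
        ∏ s' ∈ Finset.univ.filter (fun s' => σ.mem s' = σ.mem s),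
          z0 (σ.bs s') ^ (z0 (σ.es s')).toNat :=
      Finset.dvd_prod_of_mem (fun s' => z0 (σ.bs s') ^ (z0 (σ.es s')).toNat)
        (Finset.mem_filter.2 ⟨Finset.mem_univ s, rfl⟩)
    refine dvd_trans (dvd_pow_self _ ?_) h2
    have := h1 (σ.es s)
    omega
  rw [ez_qbZ, ez_qbZ, ez_qbZ] at h
  rw [map_sub, ez_qbZ, ez_qbZ]
  exact lin_form_abs hℓ3 E hE0 hEadd hEinj hEsum (fun s => z0 (σ.bs s)) (fun s => h1 _) ξ hξ hEξ
    σ.mem (fun r => mm σ α z0 r) hpos hdvd habc hcop (fun r => q0 σ B P z0 r b)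
    (fun s => ez (pt z0 (fun _ => 0) (fun _ => 0)) (PiX σ * up (vf B P b (σ.es s)) : Ext N n))
    H hH hbig h

end Pool.Agent.Lib.FewY
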