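import Pool.Agent.Lib.FewY.SerDefs

/-!
# FewY.LogSer: the logarithms and the members along a path  (1.5 h)

General lemmas over `R = SS ℓ B` (a commutative `ℚ`-algebra):
(a) for every `g : PowerSeries R` and `a : R` there is `f` with `f' = g`, `constantCoeff f = a`: `coeff (k+1) f = C (1/(k+1)) * coeff k g`.
(b) for every `g` and `a` there is `f` with `f' = f * g`, `constantCoeff f = a`: recursion `coeff (k+1) f = C (1/(k+1)) * ∑_{i+j=k} coeff i f * coeff j g`.
Homogeneity: if `coeff k g` is homogeneous of degree `k + 1` for all `k` (true for `g` = the derivative of an `Hm` series) and `a = C a0`, then `Hm f` (both cases). `Hz.of_deriv` gives `Hz f` in (a) from `Hz g` and `Cn 1 a`;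
in (b) by induction on `k`: `HzK k 1 f → HzK (k+1) 1 f` (`HzK.of_deriv`, `HzK.hz_mul`).
`Λ s`: `φ (bs s)` is invertible: constant coefficient the integer `z0 (bs s)`, of norm `1` in `ℚ_[ℓ]` (so a unit of `SS ℓ B`); let `v` be its inverse: `Hz v` by `HzK.of_mul` (`c = 1`, `G = φ (bs s)`, `G * v = 1`), `Hz (φ i)` by `Hz.of_coeff`.
`g = v * (φ (bs s))'`; the coefficient of index `k` of `g` is homogeneous of degree `k + 1`: from `φ (bs s) * g = (φ (bs s))'` by induction on `k` (the constant coefficient of `φ (bs s)` is a nonzero constant). `y r`: (b) with `g = (wr r)'`, `a = mm σ α z0 r`.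
-/

open MvPolynomial Pool.Agent.Lib.FewX Pool.Agent.Lib.FewX.PathAux

namespace Pool.Agent.Lib.FewY

namespace LogSerAux

variable {σ : Type} {p : ℕ} [Fact p.Prime]

theorem nat_succ_ne (k : ℕ) : ((k : ℚ_[p]) + 1) ≠ 0 := by
  have : ((k + 1 : ℕ) : ℚ_[p]) ≠ 0 := Nat.cast_ne_zero.2 (Nat.succ_ne_zero k)
  rwa [Nat.cast_add, Nat.cast_one] at this

theorem cast_succ (k : ℕ) :
    ((k : MvPolynomial σ ℚ_[p]) + 1) = MvPolynomial.C ((k : ℚ_[p]) + 1) := by
  rw [map_add, map_natCast, map_one]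

theorem cinv (k : ℕ) : MvPolynomial.C (((k : ℚ_[p]) + 1)⁻¹) * ((k : MvPolynomial σ ℚ_[p]) + 1) = 1 := by
  rw [cast_succ, ← map_mul, inv_mul_cancel₀ (nat_succ_ne k), map_one]

/-- the recursion -/
noncomputable def seqB (g : ℕ → MvPolynomial σ ℚ_[p]) (a : MvPolynomial σ ℚ_[p]) :
    ℕ → MvPolynomial σ ℚ_[p]
  | 0 => a
  | (k + 1) => MvPolynomial.C (((k : ℚ_[p]) + 1)⁻¹) * ∑ i : Fin (k + 1), seqB g a i.1 * g (k - i.1)
  decreasing_by exact i.2

/-- a primitive -/
theorem exists_prim (g : PowerSeries (MvPolynomial σ ℚ_[p])) (a : MvPolynomial σ ℚ_[p]) :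
    ∃ f, PowerSeries.derivative (MvPolynomial σ ℚ_[p]) f = g ∧ PowerSeries.constantCoeff f = a := by
  refine ⟨PowerSeries.mk (fun n => if n = 0 then a else
    MvPolynomial.C ((((n - 1 : ℕ) : ℚ_[p]) + 1)⁻¹) * PowerSeries.coeff (n - 1) g), ?_, ?_⟩
  · ext1 k
    rw [PowerSeries.coeff_derivative, PowerSeries.coeff_mk, if_neg (Nat.succ_ne_zero k),
      Nat.add_sub_cancel]
    have h := cinv (σ := σ) (p := p) k
    linear_combination (PowerSeries.coeff k g) * h
  · rw [← PowerSeries.coeff_zero_eq_constantCoeff_apply, PowerSeries.coeff_mk, if_pos rfl]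

/-- an exponential -/
theorem exists_exp (g : PowerSeries (MvPolynomial σ ℚ_[p])) (a : MvPolynomial σ ℚ_[p]) :
    ∃ f, PowerSeries.derivative (MvPolynomial σ ℚ_[p]) f = f * g ∧
      PowerSeries.constantCoeff f = a := by
  refine ⟨PowerSeries.mk (seqB (fun k => PowerSeries.coeff k g) a), ?_, ?_⟩
  · ext1 k
    rw [PowerSeries.coeff_derivative, PowerSeries.coeff_mk, seqB, PowerSeries.coeff_mul,
      Finset.Nat.sum_antidiagonal_eq_sum_range_succ_mk, Finset.sum_range]
    simp only [PowerSeries.coeff_mk]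
    have h := cinv (σ := σ) (p := p) k
    linear_combination (∑ i : Fin (k + 1), seqB (fun k => PowerSeries.coeff k g) a i.1 *
      PowerSeries.coeff (k - i.1) g) * h
  · rw [← PowerSeries.coeff_zero_eq_constantCoeff_apply, PowerSeries.coeff_mk, seqB]

/-- the coefficient of `T^n` is homogeneous of degree `n + 1` -/
def Hd (F : PowerSeries (MvPolynomial σ ℚ_[p])) : Prop :=
  ∀ n, (PowerSeries.coeff n F).IsHomogeneous (n + 1)

theorem hom_C_mul {n : ℕ} {f : MvPolynomial σ ℚ_[p]} (a : ℚ_[p]) (h : f.IsHomogeneous n) :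
    (MvPolynomial.C a * f).IsHomogeneous n := by
  have := (MvPolynomial.isHomogeneous_C σ a).mul h
  rwa [zero_add] at this

theorem coeff_succ (F : PowerSeries (MvPolynomial σ ℚ_[p])) (k : ℕ) :
    PowerSeries.coeff (k + 1) F = MvPolynomial.C (((k : ℚ_[p]) + 1)⁻¹) *
      PowerSeries.coeff k (PowerSeries.derivative (MvPolynomial σ ℚ_[p]) F) := by
  rw [PowerSeries.coeff_derivative]
  have h := cinv (σ := σ) (p := p) k
  linear_combination -(PowerSeries.coeff (k + 1) F) * h

theorem Hd.deriv {F : PowerSeries (MvPolynomial σ ℚ_[p])} (hF : Hm F) :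
    Hd (PowerSeries.derivative (MvPolynomial σ ℚ_[p]) F) := by
  intro n
  rw [PowerSeries.coeff_derivative, cast_succ, mul_comm]
  exact hom_C_mul _ (hF (n + 1))

theorem hm_of_deriv {F : PowerSeries (MvPolynomial σ ℚ_[p])}
    (h0 : (PowerSeries.coeff 0 F).IsHomogeneous 0)
    (h : Hd (PowerSeries.derivative (MvPolynomial σ ℚ_[p]) F)) : Hm F := by
  intro n
  rcases n with _ | n
  · exact h0
  · rw [coeff_succ]
    exact hom_C_mul _ (h n)

theorem hm_of_exp {F g : PowerSeries (MvPolynomial σ ℚ_[p])}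
    (h0 : (PowerSeries.coeff 0 F).IsHomogeneous 0)
    (hF : PowerSeries.derivative (MvPolynomial σ ℚ_[p]) F = F * g) (h : Hd g) : Hm F := by
  intro n
  induction n using Nat.strong_induction_on with
  | _ n ih =>
    rcases n with _ | n
    · exact h0
    · rw [coeff_succ, hF, PowerSeries.coeff_mul]
      refine hom_C_mul _ (MvPolynomial.IsHomogeneous.sum _ _ _ fun x hx => ?_)
      have h1 : x.1 + x.2 = n := Finset.HasAntidiagonal.mem_antidiagonal.1 hx
      have h2 := (ih x.1 (by omega)).mul (h x.2)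
      rwa [show x.1 + (x.2 + 1) = n + 1 by omega] at h2

theorem hd_of_mul {F G : PowerSeries (MvPolynomial σ ℚ_[p])} (hG : Hm G) {u : ℚ_[p]}
    (hu : u ≠ 0) (h0 : PowerSeries.coeff 0 G = MvPolynomial.C u) (h : Hd (G * F)) : Hd F := by
  intro n
  induction n using Nat.strong_induction_on with
  | _ n ih =>
    have h1 := h n
    rw [PowerSeries.coeff_mul] at h1
    have hmem : ((0, n) : ℕ × ℕ) ∈ Finset.HasAntidiagonal.antidiagonal n := by simp
    rw [← Finset.add_sum_erase _ _ hmem] at h1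
    have h2 : (∑ x ∈ (Finset.HasAntidiagonal.antidiagonal n).erase (0, n),
        PowerSeries.coeff x.1 G * PowerSeries.coeff x.2 F).IsHomogeneous (n + 1) := by
      refine MvPolynomial.IsHomogeneous.sum _ _ _ fun x hx => ?_
      rw [Finset.mem_erase] at hx
      have h3 : x.1 + x.2 = n := Finset.HasAntidiagonal.mem_antidiagonal.1 hx.2
      have h4 : x.2 < n := by
        rcases Nat.eq_zero_or_pos x.1 with h5 | h5
        · exact absurd (Prod.ext h5 (by simp only; omega)) hx.1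
        · omega
      have h5 := (hG x.1).mul (ih x.2 h4)
      rwa [show x.1 + (x.2 + 1) = n + 1 by omega] at h5
    have h3 := h1.sub h2
    rw [add_sub_cancel_right] at h3
    simp only [h0] at h3
    have h4 := hom_C_mul u⁻¹ h3
    rwa [← mul_assoc, ← map_mul, inv_mul_cancel₀ hu, map_one, one_mul] at h4

theorem hz_exp {F g : PowerSeries (MvPolynomial σ ℚ_[p])}
    (h0 : Cn 1 (PowerSeries.coeff 0 F))
    (hF : PowerSeries.derivative (MvPolynomial σ ℚ_[p]) F = F * g) (h : Hz g) : Hz F := by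
  intro k
  induction k with
  | zero =>
    intro n hn
    omega
  | succ k ih =>
    refine HzK.of_deriv h0 ?_
    rw [hF, mul_comm]
    exact HzK.hz_mul zero_le_one h ih

theorem norm_eq_one {z : ℤ} (hz : ¬ (p : ℤ) ∣ z) : ‖(z : ℚ_[p])‖ = 1 := by
  have h1 := Padic.norm_int_le_one (p := p) z
  have h2 := mt (Padic.norm_intCast_lt_one_iff (p := p) (k := z)).1 hz
  exact le_antisymm h1 (not_lt.1 h2)

/-- the logarithm of a series with a unit constant coefficient -/
theorem exists_log {G : PowerSeries (MvPolynomial σ ℚ_[p])} (hG : Hz G) (hG' : Hm G) {z : ℤ}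
    (hz : ¬ (p : ℤ) ∣ z) (h0 : PowerSeries.constantCoeff G = ((z : ℤ) : MvPolynomial σ ℚ_[p]))
    (x : ℤ_[p]) :
    ∃ L : PowerSeries (MvPolynomial σ ℚ_[p]),
      PowerSeries.constantCoeff L = MvPolynomial.C (x : ℚ_[p]) ∧
      G * PowerSeries.derivative (MvPolynomial σ ℚ_[p]) L =
        PowerSeries.derivative (MvPolynomial σ ℚ_[p]) G ∧ Hz L ∧ Hm L := by
  have hn := norm_eq_one hz
  have hz0 : (z : ℚ_[p]) ≠ 0 := by
    intro h
    rw [h, norm_zero] at hn
    exact zero_ne_one hn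
  have h1 : PowerSeries.coeff 0 G = MvPolynomial.C (z : ℚ_[p]) := by
    rw [PowerSeries.coeff_zero_eq_constantCoeff_apply, h0, map_intCast]
  have hU : IsUnit G := by
    rw [PowerSeries.isUnit_iff_constantCoeff, ← PowerSeries.coeff_zero_eq_constantCoeff_apply, h1]
    exact (IsUnit.mk0 _ hz0).map MvPolynomial.C
  obtain ⟨v, hv⟩ := hU.exists_right_inv
  have hvz : Hz v := by
    intro k
    refine HzK.of_mul zero_le_one hG hn h1 ?_
    rw [hv]
    have := Hz.int (σ := σ) (p := p) 1 k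
    rwa [Int.cast_one] at this
  obtain ⟨L, hL1, hL2⟩ := exists_prim (v * PowerSeries.derivative (MvPolynomial σ ℚ_[p]) G)
    (MvPolynomial.C (x : ℚ_[p]))
  have hL3 : G * PowerSeries.derivative (MvPolynomial σ ℚ_[p]) L =
      PowerSeries.derivative (MvPolynomial σ ℚ_[p]) G := by
    rw [hL1, ← mul_assoc, hv, one_mul]
  have hd : Hd (PowerSeries.derivative (MvPolynomial σ ℚ_[p]) L) := by
    refine hd_of_mul hG' hz0 h1 ?_
    rw [hL3]
    exact Hd.deriv hG'
  refine ⟨L, hL2, hL3, ?_, ?_⟩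
  · refine Hz.of_deriv ?_ ?_
    · rw [PowerSeries.coeff_zero_eq_constantCoeff_apply, hL2]
      exact Cn.C.mono x.2
    · rw [hL1]
      exact hvz.mul hG.deriv
  · refine hm_of_deriv ?_ hd
    rw [PowerSeries.coeff_zero_eq_constantCoeff_apply, hL2]
    exact MvPolynomial.isHomogeneous_C _ _

/-- the exponential with an integral initial value -/
theorem exists_mem {w : PowerSeries (MvPolynomial σ ℚ_[p])} (hw : Hz w) (hw' : Hm w) (a : ℤ) :
    ∃ y : PowerSeries (MvPolynomial σ ℚ_[p]),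
      PowerSeries.constantCoeff y = ((a : ℤ) : MvPolynomial σ ℚ_[p]) ∧
      PowerSeries.derivative (MvPolynomial σ ℚ_[p]) y =
        y * PowerSeries.derivative (MvPolynomial σ ℚ_[p]) w ∧ Hz y ∧ Hm y := by
  obtain ⟨y, h1, h2⟩ := exists_exp (PowerSeries.derivative (MvPolynomial σ ℚ_[p]) w)
    ((a : ℤ) : MvPolynomial σ ℚ_[p])
  refine ⟨y, h2, h1, ?_, ?_⟩
  · refine hz_exp ?_ h1 hw.deriv
    rw [PowerSeries.coeff_zero_eq_constantCoeff_apply, h2]
    exact Cn.int a
  · refine hm_of_exp ?_ h1 (Hd.deriv hw')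
    rw [PowerSeries.coeff_zero_eq_constantCoeff_apply, h2,
      ← map_intCast (MvPolynomial.C (R := ℚ_[p]) (σ := σ)) a]
    exact MvPolynomial.isHomogeneous_C _ _

end LogSerAux

theorem exists_ser {N n : ℕ} (ℓ : ℕ) [Fact ℓ.Prime] {B : Finset (Fin N)} (σ : Shape N n)
    {P : Fin N → MvPolynomial (Fin N) ℤ} (α : Fin 3 → ℤ) {z0 : Fin N → ℤ} (ξ : Fin n → ℤ_[ℓ])
    (hx : ∀ s, ¬ (ℓ : ℤ) ∣ z0 (σ.bs s)) {φ : Fin N → PowerSeries (SS ℓ B)}
    (hφ : PathS ℓ B P z0 φ) :
    ∃ (Λ : Fin n → PowerSeries (SS ℓ B)) (y : Fin 3 → PowerSeries (SS ℓ B)),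
      Ser ℓ B σ P α z0 ξ φ Λ y := by
  have hφz : ∀ i, Hz (φ i) := fun i => Hz.of_coeff fun k => hφ.int i k
  have h1 : ∀ s, ∃ L : PowerSeries (SS ℓ B),
      PowerSeries.constantCoeff L = C ((ξ s : ℤ_[ℓ]) : ℚ_[ℓ]) ∧
      φ (σ.bs s) * PowerSeries.derivative (SS ℓ B) L =
        PowerSeries.derivative (SS ℓ B) (φ (σ.bs s)) ∧ Hz L ∧ Hm L := fun s =>
    LogSerAux.exists_log (hφz _) (hφ.hom _) (hx s) (hφ.cst _) (ξ s)
  choose Λ hΛ using h1
  have hwz : ∀ r, Hz (wr ℓ σ φ Λ r) := fun r =>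
    Hz.sum _ fun s _ => (hφz _).mul (hΛ s).2.2.1
  have hwh : ∀ r, Hm (wr ℓ σ φ Λ r) := fun r =>
    Hm.sum _ fun s _ => (hφ.hom _).mul (hΛ s).2.2.2
  have h2 : ∀ r, ∃ y : PowerSeries (SS ℓ B),
      PowerSeries.constantCoeff y = ((mm σ α z0 r : ℤ) : SS ℓ B) ∧
      PowerSeries.derivative (SS ℓ B) y =
        y * PowerSeries.derivative (SS ℓ B) (wr ℓ σ φ Λ r) ∧ Hz y ∧ Hm y := fun r =>
    LogSerAux.exists_mem (hwz r) (hwh r) (mm σ α z0 r)
  choose y hy using h2
  exact ⟨Λ, y, { toPathS := hφ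
                 Λcst := fun s => (hΛ s).1
                 Λode := fun s => (hΛ s).2.1
                 Λhz := fun s => (hΛ s).2.2.1
                 Λhom := fun s => (hΛ s).2.2.2
                 ycst := fun r => (hy r).1
                 yode := fun r => (hy r).2.1
                 yhz := fun r => (hy r).2.2.1
                 yhom := fun r => (hy r).2.2.2 }⟩

end Pool.Agent.Lib.FewY
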