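import Pool.Agent.Lib.FewY.EvMem
import Pool.Agent.Lib.FewY.ChainX

/-!
# FewY.PathFin: first order term of the equation; equal quotients at the end of the path  (1.8 h)

`first_order`: `F = FV .. (VV none) = y 0 + y 1 - y 2 = 0`. `chain_FV`: `FV .. (nab (VV none)) = 0`; its constant coefficient: `∑ r, ε_r (qq r)(z0, ξ, τ) mm z0 r = 0` in `SS ℓ B` (`nab (VV none) r = DD (±1) + qq r * (±1)`, `DD` of a constant is `0`; `qq r = ∑ b ∈ B, vT b * qb r b`,
`ez_vT`, `ez_qb`): `∑ b ∈ B, tv b * C (A b) = 0` with `A b = ∑ r ε_r (mm z0 r) * ez (pt z0 ξ 0) (qb r b)` in `ℚ_[ℓ]`. The coefficient of the monomial `single b 1` gives `A b = 0`, `b ∈ B`; back to `ℤ_[ℓ]` (injective).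
`path_quot`: from `FV .. (VV (some b)) = ez (ptS φ Λ) (qb 0 b - qb 2 b) * y 2 = 0` and `y 2 ≠ 0` (constant coefficient `mm z0 2 > 0`; `PowerSeries (SS ℓ B)` is a domain): `ez (ptS φ Λ) (qb 0 b) = ez (ptS φ Λ) (qb 2 b)` for `b ∈ B`, so `ez (ptS φ Λ) (qq 0) = ez (ptS φ Λ) (qq 2)`, so (`chain_y`)
`G (y0' y2 - y0 y2') = 0`, `G = ez (ptS φ Λ) (G0) ≠ 0` (constant coefficient the nonzero integer `Jac(z0) ∏ z0 (bs s)`), so `y0' y2 = y0 y2'`. Hence `y0 * C (m2) = C (m0) * y2`, `m_r = mm z0 r` (`FewX.PathAux.quot_const` is for fields; here: `W = y0 * C m2 - C m0 * y2`, `W' y2 = W y2'`,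
`constantCoeff W = 0`, by strong induction all the coefficients of `W` vanish: `(k+1) W_(k+1) m2 = ...`; or pass to the fraction field of `SS ℓ B` with `PowerSeries.map`). Specialise to `t` and lift (`exists_lift` for `y 0`, `y 2`; `iQ_inj`), apply `ev` and `ev_mem`: the equation in `ℤ_[ℓ]`, so in `ℤ`.
(`ev` from `exists_isEv`; `t b` with `z b = z0 b + ℓ t b` exists by `hcl`.)
-/

open MvPolynomial Pool.Agent.Lib.FewX Pool.Agent.Lib.FewX.PathAux

namespace Pool.Agent.Lib.FewY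

variable {N n : ℕ} {ℓ : ℕ} [Fact ℓ.Prime] {B : Finset (Fin N)} {σ : Shape N n}
  {P : Fin N → MvPolynomial (Fin N) ℤ} {α : Fin 3 → ℤ} {z0 : Fin N → ℤ}
  {φ : Fin N → PowerSeries (SS ℓ B)} {Λ : Fin n → PowerSeries (SS ℓ B)}
  {y : Fin 3 → PowerSeries (SS ℓ B)}

namespace PathFinAux

theorem comp_pt {A A' : Type*} (f : A → A') (φ : Fin N → A) (Λ : Fin n → A) (τ : Fin N → A) :
    (fun j => f (pt φ Λ τ j)) = pt (fun i => f (φ i)) (fun s => f (Λ s)) (fun i => f (τ i)) := by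
  funext j
  unfold pt
  refine Fin.addCases (fun j' => ?_) (fun b => ?_) j
  · refine Fin.addCases (fun i => ?_) (fun s => ?_) j'
    · rw [Fin.append_left, Fin.append_left, Fin.append_left, Fin.append_left]
    · rw [Fin.append_left, Fin.append_right, Fin.append_left, Fin.append_right]
  · rw [Fin.append_right, Fin.append_right]

theorem ez_qb_congr {A : Type*} [CommRing A] (σ : Shape N n) (B : Finset (Fin N))
    (P : Fin N → MvPolynomial (Fin N) ℤ) (φ : Fin N → A) (Λ : Fin n → A) (τ τ' : Fin N → A)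
    (r : Fin 3) (b : Fin N) :
    ez (pt φ Λ τ) (qb σ B P r b) = ez (pt φ Λ τ') (qb σ B P r b) := by
  rw [ez_qb, ez_qb]

theorem iota_inj {x y : ℤ_[ℓ]} (h : algebraMap ℤ_[ℓ] ℚ_[ℓ] x = algebraMap ℤ_[ℓ] ℚ_[ℓ] y) :
    x = y :=
  FaithfulSMul.algebraMap_injective ℤ_[ℓ] ℚ_[ℓ] h

/-- the evaluation at `T = 0` and the direction `b` -/
noncomputable def E0 (ℓ : ℕ) [Fact ℓ.Prime] (B : Finset (Fin N)) (b : Fin N) :
    PowerSeries (SS ℓ B) →+* ℚ_[ℓ] :=
  (eval (fun x : {x // x ∈ B} => if x.1 = b then (1 : ℚ_[ℓ]) else 0)).comp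
    (PowerSeries.constantCoeff (R := SS ℓ B))

theorem E0_apply (b : Fin N) (f : PowerSeries (SS ℓ B)) : E0 ℓ B b f =
    eval (fun x : {x // x ∈ B} => if x.1 = b then (1 : ℚ_[ℓ]) else 0)
      (PowerSeries.constantCoeff f) := rfl

theorem E0_tv {b b' : Fin N} (hb' : b' ∈ B) :
    E0 ℓ B b (PowerSeries.C (tv ℓ B b')) = if b' = b then 1 else 0 := by
  rw [E0_apply, PowerSeries.constantCoeff_C]
  unfold tv
  rw [dif_pos hb', eval_X]

theorem E0_phi {ξ : Fin n → ℤ_[ℓ]} (S : Ser ℓ B σ P α z0 ξ φ Λ y) (b i : Fin N) :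
    E0 ℓ B b (φ i) = algebraMap ℤ_[ℓ] ℚ_[ℓ] (z0 i : ℤ_[ℓ]) := by
  rw [E0_apply, S.cst, map_intCast, map_intCast]

theorem E0_Lam {ξ : Fin n → ℤ_[ℓ]} (S : Ser ℓ B σ P α z0 ξ φ Λ y) (b : Fin N) (s : Fin n) :
    E0 ℓ B b (Λ s) = algebraMap ℤ_[ℓ] ℚ_[ℓ] (ξ s) := by
  rw [E0_apply, S.Λcst, eval_C]
  rfl

theorem E0_y {ξ : Fin n → ℤ_[ℓ]} (S : Ser ℓ B σ P α z0 ξ φ Λ y) (b : Fin N) (r : Fin 3) :
    E0 ℓ B b (y r) = ((mm σ α z0 r : ℤ) : ℚ_[ℓ]) := by
  rw [E0_apply, S.ycst, map_intCast]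

theorem E0_qb {ξ : Fin n → ℤ_[ℓ]} (S : Ser ℓ B σ P α z0 ξ φ Λ y) (b0 : Fin N) (r : Fin 3)
    (b : Fin N) :
    E0 ℓ B b0 (ez (ptS ℓ φ Λ) (qb σ B P r b)) =
      algebraMap ℤ_[ℓ] ℚ_[ℓ]
        (ez (pt (fun i => (z0 i : ℤ_[ℓ])) ξ (fun _ => 0)) (qb σ B P r b)) := by
  rw [hom_ez, hom_ez]
  unfold ptS
  rw [comp_pt, comp_pt]
  have h1 : (fun i => E0 ℓ B b0 (φ i)) = fun i => algebraMap ℤ_[ℓ] ℚ_[ℓ] (z0 i : ℤ_[ℓ]) :=
    funext fun i => E0_phi S b0 i
  have h2 : (fun s => E0 ℓ B b0 (Λ s)) = fun s => algebraMap ℤ_[ℓ] ℚ_[ℓ] (ξ s) :=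
    funext fun s => E0_Lam S b0 s
  rw [h1, h2]
  exact ez_qb_congr σ B P _ _ _ _ r b

theorem E0_qq {ξ : Fin n → ℤ_[ℓ]} (S : Ser ℓ B σ P α z0 ξ φ Λ y) {b : Fin N} (hb : b ∈ B)
    (r : Fin 3) :
    E0 ℓ B b (ez (ptS ℓ φ Λ) (qq σ B P r)) =
      algebraMap ℤ_[ℓ] ℚ_[ℓ]
        (ez (pt (fun i => (z0 i : ℤ_[ℓ])) ξ (fun _ => 0)) (qb σ B P r b)) := by
  have h1 : ez (ptS ℓ φ Λ) (qq σ B P r) =
      ∑ b' ∈ B, PowerSeries.C (tv ℓ B b') * ez (ptS ℓ φ Λ) (qb σ B P r b') := by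
    unfold qq
    rw [map_sum]
    refine Finset.sum_congr rfl (fun b' _ => ?_)
    rw [map_mul]
    congr 1
    unfold ptS
    rw [ez_vT]
  rw [h1, map_sum, Finset.sum_eq_single_of_mem b hb]
  · rw [map_mul, E0_tv hb, if_pos rfl, one_mul, E0_qb S]
  · intro b' hb' hne
    rw [map_mul, E0_tv hb', if_neg hne, zero_mul]

theorem DD_one (σ : Shape N n) (B : Finset (Fin N)) (P : Fin N → MvPolynomial (Fin N) ℤ) :
    DD σ B P (1 : Ext N n) = 0 := by
  unfold DD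
  refine Finset.sum_eq_zero (fun v _ => ?_)
  rw [Derivation.map_one_eq_zero, mul_zero]

theorem DD_neg_one (σ : Shape N n) (B : Finset (Fin N)) (P : Fin N → MvPolynomial (Fin N) ℤ) :
    DD σ B P (-1 : Ext N n) = 0 := by
  unfold DD
  refine Finset.sum_eq_zero (fun v _ => ?_)
  rw [map_neg, Derivation.map_one_eq_zero, neg_zero, mul_zero]

theorem nab_none_0 : nab σ B P (VV σ B P none) 0 = qq σ B P 0 := by
  have h : VV σ B P none 0 = 1 := rfl
  unfold nab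
  rw [h, DD_one, zero_add, mul_one]

theorem nab_none_1 : nab σ B P (VV σ B P none) 1 = qq σ B P 1 := by
  have h : VV σ B P none 1 = 1 := rfl
  unfold nab
  rw [h, DD_one, zero_add, mul_one]

theorem nab_none_2 : nab σ B P (VV σ B P none) 2 = -qq σ B P 2 := by
  have h : VV σ B P none 2 = -1 := rfl
  unfold nab
  rw [h, DD_neg_one, zero_add, mul_neg, mul_one]

theorem VV_some_0 (b : Fin N) : VV σ B P (some b) 0 = 0 := rfl

theorem VV_some_1 (b : Fin N) : VV σ B P (some b) 1 = 0 := rfl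

theorem VV_some_2 (b : Fin N) :
    VV σ B P (some b) 2 = qb σ B P 0 b - qb σ B P 2 b := rfl

theorem eq_zero_of_ode {R : Type*} [CommRing R] [IsDomain R] [CharZero R] {c W : PowerSeries R}
    (hc : PowerSeries.constantCoeff c ≠ 0)
    (h : PowerSeries.derivative R W * c = W * PowerSeries.derivative R c)
    (h0 : PowerSeries.constantCoeff W = 0) : W = 0 := by
  have key : ∀ k, PowerSeries.coeff k W = 0 := by
    intro k
    induction k using Nat.strong_induction_on with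
    | _ k ih =>
      rcases k with _ | k
      · rw [PowerSeries.coeff_zero_eq_constantCoeff_apply]
        exact h0
      · have h1 := congrArg (PowerSeries.coeff k) h
        rw [PowerSeries.coeff_mul, PowerSeries.coeff_mul] at h1
        have h2 : ∑ x ∈ Finset.HasAntidiagonal.antidiagonal k,
            PowerSeries.coeff x.1 W * PowerSeries.coeff x.2 (PowerSeries.derivative R c) = 0 := by
          refine Finset.sum_eq_zero (fun x hx => ?_)
          have h3 : x.1 + x.2 = k := Finset.HasAntidiagonal.mem_antidiagonal.1 hx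
          rw [ih x.1 (by omega), zero_mul]
        have hmem : ((k, 0) : ℕ × ℕ) ∈ Finset.HasAntidiagonal.antidiagonal k := by simp
        rw [h2, Finset.sum_eq_single_of_mem (k, 0) hmem] at h1
        · rw [PowerSeries.coeff_derivative] at h1
          rcases mul_eq_zero.1 h1 with h3 | h3
          · rcases mul_eq_zero.1 h3 with h4 | h4
            · exact h4
            · exfalso
              have h5 : ((k + 1 : ℕ) : R) ≠ 0 := Nat.cast_ne_zero.2 (Nat.succ_ne_zero k)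
              apply h5
              rw [Nat.cast_add, Nat.cast_one]
              exact h4
          · exfalso
            apply hc
            rw [← PowerSeries.coeff_zero_eq_constantCoeff_apply]
            exact h3
        · intro x hx hne
          have h3 : x.1 + x.2 = k := Finset.HasAntidiagonal.mem_antidiagonal.1 hx
          have h4 : x.1 < k := by
            by_contra h5
            apply hne
            apply Prod.ext
            · show x.1 = k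
              omega
            · show x.2 = 0
              omega
          rw [PowerSeries.coeff_derivative, ih (x.1 + 1) (by omega), zero_mul, zero_mul]
  ext k
  rw [key, map_zero]

theorem G_ne_zero {ξ : Fin n → ℤ_[ℓ]} (h0 : PtOK ℓ σ B P z0)
    (S : Ser ℓ B σ P α z0 ξ φ Λ y) : ez (ptS ℓ φ Λ) (G0 σ B P) ≠ 0 := by
  have h1 : PowerSeries.constantCoeff (ez (ptS ℓ φ Λ) (G0 σ B P)) =
      ((eval z0 (Jac B P) * ∏ s, z0 (σ.bs s) : ℤ) : SS ℓ B) := by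
    unfold ptS
    have h2 : (fun i => PowerSeries.constantCoeff (φ i)) = fun i => ((z0 i : ℤ) : SS ℓ B) :=
      funext fun i => S.cst i
    rw [ez_G0, map_mul, hom_ez, map_prod, Int.cast_mul, Int.cast_prod, h2, ez_cast]
    congr 1
    exact Finset.prod_congr rfl (fun s _ => S.cst _)
  have h3 : eval z0 (Jac B P) ≠ 0 := by
    intro h4
    apply h0.jac
    rw [h4]
    exact dvd_zero _
  have h4 : ∏ s, z0 (σ.bs s) ≠ 0 := by
    rw [Finset.prod_ne_zero_iff]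
    intro s _
    have := h0.pos (σ.bs s)
    omega
  intro h5
  rw [h5, map_zero] at h1
  exact (Int.cast_ne_zero.2 (mul_ne_zero h3 h4)) h1.symm

end PathFinAux

open PathFinAux

theorem first_order {ξ : Fin n → ℤ_[ℓ]} (S : Ser ℓ B σ P α z0 ξ φ Λ y)
    (hF : FV ℓ φ Λ y (VV σ B P none) = 0) (b : Fin N) (hb : b ∈ B) :
    ((mm σ α z0 0 : ℤ) : ℤ_[ℓ]) *
        ez (pt (fun i => (z0 i : ℤ_[ℓ])) ξ (fun _ => 0)) (qb σ B P 0 b) +
      ((mm σ α z0 1 : ℤ) : ℤ_[ℓ]) *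
        ez (pt (fun i => (z0 i : ℤ_[ℓ])) ξ (fun _ => 0)) (qb σ B P 1 b) -
      ((mm σ α z0 2 : ℤ) : ℤ_[ℓ]) *
        ez (pt (fun i => (z0 i : ℤ_[ℓ])) ξ (fun _ => 0)) (qb σ B P 2 b) = 0 := by
  have h1 := chain_FV S (VV σ B P none)
  rw [hF, map_zero, mul_zero] at h1
  have h2 := congrArg (E0 ℓ B b) h1
  rw [map_zero] at h2
  unfold FV at h2
  rw [map_sum, Fin.sum_univ_three, map_mul, map_mul, map_mul, nab_none_0, nab_none_1, nab_none_2,
    map_neg, map_neg, E0_qq S hb, E0_qq S hb, E0_qq S hb, E0_y S, E0_y S, E0_y S] at h2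
  apply iota_inj (ℓ := ℓ)
  rw [map_zero, map_sub, map_add, map_mul, map_mul, map_mul, map_intCast, map_intCast,
    map_intCast]
  linear_combination -h2

theorem path_quot (hℓ3 : 3 ≤ ℓ) {ex lg : ℤ_[ℓ] → ℤ_[ℓ]} (EL : IsEL ℓ ex lg)
    (hP : ∀ i, i ∉ B → (P i).vars ⊆ insert i B) {z : Fin N → ℤ} (h0 : PtOK ℓ σ B P z0)
    (h1 : PtOK ℓ σ B P z) (hcl : ∀ i, ((ℓ ^ 2 * (ℓ - 1) : ℕ) : ℤ) ∣ z i - z0 i)
    (hpos : 0 < mm σ α z0 2)
    (S : Ser ℓ B σ P α z0 (fun s => lg (z0 (σ.bs s) : ℤ_[ℓ])) φ Λ y)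
    (hF : ∀ b ∈ B, FV ℓ φ Λ y (VV σ B P (some b)) = 0) :
    mm σ α z 0 * mm σ α z0 2 = mm σ α z0 0 * mm σ α z 2 := by
  classical
  obtain ⟨ev, hev⟩ := exists_isEv ℓ
  -- the direction
  have hc : ∀ b : {x // x ∈ B}, ∃ c : ℤ, z b.1 = z0 b.1 + ℓ * (ℓ * c) := by
    intro b
    obtain ⟨d, hd⟩ := hcl b.1
    refine ⟨((ℓ - 1 : ℕ) : ℤ) * d, ?_⟩
    have h1 : ((ℓ ^ 2 * (ℓ - 1) : ℕ) : ℤ) = (ℓ : ℤ) ^ 2 * ((ℓ - 1 : ℕ) : ℤ) := by
      rw [Nat.cast_mul, Nat.cast_pow]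
    rw [h1] at hd
    linear_combination hd
  choose c hc using hc
  have ht' : ∀ b : {x // x ∈ B}, (ℓ : ℤ) ∣ (fun b => (ℓ : ℤ) * c b) b :=
    fun b => Dvd.intro _ rfl
  have hm2 : (mm σ α z0 2 : ℤ) ≠ 0 := ne_of_gt hpos
  have hy2 : PowerSeries.constantCoeff (y 2) ≠ 0 := by
    rw [S.ycst]
    exact Int.cast_ne_zero.2 hm2
  have hy2' : y 2 ≠ 0 := by
    intro h
    apply hy2
    rw [h, map_zero]
  -- the quotients in direction `b` are equal
  have hqb : ∀ b ∈ B, ez (ptS ℓ φ Λ) (qb σ B P 0 b) = ez (ptS ℓ φ Λ) (qb σ B P 2 b) := by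
    intro b hb
    have h2 := hF b hb
    unfold FV at h2
    rw [Fin.sum_univ_three, VV_some_0, VV_some_1, VV_some_2, map_zero, zero_mul, zero_add,
      zero_mul, zero_add, map_sub] at h2
    rcases mul_eq_zero.1 h2 with h3 | h3
    · exact sub_eq_zero.1 h3
    · exact absurd h3 hy2'
  have hqq : ez (ptS ℓ φ Λ) (qq σ B P 0) = ez (ptS ℓ φ Λ) (qq σ B P 2) := by
    unfold qq
    rw [map_sum, map_sum]
    refine Finset.sum_congr rfl (fun b hb => ?_)
    rw [map_mul, map_mul, hqb b hb]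
  have hG : ez (ptS ℓ φ Λ) (G0 σ B P) ≠ 0 := G_ne_zero h0 S
  have h2 := chain_y S 0
  have h3 := chain_y S 2
  rw [← hqq] at h3
  have h4 : PowerSeries.derivative (SS ℓ B) (y 0) * y 2 =
      y 0 * PowerSeries.derivative (SS ℓ B) (y 2) := by
    apply mul_left_cancel₀ hG
    linear_combination y 2 * h2 - y 0 * h3
  have h5 : y 0 * PowerSeries.C ((mm σ α z0 2 : ℤ) : SS ℓ B) -
      PowerSeries.C ((mm σ α z0 0 : ℤ) : SS ℓ B) * y 2 = 0 := by
    apply eq_zero_of_ode hy2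
    · rw [map_sub, Derivation.leibniz, Derivation.leibniz, smul_eq_mul, smul_eq_mul, smul_eq_mul,
        smul_eq_mul, PowerSeries.derivative_C, PowerSeries.derivative_C]
      linear_combination PowerSeries.C ((mm σ α z0 2 : ℤ) : SS ℓ B) * h4
    · rw [map_sub, map_mul, map_mul, PowerSeries.constantCoeff_C, PowerSeries.constantCoeff_C,
        S.ycst, S.ycst]
      exact sub_self _
  obtain ⟨g0, hg0, -⟩ := exists_lift hℓ3 (S.yhz 0) (S.yhom 0) ht'
  obtain ⟨g2, hg2, -⟩ := exists_lift hℓ3 (S.yhz 2) (S.yhom 2) ht'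
  have e0 := ev_mem hℓ3 EL hP h0 h1 hcl S hev hc 0 hg0
  have e2 := ev_mem hℓ3 EL hP h0 h1 hcl S hev hc 2 hg2
  have h6 : g0 * PowerSeries.C ((mm σ α z0 2 : ℤ) : ℤ_[ℓ]) =
      PowerSeries.C ((mm σ α z0 0 : ℤ) : ℤ_[ℓ]) * g2 := by
    have a1 : ∀ m : ℤ, eval (fun b : {x // x ∈ B} => (((fun b => (ℓ : ℤ) * c b) b : ℤ) : ℚ_[ℓ]))
        ((m : ℤ) : SS ℓ B) = (m : ℚ_[ℓ]) := fun m => map_intCast _ m
    have a2 : ∀ m : ℤ, algebraMap ℤ_[ℓ] ℚ_[ℓ] ((m : ℤ) : ℤ_[ℓ]) = (m : ℚ_[ℓ]) :=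
      fun m => map_intCast _ m
    apply iQ_inj
    have h7 := congrArg (spS ℓ B (fun b => (ℓ : ℤ) * c b)) (sub_eq_zero.1 h5)
    rw [map_mul, map_mul, PowerSeries.map_C, PowerSeries.map_C, a1, a1, ← hg0, ← hg2] at h7
    rw [map_mul, map_mul, PowerSeries.map_C, PowerSeries.map_C, a2, a2]
    exact h7
  have h8 := congrArg ev h6
  rw [map_mul, map_mul, hev.C, hev.C, e0, e2, ← Int.cast_mul, ← Int.cast_mul] at h8
  exact Int.cast_injective h8

end Pool.Agent.Lib.FewY
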