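import Pool.Agent.Lib.FewY.FlatFin
import Pool.Agent.Lib.FewY.PathFin
import Pool.Agent.Lib.FewY.LogSer
import Pool.Agent.Lib.FewY.LinForm
import Pool.Agent.Lib.FewY.EL

/-!
# FewY.Fin: the finite statement (fixed index j)  (assembly of the l-adic part, helper93)
-/

open MvPolynomial Pool.Agent.Lib.FewX Pool.Agent.Lib.FewX.PathAux

namespace Pool.Agent.Lib.FewY

theorem fin {N n : ℕ} (σ : Shape N n) {B : Finset (Fin N)} {P : Fin N → MvPolynomial (Fin N) ℤ}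
    (hP : ∀ i, i ∉ B → (P i).vars ⊆ insert i B) (α : Fin 3 → ℤ)
    (ℓ ν D : ℕ) [Fact ℓ.Prime] (hℓ3 : 3 ≤ ℓ) (hν : 1 ≤ ν) (hℓν : ν + 2 ≤ ℓ) (hD : 1 ≤ D)
    (c : ℤ) (hc : ¬ (ℓ : ℤ) ∣ c) (hrel : ∀ o, NabRel σ B P c ν o)
    (C : Finset (Fin N → ℤ)) (h1 : ∀ z ∈ C, ∀ i, 1 ≤ z i)
    (hcl : ∀ z ∈ C, ∀ z' ∈ C, ∀ i, ((ℓ ^ 2 * (ℓ - 1) : ℕ) : ℤ) ∣ z i - z' i)
    (hPC : ∀ z ∈ C, ∀ i, i ∉ B → eval z (P i) = 0)
    (hJ : ∀ z ∈ C, ¬ (ℓ : ℤ) ∣ eval z (Jac B P)) (hx : ∀ z ∈ C, ∀ s, ¬ (ℓ : ℤ) ∣ z (σ.bs s))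
    (hpos : ∀ z ∈ C, ∀ r, 0 < mm σ α z r)
    (habc : ∀ z ∈ C, mm σ α z 0 + mm σ α z 1 = mm σ α z 2)
    (hcop : ∀ z ∈ C, IsCoprime (mm σ α z 0) (mm σ α z 1))
    (H : ℤ) (hH : ∀ z ∈ C, ∀ r, ∀ b ∈ B, |q0 σ B P z r b| ≤ H)
    (hbig : ∀ z ∈ C, 4 * H < mm σ α z 2)
    (hno : ∀ z0 ∈ C, ∀ ρ, ¬ Rel ℓ B z0 C ν D ρ) :
    ∀ z0 ∈ C, ∀ z ∈ C, mm σ α z 0 * mm σ α z0 2 = mm σ α z0 0 * mm σ α z 2 := by
  have EL := isEL ℓ hℓ3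
  have hOK : ∀ z ∈ C, PtOK ℓ σ B P z := fun z hz => ⟨h1 z hz, hPC z hz, hJ z hz, hx z hz⟩
  have hser : ∀ z ∈ C, ∃ (φ : Fin N → PowerSeries (SS ℓ B)) (Λ : Fin n → PowerSeries (SS ℓ B))
      (y : Fin 3 → PowerSeries (SS ℓ B)),
      Ser ℓ B σ P α z (fun s => plog (z (σ.bs s) : ℤ_[ℓ])) φ Λ y := by
    intro z hz
    obtain ⟨φ, hφ⟩ := exists_pathS ℓ hP z (hPC z hz) (hJ z hz)
    obtain ⟨Λ, y, S⟩ := exists_ser ℓ σ α (fun s => plog (z (σ.bs s) : ℤ_[ℓ])) (hx z hz) hφ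
    exact ⟨φ, Λ, y, S⟩
  have hval0 : ∀ z ∈ C, ∑ r, vz ℓ plog σ z (VV σ B P none r) * ((mm σ α z r : ℤ) : ℤ_[ℓ]) = 0 := by
    intro z hz
    have e := congrArg (Int.cast : ℤ → ℤ_[ℓ]) (habc z hz)
    push_cast at e
    have e0 : vz ℓ plog σ z (VV σ B P none 0) = 1 := map_one _
    have e1 : vz ℓ plog σ z (VV σ B P none 1) = 1 := map_one _
    have e2 : vz ℓ plog σ z (VV σ B P none 2) = -1 := by
      have : vz ℓ plog σ z (VV σ B P none 2) = - vz ℓ plog σ z (1 : Ext N n) := map_neg _ _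
      rw [this]
      congr 1
    rw [Fin.sum_univ_three, e0, e1, e2]
    linear_combination e
  have key : ∀ z ∈ C, ∀ b ∈ B, vz ℓ plog σ z (qb σ B P 0 b - qb σ B P 2 b) = 0 := by
    intro z hz b hb
    obtain ⟨φ, Λ, y, S⟩ := hser z hz
    have hF := flat hℓ3 EL hP hν hℓν hc (hrel none) C hOK hz (fun z' hz' => hcl z' hz' z hz)
      hval0 S (hno z hz)
    refine lin_form σ B P α hℓ3 pexp pexp_zero (fun x y hx hy => pexp_add hℓ3 hx hy)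
      (fun x hx h => pexp_inj hℓ3 hx (dvd_zero _) (h.trans pexp_zero.symm))
      (fun x hx => pexp_hasSum hℓ3 hx) z (h1 z hz) _ (fun s => dvd_plog _) (fun s => ?_)
      (hpos z hz) (habc z hz) (hcop z hz) b H (fun r => hH z hz r b hb) (hbig z hz)
      (first_order S hF b hb)
    have h2 := pexp_plog hℓ3 (isUnit_cast (hx z hz s))
    rwa [Nat.cast_sub (by omega : 1 ≤ ℓ), Nat.cast_one]
  intro z0 hz0 z hz
  obtain ⟨φ, Λ, y, S⟩ := hser z0 hz0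
  refine path_quot hℓ3 EL hP (hOK z0 hz0) (hOK z hz) (hcl z hz z0 hz0) (hpos z0 hz0 2) S ?_
  intro b hb
  refine flat hℓ3 EL hP hν hℓν hc (hrel (some b)) C hOK hz0 (fun z' hz' => hcl z' hz' z0 hz0)
    ?_ S (hno z0 hz0)
  intro z' hz'
  have e0 : vz ℓ plog σ z' (VV σ B P (some b) 0) = 0 := map_zero _
  have e1 : vz ℓ plog σ z' (VV σ B P (some b) 1) = 0 := map_zero _
  have e2 : vz ℓ plog σ z' (VV σ B P (some b) 2) = 0 := key z' hz' b hb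
  rw [Fin.sum_univ_three, e0, e1, e2]
  ring

end Pool.Agent.Lib.FewY
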