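import Pool.Agent.Lib.FewY.SerDefs

/-!
# FewY.RelPoly: a nonzero series gives a relation of order `≤ ν`  (2 h)

Write `F_k = coeff k F`, `f k γ = coeff γ (F_k)`. `hspan` with `c = 0`: some `f k γ ≠ 0` with `k ≤ ν`, and `k ≥ 1` by `h0`. Let `c0` = the maximum of the `‖f k γ‖` over `k ≤ ν`, `γ ∈ (F_k).support` (a finite nonempty set), attained at `(i', γ')`; for `k ≤ ν < ℓ` the factorial `k!` has norm `1`, so
`HzK (ν + 1) c0 F` and `‖k! f k γ‖ ≤ c0` for all `k, γ`. Let `W` = the maximum of `‖ℓ^k f k γ‖` over `1 ≤ k ≤ ν`; `W ≥ ‖ℓ^(i') f i' γ'‖ ≥ ℓ^(-ν) c0 > 0`. For `k > ν`: `‖ℓ^k f k γ‖ ≤ ℓ^(-k) c0 / ‖k!‖ ≤ W ℓ^(ν - k + v)`, `v = padicValNat ℓ k!`, `(ℓ - 1) v ≤ k - 1`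
(`sub_one_mul_padicValNat_factorial`), and `ℓ - 1 ≥ ν + 1` gives `v ≤ k - ν - 1` (if `v ≥ k - ν =: u ≥ 1` then `(ν + 1) u ≤ k - 1 = u + ν - 1`, false): so `≤ W / ℓ`. `W ≤ 1` (`Hz F`, `k! ` a unit), `W = ℓ^(-ω)` with `ω : ℕ` (norms of nonzero elements are powers of `ℓ`).
`ρ` = the polynomial over `ℤ_[ℓ]` whose image is `C (ℓ^(-ω)) * ∑ k < M, C (ℓ^k) * F_k`, `M = ω + D`, `M > ν` (take `M = ω + D + ν`): `coeff γ` of it is `ℓ^(-ω) ℓ^k f k γ` with `k = γ.degree` if `k < M` (homogeneity: `IsHomogeneous.coeff_eq_zero`), `0` otherwise: norm `≤ 1`; `≤ 1/ℓ` if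
`k > ν`; `= 1` for one `γ` (so `M > ν`). Divisibility by `ℓ` in `ℤ_[ℓ]` is `norm < 1` (`PadicInt.norm_lt_one_iff_dvd`) resp. `norm ≤ ℓ^(-D)` (`PadicInt.norm_le_pow_iff_mem_span_pow`).
Value: for `g` with `iQ g = map (eval t) F`: `g = (trunc M) + X^M * h` (`PowerSeries.eq_X_pow_mul_shift_add_trunc` or by hand), `ev g = ∑ k < M, (coeff k g) ℓ^k + ℓ^M ev h` by `IsEv`, so `ev g = 0` gives `ℓ^M ∣ ∑ k < M, coeff k g ℓ^k = ℓ^ω eval t ρ` (compare in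
`ℚ_[ℓ]`: `coeff k g = eval t (F_k)`), so `ℓ^(M - ω) ∣ eval t ρ`.
-/

open MvPolynomial Pool.Agent.Lib.FewX Pool.Agent.Lib.FewX.PathAux

namespace Pool.Agent.Lib.FewY

namespace RelPolyAux

variable {τ : Type} {ℓ : ℕ} [Fact ℓ.Prime]

theorem norm_nat {n : ℕ} (hn : n ≠ 0) : ‖(n : ℚ_[ℓ])‖ = (ℓ : ℝ) ^ (-(padicValNat ℓ n : ℤ)) := by
  have h : (n : ℚ_[ℓ]) ≠ 0 := by exact_mod_cast hn
  rw [Padic.norm_eq_zpow_neg_valuation h, Padic.valuation_natCast]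

theorem norm_fact_small {n ν : ℕ} (hn : n ≤ ν) (hℓν : ν + 2 ≤ ℓ) :
    ‖((n.factorial : ℕ) : ℚ_[ℓ])‖ = 1 := by
  rw [Padic.norm_natCast_eq_one_iff, (Fact.out : ℓ.Prime).coprime_iff_not_dvd,
    (Fact.out : ℓ.Prime).dvd_factorial]
  omega

theorem val_fact {k ν : ℕ} (hν : 1 ≤ ν) (hℓν : ν + 2 ≤ ℓ) (hk : ν < k) :
    padicValNat ℓ k.factorial + ν + 1 ≤ k := by
  have h1 := sub_one_mul_padicValNat_factorial (p := ℓ) k
  have h2 : 1 ≤ (ℓ.digits k).sum := by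
    by_contra h
    have h3 : (ℓ.digits k).sum = 0 := by omega
    have h4 : k ≡ (ℓ.digits k).sum [MOD (ℓ - 1)] :=
      Nat.modEq_digits_sum (ℓ - 1) ℓ (by
        have : ∀ a : ℕ, 2 ≤ a → (a + 1) % a = 1 := fun a ha => by
          rw [Nat.add_mod_left]
          exact Nat.mod_eq_of_lt (by omega)
        have h5 := this (ℓ - 1) (by omega)
        rwa [show ℓ - 1 + 1 = ℓ by omega] at h5) k
    have h5 : k ≠ 0 := by omega
    have h6 := Nat.ofDigits_digits ℓ k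
    have h7 : ∀ d ∈ ℓ.digits k, d = 0 := fun d hd => by
      have h8 := List.single_le_sum (fun _ _ => Nat.zero_le _) d hd
      omega
    have h9 : ℓ.digits k ≠ [] := Nat.digits_ne_nil_iff_ne_zero.2 h5
    have h10 := Nat.getLast_digit_ne_zero ℓ h5
    exact h10 (h7 _ (List.getLast_mem h9))
  by_contra hcon
  have h3 : k - ν ≤ padicValNat ℓ k.factorial := by omega
  obtain ⟨u, hu⟩ : ∃ u, k = ν + u := ⟨k - ν, by omega⟩
  have hu1 : 1 ≤ u := by omega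
  have h4 : (ν + 1) * u ≤ (ℓ - 1) * padicValNat ℓ k.factorial :=
    Nat.mul_le_mul (by omega) (by omega)
  rw [h1, hu] at h4
  have h5 : (ν + 1) * u = ν * u + u := by ring
  have h6 : ν ≤ ν * u := Nat.le_mul_of_pos_right _ hu1
  rw [hu] at h2
  omega

theorem ne_zero_fact (k : ℕ) : ((k.factorial : ℕ) : ℚ_[ℓ]) ≠ 0 := by
  exact_mod_cast Nat.factorial_ne_zero k

theorem coeff_fact_mul (k : ℕ) (a : MvPolynomial τ ℚ_[ℓ]) (γ : τ →₀ ℕ) :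
    coeff γ (((k.factorial : ℕ) : MvPolynomial τ ℚ_[ℓ]) * a) =
      ((k.factorial : ℕ) : ℚ_[ℓ]) * coeff γ a := by
  rw [← map_natCast (MvPolynomial.C (R := ℚ_[ℓ]) (σ := τ)), MvPolynomial.coeff_C_mul]

/-- a polynomial with coefficients of norm at most `1` has integral coefficients -/
theorem exists_int (q : MvPolynomial τ ℚ_[ℓ]) (hq : ∀ γ, ‖coeff γ q‖ ≤ 1) :
    ∃ ρ : MvPolynomial τ ℤ_[ℓ], MvPolynomial.map (algebraMap ℤ_[ℓ] ℚ_[ℓ]) ρ = q := by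
  refine ⟨∑ γ ∈ q.support, monomial γ (⟨coeff γ q, hq γ⟩ : ℤ_[ℓ]), ?_⟩
  rw [map_sum]
  conv_rhs => rw [← MvPolynomial.support_sum_monomial_coeff q]
  refine Finset.sum_congr rfl fun γ _ => ?_
  rw [MvPolynomial.map_monomial]
  rfl

/-- the value of a series modulo `ℓ ^ M` -/
theorem ev_trunc {ev : PowerSeries ℤ_[ℓ] →+* ℤ_[ℓ]} (hev : IsEv ℓ ev) (g : PowerSeries ℤ_[ℓ])
    (M : ℕ) : (ℓ : ℤ_[ℓ]) ^ M ∣ ev g - ∑ k ∈ Finset.range M,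
      PowerSeries.coeff k g * (ℓ : ℤ_[ℓ]) ^ k := by
  have h1 : (PowerSeries.X : PowerSeries ℤ_[ℓ]) ^ M ∣ g - ∑ k ∈ Finset.range M,
      PowerSeries.C (PowerSeries.coeff k g) * PowerSeries.X ^ k := by
    rw [PowerSeries.X_pow_dvd_iff]
    intro m hm
    rw [map_sub, map_sum]
    simp only [PowerSeries.coeff_C_mul_X_pow]
    rw [Finset.sum_ite_eq, if_pos (Finset.mem_range.2 hm), sub_self]
  obtain ⟨h, hh⟩ := h1
  refine ⟨ev h, ?_⟩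
  have h2 := congrArg ev hh
  rw [map_sub, map_sum, map_mul, map_pow, hev.X] at h2
  rw [← h2]
  congr 1
  refine Finset.sum_congr rfl fun k _ => ?_
  rw [map_mul, map_pow, hev.X, hev.C]

end RelPolyAux

open RelPolyAux

theorem rel_poly {τ : Type} {ℓ ν : ℕ} [Fact ℓ.Prime] (D : ℕ) (hν : 1 ≤ ν) (hℓν : ν + 2 ≤ ℓ)
    {F : PowerSeries (MvPolynomial τ ℚ_[ℓ])} (hz : Hz F) (hm : Hm F)
    (h0 : PowerSeries.coeff 0 F = 0) (hF : F ≠ 0)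
    (hspan : ∀ c : ℝ, 0 ≤ c → HzK (ν + 1) c F → ∀ k, HzK k c F) :
    ∃ ρ : MvPolynomial τ ℤ_[ℓ],
      (∀ γ : τ →₀ ℕ, ν < γ.degree → (ℓ : ℤ_[ℓ]) ∣ coeff γ ρ) ∧
      (∃ γ, ¬ (ℓ : ℤ_[ℓ]) ∣ coeff γ ρ) ∧
      ∀ (ev : PowerSeries ℤ_[ℓ] →+* ℤ_[ℓ]), IsEv ℓ ev → ∀ (t : τ → ℤ) (g : PowerSeries ℤ_[ℓ]),
        iQ ℓ g = PowerSeries.map (eval (fun b => (t b : ℚ_[ℓ]))) F → ev g = 0 →
        (ℓ : ℤ_[ℓ]) ^ D ∣ eval (fun b => (t b : ℤ_[ℓ])) ρ := by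
  classical
  have hℓ1 : 1 < ℓ := (Fact.out : ℓ.Prime).one_lt
  have hℓr : (1 : ℝ) < ℓ := by exact_mod_cast hℓ1
  have hℓ0 : (0 : ℝ) < ℓ := by linarith
  have hnp : ‖(ℓ : ℚ_[ℓ])‖ = (ℓ : ℝ)⁻¹ := Padic.norm_p
  -- the finite set of pairs
  obtain ⟨S, hS⟩ : ∃ S : Finset (Σ _ : ℕ, τ →₀ ℕ), S = (Finset.range (ν + 1)).sigma
    (fun k => (PowerSeries.coeff k F).support) := ⟨_, rfl⟩
  have hmemS : ∀ k γ, (⟨k, γ⟩ : Σ _ : ℕ, τ →₀ ℕ) ∈ S ↔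
      k ≤ ν ∧ coeff γ (PowerSeries.coeff k F) ≠ 0 := by
    intro k γ
    rw [hS, Finset.mem_sigma, Finset.mem_range, MvPolynomial.mem_support_iff, Nat.lt_succ_iff]
  have hSne : S.Nonempty := by
    by_contra hne
    rw [Finset.not_nonempty_iff_eq_empty] at hne
    apply hF
    have h1 : HzK (ν + 1) 0 F := by
      intro n hn γ
      have h2 : coeff γ (PowerSeries.coeff n F) = 0 := by
        by_contra h3
        have := (hmemS n γ).2 ⟨by omega, h3⟩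
        rw [hne] at this
        exact absurd this (Finset.notMem_empty _)
      rw [coeff_fact_mul, h2, mul_zero, norm_zero]
    have h2 := hspan 0 le_rfl h1
    ext n γ
    have h3 := h2 (n + 1) n (by omega) γ
    rw [coeff_fact_mul, norm_le_zero_iff, mul_eq_zero] at h3
    rw [map_zero, MvPolynomial.coeff_zero]
    exact h3.resolve_left (ne_zero_fact n)
  obtain ⟨⟨i', γ'⟩, hi', hmax1⟩ := Finset.exists_max_image S
    (fun x => ‖coeff x.2 (PowerSeries.coeff x.1 F)‖) hSne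
  obtain ⟨⟨i1, γ1⟩, hi1, hmax2⟩ := Finset.exists_max_image S
    (fun x => ‖(ℓ : ℚ_[ℓ]) ^ x.1 * coeff x.2 (PowerSeries.coeff x.1 F)‖) hSne
  simp only at hmax1 hmax2
  have k1 := (hmemS i' γ').1 hi'
  have k2 := (hmemS i1 γ1).1 hi1
  obtain ⟨c0, hc0⟩ : ∃ c0 : ℝ, c0 = ‖coeff γ' (PowerSeries.coeff i' F)‖ := ⟨_, rfl⟩
  obtain ⟨e, he⟩ : ∃ e : ℚ_[ℓ], e = (ℓ : ℚ_[ℓ]) ^ i1 * coeff γ1 (PowerSeries.coeff i1 F) :=
    ⟨_, rfl⟩
  rw [← hc0] at hmax1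
  rw [← he] at hmax2
  have hc0nn : 0 ≤ c0 := by rw [hc0]; exact norm_nonneg _
  have hℓQ : (ℓ : ℚ_[ℓ]) ≠ 0 := by
    have : ℓ ≠ 0 := by omega
    exact_mod_cast this
  have he0 : e ≠ 0 := by
    rw [he]
    exact mul_ne_zero (pow_ne_zero _ hℓQ) k2.2
  have hW : 0 < ‖e‖ := norm_pos_iff.2 he0
  -- bounds for all small indices
  have hb1 : ∀ k, k ≤ ν → ∀ γ, ‖coeff γ (PowerSeries.coeff k F)‖ ≤ c0 := by
    intro k hk γ
    by_cases h : coeff γ (PowerSeries.coeff k F) = 0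
    · rw [h, norm_zero]
      exact hc0nn
    · exact hmax1 ⟨k, γ⟩ ((hmemS k γ).2 ⟨hk, h⟩)
  have hb2 : ∀ k, k ≤ ν → ∀ γ, ‖(ℓ : ℚ_[ℓ]) ^ k * coeff γ (PowerSeries.coeff k F)‖ ≤ ‖e‖ := by
    intro k hk γ
    by_cases h : coeff γ (PowerSeries.coeff k F) = 0
    · rw [h, mul_zero, norm_zero]
      exact hW.le
    · exact hmax2 ⟨k, γ⟩ ((hmemS k γ).2 ⟨hk, h⟩)
  have hHz : ∀ k, HzK k c0 F := by
    apply hspan c0 hc0nn
    intro n hn γ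
    rw [coeff_fact_mul, norm_mul, norm_fact_small (by omega : n ≤ ν) hℓν, one_mul]
    exact hb1 n (by omega) γ
  have hcW : c0 ≤ (ℓ : ℝ) ^ ν * ‖e‖ := by
    have h1 := hb2 i' k1.1 γ'
    rw [norm_mul, norm_pow, hnp, ← hc0] at h1
    have h2 : c0 = (ℓ : ℝ) ^ i' * (((ℓ : ℝ)⁻¹) ^ i' * c0) := by
      rw [← mul_assoc, ← mul_pow, mul_inv_cancel₀ hℓ0.ne', one_pow, one_mul]
    calc c0 = (ℓ : ℝ) ^ i' * (((ℓ : ℝ)⁻¹) ^ i' * c0) := h2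
      _ ≤ (ℓ : ℝ) ^ i' * ‖e‖ := mul_le_mul_of_nonneg_left h1 (by positivity)
      _ ≤ (ℓ : ℝ) ^ ν * ‖e‖ :=
        mul_le_mul_of_nonneg_right (pow_le_pow_right₀ hℓr.le k1.1) hW.le
  have hb3 : ∀ k, ν < k → ∀ γ,
      ‖(ℓ : ℚ_[ℓ]) ^ k * coeff γ (PowerSeries.coeff k F)‖ ≤ ‖e‖ * (ℓ : ℝ)⁻¹ := by
    intro k hk γ
    have h1 := hHz (k + 1) k (by omega) γ
    rw [coeff_fact_mul, norm_mul, norm_nat (Nat.factorial_ne_zero k)] at h1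
    obtain ⟨v, hv⟩ : ∃ v, v = padicValNat ℓ k.factorial := ⟨_, rfl⟩
    have h2 := val_fact hν hℓν hk
    rw [← hv] at h1 h2
    rw [zpow_neg, zpow_natCast] at h1
    have h3 : ‖coeff γ (PowerSeries.coeff k F)‖ ≤ (ℓ : ℝ) ^ v * c0 := by
      have h4 : (0 : ℝ) < (ℓ : ℝ) ^ v := by positivity
      rwa [inv_mul_le_iff₀ h4] at h1
    rw [norm_mul, norm_pow, hnp, inv_pow]
    have h4 : (0 : ℝ) < (ℓ : ℝ) ^ k := by positivity
    rw [inv_mul_le_iff₀ h4]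
    calc ‖coeff γ (PowerSeries.coeff k F)‖ ≤ (ℓ : ℝ) ^ v * c0 := h3
      _ ≤ (ℓ : ℝ) ^ v * ((ℓ : ℝ) ^ ν * ‖e‖) := mul_le_mul_of_nonneg_left hcW (by positivity)
      _ = ((ℓ : ℝ) ^ (v + ν + 1)) * (‖e‖ * (ℓ : ℝ)⁻¹) := by
          rw [pow_succ, pow_add]
          field_simp
      _ ≤ (ℓ : ℝ) ^ k * (‖e‖ * (ℓ : ℝ)⁻¹) := by
          apply mul_le_mul_of_nonneg_right (pow_le_pow_right₀ hℓr.le h2)
          positivity
  -- the cut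
  obtain ⟨M0, hM0⟩ := exists_pow_lt_of_lt_one (x := ((ℓ : ℝ)⁻¹) ^ D * ‖e‖) (y := (ℓ : ℝ)⁻¹)
    (by positivity) (inv_lt_one_of_one_lt₀ hℓr)
  obtain ⟨M, hM⟩ : ∃ M, M = M0 + ν + 1 := ⟨_, rfl⟩
  have hMpow : ((ℓ : ℝ)⁻¹) ^ M ≤ ((ℓ : ℝ)⁻¹) ^ D * ‖e‖ := by
    refine le_trans ?_ hM0.le
    apply pow_le_pow_of_le_one (by positivity) (inv_le_one_of_one_le₀ hℓr.le)
    omega
  obtain ⟨q, hq⟩ : ∃ q : MvPolynomial τ ℚ_[ℓ], q = MvPolynomial.C e⁻¹ *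
    ∑ k ∈ Finset.range M, MvPolynomial.C ((ℓ : ℚ_[ℓ]) ^ k) * PowerSeries.coeff k F := ⟨_, rfl⟩
  have hco : ∀ γ : τ →₀ ℕ, coeff γ q = if γ.degree < M then
      e⁻¹ * ((ℓ : ℚ_[ℓ]) ^ γ.degree * coeff γ (PowerSeries.coeff γ.degree F)) else 0 := by
    intro γ
    rw [hq, MvPolynomial.coeff_C_mul, MvPolynomial.coeff_sum]
    simp only [MvPolynomial.coeff_C_mul]
    split_ifs with h
    · congr 1
      rw [Finset.sum_eq_single γ.degree]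
      · intro k _ hk
        rw [(hm k).coeff_eq_zero (Ne.symm hk), mul_zero]
      · intro h'
        exact absurd (Finset.mem_range.2 h) h'
    · rw [Finset.sum_eq_zero, mul_zero]
      intro k hk
      rw [Finset.mem_range] at hk
      rw [(hm k).coeff_eq_zero (by omega), mul_zero]
  have hsmall : ∀ γ : τ →₀ ℕ, ‖coeff γ q‖ ≤ 1 := by
    intro γ
    rw [hco]
    split_ifs with h
    · rw [norm_mul, norm_inv, inv_mul_le_iff₀ hW, mul_one]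
      rcases Nat.lt_or_ge ν γ.degree with h1 | h1
      · refine (hb3 _ h1 γ).trans ?_
        exact mul_le_of_le_one_right hW.le (inv_le_one_of_one_le₀ hℓr.le)
      · exact hb2 _ h1 γ
    · rw [norm_zero]
      exact zero_le_one
  obtain ⟨ρ, hρ⟩ := exists_int q hsmall
  have hcρ : ∀ γ, ((coeff γ ρ : ℤ_[ℓ]) : ℚ_[ℓ]) = coeff γ q := by
    intro γ
    rw [← hρ, MvPolynomial.coeff_map]
    rfl
  have hnρ : ∀ γ, ‖coeff γ ρ‖ = ‖coeff γ q‖ := by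
    intro γ
    rw [← hcρ γ]
    rfl
  refine ⟨ρ, ?_, ⟨γ1, ?_⟩, ?_⟩
  · intro γ hγ
    rw [← PadicInt.norm_lt_one_iff_dvd, hnρ, hco]
    split_ifs with h
    · rw [norm_mul, norm_inv, inv_mul_lt_iff₀ hW, mul_one]
      refine lt_of_le_of_lt (hb3 _ hγ γ) ?_
      exact mul_lt_of_lt_one_right hW (inv_lt_one_of_one_lt₀ hℓr)
    · rw [norm_zero]
      exact zero_lt_one
  · rw [← PadicInt.norm_lt_one_iff_dvd, hnρ, hco]
    have hdeg : γ1.degree = i1 := by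
      by_contra h
      exact k2.2 ((hm i1).coeff_eq_zero h)
    rw [hdeg, if_pos (by omega), ← he, inv_mul_cancel₀ he0, norm_one]
    exact lt_irrefl 1
  · intro ev hev t g hg hg0
    have h1 := ev_trunc hev g M
    rw [hg0, zero_sub, dvd_neg] at h1
    have h2 : ‖∑ k ∈ Finset.range M, PowerSeries.coeff k g * (ℓ : ℤ_[ℓ]) ^ k‖ ≤
        ((ℓ : ℝ)⁻¹) ^ M := by
      have h3 := (PadicInt.norm_le_pow_iff_mem_span_pow _ M).2 (Ideal.mem_span_singleton.2 h1)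
      rwa [zpow_neg, zpow_natCast, ← inv_pow] at h3
    have hck : ∀ k, ((PowerSeries.coeff k g : ℤ_[ℓ]) : ℚ_[ℓ]) =
        eval (fun b => (t b : ℚ_[ℓ])) (PowerSeries.coeff k F) := by
      intro k
      have h3 := congrArg (PowerSeries.coeff k) hg
      rw [PowerSeries.coeff_map, PowerSeries.coeff_map] at h3
      exact h3
    have h3 : ((eval (fun b => (t b : ℤ_[ℓ])) ρ : ℤ_[ℓ]) : ℚ_[ℓ]) =
        e⁻¹ * ((∑ k ∈ Finset.range M, PowerSeries.coeff k g * (ℓ : ℤ_[ℓ]) ^ k : ℤ_[ℓ]) :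
          ℚ_[ℓ]) := by
      have h4 : ((eval (fun b => (t b : ℤ_[ℓ])) ρ : ℤ_[ℓ]) : ℚ_[ℓ]) =
          eval (fun b => (t b : ℚ_[ℓ])) q := by
        rw [← hρ, MvPolynomial.eval_map]
        have h5 := MvPolynomial.eval₂_comp_left (algebraMap ℤ_[ℓ] ℚ_[ℓ]) (RingHom.id ℤ_[ℓ])
          (fun b => ((t b : ℤ) : ℤ_[ℓ])) ρ
        rw [MvPolynomial.eval₂_id] at h5
        have h6 : (algebraMap ℤ_[ℓ] ℚ_[ℓ]) ((eval fun b => ((t b : ℤ) : ℤ_[ℓ])) ρ) =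
          ((eval (fun b => (t b : ℤ_[ℓ])) ρ : ℤ_[ℓ]) : ℚ_[ℓ]) := rfl
        rw [← h6, h5]
        congr 1
      rw [h4, hq, map_mul, eval_C, map_sum]
      congr 1
      rw [PadicInt.coe_sum]
      refine Finset.sum_congr rfl fun k _ => ?_
      rw [map_mul, eval_C, PadicInt.coe_mul, PadicInt.coe_pow, PadicInt.coe_natCast, hck k]
      ring
    have h4 : ‖eval (fun b => (t b : ℤ_[ℓ])) ρ‖ ≤ ((ℓ : ℝ)⁻¹) ^ D := by
      rw [PadicInt.norm_def, h3, norm_mul, norm_inv, inv_mul_le_iff₀ hW, ← PadicInt.norm_def]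
      refine h2.trans (hMpow.trans (le_of_eq (mul_comm _ _)))
    have h5 : ‖eval (fun b => (t b : ℤ_[ℓ])) ρ‖ ≤ (ℓ : ℝ) ^ (-(D : ℤ)) := by
      rwa [zpow_neg, zpow_natCast, ← inv_pow]
    exact Ideal.mem_span_singleton.1 ((PadicInt.norm_le_pow_iff_mem_span_pow _ D).1 h5)

end Pool.Agent.Lib.FewY
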