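import Pool.Agent.Lib.FewY.HurwRing

/-!
# FewY.SpanH: all the derivatives are controlled by the first ones  (1 h)

`θ f = G * f'`, `it G F i = θ^i F`. Relation: `C a * θ^(ν+1) F = ∑ i ≤ ν, R i * θ^i F` with Hurwitz series `R i`, `G`, the constant coefficient of `G` is a constant of norm `1`, `‖a‖ = 1`. If the first `ν + 1` derivatives of `F` are `Cn c`, all are.
Proof. `HzK (ν + 1) c F → HzK (ν + 1 - i) c (θ^i F)` for `i ≤ ν` (`HzK.deriv`, `HzK.hz_mul`), so `Cn c (coeff 0 (θ^i F))` for `i ≤ ν`. Induction on `k`: `HzK k c (θ^i F)` for all `i ≤ ν` (`k = 0` is trivial). Step: the relation gives `HzK k c (C a * θ^(ν+1) F)`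
(`HzK.sum`, `HzK.hz_mul`), so `HzK k c (θ^(ν+1) F)` (`Cn.of_C_mul`); for every `i ≤ ν`: `HzK k c (G * (θ^i F)')`, so `HzK k c ((θ^i F)')` by `HzK.of_mul`, so `HzK (k+1) c (θ^i F)` by `HzK.of_deriv`.
-/

namespace Pool.Agent.Lib.FewY

variable {σ : Type} {p : ℕ} [Fact p.Prime]

namespace SpanHAux

variable {σ : Type} {p : ℕ} [Fact p.Prime]

/-- the iterates `θ^i F`, `i ≤ ν` -/
theorem iter {ν : ℕ} {c : ℝ} (hc : 0 ≤ c) {G : PowerSeries (MvPolynomial σ ℚ_[p])}
    (hG : Hz G) (θF : ℕ → PowerSeries (MvPolynomial σ ℚ_[p]))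
    (hθ : ∀ i, θF (i + 1) = G * PowerSeries.derivative (MvPolynomial σ ℚ_[p]) (θF i))
    (h : HzK (ν + 1) c (θF 0)) : ∀ i, ∀ j, i + j = ν → HzK (j + 1) c (θF i) := by
  intro i
  induction i with
  | zero =>
    intro j hj
    rw [Nat.zero_add] at hj
    rw [hj]
    exact h
  | succ i ih =>
    intro j hj
    have h1 := ih (j + 1) (by omega)
    rw [hθ i]
    exact HzK.hz_mul hc hG (HzK.deriv h1)

/-- division by the constant `a` -/
theorem of_C {k : ℕ} {c : ℝ} {a : ℚ_[p]} (ha : ‖a‖ = 1)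
    {F : PowerSeries (MvPolynomial σ ℚ_[p])}
    (h : HzK k c (PowerSeries.C (MvPolynomial.C a) * F)) : HzK k c F := by
  intro n hn
  have h1 := h n hn
  rw [PowerSeries.coeff_C_mul, mul_left_comm] at h1
  exact Cn.of_C_mul ha h1

/-- the constant coefficients -/
theorem const {k : ℕ} {c : ℝ} {F : PowerSeries (MvPolynomial σ ℚ_[p])}
    (h : HzK (k + 1) c F) : Cn c (PowerSeries.coeff 0 F) := by
  have h1 := h 0 (Nat.succ_pos k)
  rwa [Nat.factorial_zero, Nat.cast_one, one_mul] at h1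

end SpanHAux

theorem spanH {ν : ℕ} {c : ℝ} (hc : 0 ≤ c) {G : PowerSeries (MvPolynomial σ ℚ_[p])}
    (hG : Hz G) {u : ℚ_[p]} (hu : ‖u‖ = 1) (hG0 : PowerSeries.coeff 0 G = MvPolynomial.C u)
    {a : ℚ_[p]} (ha : ‖a‖ = 1) (θF R : ℕ → PowerSeries (MvPolynomial σ ℚ_[p]))
    (hθ : ∀ i, θF (i + 1) = G * PowerSeries.derivative (MvPolynomial σ ℚ_[p]) (θF i))
    (hR : ∀ i, Hz (R i))
    (hrel : PowerSeries.C (MvPolynomial.C a) * θF (ν + 1) =
      ∑ i ∈ Finset.range (ν + 1), R i * θF i)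
    (h : HzK (ν + 1) c (θF 0)) : ∀ k, HzK k c (θF 0) := by
  have hit := SpanHAux.iter hc hG θF hθ h
  have hall : ∀ k, ∀ i, i ≤ ν → HzK k c (θF i) := by
    intro k
    induction k with
    | zero =>
      intro i _ n hn
      exact absurd hn (Nat.not_lt_zero n)
    | succ k ih =>
      have h1 : HzK k c (PowerSeries.C (MvPolynomial.C a) * θF (ν + 1)) := by
        rw [hrel]
        refine HzK.sum hc _ fun i hi => ?_
        exact HzK.hz_mul hc (hR i) (ih i (Nat.lt_succ_iff.1 (Finset.mem_range.1 hi)))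
      have h2 : HzK k c (θF (ν + 1)) := SpanHAux.of_C ha h1
      intro i hi
      have h3 : HzK k c (θF (i + 1)) := by
        rcases Nat.lt_or_ge i ν with h4 | h4
        · exact ih (i + 1) h4
        · have h5 : i = ν := le_antisymm hi h4
          rw [h5]
          exact h2
      rw [hθ i] at h3
      have h6 := HzK.of_mul hc hG hu hG0 h3
      exact HzK.of_deriv (SpanHAux.const (hit i (ν - i) (by omega))) h6
  exact fun k => hall k 0 (Nat.zero_le ν)

end Pool.Agent.Lib.FewY
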