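import Pool.Agent.Lib.FewY.EvMem
import Pool.Agent.Lib.FewY.RelPoly
import Pool.Agent.Lib.FewY.ChainX
import Pool.Agent.Lib.FewY.SpanH

/-!
# FewY.FlatFin: if the vector vanishes on the class and there is no relation, its series is zero  (2 h)

`hz_FV`, `hm_FV`: `ez w Q = eval₂ (Int.castRingHom _) w Q` (`ez` is `eval₂Hom`), `Hz.eval₂`, `Hm.eval₂`: the components of `ptS φ Λ` are `φ i` (`Hz.of_coeff`), `Λ s`, and `C (tv b)`. For `Hz`: `Cn.X` or zero. For `Hm`: the component `C (tv b)` is NOT `Hm` (degree `1` at `T^0`), but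
`VV o` does not contain the `vT b`: so use `ez_qb` (and `ez w 1 = 1`, `ez w (-1) = -1`) to write `ez (ptS φ Λ) (VV o r)` as the value at series which are all `Hm` (`ez φ (vf ..)` by `Hm.eval₂`).
`ev_FV`: the lifts `a i` of `φ i`, `l s` of `Λ s`, `b r` of `y r`: the series `G = ∑ r, ez (pt a l 0) (VV o r) * b r` satisfies `iQ G = spS t (FV .. (VV o))` (`hom_ez`, `ez_qb`), so `g = G` (`iQ_inj`) and `ev g = ∑ r, ez (pt (ev a) (ev l) 0) (VV o r) * ev (b r)`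
(`hom_ez`; `ev_phi`, `ev_log`, `ev_mem`) `= ∑ r, vz lg σ z (VV o r) * mm z r`.
`flat`: suppose `F = FV .. (VV o) ≠ 0`. `coeff 0 F = ∑ r, vz lg σ z0 (VV o r) * mm z0 r = 0` (`hval` at `z0 ∈ C`; constant coefficients: `S.cst`, `Λcst`, `ycst`, `hom_ez`, in `SS ℓ B`: the images of elements of `ℤ_[ℓ]`). `hspan` for `rel_poly`: `spanH` with
`θF i = FV .. ((nab σ B P)^[i] (VV o))` (`chain_FV`, `Function.iterate_succ_apply'`), `G = ez (ptS φ Λ) (G0 σ B P)` (`Hz.eval₂`; constant coefficient: `ez_G0`, the integer `Jac(z0) ∏ z0 (bs s)`, not divisible by `ℓ`, of norm `1`), `a = c`, `R i = ez (ptS φ Λ) (R i)`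
(`NabRel`: apply `ez (ptS φ Λ)` and sum over `r` with `y r`). `rel_poly` gives `ρ`; `Rel.van`: for `z ∈ C` and `t`: `ev_FV`, `hval` (`exists_lift` gives `g`; `ℓ ∣ t b` since `z b - z0 b` is divisible by `ℓ^2`). So `Rel ℓ B z0 C ν D ρ`, contradiction to `hno`.
-/

open MvPolynomial Pool.Agent.Lib.FewX Pool.Agent.Lib.FewX.PathAux

namespace Pool.Agent.Lib.FewY

variable {N n : ℕ} {ℓ : ℕ} [Fact ℓ.Prime] {B : Finset (Fin N)} {σ : Shape N n}
  {P : Fin N → MvPolynomial (Fin N) ℤ} {α : Fin 3 → ℤ} {z0 : Fin N → ℤ} {ξ : Fin n → ℤ_[ℓ]}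
  {φ : Fin N → PowerSeries (SS ℓ B)} {Λ : Fin n → PowerSeries (SS ℓ B)}
  {y : Fin 3 → PowerSeries (SS ℓ B)}

private theorem hz_ptS (S : Ser ℓ B σ P α z0 ξ φ Λ y) (v : Fin (N + n + N)) : Hz (ptS ℓ φ Λ v) := by
  refine Fin.addCases (fun v' => ?_) (fun b => ?_) v
  · refine Fin.addCases (fun i => ?_) (fun s => ?_) v'
    · have h1 : ptS ℓ φ Λ (Fin.castAdd N (Fin.castAdd n i)) = φ i := by
        unfold ptS pt
        rw [Fin.append_left, Fin.append_left]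
      rw [h1]
      exact Hz.of_coeff (S.int i)
    · have h1 : ptS ℓ φ Λ (Fin.castAdd N (Fin.natAdd N s)) = Λ s := by
        unfold ptS pt
        rw [Fin.append_left, Fin.append_right]
      rw [h1]
      exact S.Λhz s
  · have h1 : ptS ℓ φ Λ (Fin.natAdd (N + n) b) = PowerSeries.C (tv ℓ B b) := by
      unfold ptS pt
      rw [Fin.append_right]
    rw [h1]
    refine Hz.C ?_
    unfold tv
    split_ifs
    · exact Cn.X _
    · exact Cn.zero zero_le_one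

private theorem hz_ez (S : Ser ℓ B σ P α z0 ξ φ Λ y) (Q : Ext N n) : Hz (ez (ptS ℓ φ Λ) Q) :=
  Hz.eval₂ (hz_ptS S) Q

theorem hz_FV (S : Ser ℓ B σ P α z0 ξ φ Λ y) (V : Fin 3 → Ext N n) : Hz (FV ℓ φ Λ y V) :=
  Hz.sum _ fun r _ => (hz_ez S (V r)).mul (S.yhz r)

private theorem hm_qb (S : Ser ℓ B σ P α z0 ξ φ Λ y) (r : Fin 3) (b : Fin N) :
    Hm (ez (ptS ℓ φ Λ) (qb σ B P r b)) := by
  have hv : ∀ i, Hm (ez φ (vf B P b i)) := fun i => Hm.eval₂ S.hom _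
  have hp : ∀ T : Finset (Fin n), Hm (∏ s ∈ T, φ (σ.bs s)) := by
    intro T
    classical
    induction T using Finset.induction_on with
    | empty =>
      rw [Finset.prod_empty]
      simpa using Hm.int (σ := {x // x ∈ B}) (p := ℓ) 1
    | insert a T ha ih =>
      rw [Finset.prod_insert ha]
      exact (S.hom _).mul ih
  unfold ptS
  rw [ez_qb]
  exact Hm.sum _ fun s _ => (((S.hom _).mul (hp _)).mul (hv _)).add
    (((S.Λhom s).mul (hp _)).mul (hv _))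

private theorem hm_VV (S : Ser ℓ B σ P α z0 ξ φ Λ y) (o : Option (Fin N)) (r : Fin 3) :
    Hm (ez (ptS ℓ φ Λ) (VV σ B P o r)) := by
  have h1 : Hm (1 : PowerSeries (SS ℓ B)) := by
    simpa using Hm.int (σ := {x // x ∈ B}) (p := ℓ) 1
  rcases o with _ | b
  · fin_cases r
    · simpa [VV] using h1
    · simpa [VV] using h1
    · simpa [VV] using h1.neg
  · fin_cases r
    · simpa [VV] using Hm.zero
    · simpa [VV] using Hm.zero
    · simpa [VV] using (hm_qb S 0 b).sub (hm_qb S 2 b)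

theorem hm_FV (S : Ser ℓ B σ P α z0 ξ φ Λ y) (o : Option (Fin N)) :
    Hm (FV ℓ φ Λ y (VV σ B P o)) :=
  Hm.sum _ fun r _ => (hm_VV S o r).mul (S.yhom r)

private theorem norm_eq_one' {z : ℤ} (hz : ¬ (ℓ : ℤ) ∣ z) : ‖(z : ℚ_[ℓ])‖ = 1 := by
  have h1 := Padic.norm_int_le_one (p := ℓ) z
  have h2 := mt (Padic.norm_intCast_lt_one_iff (p := ℓ) (k := z)).1 hz
  exact le_antisymm h1 (not_lt.1 h2)

private theorem cst_ez (S : Ser ℓ B σ P α z0 ξ φ Λ y) (Q : MvPolynomial (Fin N) ℤ) :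
    PowerSeries.constantCoeff (ez φ Q) = ((eval z0 Q : ℤ) : SS ℓ B) := by
  induction Q using MvPolynomial.induction_on with
  | C a => simp [ez]
  | add p q hp hq => rw [map_add, map_add, hp, hq, map_add, Int.cast_add]
  | mul_X p i hp => rw [map_mul, map_mul, hp, map_mul, eval_X, Int.cast_mul, ← S.cst i]; simp [ez]

theorem span_FV (S : Ser ℓ B σ P α z0 ξ φ Λ y) (h0 : PtOK ℓ σ B P z0) {c : ℤ}
    (hc : ¬ (ℓ : ℤ) ∣ c) {ν : ℕ} {o : Option (Fin N)} (hrel : NabRel σ B P c ν o) {c0 : ℝ}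
    (hc0 : 0 ≤ c0) (h : HzK (ν + 1) c0 (FV ℓ φ Λ y (VV σ B P o))) :
    ∀ k, HzK k c0 (FV ℓ φ Λ y (VV σ B P o)) := by
  obtain ⟨R, hR⟩ := hrel
  have hp : Prime (ℓ : ℤ) := Nat.prime_iff_prime_int.1 Fact.out
  have hG0 : PowerSeries.coeff 0 (ez (ptS ℓ φ Λ) (G0 σ B P)) =
      C ((eval z0 (Jac B P) * ∏ s, z0 (σ.bs s) : ℤ) : ℚ_[ℓ]) := by
    rw [PowerSeries.coeff_zero_eq_constantCoeff_apply]
    unfold ptS
    rw [ez_G0, map_mul, map_prod, cst_ez S]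
    rw [Finset.prod_congr rfl fun s _ => S.cst (σ.bs s), map_intCast, Int.cast_mul, Int.cast_prod]
  refine spanH hc0 (hz_ez S (G0 σ B P)) (norm_eq_one' ?_) hG0 (a := (c : ℚ_[ℓ]))
    (norm_eq_one' hc) (fun i => FV ℓ φ Λ y ((nab σ B P)^[i] (VV σ B P o)))
    (fun i => ez (ptS ℓ φ Λ) (R i)) ?_ (fun i => hz_ez S (R i)) ?_ h
  · intro hd
    rcases hp.dvd_or_dvd hd with h1 | h1
    · exact h0.jac h1
    · obtain ⟨s, _, h2⟩ := (hp.dvd_finsetProd_iff _).1 h1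
      exact h0.base s h2
  · intro i
    rw [chain_FV S, Function.iterate_succ_apply']
  · simp only [FV]
    rw [Finset.mul_sum]
    have h1 : ∀ r, PowerSeries.C (C (c : ℚ_[ℓ])) *
        (ez (ptS ℓ φ Λ) ((nab σ B P)^[ν + 1] (VV σ B P o) r) * y r) =
        ∑ i ∈ Finset.range (ν + 1), ez (ptS ℓ φ Λ) (R i) *
          (ez (ptS ℓ φ Λ) ((nab σ B P)^[i] (VV σ B P o) r) * y r) := by
      intro r
      have h2 := congrArg (ez (ptS ℓ φ Λ)) (hR r)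
      rw [map_mul, map_sum] at h2
      have h3 : ez (ptS ℓ φ Λ) (C c) = PowerSeries.C (C (c : ℚ_[ℓ])) := by
        simp [ez]
      rw [h3] at h2
      rw [← mul_assoc, h2, Finset.sum_mul]
      refine Finset.sum_congr rfl fun i _ => ?_
      rw [map_mul]
      ring
    rw [Finset.sum_congr rfl fun r _ => h1 r, Finset.sum_comm]
    refine Finset.sum_congr rfl fun i _ => ?_
    rw [Finset.mul_sum]


private theorem pt_map {A A' : Type*} [CommRing A] [CommRing A'] (f : A →+* A') (a : Fin N → A)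
    (l : Fin n → A) (τ : Fin N → A) :
    (fun j => f (pt a l τ j)) = pt (fun i => f (a i)) (fun s => f (l s)) (fun i => f (τ i)) := by
  funext v
  refine Fin.addCases (fun v' => ?_) (fun b => ?_) v
  · refine Fin.addCases (fun i => ?_) (fun s => ?_) v'
    · unfold pt
      rw [Fin.append_left, Fin.append_left, Fin.append_left, Fin.append_left]
    · unfold pt
      rw [Fin.append_left, Fin.append_right, Fin.append_left, Fin.append_right]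
  · unfold pt
    rw [Fin.append_right, Fin.append_right]

private theorem ez_VV {A : Type*} [CommRing A] (σ : Shape N n) (B : Finset (Fin N))
    (P : Fin N → MvPolynomial (Fin N) ℤ) (a : Fin N → A) (l : Fin n → A) (τ τ' : Fin N → A)
    (o : Option (Fin N)) (r : Fin 3) :
    ez (pt a l τ) (VV σ B P o r) = ez (pt a l τ') (VV σ B P o r) := by
  rcases o with _ | b
  · fin_cases r
    · simp [VV]
    · simp [VV]
    · simp [VV]
  · fin_cases r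
    · simp [VV]
    · simp [VV]
    · have h2 : VV σ B P (some b) 2 = qb σ B P 0 b - qb σ B P 2 b := rfl
      change ez (pt a l τ) (VV σ B P (some b) 2) = ez (pt a l τ') (VV σ B P (some b) 2)
      rw [h2, map_sub, map_sub, ez_qb, ez_qb, ez_qb, ez_qb]

private theorem ev_FV (hℓ3 : 3 ≤ ℓ) {ex lg : ℤ_[ℓ] → ℤ_[ℓ]} (EL : IsEL ℓ ex lg)
    (hP : ∀ i, i ∉ B → (P i).vars ⊆ insert i B) {z : Fin N → ℤ} (h0 : PtOK ℓ σ B P z0)
    (h1 : PtOK ℓ σ B P z) (hcl : ∀ i, ((ℓ ^ 2 * (ℓ - 1) : ℕ) : ℤ) ∣ z i - z0 i)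
    (S : Ser ℓ B σ P α z0 (fun s => lg (z0 (σ.bs s) : ℤ_[ℓ])) φ Λ y)
    {ev : PowerSeries ℤ_[ℓ] →+* ℤ_[ℓ]} (hev : IsEv ℓ ev) {t : {x // x ∈ B} → ℤ}
    (ht : ∀ b, z b.1 = z0 b.1 + ℓ * t b) (htd : ∀ b, (ℓ : ℤ) ∣ t b) (o : Option (Fin N))
    {g : PowerSeries ℤ_[ℓ]} (hg : iQ ℓ g = spS ℓ B t (FV ℓ φ Λ y (VV σ B P o))) :
    ev g = ∑ r, vz ℓ lg σ z (VV σ B P o r) * ((mm σ α z r : ℤ) : ℤ_[ℓ]) := by
  have hcl' : ∀ i, (ℓ : ℤ) ∣ z i - z0 i := fun i =>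
    (Dvd.intro _ (by push_cast; ring : (ℓ : ℤ) * (ℓ * ((ℓ - 1 : ℕ) : ℤ)) = _)).trans (hcl i)
  choose a ha using fun i => lift_int (S.int i) t
  choose l hl using fun s => exists_lift hℓ3 (S.Λhz s) (S.Λhom s) htd
  choose b hb using fun r => exists_lift hℓ3 (S.yhz r) (S.yhom r) htd
  let τ : Fin N → PowerSeries ℤ_[ℓ] := fun i =>
    if h : i ∈ B then PowerSeries.C ((t ⟨i, h⟩ : ℤ) : ℤ_[ℓ]) else 0
  have hτ : ∀ i, iQ ℓ (τ i) = spS ℓ B t (PowerSeries.C (tv ℓ B i)) := by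
    intro i
    by_cases h : i ∈ B
    · simp [τ, tv, h]
    · simp [τ, tv, h]
  have e1 : ∀ r, iQ ℓ (ez (pt a l τ) (VV σ B P o r)) =
      spS ℓ B t (ez (ptS ℓ φ Λ) (VV σ B P o r)) := by
    intro r
    rw [hom_ez, hom_ez, pt_map]
    unfold ptS
    rw [pt_map, show (fun i => iQ ℓ (a i)) = fun i => spS ℓ B t (φ i) from funext ha,
      show (fun s => iQ ℓ (l s)) = fun s => spS ℓ B t (Λ s) from funext fun s => (hl s).1,
      show (fun i => iQ ℓ (τ i)) = fun i => spS ℓ B t (PowerSeries.C (tv ℓ B i)) from funext hτ]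
  have e2 : g = ∑ r, ez (pt a l τ) (VV σ B P o r) * b r := by
    apply iQ_inj
    rw [hg]
    unfold FV
    rw [map_sum, map_sum]
    refine Finset.sum_congr rfl fun r _ => ?_
    rw [map_mul, map_mul, e1 r, (hb r).1]
  rw [e2, map_sum]
  refine Finset.sum_congr rfl fun r _ => ?_
  rw [map_mul, ev_mem hℓ3 EL hP h0 h1 hcl S hev ht r (hb r).1, hom_ez, pt_map]
  congr 1
  unfold vz
  rw [ez_VV σ B P _ _ _ (fun _ => 0) o r,
    show (fun i => ev (a i)) = fun i => (z i : ℤ_[ℓ]) from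
      funext fun i => ev_phi hP S.toPathS hev h1.eqn h1.jac hcl' ht i (ha i),
    show (fun s => ev (l s)) = fun s => lg (z (σ.bs s) : ℤ_[ℓ]) from
      funext fun s => ev_log hℓ3 EL hP h0 h1 hcl S hev ht s (hl s).1]


private theorem coeff_zero_FV (hℓ3 : 3 ≤ ℓ) {ex lg : ℤ_[ℓ] → ℤ_[ℓ]} (EL : IsEL ℓ ex lg)
    (hP : ∀ i, i ∉ B → (P i).vars ⊆ insert i B) (h0 : PtOK ℓ σ B P z0)
    (S : Ser ℓ B σ P α z0 (fun s => lg (z0 (σ.bs s) : ℤ_[ℓ])) φ Λ y) (o : Option (Fin N))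
    (hval : ∑ r, vz ℓ lg σ z0 (VV σ B P o r) * ((mm σ α z0 r : ℤ) : ℤ_[ℓ]) = 0) :
    PowerSeries.coeff 0 (FV ℓ φ Λ y (VV σ B P o)) = 0 := by
  obtain ⟨ev, hev⟩ := exists_isEv ℓ
  have ht : ∀ b : {x // x ∈ B}, z0 b.1 = z0 b.1 + ℓ * (fun _ : {x // x ∈ B} => (0 : ℤ)) b := by
    intro b
    simp
  have htd : ∀ b : {x // x ∈ B}, (ℓ : ℤ) ∣ (fun _ : {x // x ∈ B} => (0 : ℤ)) b :=
    fun b => dvd_zero _
  obtain ⟨g, hg, -⟩ := exists_lift hℓ3 (hz_FV S (VV σ B P o)) (hm_FV S o) htd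
  have h1 := ev_FV hℓ3 EL hP h0 h0 (fun i => by rw [sub_self]; exact dvd_zero _) S hev ht htd o hg
  rw [hval] at h1
  have hev0 : (fun b : {x // x ∈ B} => (((fun _ : {x // x ∈ B} => (0 : ℤ)) b : ℤ) : ℚ_[ℓ])) =
      fun _ => 0 := by
    funext b
    simp
  have hco : ∀ k, algebraMap ℤ_[ℓ] ℚ_[ℓ] (PowerSeries.coeff k g) =
      constantCoeff (PowerSeries.coeff k (FV ℓ φ Λ y (VV σ B P o))) := by
    intro k
    have h2 := congrArg (PowerSeries.coeff k) hg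
    rw [PowerSeries.coeff_map, PowerSeries.coeff_map, hev0] at h2
    rw [h2]
    have h3 : (eval (fun _ : {x // x ∈ B} => (0 : ℚ_[ℓ]))) = constantCoeff := by
      have := MvPolynomial.eval_zero (σ := {x // x ∈ B}) (R := ℚ_[ℓ])
      rw [← this]
      rfl
    rw [h3]
  have hinj := FaithfulSMul.algebraMap_injective ℤ_[ℓ] ℚ_[ℓ]
  have hk : ∀ k, 1 ≤ k → PowerSeries.coeff k g = 0 := by
    intro k hk
    apply hinj
    rw [hco k, map_zero, constantCoeff_eq]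
    exact (hm_FV S o k).coeff_eq_zero (by simp; omega)
  have hgC : g = PowerSeries.C (PowerSeries.coeff 0 g) := by
    ext k
    rw [PowerSeries.coeff_C]
    split_ifs with h
    · rw [h]
    · rw [hk k (by omega)]
  rw [hgC, hev.C] at h1
  ext d
  rw [MvPolynomial.coeff_zero]
  by_cases hd : d.degree = 0
  · have hd0 : d = 0 := (Finsupp.degree_eq_zero_iff d).1 hd
    have h4 := hco 0
    rw [h1, map_zero, constantCoeff_eq] at h4
    rw [hd0, ← h4]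
  · exact (hm_FV S o 0).coeff_eq_zero hd

theorem flat (hℓ3 : 3 ≤ ℓ) {ex lg : ℤ_[ℓ] → ℤ_[ℓ]} (EL : IsEL ℓ ex lg)
    (hP : ∀ i, i ∉ B → (P i).vars ⊆ insert i B)
    {ν D : ℕ} (hν : 1 ≤ ν) (hℓν : ν + 2 ≤ ℓ) {c : ℤ} (hc : ¬ (ℓ : ℤ) ∣ c)
    {o : Option (Fin N)} (hrel : NabRel σ B P c ν o) (C : Finset (Fin N → ℤ))
    (hC : ∀ z ∈ C, PtOK ℓ σ B P z) (hz0 : z0 ∈ C)
    (hcl : ∀ z ∈ C, ∀ i, ((ℓ ^ 2 * (ℓ - 1) : ℕ) : ℤ) ∣ z i - z0 i)
    (hval : ∀ z ∈ C, ∑ r, vz ℓ lg σ z (VV σ B P o r) * ((mm σ α z r : ℤ) : ℤ_[ℓ]) = 0)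
    (S : Ser ℓ B σ P α z0 (fun s => lg (z0 (σ.bs s) : ℤ_[ℓ])) φ Λ y)
    (hno : ∀ ρ, ¬ Rel ℓ B z0 C ν D ρ) :
    FV ℓ φ Λ y (VV σ B P o) = 0 := by
  by_contra hF
  obtain ⟨ρ, hhigh, hunit, hvan⟩ := rel_poly D hν hℓν (hz_FV S (VV σ B P o)) (hm_FV S o)
    (coeff_zero_FV hℓ3 EL hP (hC z0 hz0) S o (hval z0 hz0)) hF
    (fun c0 hc0 h => span_FV S (hC z0 hz0) hc hrel hc0 h)
  refine hno ρ ⟨?_, hhigh, hunit⟩
  intro z hz t ht
  have hℓ0 : (ℓ : ℤ) ≠ 0 := by exact_mod_cast (Fact.out : ℓ.Prime).ne_zero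
  have htd : ∀ b, (ℓ : ℤ) ∣ t b := by
    intro b
    have h1 := hcl z hz b.1
    rw [ht b, add_sub_cancel_left] at h1
    have h2 : (ℓ : ℤ) * ℓ ∣ ℓ * t b :=
      (Dvd.intro ((ℓ - 1 : ℕ) : ℤ) (by push_cast; ring)).trans h1
    exact (mul_dvd_mul_iff_left hℓ0).1 h2
  obtain ⟨ev, hev⟩ := exists_isEv ℓ
  obtain ⟨g, hg, -⟩ := exists_lift hℓ3 (hz_FV S (VV σ B P o)) (hm_FV S o) htd
  refine hvan ev hev t g hg ?_
  rw [ev_FV hℓ3 EL hP (hC z0 hz0) (hC z hz) (hcl z hz) S hev ht htd o hg]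
  exact hval z hz

end Pool.Agent.Lib.FewY
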