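import Pool.Agent.Lib.FewY.HLFun

/-!
# p-adic exponentials of integers divisible by p, and exponential polynomials
-/

open PowerSeries

namespace Pool.Agent.Lib.FewY
namespace HL

variable {p : ℕ} [hp : Fact p.Prime]

/-- `p ^ (-1/2)`. -/
noncomputable def rho (p : ℕ) : ℝ := (√(p : ℝ))⁻¹

omit hp in
theorem rho_sq : rho p ^ 2 = (p : ℝ)⁻¹ := by
  unfold rho
  rw [inv_pow, Real.sq_sqrt (Nat.cast_nonneg p)]

theorem rho_pos : 0 < rho p := by
  unfold rho
  have : (0 : ℝ) < p := by exact_mod_cast hp.out.pos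
  positivity

theorem rho_lt_one : rho p < 1 := by
  have h1 : (1 : ℝ) < p := by exact_mod_cast hp.out.one_lt
  have h2 : rho p ^ 2 < 1 := by
    rw [rho_sq]
    exact inv_lt_one_of_one_lt₀ h1
  have := rho_pos (p := p)
  nlinarith

theorem norm_inv_factorial_le (hp3 : 3 ≤ p) (n : ℕ) :
    ‖((n.factorial : ℚ_[p]))⁻¹‖ ≤ (rho p)⁻¹ ^ n := by
  have hne : ((n.factorial : ℕ) : ℚ_[p]) ≠ 0 := by exact_mod_cast n.factorial_ne_zero
  rw [norm_inv, Padic.norm_eq_zpow_neg_valuation hne, Padic.valuation_natCast, zpow_neg, inv_inv,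
    zpow_natCast]
  have h1 := sub_one_mul_padicValNat_factorial (p := p) n
  have h2 : 2 * padicValNat p n.factorial ≤ n := by
    have : 2 * padicValNat p n.factorial ≤ (p - 1) * padicValNat p n.factorial :=
      Nat.mul_le_mul_right _ (by omega)
    omega
  have hr : (p : ℝ) = (rho p)⁻¹ ^ 2 := by rw [inv_pow, rho_sq, inv_inv]
  have h1r : 1 ≤ (rho p)⁻¹ := (one_le_inv₀ rho_pos).2 rho_lt_one.le
  calc (p : ℝ) ^ padicValNat p n.factorial = (rho p)⁻¹ ^ (2 * padicValNat p n.factorial) := by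
        rw [pow_mul, ← hr]
    _ ≤ (rho p)⁻¹ ^ n := pow_le_pow_right₀ h1r h2

theorem norm_dvd_le {c : ℤ} (hc : (p : ℤ) ∣ c) : ‖(c : ℚ_[p])‖ ≤ rho p ^ 2 := by
  rw [rho_sq]
  have h := (Padic.norm_int_le_pow_iff_dvd (p := p) c 1).2 (by simpa using hc)
  simpa using h

theorem norm_E_coeff (hp3 : 3 ≤ p) {c : ℤ} (hc : (p : ℤ) ∣ c) (n : ℕ) :
    ‖coeff n (E (c : ℚ_[p]))‖ ≤ rho p ^ n := by
  rw [E, coeff_mk, div_eq_mul_inv, norm_mul, norm_pow]
  calc ‖(c : ℚ_[p])‖ ^ n * ‖((n.factorial : ℚ_[p]))⁻¹‖ ≤ (rho p ^ 2) ^ n * (rho p)⁻¹ ^ n :=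
        mul_le_mul (pow_le_pow_left₀ (norm_nonneg _) (norm_dvd_le hc) n)
          (norm_inv_factorial_le hp3 n) (norm_nonneg _) (by positivity)
    _ = rho p ^ n := by
        rw [← mul_pow]
        congr 1
        have := (rho_pos (p := p)).ne'
        field_simp

theorem radius_ge (hp3 : 3 ≤ p) :
    (ENNReal.ofReal (rho p)) ≤ (NormedSpace.expSeries ℚ_[p] ℚ_[p]).radius := by
  have h := FormalMultilinearSeries.le_radius_of_bound (NormedSpace.expSeries ℚ_[p] ℚ_[p]) 1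
    (r := (rho p).toNNReal) ?_
  · exact h
  · intro n
    rw [Real.coe_toNNReal _ rho_pos.le]
    have h1 : ‖NormedSpace.expSeries ℚ_[p] ℚ_[p] n‖ ≤ (rho p)⁻¹ ^ n := by
      unfold NormedSpace.expSeries
      rw [norm_smul]
      calc ‖((n.factorial : ℚ_[p]))⁻¹‖ * ‖ContinuousMultilinearMap.mkPiAlgebraFin ℚ_[p] n ℚ_[p]‖
          ≤ (rho p)⁻¹ ^ n * 1 :=
            mul_le_mul (norm_inv_factorial_le hp3 n)
              (by rw [ContinuousMultilinearMap.norm_mkPiAlgebraFin])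
              (norm_nonneg _) (by have := rho_pos (p := p); positivity)
        _ = _ := mul_one _
    calc ‖NormedSpace.expSeries ℚ_[p] ℚ_[p] n‖ * rho p ^ n ≤ (rho p)⁻¹ ^ n * rho p ^ n :=
          mul_le_mul_of_nonneg_right h1 (by have := rho_pos (p := p); positivity)
      _ = 1 := by
          rw [← mul_pow, inv_mul_cancel₀ rho_pos.ne', one_pow]

theorem mem_ball (hp3 : 3 ≤ p) {c : ℤ} (hc : (p : ℤ) ∣ c) :
    (c : ℚ_[p]) ∈ Metric.eball (0 : ℚ_[p]) (NormedSpace.expSeries ℚ_[p] ℚ_[p]).radius := by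
  rw [Metric.mem_eball, edist_zero_right]
  refine lt_of_lt_of_le ?_ (radius_ge hp3)
  rw [← ofReal_norm]
  refine (ENNReal.ofReal_lt_ofReal_iff rho_pos).2 ?_
  refine (norm_dvd_le hc).trans_lt ?_
  have h1 := rho_pos (p := p)
  have h2 := rho_lt_one (p := p)
  nlinarith

/-- The p-adic exponential of an integer. -/
noncomputable def pexp (p : ℕ) [Fact p.Prime] (c : ℤ) : ℚ_[p] := NormedSpace.exp (c : ℚ_[p])

theorem pexp_hasSum (hp3 : 3 ≤ p) {c : ℤ} (hc : (p : ℤ) ∣ c) :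
    HasSum (fun n : ℕ => (c : ℚ_[p]) ^ n / (n.factorial : ℚ_[p])) (pexp p c) :=
  NormedSpace.expSeries_div_hasSum_exp_of_mem_ball ℚ_[p] _ (mem_ball hp3 hc)

theorem pexp_add (hp3 : 3 ≤ p) {c d : ℤ} (hc : (p : ℤ) ∣ c) (hd : (p : ℤ) ∣ d) :
    pexp p (c + d) = pexp p c * pexp p d := by
  unfold pexp
  rw [Int.cast_add]
  exact NormedSpace.exp_add_of_mem_ball (𝕂 := ℚ_[p]) (mem_ball hp3 hc) (mem_ball hp3 hd)

theorem pexp_zero : pexp p 0 = 1 := by
  unfold pexp
  rw [Int.cast_zero, NormedSpace.exp_zero]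

theorem pexp_nsmul (hp3 : 3 ≤ p) {c : ℤ} (hc : (p : ℤ) ∣ c) (k : ℕ) :
    pexp p (k * c) = pexp p c ^ k := by
  induction k with
  | zero => simp [pexp_zero]
  | succ k ih =>
    rw [pow_succ, ← ih, ← pexp_add hp3 (Dvd.dvd.mul_left hc _) hc]
    congr 1
    push_cast
    ring

theorem ev_E (hp3 : 3 ≤ p) {c : ℤ} (hc : (p : ℤ) ∣ c) (m : ℕ) :
    ev (E (c : ℚ_[p])) (m : ℚ_[p]) = pexp p c ^ m := by
  rw [← pexp_nsmul hp3 hc m, ← (pexp_hasSum hp3 (c := (m : ℤ) * c) (Dvd.dvd.mul_left hc _)).tsum_eq]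
  unfold ev
  refine tsum_congr fun n => ?_
  rw [E, coeff_mk]
  push_cast
  ring

theorem Bd_E (hp3 : 3 ≤ p) {c : ℤ} (hc : (p : ℤ) ∣ c) : Bd (rho p) 1 (E (c : ℚ_[p])) := by
  intro n
  rw [one_mul]
  exact norm_E_coeff hp3 hc n

/-- An integer polynomial as a power series. -/
noncomputable def ps (p : ℕ) [Fact p.Prime] (P : Polynomial ℤ) : PowerSeries ℚ_[p] :=
  ((P.map (Int.castRingHom ℚ_[p]) : Polynomial ℚ_[p]) : PowerSeries ℚ_[p])

theorem coeff_ps (P : Polynomial ℤ) (n : ℕ) : coeff n (ps p P) = (P.coeff n : ℚ_[p]) := by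
  unfold ps
  rw [Polynomial.coeff_coe, Polynomial.coeff_map]
  rfl

theorem Bd_ps_mul (hp3 : 3 ≤ p) {c : ℤ} (hc : (p : ℤ) ∣ c) (P : Polynomial ℤ) {D : ℕ}
    (hD : P.natDegree < D) : Bd (rho p) ((rho p)⁻¹ ^ D) (ps p P * E (c : ℚ_[p])) := by
  intro n
  have h0 := rho_pos (p := p)
  have h1 := rho_lt_one (p := p)
  rw [coeff_mul]
  refine IsUltrametricDist.norm_sum_le_of_forall_le_of_nonneg (by positivity) fun x hx => ?_
  have hxn : x.1 + x.2 = n := by simpa using hx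
  rw [norm_mul, coeff_ps]
  by_cases hxD : x.1 < D
  · calc ‖(P.coeff x.1 : ℚ_[p])‖ * ‖coeff x.2 (E (c : ℚ_[p]))‖ ≤ 1 * rho p ^ x.2 :=
          mul_le_mul (Padic.norm_int_le_one _) (norm_E_coeff hp3 hc _) (norm_nonneg _) zero_le_one
      _ ≤ (rho p)⁻¹ ^ D * rho p ^ n := by
          rw [one_mul, ← hxn, pow_add, ← mul_assoc]
          refine le_mul_of_one_le_left (by positivity) ?_
          calc (1 : ℝ) = (rho p)⁻¹ ^ D * rho p ^ D := by
                rw [← mul_pow, inv_mul_cancel₀ h0.ne', one_pow]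
            _ ≤ (rho p)⁻¹ ^ D * rho p ^ x.1 :=
                mul_le_mul_of_nonneg_left (pow_le_pow_of_le_one h0.le h1.le hxD.le) (by positivity)
  · rw [Polynomial.coeff_eq_zero_of_natDegree_lt (by omega)]
    simp only [Int.cast_zero, norm_zero, zero_mul]
    positivity

theorem ps_C (a : ℤ) : ps p (Polynomial.C a) = PowerSeries.C (a : ℚ_[p]) := by
  ext n
  rw [coeff_ps, Polynomial.coeff_C, coeff_C]
  split_ifs <;> simp

theorem ps_add (P Q : Polynomial ℤ) : ps p (P + Q) = ps p P + ps p Q := by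
  ext n
  rw [coeff_ps, map_add, coeff_ps, coeff_ps, Polynomial.coeff_add, Int.cast_add]

theorem ps_mul (P Q : Polynomial ℤ) : ps p (P * Q) = ps p P * ps p Q := by
  unfold ps
  rw [Polynomial.map_mul, Polynomial.coe_mul]

theorem ps_X : ps p Polynomial.X = X := by
  unfold ps
  rw [Polynomial.map_X, Polynomial.coe_X]

theorem ps_derivative (P : Polynomial ℤ) : ps p (Polynomial.derivative P) = d⁄dX ℚ_[p] (ps p P) := by
  ext n
  rw [coeff_ps, coeff_derivative, coeff_ps, Polynomial.coeff_derivative]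
  push_cast
  ring

/-- Evaluation of a polynomial multiple. -/
theorem ev_ps_mul (hp3 : 3 ≤ p) {c : ℤ} (hc : (p : ℤ) ∣ c) (P : Polynomial ℤ) (m : ℕ) :
    ev (ps p P * E (c : ℚ_[p])) (m : ℚ_[p]) = ((P.eval (m : ℤ) : ℤ) : ℚ_[p]) * pexp p c ^ m := by
  have h0 := rho_pos (p := p)
  have h1 := rho_lt_one (p := p)
  induction P using Polynomial.induction_on' with
  | add P Q hP hQ =>
    have hPb := Bd_ps_mul hp3 hc P (Nat.lt_succ_self _)
    have hQb := Bd_ps_mul hp3 hc Q (Nat.lt_succ_self _)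
    rw [ps_add, add_mul, ev_add h0.le h1 hPb hQb (norm_nat_le m), hP, hQ, Polynomial.eval_add]
    push_cast
    ring
  | monomial k a =>
    rw [← Polynomial.C_mul_X_pow_eq_monomial, ps_mul, ps_C, mul_assoc, ev_C_mul]
    have key : ∀ k : ℕ, ev (ps p (Polynomial.X ^ k) * E (c : ℚ_[p])) (m : ℚ_[p]) =
        (m : ℚ_[p]) ^ k * pexp p c ^ m := by
      intro k
      induction k with
      | zero =>
        have : ps p (Polynomial.X ^ 0) = 1 := by
          rw [pow_zero, show (1 : Polynomial ℤ) = Polynomial.C 1 by simp, ps_C]; simp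
        rw [this, one_mul, ev_E hp3 hc, pow_zero, one_mul]
      | succ k ih =>
        rw [pow_succ', ps_mul, ps_X, mul_assoc, ev_X_mul h0.le h1
          (Bd_ps_mul hp3 hc (Polynomial.X ^ k) (Nat.lt_succ_self _)) (norm_nat_le m) h0, ih]
        ring
    rw [key]
    simp only [Polynomial.eval_mul, Polynomial.eval_C, Polynomial.eval_pow, Polynomial.eval_X]
    push_cast
    ring

section Sum

variable {ι : Type*} [Fintype ι]

/-- The exponential polynomial `∑ P i * exp (c i X)`. -/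
noncomputable def F (p : ℕ) [Fact p.Prime] (c : ι → ℤ) (P : ι → Polynomial ℤ) : PowerSeries ℚ_[p] :=
  ∑ i, ps p (P i) * E (c i : ℚ_[p])

/-- The action of the derivative on the polynomial coefficients. -/
noncomputable def T (c : ι → ℤ) (P : ι → Polynomial ℤ) : ι → Polynomial ℤ :=
  fun i => Polynomial.derivative (P i) + Polynomial.C (c i) * P i

theorem deriv_F (c : ι → ℤ) (P : ι → Polynomial ℤ) : d⁄dX ℚ_[p] (F p c P) = F p c (T c P) := by
  unfold F
  rw [map_sum]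
  refine Finset.sum_congr rfl fun i _ => ?_
  rw [Derivation.leibniz, deriv_E, ← ps_derivative, T, ps_add, ps_mul, ps_C]
  simp only [smul_eq_mul]
  ring

theorem iterDeriv_F (c : ι → ℤ) (P : ι → Polynomial ℤ) (t : ℕ) :
    (d⁄dX ℚ_[p])^[t] (F p c P) = F p c ((T c)^[t] P) := by
  induction t with
  | zero => rfl
  | succ t ih => rw [Function.iterate_succ_apply', ih, deriv_F, Function.iterate_succ_apply']

theorem Bd_sum {ρ C : ℝ} (h0 : 0 ≤ ρ) (hC : 0 ≤ C) (s : Finset ι) (f : ι → PowerSeries ℚ_[p])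
    (h : ∀ i, Bd ρ C (f i)) : Bd ρ C (∑ i ∈ s, f i) := by
  intro n
  rw [map_sum]
  exact IsUltrametricDist.norm_sum_le_of_forall_le_of_nonneg (by positivity) fun i _ => h i n

theorem ev_sum {ρ C : ℝ} (h0 : 0 ≤ ρ) (h1 : ρ < 1) (hC : 0 ≤ C) (s : Finset ι)
    (f : ι → PowerSeries ℚ_[p]) (h : ∀ i, Bd ρ C (f i)) {x : ℚ_[p]} (hx : ‖x‖ ≤ 1) :
    ev (∑ i ∈ s, f i) x = ∑ i ∈ s, ev (f i) x := by
  classical
  induction s using Finset.induction_on with
  | empty =>
    simp only [Finset.sum_empty]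
    unfold ev
    simp
  | insert a s ha ih =>
    rw [Finset.sum_insert ha, Finset.sum_insert ha, ← ih,
      ev_add h0 h1 (h a) (Bd_sum h0 hC s f h) hx]

theorem Bd_F (hp3 : 3 ≤ p) {c : ι → ℤ} (hc : ∀ i, (p : ℤ) ∣ c i) {P : ι → Polynomial ℤ} {D : ℕ}
    (hD : ∀ i, (P i).natDegree < D) : Bd (rho p) ((rho p)⁻¹ ^ D) (F p c P) :=
  Bd_sum rho_pos.le (by have := rho_pos (p := p); positivity) _ _
    fun i => Bd_ps_mul hp3 (hc i) (P i) (hD i)

theorem ev_F (hp3 : 3 ≤ p) {c : ι → ℤ} (hc : ∀ i, (p : ℤ) ∣ c i) {P : ι → Polynomial ℤ} {D : ℕ}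
    (hD : ∀ i, (P i).natDegree < D) (m : ℕ) :
    ev (F p c P) (m : ℚ_[p]) =
      ∑ i, (((P i).eval (m : ℤ) : ℤ) : ℚ_[p]) * pexp p (c i) ^ m := by
  unfold F
  rw [ev_sum rho_pos.le rho_lt_one (by have := rho_pos (p := p); positivity) _ _
    (fun i => Bd_ps_mul hp3 (hc i) (P i) (hD i)) (norm_nat_le m)]
  exact Finset.sum_congr rfl fun i _ => ev_ps_mul hp3 (hc i) (P i) m

theorem natDegree_T {c : ι → ℤ} {P : ι → Polynomial ℤ} {D : ℕ} (hD : ∀ i, (P i).natDegree < D)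
    (t : ℕ) (i : ι) : (((T c)^[t] P) i).natDegree < D := by
  induction t generalizing i with
  | zero => exact hD i
  | succ t ih =>
    rw [Function.iterate_succ_apply']
    unfold T
    refine (Polynomial.natDegree_add_le _ _).trans_lt (max_lt ?_ ?_)
    · exact ((Polynomial.natDegree_derivative_le _).trans (Nat.sub_le _ _)).trans_lt (ih i)
    · exact (Polynomial.natDegree_C_mul_le _ _).trans_lt (ih i)

end Sum

end HL
end Pool.Agent.Lib.FewY
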