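import Pool.Agent.Lib.FewY.HLSer

/-!
# Exponential polynomials as formal power series

`E c = exp (c X)`, the functions `∑ j, P j * E (j b)` with polynomial coefficients, their
derivatives, and their linear independence.
-/

open PowerSeries

namespace Pool.Agent.Lib.FewY
namespace HL

section Formal

variable {K : Type*} [Field K] [CharZero K]

/-- The power series `exp (c X)`. -/
noncomputable def E (c : K) : PowerSeries K := PowerSeries.mk fun n => c ^ n / (n.factorial : K)

theorem deriv_E (c : K) : d⁄dX K (E c) = PowerSeries.C c * E c := by
  ext n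
  rw [coeff_derivative, coeff_C_mul, E, coeff_mk, coeff_mk, Nat.factorial_succ]
  have h1 : (n.factorial : K) ≠ 0 := by exact_mod_cast n.factorial_ne_zero
  have h2 : ((n : K) + 1) ≠ 0 := by exact_mod_cast n.succ_ne_zero
  push_cast
  field_simp
  ring

theorem deriv_poly_mul_E (P : Polynomial K) (c : K) :
    d⁄dX K ((P : PowerSeries K) * E c) =
      ((Polynomial.derivative P + Polynomial.C c * P : Polynomial K) : PowerSeries K) * E c := by
  rw [Derivation.leibniz, deriv_E, derivative_coe]
  simp only [smul_eq_mul, Polynomial.coe_add, Polynomial.coe_mul, Polynomial.coe_C]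
  ring

/-- The measure used in the proof of linear independence. -/
noncomputable def mes (P : Polynomial K) : ℕ := open Classical in if P = 0 then 0 else P.natDegree + 1

omit [CharZero K] in
theorem mes_zero_iff (P : Polynomial K) : mes P = 0 ↔ P = 0 := by
  unfold mes; split_ifs with h <;> simp [h]

omit [CharZero K] in
theorem mes_derivative_lt {P : Polynomial K} (hP : P ≠ 0) : mes (Polynomial.derivative P) < mes P := by
  unfold mes
  rw [if_neg hP]
  split_ifs with h
  · omega
  · have hd : P.natDegree ≠ 0 := by
      intro h0
      apply h
      rw [Polynomial.eq_C_of_natDegree_eq_zero h0, Polynomial.derivative_C]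
    have := Polynomial.natDegree_derivative_lt hd
    omega

theorem mes_derivative_le (P : Polynomial K) : mes (Polynomial.derivative P) ≤ mes P := by
  by_cases h : P = 0
  · simp [h]
  · exact (mes_derivative_lt h).le

omit [CharZero K] in
theorem natDegree_twist {P : Polynomial K} {c : K} (hc : c ≠ 0) (hP : P ≠ 0) :
    Polynomial.derivative P + Polynomial.C c * P ≠ 0 ∧
      (Polynomial.derivative P + Polynomial.C c * P).natDegree = P.natDegree := by
  have hcoef : (Polynomial.derivative P + Polynomial.C c * P).coeff P.natDegree =
      c * P.leadingCoeff := by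
    rw [Polynomial.coeff_add, Polynomial.coeff_C_mul, Polynomial.coeff_derivative,
      Polynomial.coeff_eq_zero_of_natDegree_lt (Nat.lt_succ_self _), zero_mul, zero_add]
    rfl
  have hne : c * P.leadingCoeff ≠ 0 := mul_ne_zero hc (Polynomial.leadingCoeff_ne_zero.2 hP)
  have h1 : Polynomial.derivative P + Polynomial.C c * P ≠ 0 := by
    intro h
    rw [h, Polynomial.coeff_zero] at hcoef
    exact hne hcoef.symm
  refine ⟨h1, le_antisymm ?_ ?_⟩
  · refine (Polynomial.natDegree_add_le _ _).trans (max_le ?_ ?_)
    · exact (Polynomial.natDegree_derivative_le P).trans (Nat.sub_le _ _)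
    · exact Polynomial.natDegree_C_mul_le _ _
  · exact Polynomial.le_natDegree_of_ne_zero (by rw [hcoef]; exact hne)

theorem mes_twist {P : Polynomial K} {c : K} (hc : c ≠ 0) :
    mes (Polynomial.derivative P + Polynomial.C c * P) = mes P := by
  by_cases hP : P = 0
  · simp [hP]
  · have := natDegree_twist hc hP
    unfold mes
    rw [if_neg this.1, if_neg hP, this.2]

/-- **Linear independence** of the functions `exp (c i X)` over the polynomials. -/
theorem E_linearIndependent {ι : Type*} [Fintype ι] [DecidableEq ι] (c : ι → K)
    (hc : Function.Injective c) :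
    ∀ (N : ℕ) (P : ι → Polynomial K), ∑ i, mes (P i) = N →
      ∑ i, (P i : PowerSeries K) * E (c i) = 0 → ∀ i, P i = 0 := by
  intro N
  induction N using Nat.strong_induction_on with
  | _ N ih =>
    intro P hN hP
    by_contra hex
    push Not at hex
    obtain ⟨i0, hi0⟩ := hex
    set Q : ι → Polynomial K := fun i =>
      Polynomial.derivative (P i) + Polynomial.C (c i - c i0) * P i with hQ
    have hQ0 : ∑ i, (Q i : PowerSeries K) * E (c i) = 0 := by
      have h := congrArg (d⁄dX K) hP
      rw [map_sum, map_zero] at h
      have e : ∀ i, (Q i : PowerSeries K) * E (c i) =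
          d⁄dX K ((P i : PowerSeries K) * E (c i)) - PowerSeries.C (c i0) * ((P i : PowerSeries K) * E (c i)) := by
        intro i
        rw [deriv_poly_mul_E, hQ]
        simp only [Polynomial.coe_add, Polynomial.coe_mul, Polynomial.coe_C, map_sub,
          Polynomial.coe_sub]
        ring
      rw [Finset.sum_congr rfl fun i _ => e i, Finset.sum_sub_distrib, h, ← Finset.mul_sum, hP]
      ring
    have hlt : ∑ i, mes (Q i) < N := by
      rw [← hN]
      refine Finset.sum_lt_sum (fun i _ => ?_) ⟨i0, Finset.mem_univ _, ?_⟩
      · by_cases h : c i = c i0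
        · simp only [hQ, h, sub_self, map_zero, zero_mul, add_zero]
          exact mes_derivative_le _
        · exact (mes_twist (sub_ne_zero.2 h)).le
      · simp only [hQ, sub_self, map_zero, zero_mul, add_zero]
        exact mes_derivative_lt hi0
    have hQz := ih _ hlt Q rfl hQ0
    have hz : ∀ i, i ≠ i0 → P i = 0 := by
      intro i hi
      by_contra h
      exact (natDegree_twist (sub_ne_zero.2 fun hh => hi (hc hh)) h).1 (hQz i)
    have hd0 : Polynomial.derivative (P i0) = 0 := by
      have := hQz i0
      simpa [hQ] using this
    have hconst := Polynomial.eq_C_of_derivative_eq_zero hd0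
    rw [Finset.sum_eq_single i0 (fun i _ hi => by rw [hz i hi]; simp) (by simp)] at hP
    have h0 := congrArg (PowerSeries.coeff 0) hP
    rw [hconst] at h0
    simp [E] at h0
    apply hi0
    rw [hconst, h0, map_zero]

end Formal

end HL
end Pool.Agent.Lib.FewY
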