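import Mathlib

/-!
# Convergent power series over the p-adic numbers: division by linear factors

Elementary tools for the p-adic Schwarz lemma: a power series whose `n`-th coefficient is at most
`C ρ ^ n`, with `ρ < 1`, and which vanishes (with multiplicity) at `N` integer points has all its
coefficients at most `C ρ ^ N`.
-/

open PowerSeries

namespace Pool.Agent.Lib.FewY
namespace HL

variable {p : ℕ} [hp : Fact p.Prime]

/-- The `n`-th coefficient is at most `C ρ ^ n`. -/
def Bd (ρ C : ℝ) (f : PowerSeries ℚ_[p]) : Prop := ∀ n, ‖coeff n f‖ ≤ C * ρ ^ n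

/-- The sum of the power series at `x`. -/
noncomputable def ev (f : PowerSeries ℚ_[p]) (x : ℚ_[p]) : ℚ_[p] := ∑' n, coeff n f * x ^ n

variable {ρ C C' : ℝ} {f g : PowerSeries ℚ_[p]} {x y : ℚ_[p]}

theorem Bd.nonneg (hf : Bd ρ C f) : 0 ≤ C := by
  have := hf 0
  simp only [pow_zero, mul_one] at this
  exact (norm_nonneg _).trans this

theorem Bd.summable_norm (h0 : 0 ≤ ρ) (h1 : ρ < 1) (hf : Bd ρ C f) (hx : ‖x‖ ≤ 1) (k : ℕ) :
    Summable fun n => ‖coeff (n + k) f * x ^ n‖ := by
  refine Summable.of_nonneg_of_le (fun _ => norm_nonneg _) (fun n => ?_)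
    ((summable_geometric_of_lt_one h0 h1).mul_left C)
  rw [norm_mul, norm_pow]
  calc ‖coeff (n + k) f‖ * ‖x‖ ^ n ≤ (C * ρ ^ (n + k)) * 1 :=
        mul_le_mul (hf _) (pow_le_one₀ (norm_nonneg _) hx) (by positivity)
          (mul_nonneg hf.nonneg (by positivity))
    _ ≤ C * ρ ^ n := by
        rw [mul_one]
        exact mul_le_mul_of_nonneg_left (pow_le_pow_of_le_one h0 h1.le (by omega)) hf.nonneg

theorem Bd.summable (h0 : 0 ≤ ρ) (h1 : ρ < 1) (hf : Bd ρ C f) (hx : ‖x‖ ≤ 1) (k : ℕ) :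
    Summable fun n => coeff (n + k) f * x ^ n := (hf.summable_norm h0 h1 hx k).of_norm

theorem Bd.summable' (h0 : 0 ≤ ρ) (h1 : ρ < 1) (hf : Bd ρ C f) (hx : ‖x‖ ≤ 1) :
    Summable fun n => coeff n f * x ^ n := by simpa using hf.summable h0 h1 hx 0

theorem Bd.add (hf : Bd ρ C f) (hg : Bd ρ C' g) (h0 : 0 ≤ ρ) : Bd ρ (max C C') (f + g) := by
  intro n
  rw [map_add]
  refine (IsUltrametricDist.norm_add_le_max _ _).trans (max_le ?_ ?_)
  · exact (hf n).trans (mul_le_mul_of_nonneg_right (le_max_left _ _) (by positivity))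
  · exact (hg n).trans (mul_le_mul_of_nonneg_right (le_max_right _ _) (by positivity))

theorem Bd.C_mul (hf : Bd ρ C f) (a : ℚ_[p]) : Bd ρ (‖a‖ * C) (PowerSeries.C a * f) := by
  intro n
  rw [coeff_C_mul, norm_mul, mul_assoc]
  exact mul_le_mul_of_nonneg_left (hf n) (norm_nonneg _)

theorem Bd.X_mul (hf : Bd ρ C f) (h0 : 0 < ρ) : Bd ρ (C * ρ⁻¹) (X * f) := by
  intro n
  rcases n with _ | n
  · simp only [coeff_zero_X_mul, norm_zero, pow_zero, mul_one]
    have := hf.nonneg
    positivity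
  · rw [coeff_succ_X_mul]
    calc ‖coeff n f‖ ≤ C * ρ ^ n := hf n
      _ = C * ρ⁻¹ * ρ ^ (n + 1) := by rw [pow_succ]; field_simp

theorem Bd.deriv (hf : Bd ρ C f) (h0 : 0 ≤ ρ) (h1 : ρ < 1) : Bd ρ C (d⁄dX ℚ_[p] f) := by
  intro n
  rw [coeff_derivative, norm_mul]
  have hn : ‖((n : ℚ_[p]) + 1)‖ ≤ 1 := by
    have := Padic.norm_int_le_one (p := p) ((n : ℤ) + 1)
    push_cast at this
    exact this
  calc ‖coeff (n + 1) f‖ * ‖(n : ℚ_[p]) + 1‖ ≤ (C * ρ ^ (n + 1)) * 1 :=
        mul_le_mul (hf _) hn (norm_nonneg _) (mul_nonneg hf.nonneg (by positivity))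
    _ ≤ C * ρ ^ n := by
        rw [mul_one]
        exact mul_le_mul_of_nonneg_left (pow_le_pow_of_le_one h0 h1.le (by omega)) hf.nonneg

theorem Bd.iterDeriv (hf : Bd ρ C f) (h0 : 0 ≤ ρ) (h1 : ρ < 1) (s : ℕ) :
    Bd ρ C ((d⁄dX ℚ_[p])^[s] f) := by
  induction s with
  | zero => simpa using hf
  | succ s ih => rw [Function.iterate_succ_apply']; exact ih.deriv h0 h1

theorem ev_add (h0 : 0 ≤ ρ) (h1 : ρ < 1) (hf : Bd ρ C f) (hg : Bd ρ C' g) (hx : ‖x‖ ≤ 1) :
    ev (f + g) x = ev f x + ev g x := by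
  unfold ev
  rw [← (hf.summable' h0 h1 hx).tsum_add (hg.summable' h0 h1 hx)]
  exact tsum_congr fun n => by rw [map_add]; ring

theorem ev_C_mul (a : ℚ_[p]) : ev (PowerSeries.C a * f) x = a * ev f x := by
  unfold ev
  rw [← tsum_mul_left]
  exact tsum_congr fun n => by rw [coeff_C_mul]; ring

theorem ev_X_mul (h0 : 0 ≤ ρ) (h1 : ρ < 1) (hf : Bd ρ C f) (hx : ‖x‖ ≤ 1) (hρ : 0 < ρ) :
    ev (X * f) x = x * ev f x := by
  unfold ev
  rw [((hf.X_mul hρ).summable' h0 h1 hx).tsum_eq_zero_add, ← tsum_mul_left]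
  simp only [coeff_zero_X_mul, zero_mul, zero_add]
  exact tsum_congr fun n => by rw [coeff_succ_X_mul]; ring

theorem ev_linear_mul (h0 : 0 < ρ) (h1 : ρ < 1) (hg : Bd ρ C g) (hx : ‖x‖ ≤ 1) (a : ℚ_[p]) :
    ev ((X - PowerSeries.C a) * g) x = (x - a) * ev g x := by
  have e : (X - PowerSeries.C a) * g = X * g + PowerSeries.C (-a) * g := by
    rw [map_neg]; ring
  rw [e, ev_add h0.le h1 (hg.X_mul h0) (hg.C_mul (-a)) hx, ev_X_mul h0.le h1 hg hx h0, ev_C_mul]
  ring

/-- Division by a linear factor. -/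
theorem exists_div (h0 : 0 < ρ) (h1 : ρ < 1) (hf : Bd ρ C f) (hx : ‖x‖ ≤ 1) (hz : ev f x = 0) :
    ∃ g : PowerSeries ℚ_[p], f = (X - PowerSeries.C x) * g ∧ Bd ρ (C * ρ) g := by
  refine ⟨PowerSeries.mk fun n => ∑' k, coeff (k + (n + 1)) f * x ^ k, ?_, ?_⟩
  · have key : ∀ n, (∑' k, coeff (k + n) f * x ^ k) =
        coeff n f + x * ∑' k, coeff (k + (n + 1)) f * x ^ k := by
      intro n
      rw [(hf.summable h0.le h1 hx n).tsum_eq_zero_add, ← tsum_mul_left]
      simp only [zero_add, pow_zero, mul_one]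
      congr 1
      exact tsum_congr fun k => by
        rw [show k + 1 + n = k + (n + 1) by ring]; ring
    ext n
    rw [sub_mul, map_sub, coeff_C_mul, coeff_mk]
    rcases n with _ | n
    · have h := key 0
      have hz' : (∑' k, coeff (k + 0) f * x ^ k) = 0 := by simpa [ev] using hz
      rw [hz'] at h
      rw [coeff_zero_X_mul, zero_sub]
      exact eq_neg_of_add_eq_zero_left h.symm
    · rw [coeff_succ_X_mul, coeff_mk, key (n + 1)]
      ring
  · intro n
    rw [coeff_mk]
    refine IsUltrametricDist.norm_tsum_le_of_forall_le_of_nonneg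
      (mul_nonneg (mul_nonneg hf.nonneg h0.le) (by positivity)) (fun k => ?_)
    rw [norm_mul, norm_pow]
    calc ‖coeff (k + (n + 1)) f‖ * ‖x‖ ^ k ≤ (C * ρ ^ (k + (n + 1))) * 1 :=
          mul_le_mul (hf _) (pow_le_one₀ (norm_nonneg _) hx) (by positivity)
            (mul_nonneg hf.nonneg (by positivity))
      _ ≤ C * ρ ^ (n + 1) := by
          rw [mul_one]
          exact mul_le_mul_of_nonneg_left (pow_le_pow_of_le_one h0.le h1.le (by omega)) hf.nonneg
      _ = C * ρ * ρ ^ n := by rw [pow_succ]; ring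

theorem iterDeriv_linear_mul (a : ℚ_[p]) (g : PowerSeries ℚ_[p]) (s : ℕ) :
    (d⁄dX ℚ_[p])^[s] ((X - PowerSeries.C a) * g) =
      (X - PowerSeries.C a) * (d⁄dX ℚ_[p])^[s] g +
        PowerSeries.C (s : ℚ_[p]) * (d⁄dX ℚ_[p])^[s - 1] g := by
  induction s with
  | zero => simp
  | succ s ih =>
    rw [Function.iterate_succ_apply', ih, map_add, Derivation.leibniz, Derivation.leibniz]
    rw [map_sub, derivative_X, derivative_C, derivative_C]
    simp only [smul_eq_mul, sub_zero, mul_one, mul_zero, add_zero, Nat.add_sub_cancel]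
    rw [← Function.iterate_succ_apply' (f := (d⁄dX ℚ_[p])) s g]
    rcases s with _ | s
    · simp
    · rw [Nat.add_sub_cancel, ← Function.iterate_succ_apply' (f := (d⁄dX ℚ_[p])) s g]
      push_cast
      simp only [map_add, map_one, map_natCast]
      ring

/-- The vanishing conditions attached to a list of points. -/
def Van (f : PowerSeries ℚ_[p]) (L : List ℕ) : Prop :=
  ∀ m s : ℕ, s < L.count m → ev ((d⁄dX ℚ_[p])^[s] f) (m : ℚ_[p]) = 0

theorem norm_nat_le (m : ℕ) : ‖(m : ℚ_[p])‖ ≤ 1 := by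
  have := Padic.norm_int_le_one (p := p) (m : ℤ)
  simpa using this

/-- **Schwarz lemma.** -/
theorem coeff_le_of_van (h0 : 0 < ρ) (h1 : ρ < 1) (L : List ℕ) :
    ∀ (f : PowerSeries ℚ_[p]) (C : ℝ), Bd ρ C f → Van f L →
      ∀ n, ‖coeff n f‖ ≤ C * ρ ^ L.length := by
  induction L with
  | nil =>
    intro f C hf _ n
    refine (hf n).trans ?_
    simp only [List.length_nil, pow_zero]
    exact mul_le_mul_of_nonneg_left (pow_le_one₀ h0.le h1.le) hf.nonneg
  | cons m L ih =>
    intro f C hf hv n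
    have hm0 : ev f (m : ℚ_[p]) = 0 := by
      have := hv m 0 (by rw [List.count_cons_self]; omega)
      simpa using this
    obtain ⟨g, hfg, hg⟩ := exists_div h0 h1 hf (norm_nat_le m) hm0
    have hvg : Van g L := by
      intro m' s
      induction s with
      | zero =>
        intro hs
        by_cases hmm : m' = m
        · subst hmm
          have h := hv m' 1 (by rw [List.count_cons_self]; omega)
          rw [hfg, iterDeriv_linear_mul,
            ev_add h0.le h1 (C := C * ρ * ρ⁻¹ ⊔ (‖-(m' : ℚ_[p])‖ * (C * ρ))) (C' := ‖((1 : ℕ) : ℚ_[p])‖ * (C * ρ)) ?_ ?_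
              (norm_nat_le m'), ev_linear_mul h0 h1 (hg.iterDeriv h0.le h1 1) (norm_nat_le m'),
            ev_C_mul] at h
          · simpa using h
          · have e : (X - PowerSeries.C (m' : ℚ_[p])) * (d⁄dX ℚ_[p])^[1] g =
                X * (d⁄dX ℚ_[p])^[1] g + PowerSeries.C (-(m' : ℚ_[p])) * (d⁄dX ℚ_[p])^[1] g := by
              rw [map_neg]; ring
            rw [e]
            exact ((hg.iterDeriv h0.le h1 1).X_mul h0).add ((hg.iterDeriv h0.le h1 1).C_mul _) h0.le
          · exact (hg.iterDeriv h0.le h1 _).C_mul _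
        · have h := hv m' 0 (by rw [List.count_cons_of_ne (Ne.symm hmm)]; exact hs)
          rw [hfg, Function.iterate_zero, id, ev_linear_mul h0 h1 hg (norm_nat_le m')] at h
          rcases mul_eq_zero.1 h with h | h
          · exact absurd (by exact_mod_cast sub_eq_zero.1 h) hmm
          · simpa using h
      | succ s ihs =>
        intro hs
        have ih1 := ihs (by omega)
        have step : ∀ t, ev ((d⁄dX ℚ_[p])^[t] f) (m' : ℚ_[p]) =
            ((m' : ℚ_[p]) - m) * ev ((d⁄dX ℚ_[p])^[t] g) (m' : ℚ_[p]) +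
              t * ev ((d⁄dX ℚ_[p])^[t - 1] g) (m' : ℚ_[p]) := by
          intro t
          rw [hfg, iterDeriv_linear_mul,
            ev_add h0.le h1 (C := C * ρ * ρ⁻¹ ⊔ (‖-(m : ℚ_[p])‖ * (C * ρ))) (C' := ‖(t : ℚ_[p])‖ * (C * ρ)) ?_ ?_
              (norm_nat_le m'), ev_linear_mul h0 h1 (hg.iterDeriv h0.le h1 t) (norm_nat_le m'),
            ev_C_mul]
          · have e : (X - PowerSeries.C (m : ℚ_[p])) * (d⁄dX ℚ_[p])^[t] g =
                X * (d⁄dX ℚ_[p])^[t] g + PowerSeries.C (-(m : ℚ_[p])) * (d⁄dX ℚ_[p])^[t] g := by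
              rw [map_neg]; ring
            rw [e]
            exact ((hg.iterDeriv h0.le h1 t).X_mul h0).add ((hg.iterDeriv h0.le h1 t).C_mul _) h0.le
          · exact (hg.iterDeriv h0.le h1 _).C_mul _
        by_cases hmm : m' = m
        · subst hmm
          have h := hv m' (s + 2) (by rw [List.count_cons_self]; omega)
          rw [step] at h
          simp only [sub_self, zero_mul, zero_add, show s + 2 - 1 = s + 1 from rfl] at h
          rcases mul_eq_zero.1 h with h | h
          · exact absurd h (by exact_mod_cast (by omega : s + 2 ≠ 0))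
          · exact h
        · have h := hv m' (s + 1) (by rw [List.count_cons_of_ne (Ne.symm hmm)]; exact hs)
          rw [step, Nat.add_sub_cancel, ih1, mul_zero, add_zero] at h
          rcases mul_eq_zero.1 h with h | h
          · exact absurd (by exact_mod_cast sub_eq_zero.1 h) hmm
          · exact h
    have hgn := ih g (C * ρ) hg hvg
    have e1 : C * ρ * ρ ^ L.length = C * ρ ^ (m :: L).length := by
      rw [List.length_cons, pow_succ]; ring
    rw [hfg, sub_mul, map_sub, coeff_C_mul]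
    rw [sub_eq_add_neg]
    refine (IsUltrametricDist.norm_add_le_max _ _).trans (max_le ?_ ?_)
    · rcases n with _ | n
      · rw [coeff_zero_X_mul, norm_zero]
        have := hf.nonneg
        positivity
      · rw [coeff_succ_X_mul, ← e1]
        exact hgn n
    · rw [norm_neg, norm_mul, ← e1]
      calc ‖(m : ℚ_[p])‖ * ‖coeff n g‖ ≤ 1 * (C * ρ * ρ ^ L.length) :=
            mul_le_mul (norm_nat_le m) (hgn n) (norm_nonneg _) zero_le_one
        _ = C * ρ * ρ ^ L.length := one_mul _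

/-- The value of an iterated derivative is at most the largest coefficient. -/
theorem norm_ev_iterDeriv_le {K : ℝ} (hK : 0 ≤ K) (h : ∀ n, ‖coeff n f‖ ≤ K) (s : ℕ) (hx : ‖x‖ ≤ 1) :
    ‖ev ((d⁄dX ℚ_[p])^[s] f) x‖ ≤ K := by
  have h' : ∀ n, ‖coeff n ((d⁄dX ℚ_[p])^[s] f)‖ ≤ K := by
    induction s with
    | zero => simpa using h
    | succ s ih =>
      intro n
      rw [Function.iterate_succ_apply', coeff_derivative, norm_mul]
      have hn : ‖((n : ℚ_[p]) + 1)‖ ≤ 1 := by
        have := norm_nat_le (p := p) (n + 1)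
        push_cast at this
        exact this
      calc _ ≤ K * 1 := mul_le_mul (ih _) hn (norm_nonneg _) hK
        _ = K := mul_one K
  refine IsUltrametricDist.norm_tsum_le_of_forall_le_of_nonneg hK (fun n => ?_)
  rw [norm_mul, norm_pow]
  calc _ ≤ K * 1 := mul_le_mul (h' n) (pow_le_one₀ (norm_nonneg _) hx) (by positivity) hK
    _ = K := mul_one K

theorem ev_zero_right (f : PowerSeries ℚ_[p]) : ev f 0 = coeff 0 f := by
  unfold ev
  rw [tsum_eq_single 0]
  · simp
  · intro n hn
    simp [hn]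

theorem coeff_zero_iterDeriv (f : PowerSeries ℚ_[p]) (s n : ℕ) :
    coeff n ((d⁄dX ℚ_[p])^[s] f) = coeff (n + s) f * ((n + 1).ascFactorial s : ℕ) := by
  induction s generalizing n with
  | zero => simp
  | succ s ih =>
    rw [Function.iterate_succ_apply', coeff_derivative, ih (n + 1)]
    have h := Nat.succ_ascFactorial (n + 1) s
    have h2 : (n + 1).ascFactorial (s + 1) = (n + 1 + 1).ascFactorial s * (n + 1) := by
      rw [Nat.ascFactorial_succ, ← h]; ring
    rw [show n + 1 + s = n + (s + 1) by ring, h2]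
    push_cast
    ring

end HL
end Pool.Agent.Lib.FewY
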