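import Mathlib

/-!
# FewY.HurwRing: Hurwitz series with values in polynomials over `ℚ_[p]`

`Cn c f`: all the coefficients of the polynomial `f` have norm at most `c`. `HzK k c F`: the first `k` derivatives at `0`
of the power series `F` satisfy `Cn c`; `Hz F`: all of them, with `c = 1`. `Hm F`: the coefficient of `T^n` is homogeneous of
degree `n`.
-/

namespace Pool.Agent.Lib.FewY

variable {σ : Type} {p : ℕ} [Fact p.Prime]

/-- all the coefficients have norm at most `c` -/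
def Cn (c : ℝ) (f : MvPolynomial σ ℚ_[p]) : Prop := ∀ m, ‖MvPolynomial.coeff m f‖ ≤ c

/-- the first `k` derivatives at `0` have coefficients of norm at most `c` -/
def HzK (k : ℕ) (c : ℝ) (F : PowerSeries (MvPolynomial σ ℚ_[p])) : Prop :=
  ∀ n, n < k → Cn c ((n.factorial : MvPolynomial σ ℚ_[p]) * PowerSeries.coeff n F)

/-- Hurwitz series -/
def Hz (F : PowerSeries (MvPolynomial σ ℚ_[p])) : Prop := ∀ k, HzK k 1 F

/-- the coefficient of `T^n` is homogeneous of degree `n` -/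
def Hm (F : PowerSeries (MvPolynomial σ ℚ_[p])) : Prop :=
  ∀ n, (PowerSeries.coeff n F).IsHomogeneous n

theorem Cn.mono {c c' : ℝ} {f : MvPolynomial σ ℚ_[p]} (h : Cn c f) (hc : c ≤ c') : Cn c' f :=
  fun m => (h m).trans hc

theorem Cn.zero {c : ℝ} (hc : 0 ≤ c) : Cn c (0 : MvPolynomial σ ℚ_[p]) := by
  intro m
  simpa using hc

theorem Cn.add {c : ℝ} {f g : MvPolynomial σ ℚ_[p]} (hf : Cn c f) (hg : Cn c g) :
    Cn c (f + g) := by
  intro m
  rw [MvPolynomial.coeff_add]
  exact (Padic.nonarchimedean _ _).trans (max_le (hf m) (hg m))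

theorem Cn.neg {c : ℝ} {f : MvPolynomial σ ℚ_[p]} (hf : Cn c f) : Cn c (-f) := by
  intro m
  rw [MvPolynomial.coeff_neg, norm_neg]
  exact hf m

theorem Cn.sub {c : ℝ} {f g : MvPolynomial σ ℚ_[p]} (hf : Cn c f) (hg : Cn c g) :
    Cn c (f - g) := by
  rw [sub_eq_add_neg]
  exact hf.add hg.neg

theorem Cn.sum {ι : Type*} {c : ℝ} (hc : 0 ≤ c) (s : Finset ι)
    {f : ι → MvPolynomial σ ℚ_[p]} (hf : ∀ i ∈ s, Cn c (f i)) : Cn c (∑ i ∈ s, f i) := by
  classical
  induction s using Finset.induction_on with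
  | empty => simpa using Cn.zero hc
  | insert a s ha ih =>
    rw [Finset.sum_insert ha]
    exact (hf a (Finset.mem_insert_self _ _)).add
      (ih fun i hi => hf i (Finset.mem_insert_of_mem hi))

theorem norm_sum_le' {ι : Type*} {c : ℝ} (hc : 0 ≤ c) (s : Finset ι) {f : ι → ℚ_[p]}
    (hf : ∀ i ∈ s, ‖f i‖ ≤ c) : ‖∑ i ∈ s, f i‖ ≤ c := by
  classical
  induction s using Finset.induction_on with
  | empty => simpa using hc
  | insert a s ha ih =>
    rw [Finset.sum_insert ha]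
    exact (Padic.nonarchimedean _ _).trans (max_le (hf a (Finset.mem_insert_self _ _))
      (ih fun i hi => hf i (Finset.mem_insert_of_mem hi)))

theorem Cn.mul {a b : ℝ} (ha : 0 ≤ a) (hb : 0 ≤ b) {f g : MvPolynomial σ ℚ_[p]} (hf : Cn a f)
    (hg : Cn b g) : Cn (a * b) (f * g) := by
  classical
  intro m
  rw [MvPolynomial.coeff_mul]
  refine norm_sum_le' (mul_nonneg ha hb) _ fun x _ => ?_
  rw [norm_mul]
  exact mul_le_mul (hf _) (hg _) (norm_nonneg _) ha

theorem Cn.C {a : ℚ_[p]} : Cn ‖a‖ (MvPolynomial.C a : MvPolynomial σ ℚ_[p]) := by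
  classical
  intro m
  rw [MvPolynomial.coeff_C]
  split_ifs
  · exact le_rfl
  · simp

theorem Cn.int (n : ℤ) : Cn 1 (n : MvPolynomial σ ℚ_[p]) := by
  rw [← map_intCast (MvPolynomial.C (R := ℚ_[p]) (σ := σ)) n]
  exact Cn.C.mono (Padic.norm_int_le_one n)

theorem Cn.nat (n : ℕ) : Cn 1 (n : MvPolynomial σ ℚ_[p]) := by
  have := Cn.int (σ := σ) (p := p) n
  rwa [Int.cast_natCast] at this

theorem Cn.X (i : σ) : Cn 1 (MvPolynomial.X i : MvPolynomial σ ℚ_[p]) := by
  classical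
  intro m
  rw [MvPolynomial.coeff_X]
  split_ifs <;> simp

theorem Cn.intMul {c : ℝ} (n : ℤ) {f : MvPolynomial σ ℚ_[p]} (hf : Cn c f) :
    Cn c ((n : MvPolynomial σ ℚ_[p]) * f) := by
  intro m
  rw [← map_intCast (MvPolynomial.C (R := ℚ_[p]) (σ := σ)) n, MvPolynomial.coeff_C_mul, norm_mul]
  have h1 := Padic.norm_int_le_one (p := p) n
  have h2 := hf m
  have h3 := norm_nonneg (MvPolynomial.coeff m f)
  have h4 := norm_nonneg ((n : ℚ_[p]))
  nlinarith

theorem Cn.natMul {c : ℝ} (n : ℕ) {f : MvPolynomial σ ℚ_[p]} (hf : Cn c f) :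
    Cn c ((n : MvPolynomial σ ℚ_[p]) * f) := by
  have := hf.intMul n
  rwa [Int.cast_natCast] at this

/-- division by a unit -/
theorem Cn.of_C_mul {c : ℝ} {u : ℚ_[p]} (hu : ‖u‖ = 1) {f : MvPolynomial σ ℚ_[p]}
    (hf : Cn c (MvPolynomial.C u * f)) : Cn c f := by
  intro m
  have := hf m
  rwa [MvPolynomial.coeff_C_mul, norm_mul, hu, one_mul] at this

theorem HzK.mono {k k' : ℕ} {c c' : ℝ} {F : PowerSeries (MvPolynomial σ ℚ_[p])}
    (h : HzK k c F) (hk : k' ≤ k) (hc : c ≤ c') : HzK k' c' F :=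
  fun n hn => (h n (lt_of_lt_of_le hn hk)).mono hc

theorem HzK.zero {k : ℕ} {c : ℝ} (hc : 0 ≤ c) :
    HzK k c (0 : PowerSeries (MvPolynomial σ ℚ_[p])) := by
  intro n _
  rw [map_zero, mul_zero]
  exact Cn.zero hc

theorem HzK.add {k : ℕ} {c : ℝ} {F G : PowerSeries (MvPolynomial σ ℚ_[p])} (hF : HzK k c F)
    (hG : HzK k c G) : HzK k c (F + G) := by
  intro n hn
  rw [map_add, mul_add]
  exact (hF n hn).add (hG n hn)

theorem HzK.neg {k : ℕ} {c : ℝ} {F : PowerSeries (MvPolynomial σ ℚ_[p])} (hF : HzK k c F) :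
    HzK k c (-F) := by
  intro n hn
  rw [map_neg, mul_neg]
  exact (hF n hn).neg

theorem HzK.sub {k : ℕ} {c : ℝ} {F G : PowerSeries (MvPolynomial σ ℚ_[p])} (hF : HzK k c F)
    (hG : HzK k c G) : HzK k c (F - G) := by
  rw [sub_eq_add_neg]
  exact hF.add hG.neg

theorem HzK.sum {ι : Type*} {k : ℕ} {c : ℝ} (hc : 0 ≤ c) (s : Finset ι)
    {F : ι → PowerSeries (MvPolynomial σ ℚ_[p])} (hF : ∀ i ∈ s, HzK k c (F i)) :
    HzK k c (∑ i ∈ s, F i) := by
  classical
  induction s using Finset.induction_on with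
  | empty => simpa using HzK.zero hc
  | insert a s ha ih =>
    rw [Finset.sum_insert ha]
    exact (hF a (Finset.mem_insert_self _ _)).add
      (ih fun i hi => hF i (Finset.mem_insert_of_mem hi))

/-- the Leibniz rule -/
theorem fact_coeff_mul (F G : PowerSeries (MvPolynomial σ ℚ_[p])) (n : ℕ) :
    (n.factorial : MvPolynomial σ ℚ_[p]) * PowerSeries.coeff n (F * G) =
      ∑ x ∈ Finset.HasAntidiagonal.antidiagonal n, (n.choose x.1 : MvPolynomial σ ℚ_[p]) *
        (((x.1.factorial : MvPolynomial σ ℚ_[p]) * PowerSeries.coeff x.1 F) *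
          ((x.2.factorial : MvPolynomial σ ℚ_[p]) * PowerSeries.coeff x.2 G)) := by
  rw [PowerSeries.coeff_mul, Finset.mul_sum]
  refine Finset.sum_congr rfl fun x hx => ?_
  have h1 : x.1 + x.2 = n := Finset.HasAntidiagonal.mem_antidiagonal.1 hx
  have h2 : n.choose x.1 * x.1.factorial * x.2.factorial = n.factorial := by
    have h4 := Nat.choose_mul_factorial_mul_factorial (n := n) (k := x.1) (by omega)
    rwa [show n - x.1 = x.2 by omega] at h4
  have h3 : (n.factorial : MvPolynomial σ ℚ_[p]) = (n.choose x.1 : MvPolynomial σ ℚ_[p]) *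
      (x.1.factorial : MvPolynomial σ ℚ_[p]) * (x.2.factorial : MvPolynomial σ ℚ_[p]) := by
    rw [← h2]
    push_cast
    ring
  rw [h3]
  ring

theorem HzK.mul {k : ℕ} {a b : ℝ} (ha : 0 ≤ a) (hb : 0 ≤ b)
    {F G : PowerSeries (MvPolynomial σ ℚ_[p])} (hF : HzK k a F) (hG : HzK k b G) :
    HzK k (a * b) (F * G) := by
  intro n hn
  rw [fact_coeff_mul]
  refine Cn.sum (mul_nonneg ha hb) _ fun x hx => ?_
  have h1 : x.1 + x.2 = n := Finset.HasAntidiagonal.mem_antidiagonal.1 hx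
  exact Cn.natMul _ (Cn.mul ha hb (hF _ (by omega)) (hG _ (by omega)))

/-- multiplication by a Hurwitz series -/
theorem HzK.hz_mul {k : ℕ} {c : ℝ} (hc : 0 ≤ c) {F G : PowerSeries (MvPolynomial σ ℚ_[p])}
    (hG : Hz G) (hF : HzK k c F) : HzK k c (G * F) := by
  have := HzK.mul zero_le_one hc (hG k) hF
  rwa [one_mul] at this

theorem HzK.deriv {k : ℕ} {c : ℝ} {F : PowerSeries (MvPolynomial σ ℚ_[p])}
    (hF : HzK (k + 1) c F) :
    HzK k c (PowerSeries.derivative (MvPolynomial σ ℚ_[p]) F) := by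
  intro n hn
  have h1 := hF (n + 1) (by omega)
  rw [PowerSeries.coeff_derivative]
  have h2 : ((n + 1).factorial : MvPolynomial σ ℚ_[p]) = (n.factorial : MvPolynomial σ ℚ_[p]) *
      (n + 1) := by
    rw [Nat.factorial_succ]
    push_cast
    ring
  rw [h2] at h1
  have h3 : (n.factorial : MvPolynomial σ ℚ_[p]) * (PowerSeries.coeff (n + 1) F * (n + 1)) =
      (n.factorial : MvPolynomial σ ℚ_[p]) * (n + 1) * PowerSeries.coeff (n + 1) F := by ring
  rw [h3]
  exact h1

theorem HzK.of_deriv {k : ℕ} {c : ℝ} {F : PowerSeries (MvPolynomial σ ℚ_[p])}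
    (h0 : Cn c (PowerSeries.coeff 0 F))
    (hF : HzK k c (PowerSeries.derivative (MvPolynomial σ ℚ_[p]) F)) : HzK (k + 1) c F := by
  intro n hn
  rcases n with _ | n
  · simpa using h0
  · have h1 := hF n (by omega)
    rw [PowerSeries.coeff_derivative] at h1
    have h2 : ((n + 1).factorial : MvPolynomial σ ℚ_[p]) =
        (n.factorial : MvPolynomial σ ℚ_[p]) * (n + 1) := by
      rw [Nat.factorial_succ]
      push_cast
      ring
    rw [h2]
    have h3 : (n.factorial : MvPolynomial σ ℚ_[p]) * (PowerSeries.coeff (n + 1) F * (n + 1)) =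
        (n.factorial : MvPolynomial σ ℚ_[p]) * (n + 1) * PowerSeries.coeff (n + 1) F := by ring
    rw [← h3]
    exact h1

/-- division by a Hurwitz series whose constant coefficient is a unit of `ℤ_[p]` -/
theorem HzK.of_mul {k : ℕ} {c : ℝ} (hc : 0 ≤ c) {F G : PowerSeries (MvPolynomial σ ℚ_[p])}
    (hG : Hz G) {u : ℚ_[p]} (hu : ‖u‖ = 1)
    (h0 : PowerSeries.coeff 0 G = MvPolynomial.C u) (h : HzK k c (G * F)) : HzK k c F := by
  intro n hn
  induction n using Nat.strong_induction_on with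
  | _ n ih =>
    have h1 := h n hn
    rw [fact_coeff_mul] at h1
    have hmem : ((0, n) : ℕ × ℕ) ∈ Finset.HasAntidiagonal.antidiagonal n := by simp
    rw [← Finset.add_sum_erase _ _ hmem] at h1
    have h2 : Cn c (∑ x ∈ (Finset.HasAntidiagonal.antidiagonal n).erase (0, n),
        (n.choose x.1 : MvPolynomial σ ℚ_[p]) *
        (((x.1.factorial : MvPolynomial σ ℚ_[p]) * PowerSeries.coeff x.1 G) *
          ((x.2.factorial : MvPolynomial σ ℚ_[p]) * PowerSeries.coeff x.2 F))) := by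
      refine Cn.sum hc _ fun x hx => ?_
      rw [Finset.mem_erase] at hx
      have h3 : x.1 + x.2 = n := Finset.HasAntidiagonal.mem_antidiagonal.1 hx.2
      have h4 : x.2 < n := by
        rcases Nat.eq_zero_or_pos x.1 with h5 | h5
        · exact absurd (Prod.ext h5 (by simp only; omega)) hx.1
        · omega
      have h5 := Cn.mul zero_le_one hc (hG (x.1 + 1) x.1 (by omega))
        (ih x.2 h4 (by omega))
      rw [one_mul] at h5
      exact Cn.natMul _ h5
    have h3 := h1.sub h2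
    rw [add_sub_cancel_right] at h3
    simp only [Nat.choose_zero_right, Nat.cast_one, one_mul, Nat.factorial_zero, h0] at h3
    exact Cn.of_C_mul hu h3

theorem Hz.iff {F : PowerSeries (MvPolynomial σ ℚ_[p])} :
    Hz F ↔ ∀ n, Cn 1 ((n.factorial : MvPolynomial σ ℚ_[p]) * PowerSeries.coeff n F) :=
  ⟨fun h n => h (n + 1) n (by omega), fun h _ n _ => h n⟩

theorem Hz.add {F G : PowerSeries (MvPolynomial σ ℚ_[p])} (hF : Hz F) (hG : Hz G) :
    Hz (F + G) := fun k => (hF k).add (hG k)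

theorem Hz.neg {F : PowerSeries (MvPolynomial σ ℚ_[p])} (hF : Hz F) : Hz (-F) :=
  fun k => (hF k).neg

theorem Hz.sub {F G : PowerSeries (MvPolynomial σ ℚ_[p])} (hF : Hz F) (hG : Hz G) :
    Hz (F - G) := fun k => (hF k).sub (hG k)

theorem Hz.mul {F G : PowerSeries (MvPolynomial σ ℚ_[p])} (hF : Hz F) (hG : Hz G) :
    Hz (F * G) := fun k => HzK.hz_mul zero_le_one hF (hG k)

theorem Hz.sum {ι : Type*} (s : Finset ι) {F : ι → PowerSeries (MvPolynomial σ ℚ_[p])}
    (hF : ∀ i ∈ s, Hz (F i)) : Hz (∑ i ∈ s, F i) :=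
  fun k => HzK.sum zero_le_one s fun i hi => hF i hi k

theorem Hz.deriv {F : PowerSeries (MvPolynomial σ ℚ_[p])} (hF : Hz F) :
    Hz (PowerSeries.derivative (MvPolynomial σ ℚ_[p]) F) := fun k => (hF (k + 1)).deriv

theorem Hz.of_deriv {F : PowerSeries (MvPolynomial σ ℚ_[p])}
    (h0 : Cn 1 (PowerSeries.coeff 0 F))
    (hF : Hz (PowerSeries.derivative (MvPolynomial σ ℚ_[p]) F)) : Hz F :=
  fun k => (HzK.of_deriv h0 (hF k)).mono (Nat.le_succ k) le_rfl

/-- series with integral coefficients -/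
theorem Hz.of_coeff {F : PowerSeries (MvPolynomial σ ℚ_[p])}
    (h : ∀ n, Cn 1 (PowerSeries.coeff n F)) : Hz F :=
  fun _ n _ => Cn.natMul _ (h n)

theorem Hz.C {f : MvPolynomial σ ℚ_[p]} (h : Cn 1 f) : Hz (PowerSeries.C f) := by
  refine Hz.of_coeff fun n => ?_
  rw [PowerSeries.coeff_C]
  split_ifs
  · exact h
  · exact Cn.zero zero_le_one

theorem Hz.int (n : ℤ) : Hz (n : PowerSeries (MvPolynomial σ ℚ_[p])) := by
  rw [← map_intCast (PowerSeries.C (R := MvPolynomial σ ℚ_[p])) n]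
  exact Hz.C (Cn.int n)

/-- the values of integral polynomials at Hurwitz series are Hurwitz series -/
theorem Hz.eval₂ {ι : Type*} {w : ι → PowerSeries (MvPolynomial σ ℚ_[p])} (hw : ∀ i, Hz (w i))
    (Q : MvPolynomial ι ℤ) :
    Hz (MvPolynomial.eval₂ (Int.castRingHom (PowerSeries (MvPolynomial σ ℚ_[p]))) w Q) := by
  induction Q using MvPolynomial.induction_on with
  | C a =>
    rw [MvPolynomial.eval₂_C]
    exact Hz.int a
  | add P Q hP hQ =>
    rw [MvPolynomial.eval₂_add]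
    exact hP.add hQ
  | mul_X P i hP =>
    rw [MvPolynomial.eval₂_mul, MvPolynomial.eval₂_X]
    exact hP.mul (hw i)

theorem Hm.zero : Hm (0 : PowerSeries (MvPolynomial σ ℚ_[p])) := fun n => by
  rw [map_zero]
  exact MvPolynomial.isHomogeneous_zero _ _ _

theorem Hm.add {F G : PowerSeries (MvPolynomial σ ℚ_[p])} (hF : Hm F) (hG : Hm G) :
    Hm (F + G) := fun n => by
  rw [map_add]
  exact (hF n).add (hG n)

theorem Hm.neg {F : PowerSeries (MvPolynomial σ ℚ_[p])} (hF : Hm F) : Hm (-F) := fun n => by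
  rw [map_neg]
  exact (hF n).neg

theorem Hm.sub {F G : PowerSeries (MvPolynomial σ ℚ_[p])} (hF : Hm F) (hG : Hm G) :
    Hm (F - G) := by
  rw [sub_eq_add_neg]
  exact hF.add hG.neg

theorem Hm.sum {ι : Type*} (s : Finset ι) {F : ι → PowerSeries (MvPolynomial σ ℚ_[p])}
    (hF : ∀ i ∈ s, Hm (F i)) : Hm (∑ i ∈ s, F i) := by
  classical
  induction s using Finset.induction_on with
  | empty => simpa using Hm.zero
  | insert a s ha ih =>
    rw [Finset.sum_insert ha]
    exact (hF a (Finset.mem_insert_self _ _)).add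
      (ih fun i hi => hF i (Finset.mem_insert_of_mem hi))

theorem Hm.mul {F G : PowerSeries (MvPolynomial σ ℚ_[p])} (hF : Hm F) (hG : Hm G) :
    Hm (F * G) := fun n => by
  rw [PowerSeries.coeff_mul]
  refine MvPolynomial.IsHomogeneous.sum _ _ _ fun x hx => ?_
  rw [← Finset.HasAntidiagonal.mem_antidiagonal.1 hx]
  exact (hF _).mul (hG _)

theorem Hm.C {a : ℚ_[p]} :
    Hm (PowerSeries.C (MvPolynomial.C a) : PowerSeries (MvPolynomial σ ℚ_[p])) := fun n => by
  rw [PowerSeries.coeff_C]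
  split_ifs with h
  · rw [h]
    exact MvPolynomial.isHomogeneous_C _ _
  · exact MvPolynomial.isHomogeneous_zero _ _ _

theorem Hm.int (n : ℤ) : Hm (n : PowerSeries (MvPolynomial σ ℚ_[p])) := by
  rw [← map_intCast (PowerSeries.C (R := MvPolynomial σ ℚ_[p])) n,
    ← map_intCast (MvPolynomial.C (R := ℚ_[p]) (σ := σ)) n]
  exact Hm.C

theorem Hm.eval₂ {ι : Type*} {w : ι → PowerSeries (MvPolynomial σ ℚ_[p])} (hw : ∀ i, Hm (w i))
    (Q : MvPolynomial ι ℤ) :
    Hm (MvPolynomial.eval₂ (Int.castRingHom (PowerSeries (MvPolynomial σ ℚ_[p]))) w Q) := by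
  induction Q using MvPolynomial.induction_on with
  | C a =>
    rw [MvPolynomial.eval₂_C]
    exact Hm.int a
  | add P Q hP hQ =>
    rw [MvPolynomial.eval₂_add]
    exact hP.add hQ
  | mul_X P i hP =>
    rw [MvPolynomial.eval₂_mul, MvPolynomial.eval₂_X]
    exact hP.mul (hw i)

end Pool.Agent.Lib.FewY
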