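import Mathlib

/-!
# FewY.LinFormA: multiplicative relations between numbers with coprime supports
-/

namespace Pool.Agent.Lib.FewY

namespace LinFormAAux

/-- `u = A / B` where `A, B` divide a power of `m` -/
def Supp (m : ℕ) (u : ℚ) : Prop :=
  ∃ A B k : ℕ, 0 < A ∧ 0 < B ∧ A ∣ m ^ k ∧ B ∣ m ^ k ∧ u = (A : ℚ) / B

theorem supp_one (m : ℕ) : Supp m 1 := ⟨1, 1, 0, one_pos, one_pos, one_dvd _, one_dvd _, by simp⟩

theorem supp_mul {m : ℕ} {u v : ℚ} (hu : Supp m u) (hv : Supp m v) : Supp m (u * v) := by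
  obtain ⟨A, B, k, hA, hB, hA', hB', rfl⟩ := hu
  obtain ⟨A2, B2, k2, hA2, hB2, hA2', hB2', rfl⟩ := hv
  refine ⟨A * A2, B * B2, k + k2, Nat.mul_pos hA hA2, Nat.mul_pos hB hB2, ?_, ?_, ?_⟩
  · rw [pow_add]
    exact Nat.mul_dvd_mul hA' hA2'
  · rw [pow_add]
    exact Nat.mul_dvd_mul hB' hB2'
  · push_cast
    rw [div_mul_div_comm]

theorem supp_prod {ι : Type*} (s : Finset ι) {m : ℕ} (f : ι → ℚ) (h : ∀ i ∈ s, Supp m (f i)) :
    Supp m (∏ i ∈ s, f i) := by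
  classical
  induction s using Finset.induction_on with
  | empty => simpa using supp_one m
  | insert a s ha ih =>
    rw [Finset.prod_insert ha]
    exact supp_mul (h a (Finset.mem_insert_self _ _))
      (ih fun i hi => h i (Finset.mem_insert_of_mem hi))

theorem supp_zpow {m x : ℕ} (hx : 0 < x) (hd : x ∣ m) (w : ℤ) : Supp m ((x : ℚ) ^ w) := by
  obtain ⟨n, rfl | rfl⟩ := w.eq_nat_or_neg
  · refine ⟨x ^ n, 1, n, pow_pos hx _, one_pos, pow_dvd_pow_of_dvd hd _, one_dvd _, ?_⟩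
    simp
  · refine ⟨1, x ^ n, n, one_pos, pow_pos hx _, one_dvd _, pow_dvd_pow_of_dvd hd _, ?_⟩
    simp

theorem cop_of {m m' A B k k' : ℕ} (h : Nat.Coprime m m') (hA : A ∣ m ^ k) (hB : B ∣ m' ^ k') :
    Nat.Coprime A B :=
  Nat.Coprime.coprime_dvd_left hA (Nat.Coprime.coprime_dvd_right hB (h.pow k k'))

/-- three numbers with coprime supports whose product of powers is `1` -/
theorem key {m0 m1 m2 : ℕ} (h0 : 0 < m0) (h01 : Nat.Coprime m0 m1) (h02 : Nat.Coprime m0 m2)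
    {u0 u1 u2 : ℚ} (k0 : Supp m0 u0) (k1 : Supp m1 u1) (k2 : Supp m2 u2) {n0 n1 n2 : ℤ}
    (hn : n0 ≠ 0) (h : u0 ^ n0 * u1 ^ n1 * u2 ^ n2 = 1) : u0 = 1 := by
  have hz : ∀ {m : ℕ} {u : ℚ} (w : ℤ), Supp m u → Supp m (u ^ w) := by
    intro m u w hu
    obtain ⟨A, B, k, hA, hB, hA', hB', rfl⟩ := hu
    obtain ⟨n, rfl | rfl⟩ := w.eq_nat_or_neg
    · refine ⟨A ^ n, B ^ n, k * n, pow_pos hA _, pow_pos hB _, ?_, ?_, ?_⟩
      · rw [pow_mul]; exact pow_dvd_pow_of_dvd hA' _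
      · rw [pow_mul]; exact pow_dvd_pow_of_dvd hB' _
      · push_cast
        rw [zpow_natCast, div_pow]
    · refine ⟨B ^ n, A ^ n, k * n, pow_pos hB _, pow_pos hA _, ?_, ?_, ?_⟩
      · rw [pow_mul]; exact pow_dvd_pow_of_dvd hB' _
      · rw [pow_mul]; exact pow_dvd_pow_of_dvd hA' _
      · push_cast
        rw [zpow_neg, zpow_natCast, div_pow, inv_div]
  have hu0 : 0 < u0 := by
    obtain ⟨A, B, k, hA, hB, -, -, rfl⟩ := k0
    positivity
  -- the power is one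
  have hp : u0 ^ n0 = 1 := by
    obtain ⟨A0, B0, l0, hA0, hB0, hA0', hB0', e0⟩ := hz n0 k0
    obtain ⟨A1, B1, l1, hA1, hB1, hA1', hB1', e1⟩ := hz n1 k1
    obtain ⟨A2, B2, l2, hA2, hB2, hA2', hB2', e2⟩ := hz n2 k2
    rw [e0, e1, e2] at h
    have h3 : ((A0 * (A1 * A2) : ℕ) : ℚ) = ((B0 * (B1 * B2) : ℕ) : ℚ) := by
      have q0 : (B0 : ℚ) ≠ 0 := by exact_mod_cast hB0.ne'
      have q1 : (B1 : ℚ) ≠ 0 := by exact_mod_cast hB1.ne'
      have q2 : (B2 : ℚ) ≠ 0 := by exact_mod_cast hB2.ne'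
      field_simp at h
      push_cast
      linear_combination h
    have h4 : A0 * (A1 * A2) = B0 * (B1 * B2) := by exact_mod_cast h3
    have c1 : Nat.Coprime A0 (B1 * B2) :=
      Nat.Coprime.mul_right (cop_of h01 hA0' hB1') (cop_of h02 hA0' hB2')
    have c2 : Nat.Coprime B0 (A1 * A2) :=
      Nat.Coprime.mul_right (cop_of h01 hB0' hA1') (cop_of h02 hB0' hA2')
    have d1 : A0 ∣ B0 := c1.dvd_of_dvd_mul_right (h4 ▸ Dvd.intro _ rfl)
    have d2 : B0 ∣ A0 := c2.dvd_of_dvd_mul_right (h4 ▸ Dvd.intro _ rfl)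
    have e : A0 = B0 := Nat.dvd_antisymm d1 d2
    rw [e0, e]
    have q0 : (B0 : ℚ) ≠ 0 := by exact_mod_cast hB0.ne'
    exact div_self q0
  obtain ⟨n, hn' | hn'⟩ := n0.eq_nat_or_neg
  · rw [hn', zpow_natCast] at hp
    have hn0 : n ≠ 0 := by
      rintro rfl
      exact hn (by simpa using hn')
    exact (pow_eq_one_iff_of_nonneg hu0.le hn0).1 hp
  · rw [hn', zpow_neg, inv_eq_one, zpow_natCast] at hp
    have hn0 : n ≠ 0 := by
      rintro rfl
      exact hn (by simpa using hn')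
    exact (pow_eq_one_iff_of_nonneg hu0.le hn0).1 hp

end LinFormAAux

end Pool.Agent.Lib.FewY
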