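import Pool.Agent.Lib.FewX.RepB
import Pool.Agent.Lib.FewX.RepC

/-!
# FewY.Noeth: the noetherian step  (1.5 h)

`K = Kf hY`. Choose (`rep_lift`) for all `i`, `r` a polynomial `Q i r` over `K` represented by `fun j => toQ (V i j r)`. The submodules
`M ν = Submodule.span K[Y] {Q 0, .., Q ν}` of `Fin 3 → MvPolynomial (Fin N') K` increase, the module is noetherian (`MvPolynomial` over a field in finitely many variables, `isNoetherian_pi`), so `M` is constant
from `ν0` on (`monotone_stabilizes_iff_noetherian`). So for `ν ≥ ν0`: `Q (ν + 1) = ∑ i ∈ range (ν + 1), R i • Q i` (`Submodule.mem_span_range_iff_exists_fun` or `Finsupp`-free: the span of the image of a finset). `rep_int`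
for the `R i`: `c i ≠ 0` and integral bounded `G i` with `Rep (C (c i) * R i) (toQ (G i))`. Put `c = ∏ c i`, `R' i = (∏_{i' ≠ i} c i') * c i * R i`. The constants `c i : Kf hY` are germs of quotients `p / q` of bounded integers (`mem_Kf`): to have an integer sequence
multiply once more by the denominators: simplest: apply `rep_int` to the constant polynomial `C c` : `c' ≠ 0`, `G` integral bounded with `Rep (C c' * C c) (toQ G)`; the coefficient at `0` of `G j` is the integer sequence `cc j`, `≠ 0` almost surely (its germ is `c' c ≠ 0`), `toQ (G j) = C (cc j)` a.s.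
(`rep_unique` with `rep_of`), and use `C c' * R' i` (representatives `rep_int` again). Then `rep_mul`, `rep_sum`, `rep_unique` give the identity over `ℚ`; `toQ` is injective. `BdE` gives the bound for `cc`.
-/

open MvPolynomial Filter Pool.Agent.Lib.FewX

namespace Pool.Agent.Lib.FewY

namespace NoethAux

variable {N : ℕ} {Y : ℕ → ℕ} {hY : ∀ j, j + 2 ≤ Y j}

/-- representatives of a constant -/
theorem rep_C (x : Kf hY) (f : ℕ → ℚ) (h : (x : Germ UU ℚ) = (f : Germ UU ℚ)) :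
    Rep (C x : MvPolynomial (Fin N) (Kf hY)) (fun j => C (f j)) := by
  classical
  refine rep_of {0} (fun m => ?_) (Eventually.of_forall fun j m hm => ?_)
  · by_cases hm : (0 : Fin N →₀ ℕ) = m
    · have h1 : (fun j => coeff m (C (f j) : MvPolynomial (Fin N) ℚ) : ℕ → ℚ) = f := by
        funext j
        rw [coeff_C, if_pos hm]
      rw [coeff_C, if_pos hm, h1, h]
    · have h1 : (fun j => coeff m (C (f j) : MvPolynomial (Fin N) ℚ) : ℕ → ℚ) =
          fun _ => (0 : ℚ) := by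
        funext j
        rw [coeff_C, if_neg hm]
      rw [coeff_C, if_neg hm, h1]
      rfl
  · rw [mem_support_iff, coeff_C] at hm
    rw [Finset.mem_singleton]
    by_contra hne
    exact hm (if_neg (Ne.symm hne))

/-- an integral denominator of a polynomial over the field of germs -/
theorem int_den (R : MvPolynomial (Fin N) (Kf hY)) :
    ∃ (e : Kf hY) (d : ℕ → ℤ) (k : ℕ) (G : ℕ → MvPolynomial (Fin N) ℤ),
      (e : Germ UU ℚ) = ((fun j => (d j : ℚ) : ℕ → ℚ) : Germ UU ℚ) ∧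
      (∀ᶠ j in UU, d j ≠ 0) ∧ (∀ j, |d j| ≤ (Y j : ℤ) ^ k) ∧
      Rep (C e * R) (fun j => toQ (G j)) := by
  obtain ⟨c, G, hc, -, hrep⟩ := rep_int R
  obtain ⟨f, hf, hPB⟩ := (mem_Kf hY _).1 c.2
  obtain ⟨k, p, q, h1, h2⟩ := RepCAux.choose_pq hY hPB
  have hcpq : (c : Germ UU ℚ) = ((fun j => (p j : ℚ) / q j : ℕ → ℚ) : Germ UU ℚ) := by
    rw [hf]
    exact Germ.coe_eq.2 h2
  have hmem : ∀ p : ℕ → ℤ, (∀ j, |p j| ≤ (Y j : ℤ) ^ k) →
      (((fun j => (p j : ℚ)) : ℕ → ℚ) : Germ UU ℚ) ∈ Kf hY := by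
    intro p hp
    rw [mem_Kf]
    refine ⟨_, rfl, k, Eventually.of_forall fun j => ⟨p j, 1, one_ne_zero, hp j, ?_, by simp⟩⟩
    simpa using RepCAux.one_le_pow hY j k
  have heb : ((⟨_, hmem p fun j => (h1 j).2.1⟩ : Kf hY)) =
      (⟨_, hmem q fun j => (h1 j).2.2⟩ : Kf hY) * c := by
    apply Subtype.ext
    rw [Subfield.coe_mul, hcpq]
    change (((fun j => (p j : ℚ)) : ℕ → ℚ) : Germ UU ℚ) =
      (((fun j => (q j : ℚ)) : ℕ → ℚ) : Germ UU ℚ) *
        ((fun j => (p j : ℚ) / q j : ℕ → ℚ) : Germ UU ℚ)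
    rw [← Germ.coe_mul]
    refine Germ.coe_eq.2 (Eventually.of_forall fun j => ?_)
    have hq : (q j : ℚ) ≠ 0 := by exact_mod_cast (h1 j).1
    simp only [Pi.mul_apply]
    field_simp
  refine ⟨⟨_, hmem p fun j => (h1 j).2.1⟩, p, k, fun j => C (q j) * G j, rfl, ?_,
    fun j => (h1 j).2.1, ?_⟩
  · refine (Ultrafilter.eventually_not (f := hyperfilter ℕ)).2 fun h0 => hc ?_
    apply Subtype.ext
    rw [hcpq]
    refine Eq.trans (b := ((fun _ => (0 : ℚ) : ℕ → ℚ) : Germ UU ℚ)) (Germ.coe_eq.2 ?_) rfl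
    filter_upwards [h0] with j hj
    rw [hj]
    simp
  · rw [heb, C_mul, mul_assoc]
    have h3 := rep_mul (rep_C (N := N) (⟨_, hmem q fun j => (h1 j).2.2⟩ : Kf hY) _ rfl) hrep
    have h4 : (fun j => toQ (C (q j) * G j)) = fun j => C ((q j : ℚ)) * toQ (G j) := by
      funext j
      rw [map_mul, map_C]
      rfl
    rw [h4]
    exact h3

theorem coe_prod' (s : Finset ℕ) (q : ℕ → ℕ → ℤ) (e : ℕ → Kf hY)
    (h : ∀ i, (e i : Germ UU ℚ) = ((fun j => (q i j : ℚ) : ℕ → ℚ) : Germ UU ℚ)) :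
    ((∏ i ∈ s, e i : Kf hY) : Germ UU ℚ) =
      ((fun j => ((∏ i ∈ s, q i j : ℤ) : ℚ) : ℕ → ℚ) : Germ UU ℚ) := by
  classical
  have h1 : (fun j => ((∏ i ∈ s, q i j : ℤ) : ℚ) : ℕ → ℚ) = fun j => ∏ i ∈ s, (q i j : ℚ) := by
    funext j
    push_cast
    rfl
  rw [h1, RepCAux.coe_prod s fun i j => (q i j : ℚ)]
  induction s using Finset.induction_on with
  | empty => simp
  | insert a s ha ih =>
    rw [Finset.prod_insert ha, Finset.prod_insert ha, Subfield.coe_mul, h a]
    congr 1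
    refine ih ?_
    funext j
    push_cast
    rfl

end NoethAux

open NoethAux

theorem noeth {Y : ℕ → ℕ} (hY : ∀ j, j + 2 ≤ Y j) {N' : ℕ}
    (V : ℕ → ℕ → Fin 3 → MvPolynomial (Fin N') ℤ) (hV : ∀ i r, BdE Y (fun j => V i j r)) :
    ∃ ν0 : ℕ, ∀ ν, ν0 ≤ ν → ∃ (k : ℕ) (c : ℕ → ℤ) (R : ℕ → ℕ → MvPolynomial (Fin N') ℤ),
      ∀ᶠ j in UU, c j ≠ 0 ∧ |c j| ≤ (Y j : ℤ) ^ k ∧
        ∀ r, C (c j) * V (ν + 1) j r = ∑ i ∈ Finset.range (ν + 1), R j i * V i j r := by
  classical
  choose Q hQ using fun i r => rep_lift hY (hV i r)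
  let M : ℕ →o Submodule (MvPolynomial (Fin N') (Kf hY)) (Fin 3 → MvPolynomial (Fin N') (Kf hY)) :=
    { toFun := fun ν => Submodule.span _ (Q '' (Finset.range (ν + 1) : Finset ℕ))
      monotone' := fun a b hab => Submodule.span_mono (Set.image_mono (by
        intro x hx
        simp only [Finset.coe_range, Set.mem_Iio] at hx ⊢
        omega)) }
  obtain ⟨ν0, hν0⟩ := monotone_stabilizes_iff_noetherian.mpr inferInstance M
  refine ⟨ν0, fun ν hν => ?_⟩
  have hmem : Q (ν + 1) ∈ M ν := by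
    rw [← hν0 ν hν, hν0 (ν + 1) (by omega)]
    exact Submodule.subset_span ⟨ν + 1, by simp, rfl⟩
  obtain ⟨Rr, hRr⟩ := (Submodule.mem_span_image_finset_iff_exists_fun' (MvPolynomial (Fin N') (Kf hY))).1 hmem
  choose e d k G he hd0 hdk hG using fun i => int_den (Rr i)
  refine ⟨∑ i ∈ Finset.range (ν + 1), k i, fun j => ∏ i ∈ Finset.range (ν + 1), d i j,
    fun j i => C (∏ i' ∈ (Finset.range (ν + 1)).erase i, d i' j) * G i j, ?_⟩
  have hid : ∀ r, ∀ᶠ j in UU, toQ (C (∏ i ∈ Finset.range (ν + 1), d i j) * V (ν + 1) j r) =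
      toQ (∑ i ∈ Finset.range (ν + 1),
        (C (∏ i' ∈ (Finset.range (ν + 1)).erase i, d i' j) * G i j) * V i j r) := by
    intro r
    have hl := rep_mul (rep_C (N := N') (∏ i ∈ Finset.range (ν + 1), e i) _
      (coe_prod' (Finset.range (ν + 1)) d e he)) (hQ (ν + 1) r)
    have hr := rep_sum (Finset.range (ν + 1))
      (fun i => (C (∏ i' ∈ (Finset.range (ν + 1)).erase i, e i') * (C (e i) * Rr i)) * Q i r) _
      (fun i _ => rep_mul (rep_mul (rep_C (N := N') (∏ i' ∈ (Finset.range (ν + 1)).erase i, e i') _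
        (coe_prod' ((Finset.range (ν + 1)).erase i) d e he)) (hG i)) (hQ i r))
    have hQe : (C (∏ i ∈ Finset.range (ν + 1), e i) : MvPolynomial (Fin N') (Kf hY)) *
        Q (ν + 1) r = ∑ i ∈ Finset.range (ν + 1),
          (C (∏ i' ∈ (Finset.range (ν + 1)).erase i, e i') * (C (e i) * Rr i)) * Q i r := by
      have h1 : Q (ν + 1) r = ∑ i ∈ Finset.range (ν + 1), Rr i * Q i r := by
        rw [← hRr, Finset.sum_apply]
        rfl
      rw [h1, Finset.mul_sum]
      refine Finset.sum_congr rfl fun i hi => ?_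
      rw [← Finset.mul_prod_erase _ _ hi, C_mul]
      ring
    rw [hQe] at hl
    filter_upwards [rep_unique hl hr] with j hj
    rw [map_mul, map_C, map_sum]
    refine Eq.trans ?_ (hj.trans ?_)
    · rfl
    · refine Finset.sum_congr rfl fun i _ => ?_
      rw [map_mul, map_mul, map_C]
      rfl
  have hall : ∀ᶠ j in UU, ∀ r, C (∏ i ∈ Finset.range (ν + 1), d i j) * V (ν + 1) j r =
      ∑ i ∈ Finset.range (ν + 1),
        (C (∏ i' ∈ (Finset.range (ν + 1)).erase i, d i' j) * G i j) * V i j r := by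
    rw [Filter.eventually_all]
    intro r
    filter_upwards [hid r] with j hj
    exact map_injective (Int.castRingHom ℚ) Int.cast_injective hj
  have hnz : ∀ᶠ j in UU, ∀ i ∈ Finset.range (ν + 1), d i j ≠ 0 := by
    rw [Filter.eventually_all_finset]
    intro i _
    exact hd0 i
  filter_upwards [hall, hnz] with j h1 h2
  refine ⟨Finset.prod_ne_zero_iff.2 h2, ?_, h1⟩
  rw [Finset.abs_prod, ← Finset.prod_pow_eq_pow_sum]
  exact Finset.prod_le_prod (fun _ _ => abs_nonneg _) fun i _ => hdk i j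

end Pool.Agent.Lib.FewY
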