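import Pool.Agent.Lib.FewY.PointsInfU

/-!
# FewY.PointsInf: the points theorem  (1 h)

As `FewX.points` (file FewX/Points.lean, copy): if it fails for `σ, ε`, then for every `j` the choice `M = j`, `Y0 = j + 2` fails: `Y j`, `α j`, `Z j`. Cast the points to `ℤ`; `mm σ (α j) (cast z) r = ((mN σ (α j) z r : ℕ) : ℤ)` (`Int.toNat_natCast`).
-/

open Filter Pool.Agent.Lib.FewX

namespace Pool.Agent.Lib.FewY

/-- the member `r` at the point `z` (natural numbers) -/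
def mN {N n : ℕ} (σ : Shape N n) (α : Fin 3 → ℕ) (z : Fin N → ℕ) (r : Fin 3) : ℕ :=
  α r * ∏ s ∈ Finset.univ.filter (fun s => σ.mem s = r), z (σ.bs s) ^ z (σ.es s)

theorem points_inf {N n : ℕ} (σ : Shape N n) (ε : ℝ) (hε : 0 < ε) :
    ∃ (M : ℕ) (Y0 : ℕ), 2 ≤ Y0 ∧ ∀ Y : ℕ, Y0 ≤ Y → ∀ (α : Fin 3 → ℕ) (Z : Finset (Fin N → ℕ)),
      (∀ z ∈ Z, (∀ i, 1 ≤ z i ∧ z i ≤ Y) ∧ (∀ r, 0 < mN σ α z r) ∧
        mN σ α z 0 + mN σ α z 1 = mN σ α z 2 ∧ Nat.Coprime (mN σ α z 0) (mN σ α z 1) ∧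
        Y ^ M ≤ mN σ α z 2) →
      (∀ z ∈ Z, ∀ z' ∈ Z, mN σ α z 0 = mN σ α z' 0 → mN σ α z 2 = mN σ α z' 2 → z = z') →
      (Z.card : ℝ) ≤ (Y : ℝ) ^ ε := by
  by_contra hcon
  push Not at hcon
  choose Y hY α Z hZ hinj hcard using fun j : ℕ => hcon j (j + 2) (by omega)
  have hcinj : Function.Injective (fun (z : Fin N → ℕ) (i : Fin N) => (z i : ℤ)) := by
    intro z z' h
    funext i
    have h1 : (z i : ℤ) = (z' i : ℤ) := congrFun h i
    exact_mod_cast h1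
  have hmm : ∀ (a : Fin 3 → ℕ) (z : Fin N → ℕ) (r : Fin 3),
      mm σ (fun r => (a r : ℤ)) (fun i => (z i : ℤ)) r = ((mN σ a z r : ℕ) : ℤ) := by
    intro a z r
    simp only [mm, mN]
    push_cast
    simp only [Int.toNat_natCast]
  refine points_infU (Y := Y) σ hY
    (fun j => (Z j).image (fun (z : Fin N → ℕ) (i : Fin N) => (z i : ℤ)))
    (fun j r => (α j r : ℤ)) ?_ ?_ ?_
  · intro j z' hz'
    obtain ⟨z, hz, rfl⟩ := Finset.mem_image.1 hz'
    obtain ⟨h1, h2, h3, h4, h5⟩ := hZ j z hz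
    simp only [hmm]
    refine ⟨?_, fun r => by exact_mod_cast h2 r, by exact_mod_cast h3,
      Nat.isCoprime_iff_coprime.mpr h4, by exact_mod_cast h5⟩
    intro i
    exact ⟨by exact_mod_cast (h1 i).1, by exact_mod_cast (h1 i).2⟩
  · intro j z hz z' hz' hA hC
    obtain ⟨w, hw, rfl⟩ := Finset.mem_image.1 hz
    obtain ⟨w', hw', rfl⟩ := Finset.mem_image.1 hz'
    simp only [hmm] at hA hC
    have := hinj j w hw w' hw' (by exact_mod_cast hA) (by exact_mod_cast hC)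
    rw [this]
  · refine ⟨ε, hε, Filter.Eventually.of_forall fun j => ?_⟩
    rw [Finset.card_image_of_injective _ hcinj]
    exact (hcard j).le

end Pool.Agent.Lib.FewY
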