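import Pool.Agent.Lib.FewX.ChartU
import Pool.Agent.Lib.FewX.PointsU
import Pool.Agent.Lib.FewY.Fin
import Pool.Agent.Lib.FewY.Noeth
import Pool.Agent.Lib.FewY.ClassCh
import Pool.Agent.Lib.FewY.BdNab
import Pool.Agent.Lib.FewY.DMx

/-!
# FewY.PointsInfU: no large sequence of points  (2.5 h)

Suppose `Z` large. `exists_chart`: `Z1 ⊆ Z`, `B`, `P` (the generators `F` are not used). As in `FewX.points_U` (file FewX/PointsU.lean, copy the first half): `Z2 ⊆ Z1` large with `eval z (Jac B (P j)) ≠ 0` on `Z2 j`.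
`noeth` for each `o : Option (Fin N)` with `V i j r = (nab^[i] (VV o)) r` (`bdE_nab`): `ν0 o`; `ν` = the maximum of all the `ν0 o` and `1` (`Finset.univ.sup`); for this `ν`: `k o`, `c o`, `R o`. `cc j = ∏ o, c o j`: nonzero, `|cc j| ≤ Y j ^ (∑ o, k o)` for almost all `j`; `NabRel σ B (P j) (cc j) ν o` for all `o`
(multiply the relation by the other factors). `Δ j z = eval z (Jac B (P j)) * (∏ s, z (bs s)) * cc j` : nonzero on `Z2 j`, at most `Y^k`, so at most `exp (Y^ε)` (`DMUAux.pow_le_exp`). `class_choice2` with `k = 2 (B.card + 1)`: `κ`, `ℓ`, `C`.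
Put `D = κ * (2 * ν * κ ^ (B.card - 1))`. The set of the `j` such that there are `z0 ∈ C j` and `ρ` with `Rel (ℓ j) B z0 (C j) ν D ρ` (with `ℓ j` prime: use `∃ h : (ℓ j).Prime, ..` and `haveI := Fact.mk h`) is not in `UU`: otherwise `dmx` gives, for almost all `j`, `G` (as at the end of `FewX.dmu` in FewX/DMU.lean: choose `G j`,
bounded, `≠ 0`, variables in `B`, vanishing on `C j`), contradiction to `ch.indep`. So by `Ultrafilter.eventually_not`/`em` for almost all `j` there is none: `hno`.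
For almost all `j` all the hypotheses of `fin` hold, with `H = Y j ^ k` from `bd_q0` and `4 * H < Y j ^ j ≤ mm .. 2` (`j ≥ k + 3`, `Y j ≥ 4`), `α = α j`, `C = C j`. Then for `z0, z ∈ C j`: `m0(z) m2(z0) = m0(z0) m2(z)`, `PointsUAux.coprime_eq`: `m0(z) = m0(z0)`, `m2(z) = m2(z0)`, `z = z0` by `hinj`.
But `card (C j) ≥ Y^η ≥ 2` for almost all `j`: contradiction.
-/

open MvPolynomial Filter Pool.Agent.Lib.FewX

namespace Pool.Agent.Lib.FewY

namespace PointsInfUAux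

/-- remove the zeros of the Jacobian -/
theorem fil {N : ℕ} {Y : ℕ → ℕ} (hY : ∀ j, j + 2 ≤ Y j) {Z1 : ℕ → Finset (Fin N → ℤ)}
    {B : Finset (Fin N)} {P : ℕ → Fin N → MvPolynomial (Fin N) ℤ} {r : ℕ}
    {F : ℕ → Fin r → MvPolynomial (Fin N) ℤ} (ch : Chart Y Z1 B P F) :
    ∃ Z2 : ℕ → Finset (Fin N → ℤ), (∀ j, Z2 j ⊆ Z1 j) ∧ Large Y Z2 ∧
      ∀ j, ∀ z ∈ Z2 j, eval z (Jac B (P j)) ≠ 0 := by
  classical
  have hL := ch.large
  have hfil : ∀ s : Finset (Fin N), s ⊆ Bᶜ →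
      Large Y (fun j => (Z1 j).filter (fun z => ∀ i ∈ s, eval z (pderiv i (P j i)) ≠ 0)) := by
    intro s
    induction s using Finset.induction_on with
    | empty =>
      intro _
      refine hL.mono (Eventually.of_forall fun j => ?_)
      simp
    | insert i s his ih =>
      intro hs'
      have hiB : i ∉ B := Finset.mem_compl.1 (hs' (Finset.mem_insert_self i s))
      have h1 := ih (fun x hx => hs' (Finset.mem_insert_of_mem hx))
      have h2 : ¬ Large Y (fun j => ((Z1 j).filter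
          (fun z => ∀ i ∈ s, eval z (pderiv i (P j i)) ≠ 0)).filter
            (fun z => eval z (pderiv i (P j i)) = 0)) := by
        refine ch.Pder i hiB _ (fun j => ?_) (Eventually.of_forall fun j z hz => ?_)
        · exact ((Finset.filter_subset _ _).trans (Finset.filter_subset _ _))
        · exact (Finset.mem_filter.1 hz).2
      have h3 := Large.filter_not hY h1 (p := fun j z => eval z (pderiv i (P j i)) = 0)
        (by convert h2)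
      refine h3.mono (Eventually.of_forall fun j => Finset.card_le_card fun z hz => ?_)
      simp only [Finset.mem_filter, Finset.mem_insert, forall_eq_or_imp] at hz ⊢
      exact ⟨hz.1.1, hz.2, hz.1.2⟩
  have hL2 := hfil Bᶜ (Finset.Subset.refl _)
  refine ⟨_, fun j => Finset.filter_subset _ _, hL2, fun j z hz => ?_⟩
  unfold Jac
  rw [map_prod]
  exact Finset.prod_ne_zero_iff.2 fun i hi => (Finset.mem_filter.1 hz).2 i hi

/-- one relation for all the vectors -/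
theorem rels {N n : ℕ} (σ : Shape N n) {Y : ℕ → ℕ} (hY : ∀ j, j + 2 ≤ Y j)
    {B : Finset (Fin N)} {P : ℕ → Fin N → MvPolynomial (Fin N) ℤ}
    (hP : ∀ i, i ∉ B → BdE Y (fun j => P j i)) : ∃ (ν k : ℕ) (c : ℕ → ℤ), 1 ≤ ν ∧
      ∀ᶠ j in UU, c j ≠ 0 ∧ |c j| ≤ (Y j : ℤ) ^ k ∧ ∀ o, NabRel σ B (P j) (c j) ν o := by
  classical
  have h := fun o : Option (Fin N) =>
    noeth hY (fun i j r => ((nab σ B (P j))^[i] (VV σ B (P j) o)) r)
      (fun i r => bdE_nab σ hY hP o i r)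
  choose ν0 hν0 using h
  have h1 := fun o : Option (Fin N) => hν0 o (max 1 (Finset.univ.sup ν0))
    ((Finset.le_sup (f := ν0) (Finset.mem_univ o)).trans (le_max_right _ _))
  choose k c R hR using h1
  refine ⟨max 1 (Finset.univ.sup ν0), ∑ o, k o, fun j => ∏ o, c o j, le_max_left _ _, ?_⟩
  filter_upwards [eventually_all.2 hR] with j hj
  refine ⟨Finset.prod_ne_zero_iff.2 fun o _ => (hj o).1, ?_, fun o => ?_⟩
  · rw [Finset.abs_prod, ← Finset.prod_pow_eq_pow_sum]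
    exact Finset.prod_le_prod (fun o _ => abs_nonneg _) fun o _ => (hj o).2.1
  · refine ⟨fun i => C (∏ o' ∈ Finset.univ.erase o, c o' j) * R o j i, fun r => ?_⟩
    have h2 := (hj o).2.2 r
    rw [← Finset.mul_prod_erase Finset.univ (fun o => c o j) (Finset.mem_univ o), C_mul,
      mul_comm (C (c o j)), mul_assoc, h2, Finset.mul_sum]
    refine Finset.sum_congr rfl fun i _ => ?_
    ring

/-- there is no relation on the classes -/
theorem no_rel {N : ℕ} {Y : ℕ → ℕ} (hY : ∀ j, j + 2 ≤ Y j) {Z1 : ℕ → Finset (Fin N → ℤ)}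
    {B : Finset (Fin N)} {P : ℕ → Fin N → MvPolynomial (Fin N) ℤ} {r : ℕ}
    {F : ℕ → Fin r → MvPolynomial (Fin N) ℤ} (ch : Chart Y Z1 B P F)
    (hbox : ∀ j, ∀ z ∈ Z1 j, ∀ i, |z i| ≤ Y j) (ν κ : ℕ) (hν : 1 ≤ ν) (hκ : 1 ≤ κ) (ℓ : ℕ → ℕ)
    (C : ℕ → Finset (Fin N → ℤ)) (hC1 : ∀ j, C j ⊆ Z1 j) (hCL : Large Y C)
    (hC : ∀ᶠ j in UU, (ℓ j).Prime ∧ Y j ^ (2 * (B.card + 1)) ≤ ℓ j ^ κ ∧
        (∀ z ∈ C j, ∀ z' ∈ C j, ∀ i, ((ℓ j ^ 2 * (ℓ j - 1) : ℕ) : ℤ) ∣ z i - z' i)) :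
    ∀ᶠ j in UU, ∀ (h : Fact (ℓ j).Prime), ∀ z0 ∈ C j, ∀ ρ,
      ¬ Rel (ℓ j) B z0 (C j) ν (κ * (2 * ν * κ ^ (B.card - 1))) ρ := by
  classical
  obtain ⟨a, ha⟩ : ∃ a, a = B.card * (2 * ν * κ ^ (B.card - 1)) := ⟨_, rfl⟩
  obtain ⟨e, he⟩ : ∃ e, e = B.card * (2 * ν * κ ^ (B.card - 1)) *
    (2 * ν * κ ^ (B.card - 1)) ^ B.card + 1 := ⟨_, rfl⟩
  have hnot : ¬ ∀ᶠ j in UU, ∃ (h : Fact (ℓ j).Prime), ∃ z0 ∈ C j, ∃ ρ,
      Rel (ℓ j) B z0 (C j) ν (κ * (2 * ν * κ ^ (B.card - 1))) ρ := by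
    intro hbad
    have hev : ∀ᶠ j in UU, ∃ G : MvPolynomial (Fin N) ℤ, G ≠ 0 ∧ G.vars ⊆ B ∧
        G.totalDegree ≤ a ∧ (∀ m, |coeff m G| ≤ (Y j : ℤ) ^ e) ∧ ∀ z ∈ C j, eval z G = 0 := by
      filter_upwards [hbad, hC, ev_ge (((2 * ν * κ ^ (B.card - 1)) ^ B.card).factorial)] with
        j hb h1 h2
      obtain ⟨hf, z0, hz0, ρ, hρ⟩ := hb
      obtain ⟨hℓ, hℓY, hdiv⟩ := h1
      have hYj := hY j
      have hd : ∀ z ∈ C j, ∀ i, ((ℓ j : ℤ) ^ 2) ∣ z i - z0 i := by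
        intro z hz i
        refine dvd_trans ?_ (hdiv z hz z0 hz0 i)
        rw [Nat.cast_mul, Nat.cast_pow]
        exact Dvd.intro _ rfl
      rw [ha, he]
      exact dmx (ℓ j) ν κ hν hκ hz0 hd ρ hρ (Y j) (by omega) (by omega)
        (fun z hz i => hbox j z (hC1 j hz) i) hℓY
    have hG : ∀ j, ∃ G : MvPolynomial (Fin N) ℤ, (∃ G : MvPolynomial (Fin N) ℤ, G ≠ 0 ∧
        G.vars ⊆ B ∧ G.totalDegree ≤ a ∧ (∀ m, |coeff m G| ≤ (Y j : ℤ) ^ e) ∧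
        ∀ z ∈ C j, eval z G = 0) → (G ≠ 0 ∧ G.vars ⊆ B ∧ G.totalDegree ≤ a ∧
        (∀ m, |coeff m G| ≤ (Y j : ℤ) ^ e) ∧ ∀ z ∈ C j, eval z G = 0) := by
      intro j
      by_cases h : ∃ G : MvPolynomial (Fin N) ℤ, G ≠ 0 ∧
        G.vars ⊆ B ∧ G.totalDegree ≤ a ∧ (∀ m, |coeff m G| ≤ (Y j : ℤ) ^ e) ∧
        ∀ z ∈ C j, eval z G = 0
      · obtain ⟨G, hG⟩ := h
        exact ⟨G, fun _ => hG⟩
      · exact ⟨0, fun h' => absurd h' h⟩
    choose G hG using hG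
    refine ch.indep G ⟨a + e, ?_⟩ ?_ C hC1 ?_ hCL
    · filter_upwards [hev] with j hj
      obtain ⟨h1, h2, h3, h4, h5⟩ := hG j hj
      refine ⟨by omega, fun m => (h4 m).trans ?_⟩
      have h6 : (1 : ℤ) ≤ Y j := by
        have := hY j
        omega
      exact pow_le_pow_right₀ h6 (by omega)
    · filter_upwards [hev] with j hj
      obtain ⟨h1, h2, h3, h4, h5⟩ := hG j hj
      exact ⟨h1, h2⟩
    · filter_upwards [hev] with j hj
      obtain ⟨h1, h2, h3, h4, h5⟩ := hG j hj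
      exact h5
  filter_upwards [Ultrafilter.eventually_not.2 hnot] with j hj h z0 hz0 ρ hρ
  exact hj ⟨h, z0, hz0, ρ, hρ⟩

end PointsInfUAux

open PointsInfUAux

theorem points_infU {N n : ℕ} (σ : Shape N n) {Y : ℕ → ℕ} (hY : ∀ j, j + 2 ≤ Y j)
    (Z : ℕ → Finset (Fin N → ℤ)) (α : ℕ → Fin 3 → ℤ)
    (h : ∀ j, ∀ z ∈ Z j, (∀ i, 1 ≤ z i ∧ z i ≤ Y j) ∧ (∀ r, 0 < mm σ (α j) z r) ∧
      mm σ (α j) z 0 + mm σ (α j) z 1 = mm σ (α j) z 2 ∧
      IsCoprime (mm σ (α j) z 0) (mm σ (α j) z 1) ∧ (Y j : ℤ) ^ j ≤ mm σ (α j) z 2)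
    (hinj : ∀ j, ∀ z ∈ Z j, ∀ z' ∈ Z j, mm σ (α j) z 0 = mm σ (α j) z' 0 →
      mm σ (α j) z 2 = mm σ (α j) z' 2 → z = z') : ¬ Large Y Z := by
  classical
  intro hL0
  obtain ⟨Z1, B, P, r, F, hZ1, ch⟩ := exists_chart hY hL0
  have hbox : ∀ j, ∀ z ∈ Z1 j, ∀ i, |z i| ≤ Y j := by
    intro j z hz i
    obtain ⟨h1, h2⟩ := (h j z (hZ1 j hz)).1 i
    rw [abs_of_pos (by omega)]
    exact h2
  obtain ⟨Z2, hZ2', hL2, hJne⟩ := fil hY ch
  obtain ⟨ν, kc, c, hν, hc⟩ := rels σ hY ch.Pbd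
  obtain ⟨kJ, hkJ⟩ := bdE_eval hY (bdE_Jac hY ch.Pbd)
  obtain ⟨kq, hkq⟩ := bd_q0 σ hY ch.Pbd
  have h1Z : ∀ j, ∀ z ∈ Z2 j, ∀ i, 1 ≤ z i ∧ z i ≤ Y j := fun j z hz i =>
    (h j z (hZ1 j (hZ2' j hz))).1 i
  obtain ⟨κ, ℓ, C, hκ, hCZ, hCL, hℓbig, hC⟩ := class_choice2 hY hL2
    (fun j z => eval z (Jac B (P j)) * ((∏ s, z (σ.bs s)) * c j))
    (by
      filter_upwards [hc] with j hj z hz
      refine mul_ne_zero (hJne j z hz) (mul_ne_zero ?_ hj.1)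
      refine Finset.prod_ne_zero_iff.2 fun s _ => ?_
      have := (h1Z j z hz (σ.bs s)).1
      omega)
    (by
      intro ε hε
      filter_upwards [hkJ, hc, DMUAux.pow_le_exp hY (kJ + (n + kc)) hε] with j h1 h2 h3 z hz
      refine le_trans ?_ h3
      have h5 : |eval z (Jac B (P j)) * ((∏ s, z (σ.bs s)) * c j)| ≤
          (Y j : ℤ) ^ (kJ + (n + kc)) := by
        rw [abs_mul, abs_mul, pow_add, pow_add]
        refine mul_le_mul (h1 z (hbox j z (hZ2' j hz))) ?_ (by positivity) (by positivity)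
        refine mul_le_mul ?_ h2.2.1 (abs_nonneg _) (by positivity)
        rw [Finset.abs_prod]
        calc ∏ s, |z (σ.bs s)| ≤ ∏ _s : Fin n, (Y j : ℤ) :=
              Finset.prod_le_prod (fun s _ => abs_nonneg _)
                fun s _ => hbox j z (hZ2' j hz) (σ.bs s)
          _ = (Y j : ℤ) ^ n := by simp
      exact_mod_cast h5)
    (2 * (B.card + 1))
  have hCZ' : ∀ j, C j ⊆ Z1 j := fun j => (hCZ j).trans (hZ2' j)
  have hno := no_rel hY ch hbox ν κ hν hκ ℓ C hCZ' hCL (by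
    filter_upwards [hC] with j hj
    exact ⟨hj.1, hj.2.1, hj.2.2.1⟩)
  have hvars : ∀ᶠ j in UU, ∀ i : Fin N, i ∉ B → (P j i).vars ⊆ insert i B := by
    rw [eventually_all]
    intro i
    by_cases hi : i ∈ B
    · exact Eventually.of_forall fun j h => absurd hi h
    · filter_upwards [ch.Pvars i hi] with j hj _
      exact hj
  have hvan : ∀ᶠ j in UU, ∀ i : Fin N, i ∉ B → ∀ z ∈ Z1 j, eval z (P j i) = 0 := by
    rw [eventually_all]
    intro i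
    by_cases hi : i ∈ B
    · exact Eventually.of_forall fun j h => absurd hi h
    · filter_upwards [ch.Pvan i hi] with j hj _
      exact hj
  obtain ⟨η, hη, hcard⟩ := hCL
  have hbad : ∀ᶠ j in UU, False := by
    filter_upwards [hC, hvars, hvan, hno, hc, hkq, hcard, ev_rpow hY hη 2, hℓbig (ν + 3),
      ev_ge (kq + 3)] with j h1 h2 h3 h4 h5 h6 h7 h8 h9 h10
    obtain ⟨hℓ, -, hdiv, hnd⟩ := h1
    have : Fact (ℓ j).Prime := ⟨hℓ⟩
    have h11 : (2 : ℝ) ≤ (C j).card := h8.trans h7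
    have h12 : 1 < (C j).card := by
      have : 2 ≤ (C j).card := by exact_mod_cast h11
      omega
    obtain ⟨z0, hz0, z1, hz1, hne⟩ := Finset.one_lt_card.1 h12
    have hnd1 : ∀ z ∈ C j, ¬ (ℓ j : ℤ) ∣ eval z (Jac B (P j)) := fun z hz hd =>
      hnd z hz (Dvd.dvd.mul_right hd _)
    have hnd2 : ∀ z ∈ C j, ¬ (ℓ j : ℤ) ∣ ∏ s, z (σ.bs s) := fun z hz hd =>
      hnd z hz (Dvd.dvd.mul_left (Dvd.dvd.mul_right hd _) _)
    have hnd3 : ¬ (ℓ j : ℤ) ∣ c j := fun hd =>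
      hnd z0 hz0 (Dvd.dvd.mul_left (Dvd.dvd.mul_left hd _) _)
    have hYj := hY j
    have hbig : 4 * (Y j : ℤ) ^ kq < (Y j : ℤ) ^ j := by
      have e1 : (1 : ℤ) ≤ Y j := by omega
      have e5 : (5 : ℤ) ≤ Y j := by omega
      have e2 : (Y j : ℤ) ^ (kq + 3) ≤ (Y j : ℤ) ^ j := pow_le_pow_right₀ e1 h10
      have e3 : (0 : ℤ) < (Y j : ℤ) ^ kq := by positivity
      have e4 : (125 : ℤ) ≤ (Y j : ℤ) ^ 3 := by
        calc (125 : ℤ) = 5 ^ 3 := by norm_num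
          _ ≤ _ := pow_le_pow_left₀ (by norm_num) e5 3
      rw [pow_add] at e2
      nlinarith
    have hfin := fin σ (fun i hi => h2 i hi) (α j) (ℓ j) ν (κ * (2 * ν * κ ^ (B.card - 1)))
      (by omega) hν (by omega)
      (Nat.mul_pos hκ (Nat.mul_pos (by omega) (pow_pos hκ _))) (c j) hnd3 h5.2.2 (C j)
      (fun z hz i => (h1Z j z (hCZ j hz) i).1) hdiv (fun z hz i hi => h3 i hi z (hCZ' j hz))
      hnd1
      (fun z hz s hd => hnd2 z hz (hd.trans (Finset.dvd_prod_of_mem _ (Finset.mem_univ s))))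
      (fun z hz => (h j z (hZ1 j (hCZ' j hz))).2.1)
      (fun z hz => (h j z (hZ1 j (hCZ' j hz))).2.2.1)
      (fun z hz => (h j z (hZ1 j (hCZ' j hz))).2.2.2.1) ((Y j : ℤ) ^ kq)
      (fun z hz r b _ => h6 z (hbox j z (hCZ' j hz)) r b)
      (fun z hz => hbig.trans_le (h j z (hZ1 j (hCZ' j hz))).2.2.2.2) (h4 _)
    have hk := hfin z0 hz0 z1 hz1
    obtain ⟨a1, a2, a3, a4, a5⟩ := h j z0 (hZ1 j (hCZ' j hz0))
    obtain ⟨b1, b2, b3, b4, b5⟩ := h j z1 (hZ1 j (hCZ' j hz1))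
    obtain ⟨c1, c2⟩ := PointsUAux.coprime_eq (a2 0) (b2 0) a3 b3 a4 b4 hk
    exact hne (hinj j z0 (hZ1 j (hCZ' j hz0)) z1 (hZ1 j (hCZ' j hz1)) c1 c2)
  obtain ⟨j, hj⟩ := hbad.exists
  exact hj

end Pool.Agent.Lib.FewY
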