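import Pool.Agent.Lib.FewY.SerDefs

/-!
# FewY.PtDefs: the points of the class; the properties of exponential and logarithm that are used
-/

open MvPolynomial Pool.Agent.Lib.FewX Pool.Agent.Lib.FewX.PathAux

namespace Pool.Agent.Lib.FewY

variable {N n : ℕ} (ℓ : ℕ) [Fact ℓ.Prime]

/-- `ex` is the exponential on `ℓ ℤ_[ℓ]`, `lg` the logarithm of the units (with values in `ℓ ℤ_[ℓ]`) -/
structure IsEL (ex lg : ℤ_[ℓ] → ℤ_[ℓ]) : Prop where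
  add : ∀ x y, (ℓ : ℤ_[ℓ]) ∣ x → (ℓ : ℤ_[ℓ]) ∣ y → ex (x + y) = ex x * ex y
  zero : ex 0 = 1
  inj : ∀ x y, (ℓ : ℤ_[ℓ]) ∣ x → (ℓ : ℤ_[ℓ]) ∣ y → ex x = ex y → x = y
  dvd : ∀ x, (ℓ : ℤ_[ℓ]) ∣ lg x
  spec : ∀ x, IsUnit x → ex (((ℓ : ℤ_[ℓ]) - 1) * lg x) = x ^ (ℓ - 1)
  ser : ∀ ev : PowerSeries ℤ_[ℓ] →+* ℤ_[ℓ], IsEv ℓ ev → ∀ g U : PowerSeries ℤ_[ℓ],
    PowerSeries.C (ℓ : ℤ_[ℓ]) * PowerSeries.X ∣ g →
    PowerSeries.derivative ℤ_[ℓ] U = U * PowerSeries.derivative ℤ_[ℓ] g →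
    ev U = PowerSeries.constantCoeff U * ex (ev g)

/-- a good point -/
structure PtOK (σ : Shape N n) (B : Finset (Fin N)) (P : Fin N → MvPolynomial (Fin N) ℤ)
    (z : Fin N → ℤ) : Prop where
  pos : ∀ i, 1 ≤ z i
  eqn : ∀ i, i ∉ B → eval z (P i) = 0
  jac : ¬ (ℓ : ℤ) ∣ eval z (Jac B P)
  base : ∀ s, ¬ (ℓ : ℤ) ∣ z (σ.bs s)

/-- the value of the vector `V` at `z` with the logarithms `lg (z (bs s))` (direction `0`) -/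
noncomputable def vz (lg : ℤ_[ℓ] → ℤ_[ℓ]) (σ : Shape N n) (z : Fin N → ℤ) (F : Ext N n) :
    ℤ_[ℓ] :=
  ez (pt (fun i => (z i : ℤ_[ℓ])) (fun s => lg (z (σ.bs s) : ℤ_[ℓ])) (fun _ => 0)) F

end Pool.Agent.Lib.FewY
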