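import Pool.Agent.Lib.FewY.Defs
import Pool.Agent.Lib.FewY.HurwRing

/-!
# FewY.SerDefs: the series attached to a point of the class

`SS ℓ B` = polynomials over `ℚ_[ℓ]` in the directions `τ_b`, `b ∈ B`; `tv i = τ_i` (`0` if `i ∉ B`). `PathS`: the formal path
`φ` through `z0` in the direction `τ`; `Ser`: the path, the logarithms `Λ s` of its bases and the members `y r` along it.
-/

open MvPolynomial Pool.Agent.Lib.FewX Pool.Agent.Lib.FewX.PathAux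

namespace Pool.Agent.Lib.FewY

variable {N n : ℕ} (ℓ : ℕ) [Fact ℓ.Prime] (B : Finset (Fin N))

/-- polynomials in the directions -/
abbrev SS := MvPolynomial {x // x ∈ B} ℚ_[ℓ]

/-- the direction -/
noncomputable def tv (i : Fin N) : SS ℓ B := if h : i ∈ B then X ⟨i, h⟩ else 0

/-- the path through `z0` -/
structure PathS (P : Fin N → MvPolynomial (Fin N) ℤ) (z0 : Fin N → ℤ)
    (φ : Fin N → PowerSeries (SS ℓ B)) : Prop where
  base : ∀ b ∈ B, φ b = PowerSeries.C ((z0 b : ℤ) : SS ℓ B) +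
    PowerSeries.C (tv ℓ B b) * PowerSeries.X
  eqn : ∀ i, i ∉ B → ez φ (P i) = 0
  cst : ∀ i, PowerSeries.constantCoeff (φ i) = ((z0 i : ℤ) : SS ℓ B)
  int : ∀ i k, Cn 1 (PowerSeries.coeff k (φ i))
  hom : ∀ i, Hm (φ i)
  ode : ∀ i, ez φ (Jac B P) * PowerSeries.derivative (SS ℓ B) (φ i) =
    ∑ b ∈ B, PowerSeries.C (tv ℓ B b) * ez φ (vf B P b i)

variable {B} in
/-- the exponent of the member `r` along the path -/
noncomputable def wr (σ : Shape N n) (φ : Fin N → PowerSeries (SS ℓ B))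
    (Λ : Fin n → PowerSeries (SS ℓ B)) (r : Fin 3) : PowerSeries (SS ℓ B) :=
  ∑ s ∈ Finset.univ.filter (fun s => σ.mem s = r), φ (σ.es s) * Λ s

/-- the path, the logarithms of the bases (with the values `ξ s` at `z0`) and the members along it -/
structure Ser (σ : Shape N n) (P : Fin N → MvPolynomial (Fin N) ℤ) (α : Fin 3 → ℤ)
    (z0 : Fin N → ℤ) (ξ : Fin n → ℤ_[ℓ]) (φ : Fin N → PowerSeries (SS ℓ B))
    (Λ : Fin n → PowerSeries (SS ℓ B)) (y : Fin 3 → PowerSeries (SS ℓ B)) : Prop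
    extends PathS ℓ B P z0 φ where
  Λcst : ∀ s, PowerSeries.constantCoeff (Λ s) = C ((ξ s : ℤ_[ℓ]) : ℚ_[ℓ])
  Λode : ∀ s, φ (σ.bs s) * PowerSeries.derivative (SS ℓ B) (Λ s) =
    PowerSeries.derivative (SS ℓ B) (φ (σ.bs s))
  Λhz : ∀ s, Hz (Λ s)
  Λhom : ∀ s, Hm (Λ s)
  ycst : ∀ r, PowerSeries.constantCoeff (y r) = ((mm σ α z0 r : ℤ) : SS ℓ B)
  yode : ∀ r, PowerSeries.derivative (SS ℓ B) (y r) =
    y r * PowerSeries.derivative (SS ℓ B) (wr ℓ σ φ Λ r)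
  yhz : ∀ r, Hz (y r)
  yhom : ∀ r, Hm (y r)

variable {B} in
/-- the point of the extended space on the path -/
noncomputable def ptS (φ : Fin N → PowerSeries (SS ℓ B)) (Λ : Fin n → PowerSeries (SS ℓ B)) :
    Fin (N + n + N) → PowerSeries (SS ℓ B) :=
  pt φ Λ (fun i => PowerSeries.C (tv ℓ B i))

variable {B} in
/-- `F_V = ∑ r, V_r(φ, Λ, τ) y_r` -/
noncomputable def FV (φ : Fin N → PowerSeries (SS ℓ B)) (Λ : Fin n → PowerSeries (SS ℓ B))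
    (y : Fin 3 → PowerSeries (SS ℓ B)) (V : Fin 3 → Ext N n) : PowerSeries (SS ℓ B) :=
  ∑ r, ez (ptS ℓ φ Λ) (V r) * y r

/-- the specialisation of the direction to `t` -/
noncomputable abbrev spS (t : {x // x ∈ B} → ℤ) :
    PowerSeries (SS ℓ B) →+* PowerSeries ℚ_[ℓ] :=
  PowerSeries.map (eval (fun b => (t b : ℚ_[ℓ])))

/-- the inclusion `ℤ_[ℓ]⟦T⟧ → ℚ_[ℓ]⟦T⟧` -/
noncomputable abbrev iQ : PowerSeries ℤ_[ℓ] →+* PowerSeries ℚ_[ℓ] :=
  PowerSeries.map (algebraMap ℤ_[ℓ] ℚ_[ℓ])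

/-- an evaluation `T ↦ ℓ` on `ℤ_[ℓ]⟦T⟧` -/
structure IsEv (ev : PowerSeries ℤ_[ℓ] →+* ℤ_[ℓ]) : Prop where
  X : ev PowerSeries.X = (ℓ : ℤ_[ℓ])
  C : ∀ a : ℤ_[ℓ], ev (PowerSeries.C a) = a
  dvd : ∀ f : PowerSeries ℤ_[ℓ], (ℓ : ℤ_[ℓ]) ∣ ev f - PowerSeries.constantCoeff f

theorem exists_isEv : ∃ ev : PowerSeries ℤ_[ℓ] →+* ℤ_[ℓ], IsEv ℓ ev := by
  obtain ⟨ev, h1, h2, h3⟩ := exists_ev ℓ
  exact ⟨ev, h1, h2, h3⟩

end Pool.Agent.Lib.FewY
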