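import Pool.Agent.Lib.FewY.PointsInf
import Pool.Agent.Lib.FewX.TransA

/-!
# FewY.TrA: triples whose members are products of few powers  (2 h)

The coordinates: `N = 6 n` = `(n + n + n) + (n + n + n)`: bases and exponents, `σ.bs s = castAdd s`, `σ.es s = natAdd s` for `s : Fin (n + n + n)`, `σ.mem` = `0`, `1`, `2` on the three blocks (`Fin.append`/`Fin.addCases`; define `sh n : Shape`). For vectors `x, y, w, k, l, m : Fin n → ℕ` the point is
`Fin.append (pt x y w) (pt k l m)` (`TransAAux.pt`), and `mN (sh n) ![A, B, C] (point) 0 = A * ∏ x i ^ k i`, etc. (the sum over the `s` with `mem s = 0` : `Fin.prod_univ_add` for the product of `if mem s = 0 then .. else 1`).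
`points_inf` for `sh n` and `ε' = ε / (K + 1)`: `M', Y0'`. Box size `Y' = Y^(K+1)`, `M = M' (K + 1)`, so `Y'^M' = Y^M`, `Y'^ε' = Y^ε`. For `t ∈ T` choose representations `t.1 = A ∏ x i ^ k i` etc. with `1 ≤ x i ≤ Y` and `1 ≤ k i`: if `x i = 1` or `k i = 0` replace `(x i, k i)` by `(1, 1)`; then `x i = 1`, `k i = 1` or `2 ≤ x i` and
`2^(k i) ≤ t.1 ≤ t.2.2 ≤ exp (Y^K)`, so `k i ≤ 2 Y^K ≤ Y^(K+1)` (`TransAAux.exp_bound` is the same argument). `Z` = image of `T` under `t ↦` its point: injective on `T` as `t` is determined by its point; `Z` satisfies the hypotheses of `points_inf` (`α = ![A, B, C]`).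
-/

open Pool.Agent.Lib.FewX

namespace Pool.Agent.Lib.FewY

namespace TrAAux

/-- bases and exponents of three members with `n` factors each -/
def sh (n : ℕ) : Shape ((n + n + n) + (n + n + n)) (n + n + n) where
  bs := Fin.castAdd _
  es := Fin.natAdd _
  mem := Fin.addCases (Fin.addCases (fun _ => 0) (fun _ => 1)) (fun _ => 2)

theorem mN_sh {n : ℕ} (α : Fin 3 → ℕ) (x y w k l m : Fin n → ℕ) (r : Fin 3) :
    mN (sh n) α (Fin.append (TransAAux.pt x y w) (TransAAux.pt k l m)) r =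
      α r * ((∏ i, if (0 : Fin 3) = r then x i ^ k i else 1) *
        (∏ i, if (1 : Fin 3) = r then y i ^ l i else 1) *
        ∏ i, if (2 : Fin 3) = r then w i ^ m i else 1) := by
  unfold mN
  rw [Finset.prod_filter, Fin.prod_univ_add, Fin.prod_univ_add]
  simp only [sh, Fin.addCases_left, Fin.addCases_right, Fin.append_left, Fin.append_right,
    TransAAux.pt]

theorem mN0 {n : ℕ} (A B C : ℕ) (x y w k l m : Fin n → ℕ) :
    mN (sh n) ![A, B, C] (Fin.append (TransAAux.pt x y w) (TransAAux.pt k l m)) 0 =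
      A * ∏ i, x i ^ k i := by
  rw [mN_sh]
  simp

theorem mN1 {n : ℕ} (A B C : ℕ) (x y w k l m : Fin n → ℕ) :
    mN (sh n) ![A, B, C] (Fin.append (TransAAux.pt x y w) (TransAAux.pt k l m)) 1 =
      B * ∏ i, y i ^ l i := by
  rw [mN_sh]
  simp

theorem mN2 {n : ℕ} (A B C : ℕ) (x y w k l m : Fin n → ℕ) :
    mN (sh n) ![A, B, C] (Fin.append (TransAAux.pt x y w) (TransAAux.pt k l m)) 2 =
      C * ∏ i, w i ^ m i := by
  rw [mN_sh]
  simp

theorem norm_powers {n Y m : ℕ} (h : Powers n Y m) : ∃ x k : Fin n → ℕ,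
    (∀ i, 1 ≤ x i ∧ x i ≤ Y) ∧ (∀ i, 1 ≤ k i) ∧ (∀ i, x i = 1 → k i = 1) ∧
      m = ∏ i, x i ^ k i := by
  obtain ⟨x, k, h1, h2⟩ := h
  refine ⟨fun i => if k i = 0 then 1 else x i, fun i => if k i = 0 ∨ x i = 1 then 1 else k i,
    ?_, ?_, ?_, ?_⟩
  · intro i
    have := h1 i
    dsimp only
    split_ifs <;> omega
  · intro i
    dsimp only
    split_ifs with hc
    · omega
    · omega
  · intro i hi
    dsimp only at hi ⊢
    by_cases h0 : k i = 0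
    · simp [h0]
    · rw [if_neg h0] at hi
      simp [hi]
  · rw [h2]
    refine Finset.prod_congr rfl fun i _ => ?_
    by_cases h0 : k i = 0
    · simp [h0]
    · by_cases h1 : x i = 1
      · simp [h1]
      · simp [h0, h1]

theorem exp_bound {n A : ℕ} {x k : Fin n → ℕ} {R : ℝ} (hx : ∀ i, 1 ≤ x i)
    (hk : ∀ i, x i = 1 → k i = 1) (hA : 0 < A) (hR : 1 ≤ R)
    (h : ((A * ∏ i, x i ^ k i : ℕ) : ℝ) ≤ Real.exp R) (i : Fin n) : (k i : ℝ) ≤ 2 * R := by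
  by_cases hi : x i = 1
  · rw [hk i hi]
    push_cast
    linarith
  · have h2 : 2 ≤ x i := by
      have := hx i
      omega
    have hpos : 0 < ∏ j, x j ^ k j := Finset.prod_pos fun j _ => pow_pos (hx j) _
    have h3 : x i ^ k i ≤ ∏ j, x j ^ k j :=
      Nat.le_of_dvd hpos (Finset.dvd_prod_of_mem _ (Finset.mem_univ i))
    have h4 : 2 ^ k i ≤ A * ∏ j, x j ^ k j :=
      (Nat.pow_le_pow_left h2 _).trans (h3.trans (Nat.le_mul_of_pos_left _ hA))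
    have h5 : (2 : ℝ) ^ k i ≤ Real.exp R := by
      refine le_trans ?_ h
      exact_mod_cast h4
    have h6 : (k i : ℝ) * Real.log 2 ≤ R := by
      rw [← Real.log_pow]
      have h7 := Real.log_le_log (by positivity) h5
      rwa [Real.log_exp] at h7
    have h7 : (1 : ℝ) / 2 ≤ Real.log 2 := by
      have := Real.log_two_gt_d9
      linarith
    have h8 : (0 : ℝ) ≤ k i := Nat.cast_nonneg _
    nlinarith

theorem box {n Y K A m : ℕ} (hY : 2 ≤ Y) {x k : Fin n → ℕ} (hx : ∀ i, 1 ≤ x i ∧ x i ≤ Y)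
    (h1 : ∀ i, 1 ≤ k i) (hk : ∀ i, x i = 1 → k i = 1) (hA : 0 < A)
    (hm : m = A * ∏ i, x i ^ k i) (h : (m : ℝ) ≤ Real.exp ((Y : ℝ) ^ K)) (i : Fin n) :
    (1 ≤ x i ∧ x i ≤ Y ^ (K + 1)) ∧ (1 ≤ k i ∧ k i ≤ Y ^ (K + 1)) := by
  have hYr : (1 : ℝ) ≤ Y := by exact_mod_cast (by omega : 1 ≤ Y)
  have h2 : (k i : ℝ) ≤ 2 * (Y : ℝ) ^ K :=
    exp_bound (fun i => (hx i).1) hk hA (one_le_pow₀ hYr) (by rw [← hm]; exact h) i
  have h3 : k i ≤ 2 * Y ^ K := by exact_mod_cast h2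
  refine ⟨⟨(hx i).1, (hx i).2.trans ?_⟩, h1 i, h3.trans ?_⟩
  · calc Y = Y ^ 1 := (pow_one Y).symm
      _ ≤ Y ^ (K + 1) := Nat.pow_le_pow_right (by omega) (by omega)
  · rw [pow_succ, mul_comm]
    exact Nat.mul_le_mul_left _ hY

end TrAAux

theorem few_powers2 (n K : ℕ) (ε : ℝ) (hε : 0 < ε) : ∃ (M : ℕ) (Y0 : ℕ), 2 ≤ Y0 ∧
    ∀ Y : ℕ, Y0 ≤ Y → ∀ (A B C : ℕ) (T : Finset (ℕ × ℕ × ℕ)),
      (∀ t ∈ T, AbcTriple t.1 t.2.1 t.2.2 ∧ (∃ a', Powers n Y a' ∧ t.1 = A * a') ∧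
        (∃ b', Powers n Y b' ∧ t.2.1 = B * b') ∧ (∃ c', Powers n Y c' ∧ t.2.2 = C * c') ∧
        Y ^ M ≤ t.2.2 ∧ (t.2.2 : ℝ) ≤ Real.exp ((Y : ℝ) ^ K)) →
      (T.card : ℝ) ≤ (Y : ℝ) ^ ε := by
  classical
  obtain ⟨M, Y0, hY0, hpts⟩ := points_inf (TrAAux.sh n) (ε / (K + 1)) (by positivity)
  refine ⟨M * (K + 1), Y0, hY0, fun Y hY A B C T hT => ?_⟩
  have hY2 : 2 ≤ Y := hY0.trans hY
  have hrep : ∀ t : ℕ × ℕ × ℕ, ∃ x k y l w m : Fin n → ℕ, t ∈ T →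
      (t.1 = A * ∏ i, x i ^ k i ∧ t.2.1 = B * ∏ i, y i ^ l i ∧ t.2.2 = C * ∏ i, w i ^ m i) ∧
      (∀ i, (1 ≤ x i ∧ x i ≤ Y ^ (K + 1)) ∧ (1 ≤ k i ∧ k i ≤ Y ^ (K + 1))) ∧
      (∀ i, (1 ≤ y i ∧ y i ≤ Y ^ (K + 1)) ∧ (1 ≤ l i ∧ l i ≤ Y ^ (K + 1))) ∧
      (∀ i, (1 ≤ w i ∧ w i ≤ Y ^ (K + 1)) ∧ (1 ≤ m i ∧ m i ≤ Y ^ (K + 1))) := by
    intro t
    by_cases ht : t ∈ T
    · obtain ⟨habc, ⟨a', ha, hA⟩, ⟨b', hb, hB⟩, ⟨c', hc, hC⟩, -, hexp⟩ := hT t ht
      obtain ⟨x, k, hx1, hx2, hx3, hx4⟩ := TrAAux.norm_powers ha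
      obtain ⟨y, l, hy1, hy2, hy3, hy4⟩ := TrAAux.norm_powers hb
      obtain ⟨w, m, hw1, hw2, hw3, hw4⟩ := TrAAux.norm_powers hc
      obtain ⟨h1, h2, h3, h4, h5, h6, h7⟩ := habc
      have hle1 : (t.1 : ℝ) ≤ Real.exp ((Y : ℝ) ^ K) := by
        refine le_trans ?_ hexp
        have : t.1 ≤ t.2.2 := by omega
        exact_mod_cast this
      have hle2 : (t.2.1 : ℝ) ≤ Real.exp ((Y : ℝ) ^ K) := by
        refine le_trans ?_ hexp
        have : t.2.1 ≤ t.2.2 := by omega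
        exact_mod_cast this
      have hA0 : 0 < A := by
        rcases Nat.eq_zero_or_pos A with h | h
        · rw [h, zero_mul] at hA
          omega
        · exact h
      have hB0 : 0 < B := by
        rcases Nat.eq_zero_or_pos B with h | h
        · rw [h, zero_mul] at hB
          omega
        · exact h
      have hC0 : 0 < C := by
        rcases Nat.eq_zero_or_pos C with h | h
        · rw [h, zero_mul] at hC
          omega
        · exact h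
      rw [hx4] at hA
      rw [hy4] at hB
      rw [hw4] at hC
      exact ⟨x, k, y, l, w, m, fun _ => ⟨⟨hA, hB, hC⟩,
        TrAAux.box hY2 hx1 hx2 hx3 hA0 hA hle1, TrAAux.box hY2 hy1 hy2 hy3 hB0 hB hle2,
        TrAAux.box hY2 hw1 hw2 hw3 hC0 hC hexp⟩⟩
    · exact ⟨0, 0, 0, 0, 0, 0, fun h => absurd h ht⟩
  choose x k y l w m hrep using hrep
  obtain ⟨f, hf⟩ : ∃ f : ℕ × ℕ × ℕ → Fin ((n + n + n) + (n + n + n)) → ℕ,
      ∀ t, f t = Fin.append (TransAAux.pt (x t) (y t) (w t)) (TransAAux.pt (k t) (l t) (m t)) :=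
    ⟨_, fun _ => rfl⟩
  have hm : ∀ t ∈ T, mN (TrAAux.sh n) ![A, B, C] (f t) 0 = t.1 ∧
      mN (TrAAux.sh n) ![A, B, C] (f t) 1 = t.2.1 ∧
      mN (TrAAux.sh n) ![A, B, C] (f t) 2 = t.2.2 := by
    intro t ht
    obtain ⟨⟨h1, h2, h3⟩, -⟩ := hrep t ht
    rw [hf, TrAAux.mN0, TrAAux.mN1, TrAAux.mN2]
    exact ⟨h1.symm, h2.symm, h3.symm⟩
  have hinj : Set.InjOn f (T : Set (ℕ × ℕ × ℕ)) := by
    intro t ht t' ht' h
    obtain ⟨h1, h2, h3⟩ := hm t ht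
    obtain ⟨h1', h2', h3'⟩ := hm t' ht'
    rw [h] at h1 h2 h3
    exact Prod.ext (h1.symm.trans h1') (Prod.ext (h2.symm.trans h2') (h3.symm.trans h3'))
  have hYY : Y0 ≤ Y ^ (K + 1) := by
    refine hY.trans ?_
    calc Y = Y ^ 1 := (pow_one Y).symm
      _ ≤ Y ^ (K + 1) := Nat.pow_le_pow_right (by omega) (by omega)
  have hcard := hpts (Y ^ (K + 1)) hYY ![A, B, C] (T.image f) ?_ ?_
  · rw [Finset.card_image_of_injOn hinj] at hcard
    refine hcard.trans (le_of_eq ?_)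
    push_cast
    rw [← Real.rpow_natCast, ← Real.rpow_mul (Nat.cast_nonneg Y)]
    congr 1
    push_cast
    field_simp
  · intro z hz
    obtain ⟨t, ht, rfl⟩ := Finset.mem_image.1 hz
    obtain ⟨h1, h2, h3⟩ := hm t ht
    obtain ⟨-, hx, hy, hw⟩ := hrep t ht
    obtain ⟨⟨g1, g2, g3, g4, g5, g6, g7⟩, -, -, -, hM, hexp⟩ := hT t ht
    rw [h1, h2, h3]
    refine ⟨?_, ?_, g7, g4, ?_⟩
    · rw [hf]
      intro i
      refine Fin.addCases (fun j => ?_) (fun j => ?_) i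
      · rw [Fin.append_left]
        exact TransAAux.pt_all (P := fun a => 1 ≤ a ∧ a ≤ Y ^ (K + 1)) (fun i => (hx i).1)
          (fun i => (hy i).1) (fun i => (hw i).1) j
      · rw [Fin.append_right]
        exact TransAAux.pt_all (P := fun a => 1 ≤ a ∧ a ≤ Y ^ (K + 1)) (fun i => (hx i).2)
          (fun i => (hy i).2) (fun i => (hw i).2) j
    · intro r
      fin_cases r
      · rw [show ((fun i => i) (⟨0, by omega⟩ : Fin 3)) = 0 from rfl, h1]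
        exact g1
      · rw [show ((fun i => i) (⟨1, by omega⟩ : Fin 3)) = 1 from rfl, h2]
        exact g2
      · rw [show ((fun i => i) (⟨2, by omega⟩ : Fin 3)) = 2 from rfl, h3]
        omega
    · rw [← pow_mul, mul_comm]
      exact hM
  · intro z hz z' hz' h h'
    obtain ⟨t, ht, rfl⟩ := Finset.mem_image.1 hz
    obtain ⟨t', ht', rfl⟩ := Finset.mem_image.1 hz'
    obtain ⟨h1, h2, h3⟩ := hm t ht
    obtain ⟨h1', h2', h3'⟩ := hm t' ht'
    obtain ⟨⟨g1, g2, g3, g4, g5, g6, g7⟩, _⟩ := hT t ht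
    obtain ⟨⟨g1', g2', g3', g4', g5', g6', g7'⟩, _⟩ := hT t' ht'
    rw [h1, h1'] at h
    rw [h3, h3'] at h'
    have e2 : t.2.1 = t'.2.1 := by omega
    have e : t = t' := Prod.ext h (Prod.ext e2 h')
    rw [e]

end Pool.Agent.Lib.FewY
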