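import Pool.Agent.Lib.FewY.TrA
import Pool.Agent.Lib.FewX.TransB
import Pool.Agent.Lib.Pabc10.Final

/-!
# FewY.TrB: no upper bound for the members  (1.5 h)

`height`: `Pabc10.ht_le_cube` for the pair `(a, b)` or `(b, a)` (`Pabc2.IsT` wants the smaller member first): `Pabc2.rd (a, b)` = the product of the primes dividing `a b (a + b)` = `rad (a b c)`, `Pabc2.ht = log (a + b)`. (`∀ᶠ n` gives `R0`; take `n = R`.)
`few_powers3`: if `rad (A B C) ≤ Y^K`: `rad (a b c) ≤ rad (A B C) * Y^(3n) ≤ Y^(K + 3n)` (the primes dividing `a = A u` divide `A` or one of the `n` numbers `x i ≤ Y` of `u`: `rad (m m') ≤ rad m * rad m'`, `rad (x^k) ≤ x`, for positive integers; `A, B, C > 0` if there is a triple; `T = ∅` otherwise),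
so `log c ≤ (Y^(K + 3 n))^3 = Y^(3 (K + 3n))` by `height` with `R = Y^(K + 3n) ≥ Y` (if `K + 3 n = 0` use `R = Y^(K+3n+1)`; simply use the exponent `K + 3 n + 1` throughout): `few_powers2` with `K' = 3 (K + 3 n + 1)`.
-/

open Filter Pool.Agent.Lib.FewX

namespace Pool.Agent.Lib.FewY

namespace TrBAux

theorem rad_mul_le {u w : ℕ} (hu : 0 < u) (hw : 0 < w) : rad (u * w) ≤ rad u * rad w := by
  classical
  unfold rad
  rw [Nat.primeFactors_mul hu.ne' hw.ne', ← Finset.prod_union_inter]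
  apply Nat.le_mul_of_pos_right
  exact Finset.prod_pos fun p hp =>
    (Nat.prime_of_mem_primeFactors (Finset.mem_inter.1 hp).1).pos

theorem rad_pow_le {x k Y : ℕ} (hx : 1 ≤ x) (hY : x ≤ Y) : rad (x ^ k) ≤ Y := by
  unfold rad
  by_cases hk : k = 0
  · subst hk
    simp only [pow_zero, Nat.primeFactors_one, Finset.prod_empty]
    omega
  · rw [Nat.primeFactors_pow _ hk]
    exact (Nat.le_of_dvd hx (Nat.prod_primeFactors_dvd x)).trans hY

theorem rad_prod_le {Y : ℕ} {ι : Type*} (s : Finset ι) (x k : ι → ℕ)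
    (hx : ∀ i, 1 ≤ x i ∧ x i ≤ Y) : rad (∏ i ∈ s, x i ^ k i) ≤ Y ^ s.card := by
  classical
  induction s using Finset.induction_on with
  | empty => simp [rad]
  | insert a s ha ih =>
    rw [Finset.prod_insert ha, Finset.card_insert_of_notMem ha, pow_succ, mul_comm (Y ^ _)]
    refine (rad_mul_le (pow_pos (hx a).1 _)
      (Finset.prod_pos fun i _ => pow_pos (hx i).1 _)).trans ?_
    exact Nat.mul_le_mul (rad_pow_le (hx a).1 (hx a).2) ih

theorem rad_powers {n Y m : ℕ} (h : Powers n Y m) : 0 < m ∧ rad m ≤ Y ^ n := by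
  obtain ⟨x, k, hx, rfl⟩ := h
  refine ⟨Finset.prod_pos fun i _ => pow_pos (hx i).1 _, ?_⟩
  have h1 := rad_prod_le Finset.univ x k hx
  simpa using h1

theorem pair_le {R0 : ℕ}
    (h : ∀ n : ℕ, R0 ≤ n → ∀ t : ℕ × ℕ, Pool.Agent.Lib.Pabc2.IsT t →
      Pool.Agent.Lib.Pabc2.rd t ≤ n → Pool.Agent.Lib.Pabc2.ht t ≤ (n : ℝ) ^ (3 : ℝ))
    {R : ℕ} (hR : R0 ≤ R) {a b c : ℕ} (ha : 0 < a) (hab : a ≤ b) (hc : Nat.Coprime a b)
    (hs : a + b = c) (hr : rad (a * b * c) ≤ R) : (c : ℝ) ≤ Real.exp ((R : ℝ) ^ 3) := by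
  have h1 := h R hR (a, b) ⟨ha, hab, hc⟩ (by
    unfold Pool.Agent.Lib.Pabc2.rd Pool.Agent.Lib.Pabc2.N
    simp only
    rw [hs]
    exact hr)
  unfold Pool.Agent.Lib.Pabc2.ht at h1
  simp only at h1
  have h2 : ((a : ℝ) + (b : ℝ)) = (c : ℝ) := by
    rw [← hs]
    push_cast
    ring
  rw [h2, show (3 : ℝ) = ((3 : ℕ) : ℝ) by norm_num, Real.rpow_natCast] at h1
  have h3 : (0 : ℝ) < c := by
    have : 0 < c := by omega
    exact_mod_cast this
  calc (c : ℝ) = Real.exp (Real.log c) := (Real.exp_log h3).symm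
    _ ≤ Real.exp ((R : ℝ) ^ 3) := Real.exp_le_exp.2 h1

end TrBAux

open TrBAux

theorem height : ∃ R0 : ℕ, ∀ R : ℕ, R0 ≤ R → ∀ a b c : ℕ, AbcTriple a b c →
    rad (a * b * c) ≤ R → (c : ℝ) ≤ Real.exp ((R : ℝ) ^ 3) := by
  obtain ⟨R0, h⟩ := Filter.eventually_atTop.1 Pool.Agent.Lib.Pabc10.ht_le_cube
  refine ⟨R0, fun R hR a b c ht hr => ?_⟩
  obtain ⟨ha, hb, hc, hab, hac, hbc, hs⟩ := ht
  rcases le_total a b with hle | hle
  · exact pair_le h hR ha hle hab hs hr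
  · exact pair_le h hR hb hle hab.symm (by omega) (by rw [mul_comm b a]; exact hr)

theorem few_powers3 (n K : ℕ) (ε : ℝ) (hε : 0 < ε) : ∃ (M : ℕ) (Y0 : ℕ), 2 ≤ Y0 ∧
    ∀ Y : ℕ, Y0 ≤ Y → ∀ (A B C : ℕ), rad (A * B * C) ≤ Y ^ K → ∀ (T : Finset (ℕ × ℕ × ℕ)),
      (∀ t ∈ T, AbcTriple t.1 t.2.1 t.2.2 ∧ (∃ a', Powers n Y a' ∧ t.1 = A * a') ∧
        (∃ b', Powers n Y b' ∧ t.2.1 = B * b') ∧ (∃ c', Powers n Y c' ∧ t.2.2 = C * c') ∧
        Y ^ M ≤ t.2.2) →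
      (T.card : ℝ) ≤ (Y : ℝ) ^ ε := by
  obtain ⟨R0, hR0⟩ := height
  obtain ⟨M, Y0, hY0, H⟩ := few_powers2 n (3 * (K + 3 * n + 1)) ε hε
  refine ⟨M, max Y0 R0, hY0.trans (le_max_left _ _), fun Y hY A B C hABC T hT => ?_⟩
  have hYY0 : Y0 ≤ Y := (le_max_left _ _).trans hY
  have hYR0 : R0 ≤ Y := (le_max_right _ _).trans hY
  have hY1 : 1 ≤ Y := by omega
  refine H Y hYY0 A B C T fun t ht => ?_
  obtain ⟨hA, ⟨a', ha', hea⟩, ⟨b', hb', heb⟩, ⟨c', hc', hec⟩, hM⟩ := hT t ht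
  refine ⟨hA, ⟨a', ha', hea⟩, ⟨b', hb', heb⟩, ⟨c', hc', hec⟩, hM, ?_⟩
  obtain ⟨pa, ra⟩ := rad_powers ha'
  obtain ⟨pb, rb⟩ := rad_powers hb'
  obtain ⟨pc, rc⟩ := rad_powers hc'
  have hApos : 0 < A := by
    have h1 := hA.1
    rw [hea] at h1
    exact Nat.pos_of_mul_pos_right h1
  have hBpos : 0 < B := by
    have h1 := hA.2.1
    rw [heb] at h1
    exact Nat.pos_of_mul_pos_right h1
  have hCpos : 0 < C := by
    have h1 := hA.2.2.1
    rw [hec] at h1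
    exact Nat.pos_of_mul_pos_right h1
  have e1 : t.1 * t.2.1 * t.2.2 = (A * B * C) * (a' * b' * c') := by
    rw [hea, heb, hec]
    ring
  have hr : rad (t.1 * t.2.1 * t.2.2) ≤ Y ^ (K + 3 * n + 1) := by
    rw [e1]
    calc rad ((A * B * C) * (a' * b' * c')) ≤ rad (A * B * C) * rad (a' * b' * c') :=
        rad_mul_le (by positivity) (by positivity)
      _ ≤ rad (A * B * C) * (rad (a' * b') * rad c') :=
        Nat.mul_le_mul_left _ (rad_mul_le (by positivity) (by positivity))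
      _ ≤ rad (A * B * C) * ((rad a' * rad b') * rad c') :=
        Nat.mul_le_mul_left _ (Nat.mul_le_mul_right _ (rad_mul_le (by positivity) (by positivity)))
      _ ≤ Y ^ K * ((Y ^ n * Y ^ n) * Y ^ n) :=
        Nat.mul_le_mul hABC (Nat.mul_le_mul (Nat.mul_le_mul ra rb) rc)
      _ = Y ^ (K + 3 * n) := by
        rw [← pow_add, ← pow_add, ← pow_add]
        congr 1
        ring
      _ ≤ Y ^ (K + 3 * n + 1) := Nat.pow_le_pow_right hY1 (by omega)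
  have hR : R0 ≤ Y ^ (K + 3 * n + 1) :=
    hYR0.trans (Nat.le_self_pow (by omega) Y)
  have h2 := hR0 (Y ^ (K + 3 * n + 1)) hR _ _ _ hA hr
  refine h2.trans (le_of_eq ?_)
  congr 1
  push_cast
  rw [← pow_mul]
  congr 1
  ring

end Pool.Agent.Lib.FewY
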