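import Pool.Agent.Lib.FewY.TrB
import Pool.Agent.Lib.FermX.Main

/-!
# FewY.TrD: all solutions of generalised Fermat equations with large exponents  (1.3 h)

`GFM A B C M Y t` (FermX/Defs): `t = (A x^p, B y^q, C z^r)` an abc triple with `x, y, z ≤ Y`, `p, q, r ≥ M`. Copy the proof of `FermX.gfm_count` (file FermX/Main.lean): the triples with `c ≥ Y^M1` by `few_powers3 1 K (ε/2)` (`Powers 1 Y (x^p)`, instead of `gf_count`); the triples with `c < Y^M1`: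
`MainAux.member` for the first two members, as there (nothing else is used about `A, B, C` than `0 < A, B, C`).
-/

open Filter Pool.Agent.Lib.FewX Pool.Agent.Lib.FermX

namespace Pool.Agent.Lib.FewY

namespace TrDAux

theorem pow_powers {Y x p : ℕ} (h1 : 1 ≤ x) (h2 : x ≤ Y) : Powers 1 Y (x ^ p) := by
  refine ⟨![x], ![p], ?_, ?_⟩
  · intro i
    fin_cases i
    exact ⟨h1, h2⟩
  · simp

end TrDAux

theorem gfm_count2 (K : ℕ) (ε : ℝ) (hε : 0 < ε) : ∃ M Y0 : ℕ, 2 ≤ Y0 ∧ ∀ Y : ℕ, Y0 ≤ Y →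
    ∀ A B C : ℕ, rad (A * B * C) ≤ Y ^ K → ∀ T : Finset (ℕ × ℕ × ℕ),
    (∀ t ∈ T, GFM A B C M Y t) → (T.card : ℝ) ≤ (Y : ℝ) ^ ε := by
  classical
  obtain ⟨M1, Y1, hY1, hgf⟩ := few_powers3 1 K (ε / 2) (by positivity)
  obtain ⟨M, hM⟩ : ∃ M : ℕ, M = ⌈8 * (M1 : ℝ) / ε⌉₊ + 1 := ⟨_, rfl⟩
  have hM0 : 0 < M := by omega
  have hMr : 8 * (M1 : ℝ) / ε ≤ M := by
    have h1 := Nat.le_ceil (8 * (M1 : ℝ) / ε)
    have h2 : ((⌈8 * (M1 : ℝ) / ε⌉₊ : ℕ) : ℝ) ≤ M := by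
      have : ⌈8 * (M1 : ℝ) / ε⌉₊ ≤ M := by omega
      exact_mod_cast this
    linarith
  have hM0r : (0 : ℝ) < M := by exact_mod_cast hM0
  have hexp : (M1 : ℝ) / M ≤ ε / 8 := by
    rw [div_le_iff₀ hM0r]
    rw [div_le_iff₀ hε] at hMr
    linarith
  obtain ⟨Y4, hY4⟩ := (Pool.Agent.Lib.Pabc9.ev_poly_log ((2 * M1 + 2) ^ 2 : ℝ) 2 (ε / 8)
    (by positivity)).exists_forall_of_atTop
  refine ⟨M, max Y1 (max Y4 ⌈(2 : ℝ) ^ (2 / ε)⌉₊), hY1.trans (le_max_left _ _), ?_⟩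
  intro Y hY A B C hrad T hT
  have g1 : Y1 ≤ Y := (le_max_left _ _).trans hY
  have g2 : Y4 ≤ Y := ((le_max_left _ _).trans (le_max_right _ _)).trans hY
  have g4 : ⌈(2 : ℝ) ^ (2 / ε)⌉₊ ≤ Y := ((le_max_right _ _).trans (le_max_right _ _)).trans hY
  have gY : 2 ≤ Y := hY1.trans g1
  have gY' : 1 ≤ Y := by omega
  have gYr : (1 : ℝ) ≤ Y := by exact_mod_cast gY'
  have gY0 : (0 : ℝ) < Y := by linarith
  -- the large triples
  have hle1 : ((T.filter fun t => Y ^ M1 ≤ t.2.2).card : ℝ) ≤ (Y : ℝ) ^ (ε / 2) := by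
    refine hgf Y g1 A B C hrad _ ?_
    intro t ht
    obtain ⟨htT, hc⟩ := Finset.mem_filter.1 ht
    obtain ⟨habc, x, y, z, p, q, r, hx1, hxY, hy1, hyY, hz1, hzY, -, -, -, ha, hb, hc'⟩ := hT t htT
    exact ⟨habc, ⟨x ^ p, TrDAux.pow_powers hx1 hxY, ha⟩,
      ⟨y ^ q, TrDAux.pow_powers hy1 hyY, hb⟩, ⟨z ^ r, TrDAux.pow_powers hz1 hzY, hc'⟩, hc⟩
  -- the small triples
  obtain ⟨X1, hX1⟩ : ∃ X1 : ℕ, X1 = ⌊(Y : ℝ) ^ ((M1 : ℝ) / M)⌋₊ := ⟨_, rfl⟩
  obtain ⟨L, hL⟩ : ∃ L : ℕ, L = Nat.log 2 (Y ^ M1) := ⟨_, rfl⟩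
  have hX1a : (Y : ℝ) ^ ((M1 : ℝ) / M) < X1 + 1 := by
    rw [hX1]
    exact Nat.lt_floor_add_one _
  have hX1b : (X1 : ℝ) ≤ (Y : ℝ) ^ (ε / 8) := by
    rw [hX1]
    exact (Nat.floor_le (by positivity)).trans (Real.rpow_le_rpow_of_exponent_le gYr hexp)
  have hX1c : 1 ≤ X1 := by
    rw [hX1]
    exact Nat.le_floor (by simpa using Real.one_le_rpow gYr (by positivity : (0 : ℝ) ≤ M1 / M))
  have hLa : Y ^ M1 < 2 ^ (L + 1) := by
    rw [hL]
    exact Nat.lt_pow_succ_log_self (by norm_num) _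
  have hLb : (L : ℝ) + 1 ≤ (2 * M1 + 2) * (1 + Real.log Y) := by
    have h1 : 2 ^ L ≤ Y ^ M1 := by
      rw [hL]
      exact Nat.pow_log_le_self 2 (pow_pos gY' _).ne'
    have h2 : (2 : ℝ) ^ L ≤ (Y : ℝ) ^ M1 := by exact_mod_cast h1
    have h3 := Real.log_le_log (by positivity) h2
    rw [Real.log_pow, Real.log_pow] at h3
    have h4 := Real.log_two_gt_d9
    have h5 : 0 ≤ Real.log Y := Real.log_nonneg gYr
    have h6 : (0 : ℝ) ≤ L := Nat.cast_nonneg _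
    have h7 : (0 : ℝ) ≤ M1 := Nat.cast_nonneg _
    have h8 : (L : ℝ) ≤ 2 * (M1 * Real.log Y) := by nlinarith
    nlinarith [mul_nonneg h7 h5]
  let FF : ℕ → Finset ℕ := fun D =>
    (Finset.Icc 1 X1 ×ˢ Finset.range (L + 1)).image fun u => D * u.1 ^ u.2
  have hFF : ∀ D, (FF D).card ≤ X1 * (L + 1) := by
    intro D
    refine Finset.card_image_le.trans ?_
    rw [Finset.card_product, Nat.card_Icc, Finset.card_range]
    simp
  have hle2 : ((T.filter fun t => ¬ Y ^ M1 ≤ t.2.2).card : ℝ) ≤ (Y : ℝ) ^ (ε / 2) := by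
    have h1 : (T.filter fun t => ¬ Y ^ M1 ≤ t.2.2).card ≤ (FF A ×ˢ FF B).card := by
      refine Finset.card_le_card_of_injOn (fun t => (t.1, t.2.1)) ?_ ?_
      · intro t ht
        obtain ⟨htT, hc⟩ := Finset.mem_filter.1 (Finset.mem_coe.1 ht)
        obtain ⟨habc, x, y, z, p, q, r, hx1, hxY, hy1, hyY, hz1, hzY, hp, hq, hr, ha, hb, hc'⟩ :=
          hT t htT
        obtain ⟨h1, h2, h3, -, -, -, h7⟩ := habc
        have hA : 0 < A := by
          rcases Nat.eq_zero_or_pos A with h | h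
          · rw [h, zero_mul] at ha
            omega
          · exact h
        have hB : 0 < B := by
          rcases Nat.eq_zero_or_pos B with h | h
          · rw [h, zero_mul] at hb
            omega
          · exact h
        rw [Finset.mem_coe, Finset.mem_product]
        refine ⟨?_, ?_⟩
        · show t.1 ∈ FF A
          rw [ha]
          exact MainAux.member hA gY hM0 hX1a hX1c hLa hx1 hp (by rw [← ha]; omega)
        · show t.2.1 ∈ FF B
          rw [hb]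
          exact MainAux.member hB gY hM0 hX1a hX1c hLa hy1 hq (by rw [← hb]; omega)
      · intro t ht t' ht' h
        obtain ⟨htT, -⟩ := Finset.mem_filter.1 (Finset.mem_coe.1 ht)
        obtain ⟨htT', -⟩ := Finset.mem_filter.1 (Finset.mem_coe.1 ht')
        have e1 := (hT t htT).1.2.2.2.2.2.2
        have e2 := (hT t' htT').1.2.2.2.2.2.2
        simp only [Prod.mk.injEq] at h
        exact Prod.ext h.1 (Prod.ext h.2 (by omega))
    have h2 : (T.filter fun t => ¬ Y ^ M1 ≤ t.2.2).card ≤ (X1 * (L + 1)) * (X1 * (L + 1)) := by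
      refine h1.trans ?_
      rw [Finset.card_product]
      exact Nat.mul_le_mul (hFF A) (hFF B)
    have h3 : ((T.filter fun t => ¬ Y ^ M1 ≤ t.2.2).card : ℝ) ≤
        ((X1 : ℝ) * (L + 1)) * (X1 * (L + 1)) := by exact_mod_cast h2
    refine h3.trans ?_
    have h4 := hY4 Y g2
    have h5 : (0 : ℝ) ≤ Real.log Y := Real.log_nonneg gYr
    have h6 : ((L : ℝ) + 1) ^ 2 ≤ (Y : ℝ) ^ (ε / 8) := by
      refine le_trans ?_ h4
      rw [← mul_pow]
      exact pow_le_pow_left₀ (by positivity) hLb 2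
    calc ((X1 : ℝ) * (L + 1)) * (X1 * (L + 1)) = (X1 : ℝ) * X1 * ((L : ℝ) + 1) ^ 2 := by ring
      _ ≤ (Y : ℝ) ^ (ε / 8) * (Y : ℝ) ^ (ε / 8) * (Y : ℝ) ^ (ε / 8) := by
          refine mul_le_mul (mul_le_mul hX1b hX1b (by positivity) (by positivity)) h6
            (by positivity) (by positivity)
      _ = (Y : ℝ) ^ (3 * ε / 8) := by
          rw [← Real.rpow_add gY0, ← Real.rpow_add gY0]
          congr 1
          ring
      _ ≤ (Y : ℝ) ^ (ε / 2) := Real.rpow_le_rpow_of_exponent_le gYr (by linarith)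
  have hsum := Finset.card_filter_add_card_filter_not (s := T) (fun t => Y ^ M1 ≤ t.2.2)
  have hsum' : (T.card : ℝ) = ((T.filter fun t => Y ^ M1 ≤ t.2.2).card : ℝ) +
      ((T.filter fun t => ¬ Y ^ M1 ≤ t.2.2).card : ℝ) := by
    exact_mod_cast hsum.symm
  have h2 := MainAux.two_mul_half hε gY' g4
  rw [hsum']
  linarith

end Pool.Agent.Lib.FewY
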