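import Pool.Agent.Lib.FewY.TrC

/-!
# FewY.TrE: triples whose exponents lie in a generalised progression, no upper bound

As `TrC`, for the larger class `GapExp n K (a b c)`: all exponents in the factorisation have the form `s + r_1 k_1 + .. + r_n k_n`
with `s, r_i ≤ K`. A member is the product of `∏ p ^ s_p` and the powers `(∏ p ^ r_{p,i}) ^ k_i`: `Powers (n + 1) (V ^ (K + 1))`.
-/

open Filter Pool.Agent.Lib.FewX Pool.Agent.Lib.FewX.TransBAux

namespace Pool.Agent.Lib.FewY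

/-- all exponents in the factorisation of `m` have the form `s + r_1 k_1 + .. + r_n k_n` with `s, r_i ≤ K` -/
def GapExp (n K m : ℕ) : Prop :=
  ∃ k : Fin n → ℕ, ∀ p ∈ m.primeFactors, ∃ (s : ℕ) (r : Fin n → ℕ), s ≤ K ∧ (∀ i, r i ≤ K) ∧
    m.factorization p = s + ∑ i, r i * k i

theorem prod_small {K V m : ℕ} (hr : rad m ≤ V) (f : ℕ → ℕ) (hf : ∀ p, f p ≤ K) :
    1 ≤ ∏ p ∈ m.primeFactors, p ^ f p ∧ ∏ p ∈ m.primeFactors, p ^ f p ≤ V ^ (K + 1) := by
  have hpos : ∀ p ∈ m.primeFactors, 1 ≤ p := fun p hp =>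
    (Nat.prime_of_mem_primeFactors hp).one_lt.le
  refine ⟨Nat.succ_le_of_lt (Finset.prod_pos fun p hp => Nat.pow_pos (hpos p hp)), ?_⟩
  calc ∏ p ∈ m.primeFactors, p ^ f p ≤ ∏ p ∈ m.primeFactors, p ^ (K + 1) :=
        Finset.prod_le_prod' fun p hp => Nat.pow_le_pow_right (hpos p hp) ((hf p).trans (by omega))
    _ = (rad m) ^ (K + 1) := by
        unfold rad
        rw [Finset.prod_pow]
    _ ≤ V ^ (K + 1) := Nat.pow_le_pow_left hr _

theorem powers_of_gap {n K V m m' : ℕ} (hm : 0 < m) (hm' : 0 < m') (hc : Nat.Coprime m m')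
    (h : GapExp n K (m * m')) (hr : rad m ≤ V) : Powers (n + 1) (V ^ (K + 1)) m := by
  classical
  obtain ⟨k, hk⟩ := h
  have hk' : ∀ p : ℕ, ∃ (s : ℕ) (r : Fin n → ℕ), s ≤ K ∧ (∀ i, r i ≤ K) ∧
      (p ∈ m.primeFactors → m.factorization p = s + ∑ i, r i * k i) := by
    intro p
    by_cases hp : p ∈ m.primeFactors
    · obtain ⟨s, r, h1, h2, h3⟩ := hk p (by
        rw [Nat.primeFactors_mul hm.ne' hm'.ne']
        exact Finset.mem_union_left _ hp)
      refine ⟨s, r, h1, h2, fun _ => ?_⟩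
      rw [← h3, Nat.factorization_mul hm.ne' hm'.ne', Finsupp.add_apply]
      have hpw : ¬ p ∣ m' := by
        intro h
        have h1 := Nat.dvd_of_mem_primeFactors hp
        have h2 := Nat.dvd_gcd h1 h
        rw [Nat.coprime_iff_gcd_eq_one.1 hc] at h2
        exact (Nat.prime_of_mem_primeFactors hp).one_lt.ne' (Nat.dvd_one.1 h2)
      rw [Nat.factorization_eq_zero_of_not_dvd hpw, add_zero]
    · exact ⟨0, fun _ => 0, Nat.zero_le _, fun _ => Nat.zero_le _, fun h => absurd h hp⟩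
  choose s r hs hr' he using hk'
  refine ⟨Fin.cons (∏ p ∈ m.primeFactors, p ^ s p) fun i => ∏ p ∈ m.primeFactors, p ^ r p i,
    Fin.cons 1 k, ?_, ?_⟩
  · intro i
    refine Fin.cases ?_ (fun i => ?_) i
    · rw [Fin.cons_zero]
      exact prod_small hr s hs
    · rw [Fin.cons_succ]
      exact prod_small hr (fun p => r p i) fun p => hr' p i
  · rw [Fin.prod_univ_succ]
    simp only [Fin.cons_zero, Fin.cons_succ, pow_one]
    have h1 : ∏ p ∈ m.primeFactors, p ^ m.factorization p = m :=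
      Nat.prod_factorization_pow_eq_self hm.ne'
    conv_lhs => rw [← h1]
    have h2 : ∀ i, (∏ p ∈ m.primeFactors, p ^ r p i) ^ k i =
        ∏ p ∈ m.primeFactors, p ^ (r p i * k i) := by
      intro i
      rw [← Finset.prod_pow]
      exact Finset.prod_congr rfl fun p _ => (pow_mul _ _ _).symm
    rw [Finset.prod_congr rfl fun i _ => h2 i, Finset.prod_comm, ← Finset.prod_mul_distrib]
    refine Finset.prod_congr rfl fun p hp => ?_
    rw [he p hp, pow_add, Finset.prod_pow_eq_pow_sum]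

theorem few_gap (n Kg : ℕ) (ε : ℝ) (hε : 0 < ε) : ∃ (M : ℕ) (Y0 : ℕ),
    ∀ Y : ℕ, Y0 ≤ Y → ∀ T : Finset (ℕ × ℕ × ℕ),
      (∀ t ∈ T, AbcTriple t.1 t.2.1 t.2.2 ∧ GapExp n Kg (t.1 * t.2.1 * t.2.2) ∧
        rad (t.1 * t.2.1 * t.2.2) ≤ Y ∧ rad (t.1 * t.2.1 * t.2.2) ^ M ≤ t.2.2) →
      (T.card : ℝ) ≤ (Y : ℝ) ^ ε := by
  classical
  obtain ⟨M, Y0, hY0, H⟩ := few_powers3 (n + 1) 0 (ε / (2 * ((Kg : ℝ) + 1))) (by positivity)
  obtain ⟨R0, hR0⟩ := height
  -- the number of triples with small radical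
  set K : ℕ := ⌊Real.exp (((max R0 Y0 : ℕ) : ℝ) ^ 3)⌋₊ with hK
  set K0 : ℝ := ((K : ℝ) + 1) ^ 3 with hK0
  set C1 : ℝ := 4 / (ε * Real.log 2) + 1 with hC1
  have hlog2 : 0 < Real.log 2 := Real.log_pos one_lt_two
  have hC1pos : 0 < C1 := by positivity
  set C2 : ℝ := K0 + C1 * (2 : ℝ) ^ (ε / 2) with hC2
  have hC2pos : 0 < C2 := by positivity
  have hev : ∀ᶠ Y : ℕ in Filter.atTop, C2 ≤ (Y : ℝ) ^ (ε / 4) :=
    ((tendsto_rpow_atTop (by positivity : 0 < ε / 4)).comp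
      tendsto_natCast_atTop_atTop).eventually_ge_atTop C2
  obtain ⟨Y1, hY1⟩ := Filter.eventually_atTop.1 hev
  refine ⟨2 * ((Kg + 1) * M), max Y1 1, fun Y hY T hT => ?_⟩
  have hYY1 : Y1 ≤ Y := (le_max_left _ _).trans hY
  have hYone : 1 ≤ Y := (le_max_right _ _).trans hY
  have hYR : (1 : ℝ) ≤ (Y : ℝ) := by exact_mod_cast hYone
  set ρ : ℕ × ℕ × ℕ → ℕ := fun t => rad (t.1 * t.2.1 * t.2.2) with hρ
  -- the blocks
  have hcover : T ⊆ T.filter (fun t => ρ t < Y0) ∪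
      (Finset.range (Nat.log 2 Y + 1)).biUnion
        (fun i => T.filter (fun t => Y0 * 2 ^ i ≤ ρ t ∧ ρ t < Y0 * 2 ^ (i + 1))) := by
    intro t ht
    rw [Finset.mem_union, Finset.mem_filter, Finset.mem_biUnion]
    by_cases h0 : ρ t < Y0
    · exact Or.inl ⟨ht, h0⟩
    · right
      have h1 : Y0 ≤ ρ t := Nat.le_of_not_lt h0
      have hq : ρ t / Y0 ≠ 0 := by
        have := Nat.div_pos h1 (by omega)
        omega
      refine ⟨Nat.log 2 (ρ t / Y0), ?_, ?_⟩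
      · rw [Finset.mem_range, Nat.lt_succ_iff]
        apply Nat.log_mono_right
        exact (Nat.div_le_self _ _).trans (hT t ht).2.2.1
      · rw [Finset.mem_filter]
        refine ⟨ht, ?_, ?_⟩
        · have h2 := Nat.pow_log_le_self 2 hq
          calc Y0 * 2 ^ Nat.log 2 (ρ t / Y0) ≤ Y0 * (ρ t / Y0) := Nat.mul_le_mul_left _ h2
            _ ≤ ρ t := Nat.mul_div_le _ _
        · have h2 := Nat.lt_pow_succ_log_self (one_lt_two) (ρ t / Y0)
          rw [Nat.div_lt_iff_lt_mul (by omega)] at h2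
          rw [mul_comm]
          exact h2
  -- small radicals
  have hsmall : ((T.filter (fun t => ρ t < Y0)).card : ℝ) ≤ K0 := by
    have hsub : T.filter (fun t => ρ t < Y0) ⊆
        Finset.range (K + 1) ×ˢ (Finset.range (K + 1) ×ˢ Finset.range (K + 1)) := by
      intro t ht
      rw [Finset.mem_filter] at ht
      obtain ⟨hA, _, _, _⟩ := hT t ht.1
      have h6 : (t.2.2 : ℝ) ≤ Real.exp (((max R0 Y0 : ℕ) : ℝ) ^ 3) :=
        hR0 (max R0 Y0) (le_max_left _ _) t.1 t.2.1 t.2.2 hA (ht.2.le.trans (le_max_right _ _))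
      obtain ⟨ha, hb, hc, _, _, _, habc⟩ := hA
      have h7 : t.2.2 ≤ K := Nat.le_floor h6
      rw [Finset.mem_product, Finset.mem_product, Finset.mem_range, Finset.mem_range,
        Finset.mem_range]
      omega
    have h1 := Finset.card_le_card hsub
    rw [Finset.card_product, Finset.card_product, Finset.card_range] at h1
    have h2 : ((T.filter (fun t => ρ t < Y0)).card : ℝ) ≤
        (((K + 1) * ((K + 1) * (K + 1)) : ℕ) : ℝ) := by exact_mod_cast h1
    refine h2.trans (le_of_eq ?_)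
    rw [hK0]
    push_cast
    ring
  -- one block
  have hblock : ∀ i, ((T.filter (fun t => Y0 * 2 ^ i ≤ ρ t ∧ ρ t < Y0 * 2 ^ (i + 1))).card : ℝ) ≤
      (2 * (Y : ℝ)) ^ (ε / 2) := by
    intro i
    rcases Finset.eq_empty_or_nonempty
      (T.filter (fun t => Y0 * 2 ^ i ≤ ρ t ∧ ρ t < Y0 * 2 ^ (i + 1))) with h0 | ⟨t0, ht0⟩
    · rw [h0, Finset.card_empty, Nat.cast_zero]
      positivity
    · have hV : Y0 * 2 ^ (i + 1) ≤ 2 * Y := by
        have h1 := Finset.mem_filter.1 ht0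
        have h2 := (hT t0 h1.1).2.2.1
        have h3 : Y0 * 2 ^ i ≤ Y := h1.2.1.trans h2
        calc Y0 * 2 ^ (i + 1) = 2 * (Y0 * 2 ^ i) := by ring
          _ ≤ 2 * Y := Nat.mul_le_mul_left 2 h3
      have hV0 : Y0 ≤ Y0 * 2 ^ (i + 1) := Nat.le_mul_of_pos_right _ (by positivity)
      have hVg : Y0 ≤ (Y0 * 2 ^ (i + 1)) ^ (Kg + 1) :=
        hV0.trans (Nat.le_self_pow (by omega) _)
      have h1 := H ((Y0 * 2 ^ (i + 1)) ^ (Kg + 1)) hVg 1 1 1 (by simp [rad])
        (T.filter (fun t => Y0 * 2 ^ i ≤ ρ t ∧ ρ t < Y0 * 2 ^ (i + 1))) (by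
          intro t ht
          obtain ⟨ht1, ht2, ht3⟩ := Finset.mem_filter.1 ht
          obtain ⟨hA, hnum, _, hpow⟩ := hT t ht1
          obtain ⟨ha, hb, hc, hab, hac, hbc, habc⟩ := hA
          have hbcpos := Nat.mul_pos hb hc
          have hacpos := Nat.mul_pos ha hc
          have habpos := Nat.mul_pos ha hb
          have e1 : t.1 * t.2.1 * t.2.2 = t.1 * (t.2.1 * t.2.2) := by ring
          have e2 : t.1 * t.2.1 * t.2.2 = t.2.1 * (t.1 * t.2.2) := by ring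
          have e3 : t.1 * t.2.1 * t.2.2 = t.2.2 * (t.1 * t.2.1) := by ring
          have c1 : Nat.Coprime t.1 (t.2.1 * t.2.2) := Nat.Coprime.mul_right hab hac
          have c2 : Nat.Coprime t.2.1 (t.1 * t.2.2) := Nat.Coprime.mul_right hab.symm hbc
          have c3 : Nat.Coprime t.2.2 (t.1 * t.2.1) := Nat.Coprime.mul_right hac.symm hbc.symm
          have hrV : rad (t.1 * t.2.1 * t.2.2) ≤ Y0 * 2 ^ (i + 1) := ht3.le
          refine ⟨⟨ha, hb, hc, hab, hac, hbc, habc⟩, ⟨t.1, ?_, (one_mul _).symm⟩,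
            ⟨t.2.1, ?_, (one_mul _).symm⟩, ⟨t.2.2, ?_, (one_mul _).symm⟩, ?_⟩
          · apply powers_of_gap ha hbcpos c1
            · rw [← e1]; exact hnum
            · exact (rad_le ha hbcpos).trans (by rw [← e1]; exact hrV)
          · apply powers_of_gap hb hacpos c2
            · rw [← e2]; exact hnum
            · exact (rad_le hb hacpos).trans (by rw [← e2]; exact hrV)
          · apply powers_of_gap hc habpos c3
            · rw [← e3]; exact hnum
            · exact (rad_le hc habpos).trans (by rw [← e3]; exact hrV)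
          · refine le_trans ?_ hpow
            rw [pow_mul, ← pow_mul _ (Kg + 1) M]
            apply Nat.pow_le_pow_left
            have h5 : 2 ≤ rad (t.1 * t.2.1 * t.2.2) := by
              have h6 : Y0 * 1 ≤ Y0 * 2 ^ i := Nat.mul_le_mul_left _ Nat.one_le_two_pow
              have h7 : Y0 * 2 ^ i ≤ rad (t.1 * t.2.1 * t.2.2) := ht2
              omega
            calc Y0 * 2 ^ (i + 1) = 2 * (Y0 * 2 ^ i) := by ring
              _ ≤ 2 * rad (t.1 * t.2.1 * t.2.2) := Nat.mul_le_mul_left 2 ht2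
              _ ≤ rad (t.1 * t.2.1 * t.2.2) * rad (t.1 * t.2.1 * t.2.2) :=
                Nat.mul_le_mul_right _ h5
              _ = rad (t.1 * t.2.1 * t.2.2) ^ 2 := by ring)
      refine h1.trans ?_
      have hKg : (0 : ℝ) < (Kg : ℝ) + 1 := by positivity
      have h9 : (((Y0 * 2 ^ (i + 1)) ^ (Kg + 1) : ℕ) : ℝ) ^ (ε / (2 * ((Kg : ℝ) + 1))) =
          ((Y0 * 2 ^ (i + 1) : ℕ) : ℝ) ^ (ε / 2) := by
        rw [Nat.cast_pow, ← Real.rpow_natCast, ← Real.rpow_mul (Nat.cast_nonneg _)]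
        congr 1
        push_cast
        field_simp
      rw [h9]
      apply Real.rpow_le_rpow (Nat.cast_nonneg _) _ (by positivity)
      exact_mod_cast hV
  -- the total
  have hcard : (T.card : ℝ) ≤ K0 + ((Nat.log 2 Y : ℝ) + 1) * (2 * (Y : ℝ)) ^ (ε / 2) := by
    have h1 := Finset.card_le_card hcover
    have h2 := h1.trans (Finset.card_union_le _ _)
    have h3 : (T.card : ℝ) ≤ ((T.filter (fun t => ρ t < Y0)).card : ℝ) +
        (((Finset.range (Nat.log 2 Y + 1)).biUnion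
        (fun i => T.filter (fun t => Y0 * 2 ^ i ≤ ρ t ∧ ρ t < Y0 * 2 ^ (i + 1)))).card : ℝ) := by
      exact_mod_cast h2
    have h4 : (((Finset.range (Nat.log 2 Y + 1)).biUnion
        (fun i => T.filter (fun t => Y0 * 2 ^ i ≤ ρ t ∧ ρ t < Y0 * 2 ^ (i + 1)))).card : ℝ) ≤
        ((Nat.log 2 Y : ℝ) + 1) * (2 * (Y : ℝ)) ^ (ε / 2) := by
      have h5 : (((Finset.range (Nat.log 2 Y + 1)).biUnion
        (fun i => T.filter (fun t => Y0 * 2 ^ i ≤ ρ t ∧ ρ t < Y0 * 2 ^ (i + 1)))).card : ℝ) ≤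
        ∑ i ∈ Finset.range (Nat.log 2 Y + 1),
          ((T.filter (fun t => Y0 * 2 ^ i ≤ ρ t ∧ ρ t < Y0 * 2 ^ (i + 1))).card : ℝ) := by
        exact_mod_cast Finset.card_biUnion_le
      refine h5.trans ((Finset.sum_le_sum fun i _ => hblock i).trans (le_of_eq ?_))
      rw [Finset.sum_const, Finset.card_range, nsmul_eq_mul]
      push_cast
      ring
    linarith
  have hlog : (Nat.log 2 Y : ℝ) + 1 ≤ C1 * (Y : ℝ) ^ (ε / 4) := by
    have h1 : (Nat.log 2 Y : ℝ) * Real.log 2 ≤ Real.log Y := by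
      rw [← Real.log_pow]
      apply Real.log_le_log (by positivity)
      exact_mod_cast Nat.pow_log_le_self 2 (by omega)
    have h2 : Real.log Y ≤ (Y : ℝ) ^ (ε / 4) / (ε / 4) :=
      Real.log_le_rpow_div (by linarith) (by positivity)
    have h3 : (Nat.log 2 Y : ℝ) ≤ 4 / (ε * Real.log 2) * (Y : ℝ) ^ (ε / 4) := by
      have h4 : (Nat.log 2 Y : ℝ) * Real.log 2 ≤ (Y : ℝ) ^ (ε / 4) / (ε / 4) := h1.trans h2
      have h5 : 4 / (ε * Real.log 2) * (Y : ℝ) ^ (ε / 4) =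
          ((Y : ℝ) ^ (ε / 4) / (ε / 4)) / Real.log 2 := by
        field_simp
      rw [h5, le_div_iff₀ hlog2]
      exact h4
    have h6 : (1 : ℝ) ≤ (Y : ℝ) ^ (ε / 4) := Real.one_le_rpow hYR (by positivity)
    rw [hC1, add_mul, one_mul]
    linarith
  have hmul : (2 * (Y : ℝ)) ^ (ε / 2) = (2 : ℝ) ^ (ε / 2) * (Y : ℝ) ^ (ε / 2) :=
    Real.mul_rpow (by norm_num) (by positivity)
  have hY3 : (1 : ℝ) ≤ (Y : ℝ) ^ (ε / 4 + ε / 2) := Real.one_le_rpow hYR (by positivity)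
  have hpos : (0 : ℝ) < Y := by linarith
  calc (T.card : ℝ) ≤ K0 + ((Nat.log 2 Y : ℝ) + 1) * (2 * (Y : ℝ)) ^ (ε / 2) := hcard
    _ ≤ K0 + (C1 * (Y : ℝ) ^ (ε / 4)) * (2 * (Y : ℝ)) ^ (ε / 2) := by
        have : 0 ≤ (2 * (Y : ℝ)) ^ (ε / 2) := by positivity
        have := mul_le_mul_of_nonneg_right hlog this
        linarith
    _ = K0 + C1 * (2 : ℝ) ^ (ε / 2) * (Y : ℝ) ^ (ε / 4 + ε / 2) := by
        rw [hmul, Real.rpow_add hpos]
        ring
    _ ≤ K0 * (Y : ℝ) ^ (ε / 4 + ε / 2) + C1 * (2 : ℝ) ^ (ε / 2) * (Y : ℝ) ^ (ε / 4 + ε / 2) := by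
        have hK0' : 0 ≤ K0 := by positivity
        have := mul_le_mul_of_nonneg_left hY3 hK0'
        linarith
    _ = C2 * (Y : ℝ) ^ (ε / 4 + ε / 2) := by rw [hC2]; ring
    _ ≤ (Y : ℝ) ^ (ε / 4) * (Y : ℝ) ^ (ε / 4 + ε / 2) :=
        mul_le_mul_of_nonneg_right (hY1 Y hYY1) (by positivity)
    _ = (Y : ℝ) ^ ε := by
        rw [← Real.rpow_add hpos]
        congr 1
        ring

end Pool.Agent.Lib.FewY
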