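import Pool.Agent.Lib.FewY.SerDefs

/-!
# FewY.UPath: the formal path with indeterminate direction  (2 h)

As `FewX.PathAux.exists_path`, but over the base ring `A = MvPolynomial {x // x ∈ B} ℤ_[ℓ]`: `w j = C (z0 j) + C (τ_j) X`, `hensel_ps` over `A` (it works over every commutative ring; the constant coefficient of the
derivative is the integer `∂_i P_i(z0)`, which divides `Jac (z0)`, so it is a unit of `ℤ_[ℓ]`, so of `A`). Then map to `SS ℓ B` by `MvPolynomial.map (algebraMap ℤ_[ℓ] ℚ_[ℓ])` (coefficients of norm `≤ 1`: `int`; `hom_ez`: `eqn`).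
`ode`: a derivation `d` of a commutative ring satisfies `d (ez φ Q) = ∑ i, ez φ (pderiv i Q) * d (φ i)` (prove it here, `chain_ez`, by `MvPolynomial.induction_on`); then exactly as `keyPS` in `FewX.OdePS` (there over a field, nothing else is used):
differentiate `ez φ (P i) = 0` (`hP`: only the variables of `insert i B`).
`hom`: by strong induction on `k`: the coefficients of index `≤ k` of all the `φ i` are homogeneous of degree the index. Coefficient of `T^k` in the `ode`: on the right `∑ b, τ_b (coeff k of vf(φ))`: homogeneous of degree `k + 1` (the coefficient of index `k`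
of `ez φ Q` is homogeneous of degree `k` if the coefficients of index `≤ k` of the `φ i` are: induction on `Q`); on the left `C (Jac z0) (k+1) coeff (k+1) (φ i) + ∑ (coeff a (Jac φ)) (b+1) coeff (b+1) (φ i)` over `a + b = k`, `a ≥ 1`.
So `C (Jac z0) (k+1) coeff (k+1) (φ i)` is homogeneous of degree `k + 1`, and `Jac z0 ≠ 0`, `k + 1 ≠ 0` in `ℚ_[ℓ]`.
-/

open MvPolynomial Pool.Agent.Lib.FewX Pool.Agent.Lib.FewX.PathAux

namespace Pool.Agent.Lib.FewY

/-- the chain rule -/
theorem chain_ez {N : ℕ} {R A : Type*} [CommRing R] [CommRing A] [Algebra R A]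
    (d : Derivation R A A) (w : Fin N → A) (Q : MvPolynomial (Fin N) ℤ) :
    d (ez w Q) = ∑ i, ez w (pderiv i Q) * d (w i) := by
  induction Q using MvPolynomial.induction_on with
  | C a =>
    rw [ez_C, Derivation.map_intCast]
    simp
  | add p q hp hq =>
    simp only [map_add, hp, hq, add_mul, Finset.sum_add_distrib]
  | mul_X p i hp =>
    have h1 : ∀ j, ez w (pderiv j (p * X i)) * d (w j) =
        w i * (ez w (pderiv j p) * d (w j)) +
        (if j = i then ez w p * d (w j) else 0) := by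
      intro j
      rw [Derivation.leibniz, map_add, smul_eq_mul, smul_eq_mul, map_mul, map_mul, ez_X]
      by_cases hj : j = i
      · subst hj
        rw [pderiv_X_self, map_one, if_pos rfl]
        ring
      · rw [pderiv_X_of_ne (Ne.symm hj), map_zero, if_neg hj]
        ring
    rw [Finset.sum_congr rfl fun j _ => h1 j, Finset.sum_add_distrib, ← Finset.mul_sum, ← hp,
      Finset.sum_ite_eq' Finset.univ i, if_pos (Finset.mem_univ i), map_mul, ez_X,
      Derivation.leibniz, smul_eq_mul, smul_eq_mul]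
    ring

namespace UPathAux

/-- the equation of the path: only the derivatives in the directions of `B` are used -/
theorem key {N : ℕ} {A : Type*} [CommRing A] {B : Finset (Fin N)}
    {P : Fin N → MvPolynomial (Fin N) ℤ} (hP : ∀ i, i ∉ B → (P i).vars ⊆ insert i B)
    (d : Derivation A (PowerSeries A) (PowerSeries A)) (φ : Fin N → PowerSeries A)
    (τ : Fin N → PowerSeries A) (hτ : ∀ b ∈ B, d (φ b) = τ b)
    (hφ : ∀ i, i ∉ B → ez φ (P i) = 0) (i : Fin N) :
    ez φ (Jac B P) * d (φ i) = ∑ b ∈ B, τ b * ez φ (vf B P b i) := by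
  classical
  by_cases hi : i ∈ B
  · rw [Finset.sum_eq_single i]
    · simp only [vf, if_pos hi, if_true]
      rw [hτ i hi, mul_comm]
    · intro b _ hb
      simp only [vf, if_pos hi, if_neg (Ne.symm hb), map_zero, mul_zero]
    · intro h
      exact absurd hi h
  · have h1 : Jac B P = pderiv i (P i) * ∏ i' ∈ Bᶜ.erase i, pderiv i' (P i') :=
      (Finset.mul_prod_erase _ _ (Finset.mem_compl.2 hi)).symm
    have h2 : ∑ j, ez φ (pderiv j (P i)) * d (φ j) =
        ez φ (pderiv i (P i)) * d (φ i) + ∑ b ∈ B, ez φ (pderiv b (P i)) * τ b := by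
      rw [← Finset.sum_subset (Finset.subset_univ (insert i B)), Finset.sum_insert hi]
      · congr 1
        exact Finset.sum_congr rfl fun b hb => by rw [hτ b hb]
      · intro j _ hj
        have h3 : pderiv j (P i) = 0 :=
          pderiv_eq_zero_of_notMem_vars fun h => hj (hP i hi h)
        rw [h3, map_zero, zero_mul]
    have h3 := chain_ez d φ (P i)
    rw [hφ i hi, map_zero, h2] at h3
    have h4 : ∑ b ∈ B, τ b * ez φ (vf B P b i) =
        -(ez φ (∏ i' ∈ Bᶜ.erase i, pderiv i' (P i')) *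
          ∑ b ∈ B, ez φ (pderiv b (P i)) * τ b) := by
      rw [Finset.mul_sum, ← Finset.sum_neg_distrib]
      refine Finset.sum_congr rfl fun b _ => ?_
      simp only [vf, if_neg hi, map_mul, map_neg]
      ring
    rw [h4, h1, map_mul]
    linear_combination (-(ez φ (∏ i' ∈ Bᶜ.erase i, pderiv i' (P i')))) * h3

section hom

variable {σ : Type} {p : ℕ} [Fact p.Prime]

/-- the coefficients up to index `k` are homogeneous -/
def HmU (k : ℕ) (F : PowerSeries (MvPolynomial σ ℚ_[p])) : Prop :=
  ∀ n, n ≤ k → (PowerSeries.coeff n F).IsHomogeneous n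

theorem HmU.add {k : ℕ} {F G : PowerSeries (MvPolynomial σ ℚ_[p])} (hF : HmU k F)
    (hG : HmU k G) : HmU k (F + G) := fun n hn => by
  rw [map_add]
  exact (hF n hn).add (hG n hn)

theorem HmU.mul {k : ℕ} {F G : PowerSeries (MvPolynomial σ ℚ_[p])} (hF : HmU k F)
    (hG : HmU k G) : HmU k (F * G) := fun n hn => by
  rw [PowerSeries.coeff_mul]
  refine MvPolynomial.IsHomogeneous.sum _ _ _ fun x hx => ?_
  have h := Finset.HasAntidiagonal.mem_antidiagonal.1 hx
  rw [← h]
  exact (hF _ (by omega)).mul (hG _ (by omega))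

theorem HmU.ez {N : ℕ} {k : ℕ} {w : Fin N → PowerSeries (MvPolynomial σ ℚ_[p])}
    (hw : ∀ i, HmU k (w i)) (Q : MvPolynomial (Fin N) ℤ) : HmU k (ez w Q) := by
  induction Q using MvPolynomial.induction_on with
  | C a =>
    rw [ez_C]
    exact fun n _ => Hm.int a n
  | add P Q hP hQ =>
    rw [map_add]
    exact hP.add hQ
  | mul_X P i hP =>
    rw [map_mul, ez_X]
    exact hP.mul (hw i)

theorem homog_of_C_mul {u : ℚ_[p]} (hu : u ≠ 0) {f : MvPolynomial σ ℚ_[p]} {n : ℕ}
    (hf : (C u * f).IsHomogeneous n) : f.IsHomogeneous n := by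
  have h : f = C u⁻¹ * (C u * f) := by
    rw [← mul_assoc, ← C_mul, inv_mul_cancel₀ hu, C_1, one_mul]
  rw [h]
  have h2 := (isHomogeneous_C σ (u⁻¹ : ℚ_[p])).mul hf
  rwa [zero_add] at h2

/-- homogeneity of the solution of the differential equation -/
theorem hm_of_ode {N : ℕ} {B : Finset (Fin N)} (φ : Fin N → PowerSeries (MvPolynomial σ ℚ_[p]))
    (J : MvPolynomial (Fin N) ℤ) (v : Fin N → Fin N → MvPolynomial (Fin N) ℤ)
    (t : Fin N → MvPolynomial σ ℚ_[p]) (ht : ∀ b ∈ B, (t b).IsHomogeneous 1)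
    (z0 : Fin N → ℤ)
    (hc : ∀ i, PowerSeries.constantCoeff (φ i) = ((z0 i : ℤ) : MvPolynomial σ ℚ_[p]))
    (hJ : eval z0 J ≠ 0)
    (h : ∀ i, ez φ J * PowerSeries.derivative (MvPolynomial σ ℚ_[p]) (φ i) =
      ∑ b ∈ B, PowerSeries.C (t b) * ez φ (v b i)) : ∀ i, Hm (φ i) := by
  have hJ0 : PowerSeries.coeff 0 (ez φ J) = C ((eval z0 J : ℤ) : ℚ_[p]) := by
    rw [PowerSeries.coeff_zero_eq_constantCoeff_apply, hom_ez]
    simp only [hc]
    rw [ez_cast, map_intCast]
  have key : ∀ k, ∀ i, HmU k (φ i) := by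
    intro k
    induction k with
    | zero =>
      intro i n hn
      obtain rfl : n = 0 := by omega
      rw [PowerSeries.coeff_zero_eq_constantCoeff_apply, hc,
        ← map_intCast (C (R := ℚ_[p]) (σ := σ))]
      exact isHomogeneous_C _ _
    | succ k ih =>
      intro i n hn
      rcases Nat.lt_or_ge n (k + 1) with h1 | h1
      · exact ih i n (by omega)
      obtain rfl : n = k + 1 := by omega
      have h2 := congrArg (PowerSeries.coeff k) (h i)
      have h3 : (PowerSeries.coeff k (∑ b ∈ B, PowerSeries.C (t b) * ez φ (v b i))).IsHomogeneous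
          (k + 1) := by
        rw [map_sum]
        refine MvPolynomial.IsHomogeneous.sum _ _ _ fun b hb => ?_
        rw [PowerSeries.coeff_C_mul, add_comm k 1]
        exact (ht b hb).mul (HmU.ez ih (v b i) k le_rfl)
      rw [← h2, PowerSeries.coeff_mul] at h3
      have hmem : ((0, k) : ℕ × ℕ) ∈ Finset.HasAntidiagonal.antidiagonal k := by simp
      rw [← Finset.add_sum_erase _ _ hmem] at h3
      have h4 : (∑ x ∈ (Finset.HasAntidiagonal.antidiagonal k).erase (0, k),
          PowerSeries.coeff x.1 (ez φ J) * PowerSeries.coeff x.2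
            (PowerSeries.derivative (MvPolynomial σ ℚ_[p]) (φ i))).IsHomogeneous (k + 1) := by
        refine MvPolynomial.IsHomogeneous.sum _ _ _ fun x hx => ?_
        rw [Finset.mem_erase] at hx
        have h5 : x.1 + x.2 = k := Finset.HasAntidiagonal.mem_antidiagonal.1 hx.2
        have h6 : x.2 < k := by
          rcases Nat.eq_zero_or_pos x.1 with h5 | h5
          · exact absurd (Prod.ext h5 (by simp only; omega)) hx.1
          · omega
        rw [PowerSeries.coeff_derivative]
        have h7 : ((x.2 : MvPolynomial σ ℚ_[p]) + 1) = C ((x.2 : ℚ_[p]) + 1) := by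
          rw [C_add, map_natCast, C_1]
        rw [h7]
        have h8 := (HmU.ez ih J x.1 (by omega)).mul
          ((ih i (x.2 + 1) (by omega)).mul (isHomogeneous_C σ ((x.2 : ℚ_[p]) + 1)))
        have h9 : x.1 + (x.2 + 1 + 0) = k + 1 := by omega
        rwa [h9] at h8
      have h5 := h3.sub h4
      rw [add_sub_cancel_right, hJ0, PowerSeries.coeff_derivative] at h5
      have h7 : ((k : MvPolynomial σ ℚ_[p]) + 1) = C ((k : ℚ_[p]) + 1) := by
        rw [C_add, map_natCast, C_1]
      rw [h7] at h5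
      have h6 : C ((eval z0 J : ℤ) : ℚ_[p]) * (PowerSeries.coeff (k + 1) (φ i) *
          C ((k : ℚ_[p]) + 1)) = C (((eval z0 J : ℤ) : ℚ_[p]) * ((k : ℚ_[p]) + 1)) *
          PowerSeries.coeff (k + 1) (φ i) := by
        rw [C_mul]
        ring
      rw [h6] at h5
      refine homog_of_C_mul (mul_ne_zero ?_ ?_) h5
      · exact_mod_cast hJ
      · exact_mod_cast Nat.succ_ne_zero k
  exact fun i n => key n i n le_rfl

end hom

/-- the formal path over the polynomials -/
theorem exists_pathA {N : ℕ} {B : Finset (Fin N)} {P : Fin N → MvPolynomial (Fin N) ℤ}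
    (hP : ∀ i, i ∉ B → (P i).vars ⊆ insert i B) (z0 : Fin N → ℤ) {A : Type*} [CommRing A]
    (h0 : ∀ i, i ∉ B → eval z0 (P i) = 0)
    (hJ : ∀ i, i ∉ B → IsUnit ((eval z0 (pderiv i (P i)) : ℤ) : A)) (τ : Fin N → A) :
    ∃ φ : Fin N → PowerSeries A,
      (∀ b ∈ B, φ b = PowerSeries.C (z0 b : A) + PowerSeries.C (τ b) * PowerSeries.X) ∧
      (∀ i, i ∉ B → ez φ (P i) = 0) ∧
      ∀ i, PowerSeries.constantCoeff (φ i) = (z0 i : A) := by
  classical
  obtain ⟨w, hw⟩ : ∃ w : Fin N → PowerSeries A, ∀ j, w j =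
    PowerSeries.C (z0 j : A) + PowerSeries.C (τ j) * PowerSeries.X :=
    ⟨_, fun _ => rfl⟩
  have hw0 : ∀ j, PowerSeries.constantCoeff (w j) = (z0 j : A) := by
    intro j
    rw [hw, map_add, map_mul, PowerSeries.constantCoeff_C, PowerSeries.constantCoeff_X, mul_zero,
      add_zero]
  have hup : ∀ i, (fun j => PowerSeries.constantCoeff
      (Function.update w i (PowerSeries.C (z0 i : A)) j)) = fun j => (z0 j : A) := by
    intro i
    funext j
    by_cases hj : j = i
    · subst hj
      rw [Function.update_self, PowerSeries.constantCoeff_C]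
    · rw [Function.update_of_ne hj, hw0]
  have hex : ∀ i, ∃ y : PowerSeries A, i ∉ B →
      (ez (Function.update w i y) (P i) = 0 ∧
        PowerSeries.constantCoeff y = (z0 i : A)) := by
    intro i
    by_cases hi : i ∈ B
    · exact ⟨0, fun h => absurd hi h⟩
    · obtain ⟨y, hy1, hy2⟩ := hensel_ps (pol w i (P i)) (z0 i : A)
        (by rw [pol_eval, hom_ez, hup, ez_cast, h0 i hi, Int.cast_zero])
        (by
          rw [pol_derivative, pol_eval, hom_ez, hup, ez_cast]
          exact hJ i hi)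
      exact ⟨y, fun _ => ⟨by rw [← pol_eval]; exact hy1, hy2⟩⟩
  choose y hy using hex
  refine ⟨fun i => if i ∈ B then w i else y i, ?_, ?_, ?_⟩
  · intro b hb
    simp only [hb, if_true, hw]
  · intro i hi
    rw [← (hy i hi).1]
    refine ez_congr fun j hj => ?_
    rcases Finset.mem_insert.1 (hP i hi hj) with h | h
    · subst h
      simp only [hi, if_false]
      rw [Function.update_self]
    · have hji : j ≠ i := fun h2 => hi (h2 ▸ h)
      simp only [h, if_true]
      rw [Function.update_of_ne hji]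
  · intro i
    by_cases hi : i ∈ B
    · simp only [hi, if_true, hw0]
    · simp only [hi, if_false]
      exact (hy i hi).2

end UPathAux

open UPathAux

theorem exists_pathS {N : ℕ} (ℓ : ℕ) [Fact ℓ.Prime] {B : Finset (Fin N)}
    {P : Fin N → MvPolynomial (Fin N) ℤ} (hP : ∀ i, i ∉ B → (P i).vars ⊆ insert i B)
    (z0 : Fin N → ℤ) (h0 : ∀ i, i ∉ B → eval z0 (P i) = 0)
    (hJ : ¬ (ℓ : ℤ) ∣ eval z0 (Jac B P)) :
    ∃ φ : Fin N → PowerSeries (SS ℓ B), PathS ℓ B P z0 φ := by
  classical
  have hJ1 : ∀ i, i ∉ B → ¬ (ℓ : ℤ) ∣ eval z0 (pderiv i (P i)) := by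
    intro i hi h
    apply hJ
    unfold Jac
    rw [map_prod]
    exact h.trans (Finset.dvd_prod_of_mem (fun i => eval z0 (pderiv i (P i)))
      (Finset.mem_compl.2 hi))
  obtain ⟨ψ, hψB, hψP, hψ0⟩ := exists_pathA (A := MvPolynomial {x // x ∈ B} ℤ_[ℓ]) hP z0 h0
    (fun i hi => by
      have h1 := (isUnit_cast (hJ1 i hi)).map (C (R := ℤ_[ℓ]) (σ := {x // x ∈ B}))
      rwa [map_intCast] at h1)
    (fun j => if h : j ∈ B then X ⟨j, h⟩ else 0)
  obtain ⟨ι, hι⟩ : ∃ ι : MvPolynomial {x // x ∈ B} ℤ_[ℓ] →+* SS ℓ B,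
      ι = MvPolynomial.map (algebraMap ℤ_[ℓ] ℚ_[ℓ]) := ⟨_, rfl⟩
  have hbase : ∀ b ∈ B, PowerSeries.map ι (ψ b) = PowerSeries.C ((z0 b : ℤ) : SS ℓ B) +
    PowerSeries.C (tv ℓ B b) * PowerSeries.X := by
    intro b hb
    rw [hψB b hb, map_add, map_mul, PowerSeries.map_C, PowerSeries.map_C, PowerSeries.map_X,
      map_intCast ι, dif_pos hb, hι, map_X]
    unfold tv
    rw [dif_pos hb]
  have heqn : ∀ i, i ∉ B → ez (fun i => PowerSeries.map ι (ψ i)) (P i) = 0 := by
    intro i hi
    rw [← hom_ez, hψP i hi, map_zero]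
  have hcst : ∀ i, PowerSeries.constantCoeff (PowerSeries.map ι (ψ i)) =
      ((z0 i : ℤ) : SS ℓ B) := by
    intro i
    rw [← PowerSeries.coeff_zero_eq_constantCoeff_apply, PowerSeries.coeff_map,
      PowerSeries.coeff_zero_eq_constantCoeff_apply, hψ0, map_intCast ι]
  have hder : ∀ b ∈ B, PowerSeries.derivative (SS ℓ B) (PowerSeries.map ι (ψ b)) =
      PowerSeries.C (tv ℓ B b) := by
    intro b hb
    rw [hbase b hb, map_add, Derivation.leibniz, PowerSeries.derivative_C,
      PowerSeries.derivative_C, PowerSeries.derivative_X, smul_zero, smul_eq_mul, mul_one,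
      zero_add, add_zero]
  have hode := key hP (PowerSeries.derivative (SS ℓ B)) (fun i => PowerSeries.map ι (ψ i))
    (fun b => PowerSeries.C (tv ℓ B b)) hder heqn
  refine ⟨fun i => PowerSeries.map ι (ψ i), hbase, heqn, hcst, ?_, ?_, hode⟩
  · intro i k m
    rw [PowerSeries.coeff_map, hι, coeff_map]
    exact PadicInt.norm_le_one _
  · refine hm_of_ode (B := B) _ (Jac B P) (fun b i => vf B P b i) (fun b => tv ℓ B b) ?_ z0
      hcst ?_ hode
    · intro b hb
      unfold tv
      rw [dif_pos hb]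
      exact isHomogeneous_X _ _
    · intro h
      apply hJ
      rw [h]
      exact dvd_zero _

end Pool.Agent.Lib.FewY
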